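import Pool.Agent.Mg.F09d684.Ga313b4

section

namespace Pool.Agent.MP_09d684_lc

open ZFSet

universe u v w

namespace Mdl

variable {g : Mdl.{u}}

open Cd

variable {R R' R'' H : g.Rs} {y y' y'' : g.Yy} {s t : St} {c c' c'' : g.Cn} {n k : ℕ}

theorem inf_mem (R : g.Rs) (i : ℕ) : Inf (Mem R i) := by
  by_cases h : Inf fun k => R (i, k)
  · intro n
    obtain ⟨m, h₁, h₂⟩ := h n
    exact ⟨m, h₁, Or.inl h₂⟩
  · exact fun n => ⟨n, le_rfl, Or.inr h⟩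

theorem mem_iff_of_inf {i m : ℕ} (h : Inf fun k => R (i, k)) : Mem R i m ↔ R (i, m) :=
  ⟨fun h' => h'.resolve_right (not_not.2 h), Or.inl⟩

theorem Inf.imp {P Q : ℕ → Prop} (h : Inf P) (e : ∀ m, P m → Q m) : Inf Q := fun n =>
  (h n).imp fun m hm => ⟨hm.1, e m hm.2⟩

theorem Inf.shr {P : ℕ → Prop} (h : Inf P) (Q : ℕ → Prop) :
    Inf fun m => P m ∧ ((Inf fun k => P k ∧ Q k) → Q m) := by
  by_cases h' : Inf fun k => P k ∧ Q k
  · exact h'.imp fun m hm => ⟨hm.1, fun _ => hm.2⟩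
  · exact h.imp fun m hm => ⟨hm, fun e => absurd e h'⟩

theorem Inf.of_not {P Q : ℕ → Prop} (h : Inf P) (h' : ¬ Inf fun k => P k ∧ Q k) :
    Inf fun k => P k ∧ ¬ Q k := by
  unfold Inf at h'
  push Not at h'
  obtain ⟨N, hN⟩ := h'
  intro n
  obtain ⟨m, h₁, h₂⟩ := h (max n N)
  exact ⟨m, (le_max_left _ _).trans h₁, h₂, hN m ((le_max_right _ _).trans h₁) h₂⟩

theorem RLe.refl (R : g.Rs) : RLe R R := fun _ _ h => h

theorem RLe.trans (h : RLe R'' R') (h' : RLe R' R) : RLe R'' R := fun i m e => h' i m (h i m e)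

theorem Val.strictMono (h : Val y) : StrictMono fun n => (y n).2 := fun a b e => (h b).2.1 a e

theorem Val.le_height (h : Val y) (n : ℕ) : n ≤ (y n).2 := h.strictMono.le_apply

theorem Val.col_eq (h : Val y) {a b : ℕ} (e : lab a = lab b) : (y a).1 = (y b).1 := by
  rcases lt_trichotomy a b with h' | rfl | h'
  exacts [(h b).2.2.1 a h' e, rfl, ((h a).2.2.1 b h' e.symm).symm]

theorem Val.le_col (h : Val y) (hn : New (n + 1)) : n < (y (n + 1)).1 :=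
  (h.le_height n).trans_lt ((h (n + 1)).2.2.2 hn n (Nat.lt_succ_self n))

theorem exists_new (n : ℕ) : ∃ k, k ≤ n ∧ New k ∧ lab k = lab n := by
  have h : ∃ k, lab k = lab n := ⟨n, rfl⟩
  exact ⟨Nat.find h, Nat.find_min' h rfl,
    fun k hk e => Nat.find_min h hk (e.trans (Nat.find_spec h)), Nat.find_spec h⟩

theorem exists_lab (i N : ℕ) : ∃ n, N ≤ n ∧ lab n = i :=
  ⟨Nat.pair i N, Nat.right_le_pair _ _, by simp [lab]⟩

theorem inf_new (N : ℕ) : ∃ n, N ≤ n ∧ New (n + 1) := by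
  obtain ⟨m, -, hm⟩ := exists_lab (N + 1) 0
  obtain ⟨k, -, h₁, h₂⟩ := exists_new m
  have : lab k ≤ k := Nat.unpair_left_le k
  obtain ⟨j, rfl⟩ : ∃ j, k = j + 1 := ⟨k - 1, by omega⟩
  exact ⟨j, by omega, h₁⟩

theorem exists_bound (y : g.Yy) (n : ℕ) : ∃ B, ∀ k, k < n → (y k).2 < B :=
  ⟨(Finset.range n).sup (fun k => (y k).2) + 1, fun _ hk => Nat.lt_succ_of_le
    (Finset.le_sup (f := fun k => (y k).2) (Finset.mem_range.2 hk))⟩

theorem ok_congr {p : Pt} (e : ∀ k < n, y k = y' k) : Ok y n p ↔ Ok y' n p := by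
  unfold Ok
  refine and_congr Iff.rfl (and_congr ?_ (and_congr ?_ (imp_congr Iff.rfl ?_))) <;>
    exact forall_congr' fun k => forall_congr' fun hk => by rw [e k hk]

theorem In.mono {p : Pt} (h : RLe R' R) (h' : In R' n p) : In R n p :=
  ⟨h _ _ h'.1, fun e => h _ _ (h'.2 e)⟩

theorem agree_of_ini (e : ini y s.length = s) (e' : ini y' s.length = s) :
    ∀ k < s.length, y k = y' k := ini_eq_iff.1 (e.trans e'.symm)

theorem cube_ini (h : Cube s R y) (hn : s.length ≤ n) : Cube (ini y n) R y :=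
  ⟨by rw [length_ini], h.2.1, fun m hm => h.2.2 m (hn.trans (by simpa using hm))⟩

theorem cube_of_ini (h : Cube s R y) (hn : s.length ≤ n) (h' : Cube (ini y n) R y') :
    Cube s R y' := by
  obtain ⟨h₁, h₂, h₃⟩ := h'
  rw [length_ini] at h₁ h₃
  have e := ini_eq_iff.1 h₁
  refine ⟨(ini_eq_iff.2 fun k hk => e k (by omega)).trans h.1, h₂, fun m hm => ?_⟩
  by_cases hm' : m < n
  · rw [e m hm']
    exact h.2.2 m hm
  · exact h₃ m (not_lt.1 hm')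

theorem cube_le (h : RLe R' R) (h' : Cube s R' y) : Cube s R y :=
  ⟨h'.1, h'.2.1, fun n hn => (h'.2.2 n hn).mono h⟩

/-- The leftmost element of a cube. -/
noncomputable def lm (s : St) (R : g.Rs) : g.Yy :=
  g.fix fun n f => if n < s.length then s.getD n default else
    g.least fun p => Ok f n p ∧ In R n p

@[fun_prop] theorem tm_lm {Γ : Type*} [Cd g Γ] {s : Γ → St} {R : Γ → g.Rs} (h₁ : g.Tm s)
    (h₂ : g.Tm R) : g.Tm fun x => lm (s x) (R x) := by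
  unfold lm
  fun_prop

theorem lm_eq (s : St) (R : g.Rs) (n : ℕ) : lm s R n = if n < s.length then s.getD n default else
    g.least fun p => Ok (lm s R) n p ∧ In R n p := by
  refine fix_eq (by fun_prop) (fun n f h e => ?_) n
  simp only [ok_congr e]

theorem exists_ok (h : ∀ k < n, Ok y k (y k)) (R : g.Rs) : ∃ p, Ok y n p ∧ In R n p := by
  obtain ⟨B, hB⟩ := exists_bound y n
  by_cases hn : New n
  · obtain ⟨c, h₁, h₂⟩ := inf_mem R 0 B
    obtain ⟨m, h₃, h₄⟩ := inf_mem R (c + 1) c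
    exact ⟨(c, m), ⟨h₃, fun k hk => (hB k hk).trans_le (h₁.trans h₃),
      fun k hk e => absurd e (hn k hk), fun _ k hk => (hB k hk).trans_le h₁⟩, h₄, fun _ => h₂⟩
  · have hn' := hn
    unfold New at hn'
    push Not at hn'
    obtain ⟨j, hj, e⟩ := hn'
    obtain ⟨m, h₃, h₄⟩ := inf_mem R ((y j).1 + 1) B
    refine ⟨((y j).1, m), ⟨(h j hj).1.trans ((hB j hj).le.trans h₃),
      fun k hk => (hB k hk).trans_le h₃, fun k hk e' => ?_, fun h' => absurd h' hn⟩, h₄,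
      fun h' => absurd h' hn⟩
    rcases lt_trichotomy k j with h' | rfl | h'
    exacts [(h j hj).2.2.1 k h' (e'.trans e.symm), rfl,
      ((h k hk).2.2.1 j h' (e.trans e'.symm)).symm]

theorem lm_cube_aux (h : ∀ k < s.length, Ok y k (y k)) (e : ini y s.length = s) (R : g.Rs) :
    Cube s R (lm s R) := by
  have h₁ : ∀ k < s.length, lm s R k = y k := fun k hk => by
    rw [lm_eq, if_pos hk]
    conv_lhs => rw [← e]
    exact getD_ini _ _ hk
  have h₂ : ∀ n, Ok (lm s R) n (lm s R n) ∧ (s.length ≤ n → In R n (lm s R n)) := by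
    intro n
    induction n using Nat.strong_induction_on with
    | _ n ih =>
      by_cases hn : n < s.length
      · refine ⟨?_, fun h' => absurd hn (not_lt.2 h')⟩
        rw [h₁ n hn, ok_congr fun k hk => h₁ k (hk.trans hn)]
        exact h n hn
      · have := least_spec (g := g) (exists_ok (fun k hk => (ih k hk).1) R)
        rw [← (lm_eq s R n).trans (if_neg hn)] at this
        exact ⟨this.1, fun _ => this.2⟩
  exact ⟨(ini_eq_iff.2 h₁).trans e, fun n => (h₂ n).1, fun n => (h₂ n).2⟩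

theorem lm_cube (h : Val y) (n : ℕ) (R : g.Rs) : Cube (ini y n) R (lm (ini y n) R) :=
  lm_cube_aux (fun k _ => h k) (by rw [length_ini]) R

theorem lm_nil (R : g.Rs) : Cube [] R (lm [] R) :=
  lm_cube_aux (y := default) (fun _ h => absurd h (Nat.not_lt_zero _)) rfl R

theorem NE.lm (h : NE (s, R)) (R' : g.Rs) : Cube s R' (lm s R') :=
  h.elim fun _ hy => lm_cube_aux (fun k _ => hy.2.1 k) hy.1 R'

theorem CLe.refl (h : NE c) : CLe c c := ⟨h, le_rfl, fun _ h => h⟩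

theorem CLe.trans (h : CLe c'' c') (h' : CLe c' c) : CLe c'' c :=
  ⟨h.1, h'.2.1.trans h.2.1, fun y hy => h'.2.2 y (h.2.2 y hy)⟩

theorem cle_ini (h : Cube s R y) (hn : s.length ≤ n) : CLe (ini y n, R) (s, R) :=
  ⟨⟨y, cube_ini h hn⟩, by simpa using hn, fun _ h' => cube_of_ini h hn h'⟩

theorem cle_of_rle (h : NE (s, R)) (h' : RLe R' R) : CLe (s, R') (s, R) :=
  ⟨⟨_, h.lm R'⟩, le_rfl, fun _ hy => cube_le h' hy⟩

theorem mem_meet {i m : ℕ} : Mem (meet R R') i m ↔ meet R R' (i, m) :=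
  mem_iff_of_inf ((inf_mem R i).shr fun k => Mem R' i k ∧
    (i = 0 → Inf fun m => Mem R (k + 1) m ∧ Mem R' (k + 1) m))

theorem meet_le (R R' : g.Rs) : RLe (meet R R') R := fun _ _ h => (mem_meet.1 h).1

theorem meet_cube (h : Cube s R y) (h' : Cube s R' y) :
    Cube s (meet R R') y ∧ ∀ y', Cube s (meet R R') y' → Cube s R' y' := by
  have hc : ∀ n, Inf fun m => Mem R ((y n).1 + 1) m ∧ Mem R' ((y n).1 + 1) m := fun n N => by
    obtain ⟨j, h₁, h₂⟩ := exists_lab (lab n) (max N s.length)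
    rw [← h.2.1.col_eq h₂]
    exact ⟨(y j).2, ((le_max_left _ _).trans h₁).trans (h.2.1.le_height j),
      (h.2.2 j ((le_max_right _ _).trans h₁)).1, (h'.2.2 j ((le_max_right _ _).trans h₁)).1⟩
  have h0 : Inf fun k => Mem R 0 k ∧ Mem R' 0 k ∧
      (0 = 0 → Inf fun m => Mem R (k + 1) m ∧ Mem R' (k + 1) m) := fun N => by
    obtain ⟨j, h₁, h₂⟩ := inf_new (max N s.length)
    have h₃ : s.length ≤ j + 1 := ((le_max_right _ _).trans h₁).trans (Nat.le_succ j)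
    exact ⟨(y (j + 1)).1, ((le_max_left _ _).trans h₁).trans (h.2.1.le_col h₂).le,
      (h.2.2 _ h₃).2 h₂, (h'.2.2 _ h₃).2 h₂, fun _ => hc _⟩
  refine ⟨⟨h.1, h.2.1, fun n hn => ⟨Or.inl ⟨(h.2.2 n hn).1, fun _ => ⟨(h'.2.2 n hn).1,
    fun e => absurd e (Nat.succ_ne_zero _)⟩⟩, fun e => Or.inl ⟨(h.2.2 n hn).2 e,
      fun _ => ⟨(h'.2.2 n hn).2 e, fun _ => hc n⟩⟩⟩⟩, fun y' hy => ⟨hy.1, hy.2.1, fun n hn => ?_⟩⟩
  have hc' : Inf fun m => Mem R ((y' n).1 + 1) m ∧ Mem R' ((y' n).1 + 1) m := by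
    obtain ⟨k, -, h₁, h₂⟩ := exists_new n
    rw [← hy.2.1.col_eq h₂]
    by_cases hk : k < s.length
    · rw [agree_of_ini hy.1 h.1 k hk]
      exact hc k
    · exact ((mem_meet.1 ((hy.2.2 k (not_lt.1 hk)).2 h₁)).2 h0).2 rfl
  exact ⟨((mem_meet.1 (hy.2.2 n hn).1).2 (hc'.imp fun m hm => ⟨hm.1, hm.2,
    fun e => absurd e (Nat.succ_ne_zero _)⟩)).1,
      fun e => ((mem_meet.1 ((hy.2.2 n hn).2 e)).2 h0).1⟩

theorem cle_meet (h : Cube c.1 c.2 y) (h' : Cube c'.1 c'.2 y) (hn : c.1.length ≤ n)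
    (hn' : c'.1.length ≤ n) : Cube (ini y n) (meet c.2 c'.2) y ∧
      CLe (ini y n, meet c.2 c'.2) c ∧ CLe (ini y n, meet c.2 c'.2) c' := by
  obtain ⟨h₁, h₂⟩ := meet_cube (cube_ini h hn) (cube_ini h' hn')
  exact ⟨h₁, ⟨⟨y, h₁⟩, by simpa using hn,
    fun y' hy => cube_of_ini h hn (cube_le (meet_le _ _) hy)⟩,
    ⟨⟨y, h₁⟩, by simpa using hn', fun y' hy => cube_of_ini h' hn' (h₂ y' hy)⟩⟩

theorem Sub.refl (y : g.Yy) : Sub y y := fun n => ⟨n, rfl⟩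

theorem Sub.trans (h : Sub y'' y') (h' : Sub y' y) : Sub y'' y := fun n =>
  (h n).elim fun m e => (h' m).imp fun _ e' => e.trans e'

theorem res_zero {m : ℕ} : res y (0, m) ↔ ∃ n, (y n).1 = m := by simp [res]

theorem res_succ {i m : ℕ} : res y (i + 1, m) ↔ ∃ n, y n = (i, m) := by simp [res]

theorem mem_res_zero (hy : Val y) {m : ℕ} : Mem (res y) 0 m ↔ ∃ n, (y n).1 = m := by
  refine (mem_iff_of_inf fun N => ?_).trans res_zero
  obtain ⟨j, h₁, h₂⟩ := inf_new N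
  exact ⟨(y (j + 1)).1, h₁.trans (hy.le_col h₂).le, res_zero.2 ⟨_, rfl⟩⟩

theorem mem_res_succ (hy : Val y) {m : ℕ} :
    Mem (res y) ((y n).1 + 1) m ↔ ∃ j, y j = ((y n).1, m) := by
  refine (mem_iff_of_inf fun N => ?_).trans res_succ
  obtain ⟨j, h₁, h₂⟩ := exists_lab (lab n) N
  exact ⟨(y j).2, h₁.trans (hy.le_height j), res_succ.2 ⟨j, by rw [← hy.col_eq h₂]⟩⟩

theorem cube_res (hy : Val y) (hs : ∀ p ∈ s, ∃ m, p = y m) (h : Cube s (res y) y') :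
    Sub y' y := by
  have h₀ : ∀ k < s.length, ∃ m, y' k = y m := fun k hk =>
    hs _ (h.1 ▸ mem_ini.2 ⟨k, hk, rfl⟩)
  intro n
  by_cases hn : n < s.length
  · exact h₀ n hn
  obtain ⟨m, hm⟩ : ∃ m, (y m).1 = (y' n).1 := by
    obtain ⟨k, -, h₁, h₂⟩ := exists_new n
    rw [← h.2.1.col_eq h₂]
    by_cases hk : k < s.length
    · exact (h₀ k hk).imp fun m e => by rw [e]
    · exact (mem_res_zero hy).1 ((h.2.2 k (not_lt.1 hk)).2 h₁)
  have h₁ := (h.2.2 n (not_lt.1 hn)).1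
  rw [← hm] at h₁
  obtain ⟨j, hj⟩ := (mem_res_succ hy).1 h₁
  exact ⟨j, by rw [hj, hm]⟩

theorem res_cube (hy' : Val y') (e : ini y' s.length = s)
    (h : ∀ n, s.length ≤ n → ∃ m, y' n = y m) : Cube s (res y) y' :=
  ⟨e, hy', fun n hn => (h n hn).elim fun m hm =>
    ⟨Or.inl (res_succ.2 ⟨m, hm.symm⟩), fun _ => Or.inl (res_zero.2 ⟨m, by rw [hm]⟩)⟩⟩

theorem below_iff (hy : Val y) (e : ini y s.length = s) : Below s y' y ↔ Cube s (res y) y' :=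
  ⟨fun h => res_cube h.2.1 h.1 fun n _ => h.2.2 n, fun h => ⟨h.1, h.2.1, cube_res hy
    (fun p hp => by
      rw [← e] at hp
      obtain ⟨k, -, rfl⟩ := mem_ini.1 hp
      exact ⟨k, rfl⟩) h⟩⟩

theorem Below.mono (h : Below (ini y k) y' y) (hk : s.length ≤ k) (e : ini y s.length = s) :
    Below s y' y := by
  have h₁ := h.1
  rw [length_ini] at h₁
  exact ⟨(ini_eq_iff.2 fun j hj => ini_eq_iff.1 h₁ j (by omega)).trans e, h.2⟩

theorem in_of_cube (h : Cube s R y) {m : ℕ} (hm : s.length ≤ m)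
    (hn : New n → ∀ k < s.length, (y k).2 < (y m).1) : In R n (y m) := by
  refine ⟨(h.2.2 m hm).1, fun e => ?_⟩
  obtain ⟨k, -, h₁, h₂⟩ := exists_new m
  have h₃ := h.2.1.col_eq h₂
  by_cases hk : k < s.length
  · exact absurd (hn e k hk) (not_lt.2 (h₃ ▸ (h.2.1 k).1))
  · exact h₃ ▸ (h.2.2 k (not_lt.1 hk)).2 h₁

theorem sub_cube (h : Cube s R y) (h' : Below s y' y) : Cube s R y' := by
  refine ⟨h'.1, h'.2.1, fun n hn => ?_⟩
  obtain ⟨m, hm⟩ := h'.2.2 n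
  have e := agree_of_ini h.1 h'.1
  rw [hm]
  refine in_of_cube h ?_ fun hN k hk => ?_
  · by_contra hm'
    have h₁ := h'.2.1.strictMono (show m < n by omega)
    simp only [hm, e m (not_le.1 hm')] at h₁
    exact lt_irrefl _ h₁
  · rw [← hm, e k hk]
    exact (h'.2.1 n).2.2.2 hN k (by omega)

theorem tail_cube (h : Cube s R y) (hv : Val y') (hs : Sub y' y) :
    ∃ n₀, ∀ n, n₀ ≤ n → Cube (ini y' n) R y' := by
  obtain ⟨B, hB⟩ := exists_bound y s.length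
  refine ⟨B + 1, fun n hn => ⟨by rw [length_ini], hv, fun j hj => ?_⟩⟩
  rw [length_ini] at hj
  obtain ⟨m, hm⟩ := hs j
  rw [hm]
  refine in_of_cube h ?_ fun hN k hk => ?_
  · by_contra hm'
    have h₁ := hB m (not_le.1 hm')
    have h₂ := hv.le_height j
    rw [hm] at h₂
    omega
  · obtain ⟨i, rfl⟩ : ∃ i, j = i + 1 := ⟨j - 1, by omega⟩
    have h₁ := hv.le_col hN
    have h₂ := hB k hk
    rw [hm] at h₁
    omega

theorem cube_closed (h : ∀ n, ∃ y' : g.Yy, Cube s R y' ∧ ini y' n = ini y n) : Cube s R y := by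
  refine ⟨?_, fun n => ?_, fun n hn => ?_⟩
  · obtain ⟨y', h₁, h₂⟩ := h s.length
    exact h₂.symm.trans h₁.1
  · obtain ⟨y', h₁, h₂⟩ := h (n + 1)
    have e := ini_eq_iff.1 h₂
    rw [← e n (by omega), ← ok_congr fun k hk => e k (by omega)]
    exact h₁.2.1 n
  · obtain ⟨y', h₁, h₂⟩ := h (n + 1)
    rw [← ini_eq_iff.1 h₂ n (by omega)]
    exact h₁.2.2 n hn

/-- A bound for the codes of the stems below `N`. -/
def kb (N : ℕ) : ℕ := (fun c => Nat.pair c (Nat.pair N N) + 1)^[N + 1] 0 + 1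

@[fun_prop] theorem tm_kb {Γ : Type*} [Cd g Γ] {N : Γ → ℕ} (h : g.Tm N) :
    g.Tm fun x => kb (N x) := by
  unfold kb
  fun_prop

theorem natPair_mono {a b a' b' : ℕ} (h : a ≤ a') (h' : b ≤ b') :
    Nat.pair a b ≤ Nat.pair a' b' :=
  (StrictMono.monotone (f := fun a => Nat.pair a b) (fun _ _ e => Nat.pair_lt_pair_left b e) h).trans
    (StrictMono.monotone (f := fun b => Nat.pair a' b) (fun _ _ e => Nat.pair_lt_pair_right a' e) h')

theorem lcode_le_kb {f : ℕ → Pt} {N : ℕ} (hn : n ≤ N + 1)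
    (h : ∀ k < n, (f k).1 ≤ N ∧ (f k).2 ≤ N) : g.lcode (ini f n) + 1 ≤ kb N := by
  have h₁ : g.lcode (ini f n) ≤ (fun c => Nat.pair c (Nat.pair N N) + 1)^[n] 0 := by
    clear hn
    induction n with
    | zero => exact le_rfl
    | succ n ih =>
      rw [ini_succ, lcode_concat, Function.iterate_succ_apply']
      exact Nat.succ_le_succ (natPair_mono (ih fun k hk => h k (by omega))
        (natPair_mono (h n (by omega)).1 (h n (by omega)).2))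
  exact Nat.succ_le_succ (h₁.trans (Function.monotone_iterate_of_id_le
    (f := fun c => Nat.pair c (Nat.pair N N) + 1)
    (fun c => Nat.le_succ_of_le (Nat.left_le_pair _ _)) hn 0))

/-- The sequence of numbers used by the diagonalization. -/
noncomputable def dseq (S : Fn g ℕ g.Rs) : Fn g ℕ ℕ :=
  g.fix fun j f => g.least fun m => (j = 0 → Mem (S 0) (lab j) m) ∧
    (0 < j → f (j - 1) < m ∧ Mem (S (kb (f (j - 1)))) (lab j) m)

@[fun_prop] theorem tm_dseq {Γ : Type*} [Cd g Γ] {S : Γ → Fn g ℕ g.Rs} (h : g.Tm S) :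
    g.Tm fun x => dseq (S x) := by
  unfold dseq
  fun_prop

theorem dseq_eq (S : Fn g ℕ g.Rs) (j : ℕ) : dseq S j = g.least fun m =>
    (j = 0 → Mem (S 0) (lab j) m) ∧
      (0 < j → dseq S (j - 1) < m ∧ Mem (S (kb (dseq S (j - 1)))) (lab j) m) := by
  refine fix_eq (by fun_prop) (fun n f h e => ?_) j
  congr 1
  funext m
  refine propext (and_congr Iff.rfl (forall_congr' fun hn => ?_))
  rw [e (n - 1) (by omega)]

theorem dseq_zero (S : Fn g ℕ g.Rs) : Mem (S 0) (lab 0) (dseq S 0) := by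
  obtain ⟨m, -, hm⟩ := inf_mem (S 0) (lab 0) 0
  rw [dseq_eq]
  exact (least_spec (g := g) (P := fun m => (0 = 0 → Mem (S 0) (lab 0) m) ∧
    (0 < 0 → dseq S (0 - 1) < m ∧ Mem (S (kb (dseq S (0 - 1)))) (lab 0) m))
    ⟨m, fun _ => hm, fun h => absurd h (lt_irrefl 0)⟩).1 rfl

theorem dseq_succ (S : Fn g ℕ g.Rs) (j : ℕ) :
    dseq S j < dseq S (j + 1) ∧ Mem (S (kb (dseq S j))) (lab (j + 1)) (dseq S (j + 1)) := by
  obtain ⟨m, h₁, h₂⟩ := inf_mem (S (kb (dseq S j))) (lab (j + 1)) (dseq S j + 1)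
  rw [dseq_eq S (j + 1)]
  exact (least_spec (g := g) (P := fun m => (j + 1 = 0 → Mem (S 0) (lab (j + 1)) m) ∧
    (0 < j + 1 → dseq S (j + 1 - 1) < m ∧ Mem (S (kb (dseq S (j + 1 - 1)))) (lab (j + 1)) m))
    ⟨m, fun h => absurd h (Nat.succ_ne_zero j), fun _ => ⟨h₁, h₂⟩⟩).2 (Nat.succ_pos j)

theorem dseq_mono (S : Fn g ℕ g.Rs) : StrictMono (dseq S) :=
  strictMono_nat_of_lt_succ fun j => (dseq_succ S j).1

/-- Diagonalization of a decreasing sequence of reservoirs. -/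
noncomputable def diag (S : Fn g ℕ g.Rs) : g.Rs :=
  ⟨fun p => ∃ j, lab j = p.1 ∧ dseq S j = p.2, by fun_prop⟩

@[fun_prop] theorem tm_diag {Γ : Type*} [Cd g Γ] {S : Γ → Fn g ℕ g.Rs} (h : g.Tm S) :
    g.Tm fun x => diag (S x) := by
  unfold diag
  fun_prop

theorem mem_diag {S : Fn g ℕ g.Rs} {i m : ℕ} :
    Mem (diag S) i m ↔ ∃ j, lab j = i ∧ dseq S j = m := by
  refine mem_iff_of_inf fun N => ?_
  obtain ⟨j, h₁, h₂⟩ := exists_lab i N
  exact ⟨dseq S j, h₁.trans (dseq_mono S).le_apply, j, h₂, rfl⟩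

theorem rle_of_le {S : Fn g ℕ g.Rs} (h : ∀ k, RLe (S (k + 1)) (S k)) {a b : ℕ} (hab : a ≤ b) :
    RLe (S b) (S a) := by
  induction b, hab using Nat.le_induction with
  | base => exact RLe.refl _
  | succ b _ ih => exact (h b).trans ih

theorem diag_le {S : Fn g ℕ g.Rs} (h : ∀ k, RLe (S (k + 1)) (S k)) : RLe (diag S) (S 0) := by
  intro i m hm
  obtain ⟨_ | j, rfl, rfl⟩ := mem_diag.1 hm
  exacts [dseq_zero S, rle_of_le h (Nat.zero_le _) _ _ (dseq_succ S j).2]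

theorem diag_tip {S : Fn g ℕ g.Rs} (h : ∀ k, RLe (S (k + 1)) (S k)) (ht : Tip s (diag S))
    (hy : Cube s (diag S) y) : Cube s (S (g.lcode s + 1)) y := by
  obtain ⟨h₀, i, hi⟩ := ht
  have e : s.getD (s.length - 1) default = y (s.length - 1) := by
    conv_lhs => rw [← hy.1, length_ini]
    exact getD_ini _ _ (by omega)
  rw [e] at hi
  obtain ⟨j, -, hj⟩ := mem_diag.1 hi
  have key : ∀ i m, (y (s.length - 1)).2 < m → Mem (diag S) i m →
      Mem (S (g.lcode s + 1)) i m := by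
    intro i m h₁ h₂
    obtain ⟨j', rfl, rfl⟩ := mem_diag.1 h₂
    rw [← hj, (dseq_mono S).lt_iff_lt] at h₁
    obtain ⟨a, rfl⟩ : ∃ a, j' = a + 1 := ⟨j' - 1, by omega⟩
    have h₃ : (y (s.length - 1)).2 ≤ dseq S a := hj ▸ (dseq_mono S).monotone (by omega)
    have h₄ := hy.2.1.le_height (s.length - 1)
    refine rle_of_le h ?_ _ _ (dseq_succ S a).2
    conv_lhs => rw [← hy.1]
    refine lcode_le_kb (by omega) fun k hk => ?_
    have h₅ : (y k).2 ≤ (y (s.length - 1)).2 := hy.2.1.strictMono.monotone (by omega)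
    exact ⟨(hy.2.1 k).1.trans (h₅.trans h₃), h₅.trans h₃⟩
  exact ⟨hy.1, hy.2.1, fun n hn => ⟨key _ _ ((hy.2.1 n).2.1 _ (by omega)) (hy.2.2 n hn).1,
    fun hN => key _ _ ((hy.2.1 n).2.2.2 hN _ (by omega)) ((hy.2.2 n hn).2 hN)⟩⟩

theorem tip_ini (h : Cube s H y) (hn : s.length < n) : Tip (ini y n) H := by
  refine ⟨by rw [length_ini]; omega, (y (n - 1)).1 + 1, ?_⟩
  rw [length_ini, getD_ini _ _ (by omega)]
  exact (h.2.2 (n - 1) (by omega)).1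

theorem Tip.mono (h : Tip s R') (h' : RLe R' R) : Tip s R :=
  ⟨h.1, h.2.imp fun _ hi => h' _ _ hi⟩

/-- Column `c` has infinitely many `B`-points. -/
def pigG (B : Fn g St Prop) (s : St) (R : g.Rs) (c : ℕ) : Prop :=
  Inf fun m => Mem R (c + 1) m ∧ B (s ++ [(c, m)])

@[fun_prop] theorem tm_pigG {Γ : Type*} [Cd g Γ] {B : Γ → Fn g St Prop} {s : Γ → St}
    {R : Γ → g.Rs} {c : Γ → ℕ} (h₀ : g.Tm B) (h₁ : g.Tm s) (h₂ : g.Tm R) (h₃ : g.Tm c) :
    g.Tm fun x => pigG (B x) (s x) (R x) (c x) := by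
  unfold pigG
  fun_prop

/-- The side chosen by the pigeonhole operation. -/
def pigT (B : Fn g St Prop) (s : St) (R : g.Rs) : Prop :=
  (New s.length → Inf fun c => Mem R 0 c ∧ pigG B s R c) ∧
    ∀ k, k < s.length → lab k = lab s.length → pigG B s R (s.getD k default).1

@[fun_prop] theorem tm_pigT {Γ : Type*} [Cd g Γ] {B : Γ → Fn g St Prop} {s : Γ → St}
    {R : Γ → g.Rs} (h₀ : g.Tm B) (h₁ : g.Tm s) (h₂ : g.Tm R) :
    g.Tm fun x => pigT (B x) (s x) (R x) := by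
  unfold pigT
  fun_prop

/-- The points kept by the pigeonhole operation. -/
def pigQ (B : Fn g St Prop) (s : St) (R : g.Rs) (i m : ℕ) : Prop :=
  (i = 0 → (pigG B s R m ↔ pigT B s R)) ∧ (0 < i → (B (s ++ [(i - 1, m)]) ↔ pigT B s R))

@[fun_prop] theorem tm_pigQ {Γ : Type*} [Cd g Γ] {B : Γ → Fn g St Prop} {s : Γ → St}
    {R : Γ → g.Rs} {i m : Γ → ℕ} (h₀ : g.Tm B) (h₁ : g.Tm s) (h₂ : g.Tm R) (h₃ : g.Tm i)
    (h₄ : g.Tm m) : g.Tm fun x => pigQ (B x) (s x) (R x) (i x) (m x) := by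
  unfold pigQ
  fun_prop

theorem pigQ_zero {B : Fn g St Prop} {m : ℕ} :
    pigQ B s R 0 m ↔ (pigG B s R m ↔ pigT B s R) := by simp [pigQ]

theorem pigQ_succ {B : Fn g St Prop} {i m : ℕ} :
    pigQ B s R (i + 1) m ↔ (B (s ++ [(i, m)]) ↔ pigT B s R) := by simp [pigQ]

/-- The pigeonhole operation. -/
noncomputable def pig (B : Fn g St Prop) (s : St) (R : g.Rs) : g.Rs :=
  ⟨fun p => Mem R p.1 p.2 ∧
    ((Inf fun k => Mem R p.1 k ∧ pigQ B s R p.1 k) → pigQ B s R p.1 p.2), by fun_prop⟩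

@[fun_prop] theorem tm_pig {Γ : Type*} [Cd g Γ] {B : Γ → Fn g St Prop} {s : Γ → St}
    {R : Γ → g.Rs} (h₀ : g.Tm B) (h₁ : g.Tm s) (h₂ : g.Tm R) :
    g.Tm fun x => pig (B x) (s x) (R x) := by
  unfold pig
  fun_prop

theorem mem_pig {B : Fn g St Prop} {i m : ℕ} : Mem (pig B s R) i m ↔
    Mem R i m ∧ ((Inf fun k => Mem R i k ∧ pigQ B s R i k) → pigQ B s R i m) :=
  mem_iff_of_inf ((inf_mem R i).shr (pigQ B s R i))

theorem pig_le (B : Fn g St Prop) (s : St) (R : g.Rs) : RLe (pig B s R) R :=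
  fun _ _ h => (mem_pig.1 h).1

theorem pig_iff {B : Fn g St Prop} (hy : Cube s (pig B s R) y) :
    B (ini y (s.length + 1)) ↔ pigT B s R := by
  have hI := hy.2.2 _ le_rfl
  have e : ∀ k < s.length, lab k = lab s.length → (s.getD k default).1 = (y s.length).1 := by
    intro k hk e
    rw [← hy.2.1.col_eq e]
    conv_lhs => rw [← hy.1]
    rw [getD_ini _ _ hk]
  have h₁ : pigG B s R (y s.length).1 ↔ pigT B s R := by
    by_cases hN : New s.length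
    · refine pigQ_zero.1 ((mem_pig.1 (hI.2 hN)).2 ?_)
      simp only [pigQ_zero]
      by_cases hT : pigT B s R
      · exact (hT.1 hN).imp fun m hm => ⟨hm.1, iff_of_true hm.2 hT⟩
      · exact ((inf_mem R 0).of_not fun h => hT ⟨fun _ => h,
          fun k hk e => absurd e (hN k hk)⟩).imp fun m hm => ⟨hm.1, iff_of_false hm.2 hT⟩
    · refine ⟨fun h => ⟨fun h' => absurd h' hN, fun k hk e' => (e k hk e').symm ▸ h⟩, fun h => ?_⟩
      unfold New at hN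
      push Not at hN
      obtain ⟨k, hk, e'⟩ := hN
      exact e k hk e' ▸ h.2 k hk e'
  rw [ini_succ, hy.1]
  refine pigQ_succ.1 ((mem_pig.1 hI.1).2 ?_)
  simp only [pigQ_succ]
  by_cases hT : pigT B s R
  · exact (h₁.2 hT).imp fun m hm => ⟨hm.1, iff_of_true hm.2 hT⟩
  · exact ((inf_mem R _).of_not fun h => hT (h₁.1 h)).imp
      fun m hm => ⟨hm.1, iff_of_false hm.2 hT⟩

theorem pig_spec (B : Fn g St Prop) (s : St) (R : g.Rs) :
    (∀ y, Cube s (pig B s R) y → B (ini y (s.length + 1))) ∨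
      ∀ y, Cube s (pig B s R) y → ¬ B (ini y (s.length + 1)) := by
  by_cases hT : pigT B s R
  exacts [Or.inl fun _ hy => (pig_iff hy).2 hT, Or.inr fun _ hy h => hT ((pig_iff hy).1 h)]

end Mdl

end Pool.Agent.MP_09d684_lc

end

section

namespace Pool.Agent.MP_09d684_lc

open ZFSet

universe u v w

namespace Mdl

variable {g : Mdl.{u}}

open Cd

variable {S S' S'' : g.Rs} {y y' : g.Yy}

theorem ideal_inf (P : ℕ → Prop) : Inf P ↔ {j | P j}.Infinite :=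
  (Filter.frequently_atTop (p := P)).symm.trans Nat.frequently_atTop_iff_infinite

theorem ideal_f2 (S : Pt → Prop) : ¬ F2 S ↔ Inf fun n => Inf fun j => S (n, j) := by
  simp only [F2, not_exists, not_forall, not_not, exists_prop]
  rfl

theorem ideal_mono {P Q : ℕ → Prop} (h : Inf P) (h' : ∀ n, P n → Q n) : Inf Q :=
  fun n => (h n).imp fun m hm => ⟨hm.1, h' m hm.2⟩

theorem ideal_first (h : Val y) (n : ℕ) : ∃ m, New m ∧ m ≤ n ∧ (y m).1 = (y n).1 := by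
  classical
  have e : ∃ m, lab m = lab n := ⟨n, rfl⟩
  have h1 := Nat.find_spec e
  have h2 : Nat.find e ≤ n := Nat.find_min' e rfl
  refine ⟨Nat.find e, fun k hk e' => Nat.find_min e hk (e'.trans h1), h2, ?_⟩
  rcases h2.eq_or_lt with h3 | h3
  · rw [h3]
  · exact (h n).2.2.1 _ h3 h1

theorem ideal_col (h : Val y) (n : ℕ) : Inf fun j => rng y ((y n).1, j) := fun m => by
  have h1 := Nat.right_le_pair (lab n) (m + n + 1)
  have h2 := (h (Nat.pair (lab n) (m + n + 1))).2.2.1 n (by omega) (by simp [lab])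
  have h3 := h.strictMono.id_le (Nat.pair (lab n) (m + n + 1))
  exact ⟨_, le_trans (by omega : m ≤ Nat.pair (lab n) (m + n + 1)) h3, _, Prod.ext h2.symm rfl⟩

theorem f2_iff (S : Pt → Prop) : F2 S ↔ Fin2 {p | S p} := by
  rw [← not_iff_not, ideal_f2, ideal_inf]
  simp only [ideal_inf]
  rfl

theorem F2.mono {S S' : Pt → Prop} (h : F2 S') (h' : ∀ p, S p → S' p) : F2 S :=
  h.imp fun _ hN n hn e => hN n hn (ideal_mono e fun _ => h' _)

theorem F2.or {S S' : Pt → Prop} (h : F2 S) (h' : F2 S') : F2 fun p => S p ∨ S' p := by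
  obtain ⟨N, hN⟩ := h
  obtain ⟨N', hN'⟩ := h'
  refine ⟨N + N', fun n hn e => ?_⟩
  have h1 := hN n (by omega)
  have h2 := hN' n (by omega)
  rw [ideal_inf] at h1 h2 e
  exact (Set.infinite_union.1 e).elim h1 h2

theorem sle_of_forall (h : ∀ p, S p → S' p) : SLe S S' :=
  ⟨0, fun _ _ e => (e 0).elim fun _ hm => hm.2.2 (h _ hm.2.1)⟩

theorem SLe.refl (S : g.Rs) : SLe S S := sle_of_forall fun _ h => h

theorem SLe.trans (h : SLe S'' S') (h' : SLe S' S) : SLe S'' S :=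
  (F2.or h h').mono fun p hp => (em (S' p)).elim (fun e => .inr ⟨e, hp.2⟩) fun e => .inl ⟨hp.1, e⟩

theorem Pos.mono (h : Pos S) (h' : SLe S S') : Pos S' := fun e =>
  h ((F2.or h' e).mono fun p hp => (em (S' p)).elim .inr fun e => .inl ⟨hp, e⟩)

theorem pos_rng (h : Val y) : Pos (rng y) := by
  refine (ideal_f2 _).2 fun N => ⟨_, ?_, ideal_col h (Nat.pair (N + 1) 0)⟩
  have h1 := Nat.left_le_pair (N + 1) 0
  have h2 := (h (Nat.pair (N + 1) 0)).2.2.2 (fun k hk e => by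
    have e' : k.unpair.1 = N + 1 := by simpa [lab] using e
    rw [← Nat.pair_unpair k, e'] at hk
    rcases Nat.eq_zero_or_pos k.unpair.2 with h0 | h0
    · exact absurd (h0 ▸ hk) (lt_irrefl _)
    · exact absurd hk (Nat.pair_lt_pair_right _ h0).not_gt)
    N (by omega)
  exact le_trans (h.strictMono.id_le N) h2.le

theorem sle_of_sub (h : Sub y' y) : SLe (rng y') (rng y) :=
  sle_of_forall fun _ ⟨n, hn⟩ => (h n).imp fun _ hm => hm.symm.trans hn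

theorem below_aux (P Q : g.Rs) (h : Pos P) (hPQ : ∀ p, P p → Q p) : ∃ R : g.Rs, ∀ s y, Cube s R y →
    (∀ m < s.length, Inf fun j => Q ((y m).1, j)) → ∀ n, s.length ≤ n →
      Q (y n) ∧ (P (y n) ∨ ∃ m < s.length, (y m).1 = (y n).1) := by
  refine ⟨⟨fun p => (p.1 = 0 ∧ Inf fun j => P (p.2, j)) ∨ (0 < p.1 ∧ Q (p.1 - 1, p.2) ∧
    ((Inf fun j => P (p.1 - 1, j)) → P (p.1 - 1, p.2))), by fun_prop⟩, fun s y hy hs n hn => ?_⟩
  obtain ⟨m, h1, -, h3⟩ := ideal_first hy.2.1 n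
  have key : (Inf fun j => Q ((y n).1, j)) →
      Q (y n) ∧ ((Inf fun j => P ((y n).1, j)) → P (y n)) := fun hq => by
    refine (hy.2.2 n hn).1.elim (fun e => by simpa using e) fun e => absurd ?_ e
    by_cases hp : Inf fun j => P ((y n).1, j)
    · exact ideal_mono hp fun j hj => .inr ⟨Nat.succ_pos _, hPQ _ hj, fun _ => hj⟩
    · exact ideal_mono hq fun j hj => .inr ⟨Nat.succ_pos _, hj, fun e => absurd e hp⟩
  rcases Nat.lt_or_ge m s.length with hm | hm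
  · exact ⟨(key (h3 ▸ hs m hm)).1, .inr ⟨m, hm, h3⟩⟩
  · have hp : Inf fun j => P ((y n).1, j) :=
      ((hy.2.2 m hm).2 h1).elim (fun e => by simpa [h3] using e) fun e =>
        absurd (ideal_mono ((ideal_f2 _).1 h) fun c hc => .inl ⟨rfl, hc⟩) e
    exact (key (ideal_mono hp fun _ => hPQ _)).imp_right fun e => .inl (e hp)

theorem exists_res_of_pos (h : Pos S) : ∃ R : g.Rs, ∀ y, Cube [] R y → ∀ n, S (y n) :=
  (below_aux S S h fun _ h => h).imp fun _ hR y hy n =>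
    (hR [] y hy (fun _ hm => absurd hm (Nat.not_lt_zero _)) n (Nat.zero_le n)).1

theorem below_of_pos (hy : Val y) (h : Pos S) (h' : SLe S (rng y)) (k : ℕ) :
    ∃ y', Below (ini y k) y' y ∧ SLe (rng y') S := by
  obtain ⟨R, hR⟩ := below_aux ⟨fun p => S p ∧ rng y p, by fun_prop⟩ (rng y)
    (h.mono (F2.mono h' fun p hp => ⟨hp.1, fun e => hp.2 ⟨hp.1, e⟩⟩)) fun _ h => h.2
  have hc := lm_cube hy k R
  have e : ∀ m < k, lm (ini y k) R m = y m := ini_eq_iff.1 (by simpa using hc.1)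
  have key := hR _ _ hc fun m hm => by
    rw [e m (by simpa using hm)]
    exact ideal_col hy m
  simp only [length_ini] at key
  refine ⟨_, ⟨hc.1, hc.2.1, fun n => ?_⟩, (y k).2, fun c hc' hi => ?_⟩
  · rcases Nat.lt_or_ge n k with hn | hn
    · exact ⟨n, e n hn⟩
    · exact (key n hn).1.imp fun _ => Eq.symm
  · obtain ⟨j, -, ⟨n, hn⟩, hS⟩ := hi 0
    obtain ⟨m, hm, e'⟩ : ∃ m < k, (lm (ini y k) R m).1 = (lm (ini y k) R n).1 := by
      rcases Nat.lt_or_ge n k with hk | hk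
      · exact ⟨n, hk, rfl⟩
      · exact (key n hk).2.resolve_left fun e => hS (hn ▸ e.1)
    rw [e m hm, hn] at e'
    have h1 := (hy m).1
    have h2 : (y m).2 < (y k).2 := hy.strictMono hm
    simp only at e'
    omega

end Mdl

end Pool.Agent.MP_09d684_lc

end

section

namespace Pool.Agent.MP_09d684_lc

open ZFSet

universe u v w

theorem frc_mem_val {G : Set ZFSet.{u}} {τ x : ZFSet.{u}} :
    x ∈ val G τ ↔ ∃ σ p, p ∈ G ∧ pair σ p ∈ τ ∧ val G σ = x := by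
  rw [val, ZFSet.mem_range]
  constructor
  · rintro ⟨⟨σ, p, h₁, h₂⟩, h⟩
    exact ⟨σ.1, p, h₁, h₂, h⟩
  · rintro ⟨σ, p, h₁, h₂, h⟩
    refine ⟨⟨⟨σ, ?_⟩, p, h₁, h₂⟩, h⟩
    exact mem_sUnion.2 ⟨{σ}, mem_sUnion.2 ⟨pair σ p, h₂, by simp [pair]⟩, by simp⟩

namespace Mdl

variable {g : Mdl.{u}}

open Cd

/-- The subset of `ω × ω` given by a predicate. -/
noncomputable def sset (S : g.Rs) : g.U := img S fun p => ι p

/-- The class of `S` belongs to `G`. -/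
def GG (G : Set ZFSet.{u}) (S : g.Rs) : Prop := Pos S ∧ cls g.M (sset S).1 ∈ G

@[fun_prop] theorem tm_sset {Γ : Type*} [Cd g Γ] {S : Γ → g.Rs} (h : g.Tm S) :
    g.Tm fun x => sset (S x) := by
  unfold sset; fun_prop

theorem E_sset {S : g.Rs} {x : g.U} : E x (sset S) ↔ ∃ p, S p ∧ ι p = x :=
  E_img S.tm (by fun_prop)

theorem pts_sset (S : g.Rs) : pts (sset S).1 = {p | S p} := by
  ext p
  have : E (ι p) (sset S) ↔ S p := by simp [E_sset, inj.eq_iff]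
  exact this

theorem sset_sub (S : g.Rs) : (sset S).1 ⊆ prod omega omega := by
  intro x hx
  obtain ⟨p, -, e⟩ := E_sset.1 (show E ⟨x, g.zf.trans _ (sset S).2 _ hx⟩ (sset S) from hx)
  exact mem_prod.2 ⟨_, nat_mem_omega p.1, _, nat_mem_omega p.2, (congrArg U.val e).symm⟩

theorem exists_sset {A : ZFSet.{u}} (hA : A ∈ g.M) (h : A ⊆ prod omega omega) :
    ∃ S : g.Rs, (sset S).1 = A := by
  refine ⟨⟨fun p => E (ι p) (⟨A, hA⟩ : g.U), by fun_prop⟩,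
    congrArg U.val (U.ext' (b := ⟨A, hA⟩) fun x => ?_)⟩
  rw [E_sset]
  constructor
  · rintro ⟨p, hp, rfl⟩
    exact hp
  · intro hx
    obtain ⟨a, ha, b, hb, e⟩ := mem_prod.1 (h hx)
    obtain ⟨m, rfl⟩ := mem_omega.1 ha
    obtain ⟨n, rfl⟩ := mem_omega.1 hb
    have e' : (ι (m, n) : g.U) = x := U.ext e.symm
    exact ⟨(m, n), by show E (ι (m, n)) _; rw [e']; exact hx, e'⟩

theorem fin2_diff (S T : g.Rs) : Fin2 (pts (sset S).1 \ pts (sset T).1) ↔ SLe S T := by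
  rw [pts_sset, pts_sset, SLe, f2_iff]
  rfl

theorem fin2_symm (S T : g.Rs) :
    Fin2 (symmDiff (pts (sset S).1) (pts (sset T).1)) ↔ SLe S T ∧ SLe T S := by
  have : Fin2 (symmDiff (pts (sset S).1) (pts (sset T).1)) ↔
      F2 fun p => (S p ∧ ¬ T p) ∨ (T p ∧ ¬ S p) := by
    rw [pts_sset, pts_sset, f2_iff]
    rfl
  rw [this]
  exact ⟨fun h => ⟨h.mono fun _ => Or.inl, h.mono fun _ => Or.inr⟩, fun h => F2.or h.1 h.2⟩

/-- The class of `S` as an element of the model. -/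
noncomputable def fcl (S : g.Rs) : g.U := img (fun T : g.Rs => SLe S T ∧ SLe T S) sset

@[fun_prop] theorem tm_fcl {Γ : Type*} [Cd g Γ] {S : Γ → g.Rs} (h : g.Tm S) :
    g.Tm fun x => fcl (S x) := by
  unfold fcl; fun_prop

theorem mem_cls {S : g.Rs} {B : ZFSet.{u}} :
    B ∈ cls g.M (sset S).1 ↔ ∃ T : g.Rs, (SLe S T ∧ SLe T S) ∧ (sset T).1 = B := by
  rw [cls, mem_sep, mem_powerset]
  constructor
  · rintro ⟨h₁, h₂, h₃⟩
    obtain ⟨T, rfl⟩ := exists_sset h₂ h₁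
    exact ⟨T, (fin2_symm S T).1 h₃, rfl⟩
  · rintro ⟨T, h, rfl⟩
    exact ⟨sset_sub T, (sset T).2, (fin2_symm S T).2 h⟩

theorem fcl_val (S : g.Rs) : (fcl S).1 = cls g.M (sset S).1 := by
  have e : ∀ x : g.U, E x (fcl S) ↔ ∃ T : g.Rs, (SLe S T ∧ SLe T S) ∧ sset T = x := fun x =>
    E_img (by fun_prop) (by fun_prop)
  refine ZFSet.ext fun B => ?_
  rw [mem_cls]
  constructor
  · intro h
    obtain ⟨T, h₁, h₂⟩ := (e ⟨B, g.zf.trans _ (fcl S).2 _ h⟩).1 h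
    exact ⟨T, h₁, congrArg U.val h₂⟩
  · rintro ⟨T, h, rfl⟩
    exact (e _).2 ⟨T, h, rfl⟩

theorem le_cls {S T : g.Rs} : Le (cls g.M (sset S).1) (cls g.M (sset T).1) ↔ SLe S T := by
  constructor
  · rintro ⟨A, hA, B, hB, h⟩
    obtain ⟨S', hS, rfl⟩ := mem_cls.1 hA
    obtain ⟨T', hT, rfl⟩ := mem_cls.1 hB
    exact (hS.1.trans ((fin2_diff _ _).1 h)).trans hT.2
  · intro h
    exact ⟨_, mem_cls.2 ⟨S, ⟨SLe.refl S, SLe.refl S⟩, rfl⟩, _,
      mem_cls.2 ⟨T, ⟨SLe.refl T, SLe.refl T⟩, rfl⟩, (fin2_diff _ _).2 h⟩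

theorem mem_cond {p : ZFSet.{u}} :
    p ∈ Cond g.M ↔ ∃ S : g.Rs, Pos S ∧ p = cls g.M (sset S).1 := by
  constructor
  · rintro ⟨A, h₁, h₂, h₃, rfl⟩
    obtain ⟨S, rfl⟩ := exists_sset h₁ h₂
    rw [pts_sset, ← f2_iff] at h₃
    exact ⟨S, h₃, rfl⟩
  · rintro ⟨S, h, rfl⟩
    exact ⟨_, (sset S).2, sset_sub S, by rw [pts_sset, ← f2_iff]; exact h, rfl⟩

variable {G : Set ZFSet.{u}}

theorem gg_dense (hG : Generic g.M G) {D : g.Rs → Prop} (hD : g.Tm D)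
    (hd : ∀ S, Pos S → ∃ S', Pos S' ∧ SLe S' S ∧ D S') : ∃ S, GG G S ∧ D S := by
  have e : ∀ x : g.U, E x (img (fun S : g.Rs => Pos S ∧ D S) fcl) ↔
      ∃ S : g.Rs, (Pos S ∧ D S) ∧ fcl S = x := fun x => E_img (by fun_prop) (by fun_prop)
  obtain ⟨p, hp, h⟩ := hG.meets _ (img (fun S : g.Rs => Pos S ∧ D S) fcl).2 fun p hp => by
    obtain ⟨S, hS, rfl⟩ := mem_cond.1 hp
    obtain ⟨S', h₁, h₂, h₃⟩ := hd S hS
    exact ⟨(fcl S').1, (e _).2 ⟨S', ⟨h₁, h₃⟩, rfl⟩, mem_cond.2 ⟨S', h₁, fcl_val S'⟩,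
      by rw [fcl_val]; exact le_cls.2 h₂⟩
  obtain ⟨S, h₁, h₂⟩ := (e ⟨p, g.zf.trans _ (img (fun S : g.Rs => Pos S ∧ D S) fcl).2 _ h⟩).1 h
  refine ⟨S, ⟨h₁.1, ?_⟩, h₁.2⟩
  rw [← fcl_val, h₂]
  exact hp

theorem gg_dir (hG : Generic g.M G) {S S' : g.Rs} (h : GG G S) (h' : GG G S') :
    ∃ S'', GG G S'' ∧ SLe S'' S ∧ SLe S'' S' := by
  obtain ⟨r, hr, h₁, h₂⟩ := hG.dir _ h.2 _ h'.2
  obtain ⟨T, hT, rfl⟩ := mem_cond.1 (hG.sub hr)
  exact ⟨T, ⟨hT, hr⟩, le_cls.1 h₁, le_cls.1 h₂⟩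

theorem gg_up (hG : Generic g.M G) {S T : g.Rs} (h : GG G S) (h' : SLe S T) : GG G T :=
  ⟨h.1.mono h', hG.up _ h.2 _ (mem_cond.2 ⟨T, h.1.mono h', rfl⟩) (le_cls.2 h')⟩

theorem gg_below (hG : Generic g.M G) {S₀ : g.Rs} (h₀ : GG G S₀) {D : g.Rs → Prop} (hD : g.Tm D)
    (hd : ∀ S, Pos S → SLe S S₀ → ∃ S', Pos S' ∧ SLe S' S ∧ D S') : ∃ S, GG G S ∧ D S := by
  obtain ⟨S, hS, h | h⟩ := gg_dense hG
    (D := fun S => D S ∨ ∀ S', Pos S' → SLe S' S → ¬ SLe S' S₀) (by fun_prop) fun S hS => by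
      by_cases h : ∃ S', Pos S' ∧ SLe S' S ∧ SLe S' S₀
      · obtain ⟨S', h₁, h₂, h₃⟩ := h
        obtain ⟨S'', h₄, h₅, h₆⟩ := hd S' h₁ h₃
        exact ⟨S'', h₄, h₅.trans h₂, Or.inl h₆⟩
      · exact ⟨S, hS, SLe.refl S, Or.inr fun S' h₁ h₂ h₃ => h ⟨S', h₁, h₂, h₃⟩⟩
  · exact ⟨S, hS, h⟩
  · obtain ⟨S', h₁, h₂, h₃⟩ := gg_dir hG hS h₀
    exact absurd h₃ (h S' h₁.1 h₂)

/-- `S` is below the condition `p`. -/
def FBl (S : g.Rs) (p : g.U) : Prop := ∃ T, p = fcl T ∧ SLe S T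

@[fun_prop] theorem tm_FBl {Γ : Type*} [Cd g Γ] {S : Γ → g.Rs} {p : Γ → g.U} (h : g.Tm S)
    (h' : g.Tm p) : g.Tm fun x => FBl (S x) (p x) := by
  unfold FBl; fun_prop

theorem FBl.mono {S S' : g.Rs} {p : g.U} (h : FBl S p) (h' : SLe S' S) : FBl S' p := by
  obtain ⟨T, h₁, h₂⟩ := h
  exact ⟨T, h₁, h'.trans h₂⟩

theorem mem_gen (hG : Generic g.M G) {p : g.U} : p.1 ∈ G ↔ ∃ S, GG G S ∧ FBl S p := by
  constructor
  · intro h
    obtain ⟨T, hT, e⟩ := mem_cond.1 (hG.sub h)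
    exact ⟨T, ⟨hT, e ▸ h⟩, T, U.ext (e.trans (fcl_val T).symm), SLe.refl T⟩
  · rintro ⟨S, hS, T, rfl, h⟩
    rw [fcl_val]
    exact (gg_up hG hS h).2

theorem mem_val' {τ : g.U} {x : ZFSet.{u}} :
    x ∈ val G τ.1 ↔ ∃ σ p : g.U, E (pr σ p) τ ∧ p.1 ∈ G ∧ val G σ.1 = x := by
  rw [frc_mem_val]
  constructor
  · rintro ⟨σ, p, h₁, h₂, h₃⟩
    have := mem_of_pair (g.zf.trans _ τ.2 _ h₂)
    exact ⟨⟨σ, this.1⟩, ⟨p, this.2⟩, h₂, h₁, h₃⟩
  · rintro ⟨σ, p, h₁, h₂, h₃⟩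
    exact ⟨σ.1, p.1, h₂, h₁, h₃⟩

open Classical in
/-- Check names, with the condition `t` everywhere. -/
noncomputable def chk (t : g.U) : g.U → g.U :=
  E_wf.fix fun a IH => imgU a fun b => if h : E b a then pr (IH b h) t else default

open Classical in
theorem chk_eq (t a : g.U) :
    chk t a = imgU a fun b => if E b a then pr (chk t b) t else default := by
  unfold chk
  rw [WellFounded.fix_eq]
  rfl

theorem tm_chk (t : g.U) : g.Tm (chk t) := by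
  classical
  refine tm_wf (r := E) E_wf (by fun_prop)
    (Ψ := fun a s => imgU a fun b => if E b a then pr (ev g.U g.U s b) t else default)
    (by fun_prop) (fun a s h => ?_) exists_trcl
  rw [chk_eq]
  congr 1
  funext b
  split_ifs with hb
  · rw [h b hb]
  · rfl

theorem E_chk {t a x : g.U} : E x (chk t a) ↔ ∃ b, E b a ∧ pr (chk t b) t = x := by
  classical
  have := tm_chk t
  rw [chk_eq, E_imgU (by fun_prop)]
  exact exists_congr fun b => and_congr_right fun hb => by rw [if_pos hb]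

theorem val_chk {t : g.U} (ht : t.1 ∈ G) (a : g.U) : val G (chk t a).1 = a.1 := by
  induction a using E_wf.induction with
  | _ a ih =>
    refine ZFSet.ext fun x => ?_
    rw [mem_val']
    constructor
    · rintro ⟨σ, p, h₁, -, rfl⟩
      obtain ⟨b, hb, e⟩ := E_chk.1 h₁
      rw [← (pr_inj.1 e).1, ih b hb]
      exact hb
    · intro hx
      exact ⟨_, t, E_chk.2 ⟨⟨x, g.zf.trans _ a.2 _ hx⟩, hx, rfl⟩, ht, ih _ hx⟩

theorem sub_ext (hG : Generic g.M G) : g.M ⊆ Ext g.M G := by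
  intro a ha
  obtain ⟨p, hp⟩ := hG.ne
  obtain ⟨T, -, e⟩ := mem_cond.1 (hG.sub hp)
  have ht : (fcl T).1 ∈ G := by rw [fcl_val, ← e]; exact hp
  exact ⟨_, (chk (fcl T) ⟨a, ha⟩).2, val_chk ht ⟨a, ha⟩⟩

/-- One step in the definition of the forcing relation for equality with a ground model set. -/
def FStep (H : g.Rs → g.U → g.U → Prop) (S : g.Rs) (ρ a : g.U) : Prop :=
  (∀ σ p, E (pr σ p) ρ → ∀ S', Pos S' → SLe S' S → FBl S' p →
    ∃ S'', Pos S'' ∧ SLe S'' S' ∧ ∃ b, E b a ∧ H S'' σ b) ∧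
  ∀ b, E b a → ∀ S', Pos S' → SLe S' S →
    ∃ S'', Pos S'' ∧ SLe S'' S' ∧ ∃ σ p, E (pr σ p) ρ ∧ FBl S'' p ∧ H S'' σ b

theorem FStep.imp {H H' : g.Rs → g.U → g.U → Prop} {S : g.Rs} {ρ a : g.U}
    (h : ∀ S σ p b, E (pr σ p) ρ → E b a → H S σ b → H' S σ b) (h' : FStep H S ρ a) :
    FStep H' S ρ a := by
  refine ⟨fun σ p h₁ S' h₂ h₃ h₄ => ?_, fun b h₁ S' h₂ h₃ => ?_⟩
  · obtain ⟨S'', h₅, h₆, b, h₇, h₈⟩ := h'.1 σ p h₁ S' h₂ h₃ h₄
    exact ⟨S'', h₅, h₆, b, h₇, h _ _ _ _ h₁ h₇ h₈⟩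
  · obtain ⟨S'', h₅, h₆, σ, p, h₇, h₈, h₉⟩ := h'.2 b h₁ S' h₂ h₃
    exact ⟨S'', h₅, h₆, σ, p, h₇, h₈, h _ _ _ _ h₇ h₁ h₉⟩

/-- `S` forces that `ρ` is equal to the ground model set `a`. -/
noncomputable def FE (S : g.Rs) (ρ a : g.U) : Prop :=
  E_wf.fix (C := fun _ => g.Rs → g.U → Prop)
    (fun a IH S ρ => FStep (fun S' σ b => ∃ h : E b a, IH b h S' σ) S ρ a) a S ρ

theorem FE_iff {S : g.Rs} {ρ a : g.U} : FE S ρ a ↔ FStep FE S ρ a := by
  have : FE S ρ a ↔ FStep (fun S' σ b => ∃ _ : E b a, FE S' σ b) S ρ a := by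
    conv_lhs => unfold FE
    rw [WellFounded.fix_eq]
    rfl
  rw [this]
  exact ⟨FStep.imp fun _ _ _ _ _ _ h => h.2, FStep.imp fun _ _ _ _ _ h h' => ⟨h, h'⟩⟩

theorem tm_FE' : g.Tm fun z : g.Rs × g.U × g.U => FE z.1 z.2.1 z.2.2 := by
  refine tm_wf (r := fun x y : g.Rs × g.U × g.U => (∃ p, E (pr x.2.1 p) y.2.1) ∧ E x.2.2 y.2.2)
    (Subrelation.wf (fun h => h.2) (InvImage.wf (fun z : g.Rs × g.U × g.U => z.2.2) E_wf))
    (by fun_prop)
    (Ψ := fun z s => FStep (fun S σ b => ev (g.Rs × g.U × g.U) Prop s (S, σ, b)) z.1 z.2.1 z.2.2)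
    (by unfold FStep; fun_prop) (fun z s h => ?_) fun z => ?_
  · refine propext (FE_iff.trans ⟨FStep.imp fun S σ p b h₁ h₂ h₃ => ?_,
      FStep.imp fun S σ p b h₁ h₂ h₃ => ?_⟩)
    · rw [h (S, σ, b) ⟨⟨p, h₁⟩, h₂⟩]; exact h₃
    · rw [h (S, σ, b) ⟨⟨p, h₁⟩, h₂⟩] at h₃; exact h₃
  · obtain ⟨T, h₁, h₂⟩ := exists_trcl (upr z.2.1 z.2.2)
    obtain ⟨W, hW⟩ := tm_image (g := g) (Q := fun _ : g.Rs × Elt T × Elt T => True)
      (f := fun x => ι (x.1, x.2.1.1, x.2.2.1)) (by fun_prop) (by fun_prop)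
    have e : ∀ x : g.Rs × g.U × g.U, E (ι x) W ↔ E x.2.1 T ∧ E x.2.2 T := by
      intro x
      rw [hW]
      constructor
      · rintro ⟨y, -, e⟩
        obtain rfl := inj e
        exact ⟨y.2.1.2, y.2.2.2⟩
      · intro h
        exact ⟨(x.1, ⟨_, h.1⟩, ⟨_, h.2⟩), trivial, rfl⟩
    refine ⟨W, (e z).2 ⟨h₂ _ h₁ _ (E_upr.2 (Or.inl rfl)), h₂ _ h₁ _ (E_upr.2 (Or.inr rfl))⟩,
      fun b hb c hc => (e c).2 ⟨?_, h₂ _ ((e b).1 hb).2 _ hc.2⟩⟩
    obtain ⟨p, hp⟩ := hc.1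
    refine h₂ (upr c.2.1 p) (h₂ _ (h₂ _ ((e b).1 hb).1 _ hp) _ ?_) _ (E_upr.2 (Or.inl rfl))
    simp [E_iff, upr, pair]

@[fun_prop] theorem tm_FE {Γ : Type*} [Cd g Γ] {S : Γ → g.Rs} {ρ a : Γ → g.U} (h₁ : g.Tm S)
    (h₂ : g.Tm ρ) (h₃ : g.Tm a) : g.Tm fun x => FE (S x) (ρ x) (a x) :=
  tm_FE'.comp (h₁.pair (h₂.pair h₃))

theorem FE.mono {S S' : g.Rs} {ρ a : g.U} (h : FE S ρ a) (h' : SLe S' S) : FE S' ρ a := by
  rw [FE_iff] at h ⊢
  exact ⟨fun σ p h₁ S₁ h₂ h₃ => h.1 σ p h₁ S₁ h₂ (h₃.trans h'),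
    fun b h₁ S₁ h₂ h₃ => h.2 b h₁ S₁ h₂ (h₃.trans h')⟩

theorem truth_eq (hG : Generic g.M G) (a ρ : g.U) :
    val G ρ.1 = a.1 ↔ ∃ S, GG G S ∧ FE S ρ a := by
  induction a using E_wf.induction generalizing ρ with
  | _ a ih =>
    constructor
    · intro hv
      obtain ⟨S, hS, h | ⟨σ, p, h₁, h₂, h₃⟩ | ⟨b, h₁, h₂⟩⟩ := gg_dense hG (D := fun S => FE S ρ a ∨
        (∃ σ p, E (pr σ p) ρ ∧ FBl S p ∧
          ¬ ∃ S'', Pos S'' ∧ SLe S'' S ∧ ∃ b, E b a ∧ FE S'' σ b) ∨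
        ∃ b, E b a ∧ ¬ ∃ S'', Pos S'' ∧ SLe S'' S ∧
          ∃ σ p, E (pr σ p) ρ ∧ FBl S'' p ∧ FE S'' σ b) (by fun_prop) fun S hS => by
          by_contra hc
          refine hc ⟨S, hS, SLe.refl S, Or.inl (FE_iff.2
            ⟨fun σ p h₁ S' h₂ h₃ h₄ => ?_, fun b h₁ S' h₂ h₃ => ?_⟩)⟩
          · by_contra h
            exact hc ⟨S', h₂, h₃, Or.inr (Or.inl ⟨σ, p, h₁, h₄, h⟩)⟩
          · by_contra h
            exact hc ⟨S', h₂, h₃, Or.inr (Or.inr ⟨b, h₁, h⟩)⟩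
      · exact ⟨S, hS, h⟩
      · have hm : val G σ.1 ∈ a.1 :=
          hv ▸ mem_val'.2 ⟨σ, p, h₁, (mem_gen hG).2 ⟨S, hS, h₂⟩, rfl⟩
        obtain ⟨S₁, h₄, h₅⟩ := (ih ⟨_, g.zf.trans _ a.2 _ hm⟩ hm σ).1 rfl
        obtain ⟨S₂, h₆, h₇, h₈⟩ := gg_dir hG hS h₄
        exact absurd ⟨S₂, h₆.1, h₇, ⟨_, g.zf.trans _ a.2 _ hm⟩, hm, h₅.mono h₈⟩ h₃
      · obtain ⟨σ, p, h₃, h₄, h₅⟩ := mem_val'.1 (show b.1 ∈ val G ρ.1 from hv ▸ h₁)
        obtain ⟨S₁, h₆, h₇⟩ := (ih b h₁ σ).1 h₅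
        obtain ⟨S₂, h₈, h₉⟩ := (mem_gen hG).1 h₄
        obtain ⟨S₃, k₁, k₂, k₃⟩ := gg_dir hG h₆ h₈
        obtain ⟨S₄, k₄, k₅, k₆⟩ := gg_dir hG hS k₁
        exact absurd ⟨S₄, k₄.1, k₅, σ, p, h₃, h₉.mono (k₆.trans k₃), h₇.mono (k₆.trans k₂)⟩ h₂
    · rintro ⟨S, hS, h⟩
      rw [FE_iff] at h
      refine ZFSet.ext fun x => ⟨fun hx => ?_, fun hx => ?_⟩
      · obtain ⟨σ, p, h₁, h₂, rfl⟩ := mem_val'.1 hx
        obtain ⟨S₁, h₃, h₄⟩ := (mem_gen hG).1 h₂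
        obtain ⟨S₂, h₅, h₆, h₇⟩ := gg_dir hG hS h₃
        obtain ⟨S₃, h₈, b, hb, h₉⟩ := gg_below hG h₅ (D := fun S => ∃ b, E b a ∧ FE S σ b)
          (by fun_prop) fun S' k₁ k₂ => h.1 σ p h₁ S' k₁ (k₂.trans h₆) (h₄.mono (k₂.trans h₇))
        rw [(ih b hb σ).2 ⟨S₃, h₈, h₉⟩]
        exact hb
      · obtain ⟨S₁, h₁, σ, p, h₂, h₃, h₄⟩ := gg_below hG hS (D := fun S => ∃ σ p,
          E (pr σ p) ρ ∧ FBl S p ∧ FE S σ ⟨x, g.zf.trans _ a.2 _ hx⟩) (by fun_prop)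
          (h.2 ⟨x, g.zf.trans _ a.2 _ hx⟩ hx)
        exact mem_val'.2 ⟨σ, p, h₂, (mem_gen hG).2 ⟨S₁, h₁, h₃⟩,
          (ih ⟨x, g.zf.trans _ a.2 _ hx⟩ hx σ).2 ⟨S₁, h₁, h₄⟩⟩

/-- The forcing relation for statements `a ∈ τ` with `a` in the ground model. -/
theorem exists_forcing : ∃ Fm : g.Rs → g.U → g.U → Prop,
    g.Tm (fun z : g.Rs × g.U × g.U => Fm z.1 z.2.1 z.2.2) ∧
    (∀ S S' τ a, Fm S τ a → Pos S' → SLe S' S → Fm S' τ a) ∧
    ∀ G, Generic g.M G → ∀ τ a : g.U, a.1 ∈ val G τ.1 ↔ ∃ S, GG G S ∧ Fm S τ a := by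
  refine ⟨fun S τ a => ∃ σ p, E (pr σ p) τ ∧ FBl S p ∧ FE S σ a, by fun_prop, ?_, ?_⟩
  · rintro S S' τ a ⟨σ, p, h₁, h₂, h₃⟩ - h
    exact ⟨σ, p, h₁, h₂.mono h, h₃.mono h⟩
  · intro G hG τ a
    rw [mem_val']
    constructor
    · rintro ⟨σ, p, h₁, h₂, h₃⟩
      obtain ⟨S₁, h₄, h₅⟩ := (mem_gen hG).1 h₂
      obtain ⟨S₂, h₆, h₇⟩ := (truth_eq hG a σ).1 h₃
      obtain ⟨S₃, k₁, k₂, k₃⟩ := gg_dir hG h₄ h₆
      exact ⟨S₃, k₁, σ, p, h₁, h₅.mono k₂, h₇.mono k₃⟩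
    · rintro ⟨S, hS, σ, p, h₁, h₂, h₃⟩
      exact ⟨σ, p, h₁, (mem_gen hG).2 ⟨S, hS, h₂⟩, (truth_eq hG a σ).2 ⟨S, hS, h₃⟩⟩

end Mdl

end Pool.Agent.MP_09d684_lc

end

section

namespace Pool.Agent.MP_09d684_lc

open ZFSet

universe u v w

namespace Mdl

variable {g : Mdl.{u}}

open Cd

/-- The sequence of reservoirs obtained by applying `st` to all stems in turn. -/
noncomputable def fusSeq (st : St → g.Rs → g.Rs) (s : St) (R : g.Rs) (k : ℕ) : g.Rs :=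
  ((fun z : ℕ × g.Rs => (z.1 + 1, st (NL.dec g z.1) z.2))^[k] (0, st s R)).2

/-- Fusion along the operation `st`. -/
noncomputable def fus (st : St → g.Rs → g.Rs) (s : St) (R : g.Rs) : g.Rs :=
  diag (g.lam (fusSeq st s R))

theorem fusSeq_fst (st : St → g.Rs → g.Rs) (s : St) (R : g.Rs) (k : ℕ) :
    ((fun z : ℕ × g.Rs => (z.1 + 1, st (NL.dec g z.1) z.2))^[k] (0, st s R)).1 = k := by
  induction k with
  | zero => rfl
  | succ k ih => rw [Function.iterate_succ_apply', ih]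

theorem fusSeq_succ (st : St → g.Rs → g.Rs) (s : St) (R : g.Rs) (k : ℕ) :
    fusSeq st s R (k + 1) = st (NL.dec g k) (fusSeq st s R k) := by
  unfold fusSeq
  rw [Function.iterate_succ_apply', fusSeq_fst]

@[fun_prop] theorem tm_fus {Γ : Type*} [Cd g Γ] {st : Γ → St → g.Rs → g.Rs} {s : Γ → St}
    {R : Γ → g.Rs} (h₀ : g.Tm fun z : Γ × St × g.Rs => st z.1 z.2.1 z.2.2) (h₁ : g.Tm s)
    (h₂ : g.Tm R) : g.Tm fun x => fus (st x) (s x) (R x) := by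
  unfold fus fusSeq
  fun_prop

theorem fusSeq_lam {st : St → g.Rs → g.Rs} (h₀ : g.Tm fun z : St × g.Rs => st z.1 z.2) (s : St)
    (R : g.Rs) (k : ℕ) : g.lam (fusSeq st s R) k = fusSeq st s R k := by
  rw [lam_ap]
  unfold fusSeq
  fun_prop

theorem fusSeq_dec {st : St → g.Rs → g.Rs} (h₀ : g.Tm fun z : St × g.Rs => st z.1 z.2)
    (h : ∀ t R, RLe (st t R) R) (s : St) (R : g.Rs) (k : ℕ) :
    RLe (g.lam (fusSeq st s R) (k + 1)) (g.lam (fusSeq st s R) k) := by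
  rw [fusSeq_lam h₀, fusSeq_lam h₀, fusSeq_succ]
  exact h _ _

theorem fus_le {st : St → g.Rs → g.Rs} (h₀ : g.Tm fun z : St × g.Rs => st z.1 z.2)
    (h : ∀ t R, RLe (st t R) R) (s : St) (R : g.Rs) : RLe (fus st s R) (st s R) := by
  have := diag_le (fusSeq_dec h₀ h s R)
  rwa [fusSeq_lam h₀] at this

theorem fus_tip {st : St → g.Rs → g.Rs} (h₀ : g.Tm fun z : St × g.Rs => st z.1 z.2)
    (h : ∀ t R, RLe (st t R) R) {s t : St} {R : g.Rs} (ht : t = s ∨ Tip t (fus st s R)) :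
    ∃ R', RLe R' R ∧ (∀ C : g.Rs → Prop, C R → (∀ t R, C R → C (st t R)) → C R') ∧
      ∀ y, Cube t (fus st s R) y → Cube t (st t R') y := by
  rcases ht with rfl | ht
  · exact ⟨R, RLe.refl R, fun _ hC _ => hC, fun y hy => cube_le (fus_le h₀ h t R) hy⟩
  · have key : ∀ C : g.Rs → Prop, C R → (∀ t R, C R → C (st t R)) →
        ∀ k, C (fusSeq st s R k) := fun C hC hs k => by
      induction k with
      | zero => exact hs _ _ hC
      | succ k ih =>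
        rw [fusSeq_succ]
        exact hs _ _ ih
    refine ⟨fusSeq st s R (g.lcode t), key (fun R' => RLe R' R) (RLe.refl R)
      (fun t R' hR => (h t R').trans hR) _, fun C hC hs => key C hC hs _, fun y hy => ?_⟩
    have := diag_tip (fusSeq_dec h₀ h s R) ht hy
    rwa [fusSeq_lam h₀, fusSeq_succ, ← nenc_list, NL.dec_enc] at this

/-- Simple fusion. -/
theorem sf (hc : g.TDC) {C : g.Rs → Prop} (hC : g.Tm C) {P : ℕ → St → g.Rs → Prop}
    (hP : g.Tm fun z : ℕ × St × g.Rs => P z.1 z.2.1 z.2.2)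
    (dense : ∀ j t R, C R → ∃ R', C R' ∧ RLe R' R ∧ P j t R')
    (her : ∀ j t R R', P j t R → (∀ y, Cube t R' y → Cube t R y) → P j t R') {R : g.Rs}
    (hR : C R) : ∃ H, RLe H R ∧ ∀ j t, Tip t H → j ≤ g.lcode t → P j t H := by
  have step : ∀ k t R, C R → ∃ R', C R' ∧ RLe R' R ∧ ∀ j, j < k → P j t R' := by
    intro k t R hR
    induction k with
    | zero => exact ⟨R, hR, RLe.refl R, fun j hj => absurd hj (Nat.not_lt_zero j)⟩
    | succ k ih =>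
      obtain ⟨R₁, h₁, h₂, h₃⟩ := ih
      obtain ⟨R₂, h₄, h₅, h₆⟩ := dense k t R₁ h₁
      refine ⟨R₂, h₄, h₅.trans h₂, fun j hj => ?_⟩
      rcases Nat.lt_succ_iff_lt_or_eq.1 hj with hj | rfl
      · exact her j t R₁ R₂ (h₃ j hj) fun y hy => cube_le h₅ hy
      · exact h₆
  obtain ⟨f, f₀, hf⟩ := hc.dc (α := ℕ × g.Rs) (S := fun z => C z.2) (by fun_prop)
    (Q := fun z z' => z'.1 = z.1 + 1 ∧ RLe z'.2 z.2 ∧
      ∀ j, j < z.1 + 1 → P j (NL.dec g z.1) z'.2) (by fun_prop) (fun z hz => by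
      obtain ⟨R', h₁, h₂, h₃⟩ := step (z.1 + 1) (NL.dec g z.1) z.2 hz
      exact ⟨(z.1 + 1, R'), h₁, rfl, h₂, h₃⟩) (a₀ := (0, R)) hR
  have f₁ : ∀ n, (f n).1 = n := fun n => by
    induction n with
    | zero => rw [f₀]
    | succ n ih => rw [(hf n).2.1, ih]
  let S : Fn g ℕ g.Rs := ⟨fun k => (f k).2, by fun_prop⟩
  have hS : ∀ k, RLe (S (k + 1)) (S k) := fun k => (hf k).2.2.1
  refine ⟨diag S, ?_, fun j t ht hj => ?_⟩
  · have := diag_le hS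
    rwa [show S 0 = R from congrArg Prod.snd f₀] at this
  · have := (hf (g.lcode t)).2.2.2 j (by rw [f₁]; omega)
    rw [f₁, ← nenc_list, NL.dec_enc] at this
    exact her j t _ _ this fun y hy => diag_tip hS ht hy

theorem Good.mono {D : g.Cn → Prop} {t : St} {R R' : g.Rs} (h : Good D t R)
    (h' : ∀ y, Cube t R' y → Cube t R y) : Good D t R' := fun y hy => h y (h' y hy)

theorem eq_or_tip {s : St} {H : g.Rs} {y : g.Yy} {n : ℕ} (h : Cube s H y) (hn : s.length ≤ n) :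
    ini y n = s ∨ Tip (ini y n) H := by
  rcases hn.eq_or_lt with rfl | hn
  exacts [Or.inl h.1, Or.inr (tip_ini h hn)]

/-- The core of the Mathias property. -/
theorem mp_core {C : g.Rs → Prop} {D : g.Cn → Prop} (hm : ∀ R R', C R → C R' → C (meet R R'))
    (hd : ∀ c : g.Cn, C c.2 → NE c → ∃ c' : g.Cn, C c'.2 ∧ CLe c' c ∧ D c') {s : St} {H : g.Rs}
    (B : Fn g St Prop) (hB : ∀ t, B t ↔ ¬ Good D t H)
    (h₁ : ∀ t, t = s ∨ Tip t H → Good D t H ∨ ∀ R', C R' → RLe R' H → ¬ Good D t R')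
    (h₂ : C (fus (pig B) s H)) : Good D s H := by
  by_contra hs
  have tp : g.Tm fun z : St × g.Rs => pig B z.1 z.2 := by fun_prop
  have hle : RLe (fus (pig B) s H) H := (fus_le tp (pig_le B) s H).trans (pig_le B s H)
  have key : ∀ y, Cube s (fus (pig B) s H) y → ∀ n, s.length ≤ n → ¬ Good D (ini y n) H := by
    intro y hy n hn
    induction n, hn using Nat.le_induction with
    | base => rwa [hy.1]
    | succ n hn ih =>
      obtain ⟨R', -, -, h₃⟩ := fus_tip tp (pig_le B) (eq_or_tip hy hn)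
      rcases pig_spec B (ini y n) R' with h₄ | h₄
      · have := h₄ y (h₃ y (cube_ini hy hn))
        rwa [length_ini, hB] at this
      · refine absurd (fun y' hy' => ?_)
          ((h₁ _ (eq_or_tip (cube_le hle hy) hn)).resolve_left ih _ h₂ hle)
        have := h₄ y' (h₃ y' hy')
        rw [hB, not_not] at this
        exact this y' (cube_ini (cube_le hle hy') (Nat.le_succ _))
  have hne : NE (s, H) := by
    by_contra hne
    exact hs fun y hy => absurd ⟨y, hy⟩ hne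
  obtain ⟨c', hC, ⟨⟨y, hy⟩, hl, hsub⟩, hD⟩ := hd (s, fus (pig B) s H) h₂ ⟨_, hne.lm _⟩
  have hy' : Cube s (fus (pig B) s H) y := hsub y hy
  have hy'' : Cube c'.1 (fus (pig B) s H) y := by
    have := cube_ini hy' hl
    rwa [hy.1] at this
  have h₃ := (h₁ _ (eq_or_tip (cube_le hle hy') hl)).resolve_left (key y hy' _ hl)
  rw [hy.1] at h₃
  exact h₃ _ (hm _ _ h₂ hC) ((meet_le _ _).trans hle) fun y' h₄ =>
    ⟨c', hD, (meet_cube hy'' hy).2 y' h₄⟩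

theorem mp0 (hc : g.TDC) {D : g.Cn → Prop} (hD : g.Tm D) (hd : Dns D) (s : St) (R : g.Rs) :
    ∃ R', RLe R' R ∧ Good D s R' := by
  by_contra hn
  have hn' : ∀ R', RLe R' R → ¬ Good D s R' := fun R' h₁ h₂ => hn ⟨R', h₁, h₂⟩
  obtain ⟨H, h₁, h₂⟩ := sf hc (C := fun _ => True) (by fun_prop)
    (P := fun _ t R => Good D t R ∨ ∀ R', RLe R' R → ¬ Good D t R') (by fun_prop)
    (fun _ t R _ => by
      by_cases h : ∃ R', RLe R' R ∧ Good D t R'
      · obtain ⟨R', h₁, h₂⟩ := h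
        exact ⟨R', trivial, h₁, Or.inl h₂⟩
      · exact ⟨R, trivial, RLe.refl R, Or.inr fun R' h₁ h₂ => h ⟨R', h₁, h₂⟩⟩)
    (fun _ t R R' h h' => by
      rcases h with h | h
      · exact Or.inl (h.mono h')
      · by_cases hne : NE (t, R')
        · refine Or.inr fun R'' h₁ h₂ => h (meet R R'') (meet_le _ _) (h₂.mono ?_)
          exact (meet_cube (h' _ (cube_le h₁ (hne.lm R''))) (hne.lm R'')).2
        · exact Or.inl fun y hy => absurd ⟨y, hy⟩ hne) (R := R) trivial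
  refine hn' H h₁ (mp_core (C := fun _ => True) (fun _ _ _ _ => trivial) (fun c _ hc => ?_)
    ⟨fun t => ¬ Good D t H, by fun_prop⟩ (fun _ => Iff.rfl) (fun t ht => ?_) trivial)
  · obtain ⟨c', h₃, h₄⟩ := hd c hc
    exact ⟨c', trivial, h₃, h₄⟩
  · rcases ht with rfl | ht
    · exact Or.inr fun R' _ h₃ => hn' R' (h₃.trans h₁)
    · exact (h₂ 0 t ht (Nat.zero_le _)).imp id fun h R' _ => h R'

/-- Countably many dense open sets are met by the conditions `(y | n, H)`. -/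
theorem cmp (hc : g.TDC) {D : ℕ → g.Cn → Prop} (hD : g.Tm fun z : ℕ × g.Cn => D z.1 z.2)
    (hd : ∀ j, Dns (D j)) (ho : ∀ j, Opn (D j)) (R : g.Rs) :
    ∃ H, RLe H R ∧ ∀ s y j, Cube s H y → ∃ n₀, ∀ n, n₀ ≤ n → D j (ini y n, H) := by
  obtain ⟨H, h₁, h₂⟩ := sf hc (C := fun _ => True) (by fun_prop)
    (P := fun j t R => Good (D j) t R ∧
      (NE (t, R) → D j (t, R) ∨ ∀ R', RLe R' R → ¬ D j (t, R'))) (by fun_prop)
    (fun j t R _ => by
      obtain ⟨R₁, h₁, h₂⟩ := mp0 hc (D := D j) (by fun_prop) (hd j) t R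
      by_cases h : ∃ R', RLe R' R₁ ∧ D j (t, R')
      · obtain ⟨R', h₃, h₄⟩ := h
        exact ⟨R', trivial, h₃.trans h₁, h₂.mono fun y => cube_le h₃, fun _ => Or.inl h₄⟩
      · exact ⟨R₁, trivial, h₁, h₂, fun _ => Or.inr fun R' h₃ h₄ => h ⟨R', h₃, h₄⟩⟩)
    (fun j t R R' h h' => by
      refine ⟨h.1.mono h', fun hne => ?_⟩
      rcases h.2 (hne.imp h') with h₁ | h₁
      · exact Or.inl (ho j _ _ h₁ ⟨hne, le_rfl, h'⟩)
      · refine Or.inr fun R'' h₂ h₃ => h₁ (meet R R'') (meet_le _ _) (ho j _ _ h₃ ?_)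
        have := meet_cube (h' _ (cube_le h₂ (hne.lm R''))) (hne.lm R'')
        exact ⟨⟨_, this.1⟩, le_rfl, this.2⟩) (R := R) trivial
  refine ⟨H, h₁, fun s y j hy => ?_⟩
  have h₃ : ∀ n, s.length < n → j ≤ n → Good (D j) (ini y n) H ∧
      (NE (ini y n, H) → D j (ini y n, H) ∨ ∀ R', RLe R' H → ¬ D j (ini y n, R')) :=
    fun n hn hj => h₂ j _ (tip_ini hy hn) (hj.trans (le_lcode_ini _ n))
  obtain ⟨c, hc₁, hc₂⟩ := (h₃ (s.length + 1 + j) (by omega) (by omega)).1 y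
    (cube_ini hy (by omega))
  have hy' : Cube (ini y (s.length + 1 + j + c.1.length)) H y := cube_ini hy (by omega)
  have h₄ := (cle_meet (c := (s, H)) (c' := c) (n := s.length + 1 + j + c.1.length) hy hc₂
    (by dsimp only; omega) (by omega)).2.2
  have h₅ := ((h₃ _ (by omega) (by omega)).2 ⟨y, hy'⟩).resolve_right
    fun h => h _ (meet_le _ _) (ho j _ _ hc₁ h₄)
  exact ⟨_, fun n hn => ho j _ _ h₅ (cle_ini hy' (by rwa [length_ini]))⟩

theorem fdense (hc : g.TDC) {D : ℕ → g.Cn → Prop} (hD : g.Tm fun z : ℕ × g.Cn => D z.1 z.2)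
    (hd : ∀ j, Dns (D j)) (ho : ∀ j, Opn (D j)) {y : g.Yy} (hy : Val y) (k : ℕ) :
    ∃ y' H, Below (ini y k) y' y ∧ ∀ y'', Val y'' → Sub y'' y' → ∀ j, ∃ n₀, ∀ n, n₀ ≤ n →
      D j (ini y'' n, H) ∧ Cube (ini y'' n) H y'' := by
  obtain ⟨H, h₁, h₂⟩ := cmp hc hD hd ho (res y)
  have h₃ := lm_cube hy k H
  refine ⟨_, H, (below_iff hy (by rw [length_ini])).2 (cube_le h₁ h₃), fun y'' hv hs j => ?_⟩
  obtain ⟨n₀, h₄⟩ := tail_cube h₃ hv hs
  obtain ⟨n₁, h₅⟩ := h₂ _ y'' j (h₄ n₀ le_rfl)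
  exact ⟨n₀ + n₁, fun n hn => ⟨h₅ n (by omega), h₄ n (by omega)⟩⟩

theorem gen_cube (hc : g.TDC) {C : g.Rs → Prop} (hC : g.Tm C) {D : ℕ → g.Cn → Prop}
    (hD : g.Tm fun z : ℕ × g.Cn => D z.1 z.2)
    (hm : ∀ j t R, C R → ∃ R', C R' ∧ RLe R' R ∧ Good (D j) t R') {R : g.Rs} (hR : C R) :
    ∃ H, RLe H R ∧ ∀ s y j, Cube s H y → ∃ c, D j c ∧ Cube c.1 c.2 y := by
  obtain ⟨H, h₁, h₂⟩ := sf hc hC (P := fun j t R => Good (D j) t R) (by fun_prop) hm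
    (fun _ _ _ _ h h' => h.mono h') hR
  refine ⟨H, h₁, fun s y j hy => ?_⟩
  exact h₂ j _ (tip_ini hy (n := s.length + 1 + j) (by omega))
    (le_trans (by omega) (le_lcode_ini _ _)) y (cube_ini hy (by omega))

end Mdl

end Pool.Agent.MP_09d684_lc

end

section

namespace Pool.Agent.MP_09d684_lc

open ZFSet

universe u v w

namespace Mdl

variable {g : Mdl.{u}}

open Cd

theorem LU.unif (h : g.LU) {α : Type*} [Cd g α] [RL g α] {ρ : g.Yy → α → Prop}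
    (hρ : g.Tm fun z : g.Yy × α => ρ z.1 z.2) {c : g.Cn} (hc : NE c)
    (tot : ∀ y, Cube c.1 c.2 y → ∃ a, ρ y a) :
    ∃ c', CLe c' c ∧ ∃ F : g.Yy → α, g.Tm F ∧ ∀ y, Cube c'.1 c'.2 y → ρ y (F y) := by
  obtain ⟨c', h₁, h₂ | ⟨F, h₂, h₃⟩⟩ := h (fun y r => ρ y (RL.dec r)) (by fun_prop) c hc
  · obtain ⟨y, hy⟩ := h₁.1
    obtain ⟨a, ha⟩ := tot y (h₁.2.2 y hy)
    exact absurd (by rwa [RL.dec_enc]) (h₂ y hy (RL.enc a))
  · exact ⟨c', h₁, fun y => RL.dec (F y), by fun_prop, h₃⟩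

theorem LU.ram (h : g.LU) {X : g.Yy → Prop} (hX : g.Tm X) {c : g.Cn} (hc : NE c) :
    ∃ c', CLe c' c ∧ ((∀ y, Cube c'.1 c'.2 y → X y) ∨ ∀ y, Cube c'.1 c'.2 y → ¬ X y) := by
  obtain ⟨c', h₁, h₂ | ⟨F, -, h₃⟩⟩ := h (fun y _ => X y) (by fun_prop) c hc
  exacts [⟨c', h₁, Or.inr fun y hy => h₂ y hy default⟩, ⟨c', h₁, Or.inl h₃⟩]

theorem exists_fn_fin {α : Type*} [Cd g α] [Inhabited α] (f : ℕ → α) (n : ℕ) :
    ∃ h : Fn g ℕ α, ∀ i, i < n → h i = f i :=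
  ⟨⟨fun k => (ini f n).getD k default, tm_getD_const _⟩, fun _ hi => getD_ini f _ hi⟩

theorem ini_of_le {α : Type*} {f h : ℕ → α} {m n : ℕ} (e : ini f n = ini h n) (hm : m ≤ n) :
    ini f m = ini h m := ini_eq_iff.2 fun k hk => ini_eq_iff.1 e k (by omega)

section

variable {F : g.Yy → Fn g ℕ g.Yy} {t : St} {H : g.Rs} {b : ℕ}

/-- The invariant of the construction of a chain. -/
def ChInv (F : g.Yy → Fn g ℕ g.Yy) (t : St) (H : g.Rs) (b n : ℕ) (z : ℕ → St × ℕ) : Prop :=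
  (∀ i, i ≤ n → b ≤ (z i).2 ∧ t.length ≤ (z i).1.length ∧
    ∃ y, Cube t H y ∧ ini y (z i).1.length = (z i).1) ∧
  ∀ i, i < n → ∀ p, p ∈ (z i).1 → ∀ y, Cube (z (i + 1)).1 H y → ∃ m, F y (z (i + 1)).2 m = p

theorem ChInv.congr {n : ℕ} {z z' : ℕ → St × ℕ} (h : ChInv F t H b n z)
    (e : ∀ i, i < n + 1 → z' i = z i) : ChInv F t H b n z' :=
  ⟨fun i hi => by rw [e i (by omega)]; exact h.1 i hi,
    fun i hi => by rw [e i (by omega), e (i + 1) (by omega)]; exact h.2 i hi⟩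

theorem ChInv.step (hb : b ≤ t.length)
    (hF : ∀ y, Cube t H y → ∀ k, b ≤ k → Below (ini y k) (F y k) y)
    (hd : ∀ y, Cube t H y → ∀ k p, ∃ n₀, ∀ n, n₀ ≤ n →
      (∀ y', Cube (ini y n) H y' → ∃ m, F y' k m = p) ∨
        ∀ y', Cube (ini y n) H y' → ¬ ∃ m, F y' k m = p)
    {n : ℕ} {z : ℕ → St × ℕ} (h : ChInv F t H b n z) : ∃ z', ChInv F t H b (n + 1) z' ∧
      ∀ i, i ≤ n → (z' i).2 = (z i).2 ∧ (z i).1.length < (z' i).1.length ∧
        ∀ j, j < (z i).1.length → (z' i).1.getD j default = (z i).1.getD j default := by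
  obtain ⟨w, hw, e⟩ : ∃ w, ChInv F t H b (n + 1) w ∧ ∀ i, i ≤ n → w i = z i := by
    obtain ⟨-, h₁, y₀, h₂, h₃⟩ := h.1 n le_rfl
    refine ⟨fun i => if i ≤ n then z i else ((z n).1, (z n).1.length), ⟨fun i hi => ?_,
      fun i hi p hp y hy => ?_⟩, fun i hi => if_pos hi⟩
    · dsimp only
      split_ifs with h'
      exacts [h.1 i h', ⟨hb.trans h₁, h₁, y₀, h₂, h₃⟩]
    · simp only [if_pos (show i ≤ n by omega)] at hp
      by_cases h' : i + 1 ≤ n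
      · simp only [if_pos h'] at hy ⊢
        exact h.2 i h' p hp y hy
      · simp only [if_neg h'] at hy ⊢
        obtain rfl : i = n := by omega
        have := (hF y (cube_of_ini h₂ h₁ (h₃.symm ▸ hy)) _ (hb.trans h₁)).1
        rw [length_ini, hy.1] at this
        obtain ⟨k, -, hk⟩ := mem_ini.1 (this.symm ▸ hp)
        exact ⟨k, hk⟩
  obtain ⟨y₀, h₀, e₀⟩ := (hw.1 (n + 1) le_rfl).2.2
  let Y : ℕ → g.Yy := fun j => Nat.rec y₀
    (fun j y => lm (w (n - j)).1 (res (F y (w (n - j + 1)).2))) j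
  have down : ∀ i y, i ≤ n → Cube t H y → ini y (w (i + 1)).1.length = (w (i + 1)).1 →
      Cube t H (lm (w i).1 (res (F y (w (i + 1)).2))) ∧
      ini (lm (w i).1 (res (F y (w (i + 1)).2))) (w i).1.length = (w i).1 ∧
      Sub (lm (w i).1 (res (F y (w (i + 1)).2))) (F y (w (i + 1)).2) := by
    intro i y hi h₁ h₂
    obtain ⟨h₃, h₄, -⟩ := hw.1 (i + 1) (by omega)
    obtain ⟨-, h₅, y₁, h₆, h₇⟩ := hw.1 i (by omega)
    have h₈ := lm_cube h₆.2.1 (w i).1.length (res (F y (w (i + 1)).2))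
    rw [h₇] at h₈
    have h₉ := hF y h₁ _ h₃
    have hs := cube_res h₉.2.1 (fun p hp => (hw.2 i (by omega) p hp y
      (h₂ ▸ cube_ini h₁ h₄)).imp fun _ => Eq.symm) h₈
    exact ⟨sub_cube h₁ ⟨(ini_of_le (h₈.1.trans h₇.symm) h₅).trans h₆.1, h₈.2.1, hs.trans h₉.2.2⟩,
      h₈.1, hs⟩
  have hY : ∀ j, j ≤ n + 1 → Cube t H (Y j) ∧
      ini (Y j) (w (n + 1 - j)).1.length = (w (n + 1 - j)).1 := fun j => by
    induction j with
    | zero => exact fun _ => ⟨h₀, e₀⟩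
    | succ j ih =>
      intro hj
      obtain ⟨h₁, h₂⟩ := ih (by omega)
      rw [show n + 1 - j = n - j + 1 by omega] at h₂
      rw [show n + 1 - (j + 1) = n - j by omega]
      exact ⟨(down _ _ (by omega) h₁ h₂).1, (down _ _ (by omega) h₁ h₂).2.1⟩
  obtain ⟨y, hy, hs⟩ : ∃ y : ℕ → g.Yy, (∀ i, i ≤ n + 1 → Cube t H (y i) ∧
      ini (y i) (w i).1.length = (w i).1) ∧
      ∀ i, i ≤ n → Sub (y i) (F (y (i + 1)) (w (i + 1)).2) := by
    refine ⟨fun i => Y (n + 1 - i), fun i hi => ?_, fun i hi => ?_⟩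
    · have := hY (n + 1 - i) (by omega)
      rwa [show n + 1 - (n + 1 - i) = i by omega] at this
    · obtain ⟨h₁, h₂⟩ := hY (n - i) (by omega)
      rw [show n + 1 - (n - i) = n - (n - i) + 1 by omega] at h₂
      have := (down _ _ (by omega) h₁ h₂).2.2
      dsimp only
      rw [show n + 1 - i = n - i + 1 by omega, show n + 1 - (i + 1) = n - i by omega]
      convert this using 4
      omega
  have cut : ∀ i (l : St), ∃ m, i ≤ n + 1 → (w i).1.length < m ∧ ∀ p ∈ l,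
      (∃ m', F (y i) (w i).2 m' = p) → ∀ y', Cube (ini (y i) m) H y' →
        ∃ m', F y' (w i).2 m' = p := fun i l => by
    by_cases hi : i ≤ n + 1
    · suffices ∃ m₀, ∀ m, m₀ ≤ m → ∀ p ∈ l, (∃ m', F (y i) (w i).2 m' = p) →
          ∀ y', Cube (ini (y i) m) H y' → ∃ m', F y' (w i).2 m' = p from
        this.elim fun m₀ h => ⟨m₀ + (w i).1.length + 1, fun _ => ⟨by omega, h _ (by omega)⟩⟩
      induction l with
      | nil => exact ⟨0, by simp⟩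
      | cons a l ih =>
        obtain ⟨m₀, h₁⟩ := ih
        obtain ⟨m₁, h₂⟩ := hd _ (hy i hi).1 (w i).2 a
        refine ⟨m₀ + m₁ + t.length, fun m hm p hp h₃ => ?_⟩
        rcases List.mem_cons.1 hp with rfl | hp
        · exact (h₂ m (by omega)).resolve_right fun h => h _ (cube_ini (hy i hi).1 (by omega)) h₃
        · exact h₁ m (by omega) p hp h₃
    · exact ⟨0, fun h => absurd h hi⟩
  choose M hM using cut
  let m : ℕ → ℕ := fun i => Nat.rec (M 0 []) (fun i a => M (i + 1) (ini (y i) a)) i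
  have hm : ∀ i, i ≤ n + 1 → (w i).1.length < m i := fun i hi => by
    cases i with
    | zero => exact (hM 0 [] hi).1
    | succ i => exact (hM _ _ hi).1
  refine ⟨fun i => (ini (y i) (m i), (w i).2), ⟨fun i hi => ⟨(hw.1 i hi).1, ?_, y i, (hy i hi).1,
    by simp⟩, fun i hi p hp => (hM (i + 1) _ hi).2 p hp ?_⟩, fun i hi => ?_⟩
  · have := (hw.1 i hi).2.1
    have := hm i hi
    simp only [length_ini]
    omega
  · obtain ⟨k, -, rfl⟩ := mem_ini.1 hp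
    exact (hs i (by omega) k).imp fun _ => Eq.symm
  · have h₁ := hm i (by omega)
    have h₂ := (hy i (by omega)).2
    rw [← e i hi]
    refine ⟨rfl, by simpa using h₁, fun j hj => ?_⟩
    rw [getD_ini _ _ (hj.trans h₁), ← h₂, getD_ini _ _ hj]

end

/-- The descending chain lemma. -/
theorem chain (hc : g.TDC) (hu : g.LU) {Q : g.Yy → g.Yy → Prop}
    (hQ : g.Tm fun z : g.Yy × g.Yy => Q z.1 z.2) {s : St} {R : g.Rs} (hne : NE (s, R))
    (ha : ∀ y y' y'', Q y y' → Below s y'' y' → Q y y'')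
    (hb : ∀ y, Cube s R y → ∀ k, s.length ≤ k → ∃ y', Below (ini y k) y' y ∧ Q y y') :
    ∃ f : Fn g ℕ g.Yy, ∀ i, Cube s R (f i) ∧ Q (f (i + 1)) (f i) := by
  obtain ⟨⟨t, H₀⟩, h₀, F, hF, h₁⟩ := hu.unif (α := Fn g ℕ g.Yy) (ρ := fun y f => ∀ k,
    s.length ≤ k → Below (ini y k) (f k) y ∧ Q y (f k)) (by fun_prop) hne fun y hy =>
      hc.cc (Q := fun k y' => s.length ≤ k → Below (ini y k) y' y ∧ Q y y') (by fun_prop)
        fun k => by
          by_cases hk : s.length ≤ k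
          exacts [(hb y hy k hk).imp fun _ h _ => h, ⟨y, fun h => absurd h hk⟩]
  let D : ℕ × Pt → g.Cn → Prop := fun a c => (∀ y, Cube c.1 c.2 y → ∃ m, F y a.1 m = a.2) ∨
    ∀ y, Cube c.1 c.2 y → ¬ ∃ m, F y a.1 m = a.2
  obtain ⟨H, hH, h₂⟩ := cmp hc (D := fun j => D (NL.dec g j)) (by fun_prop)
    (fun j c hc => hu.ram (by fun_prop) hc)
    (fun j c c' h h' => h.imp (fun h y hy => h y (h'.2.2 y hy)) fun h y hy => h y (h'.2.2 y hy)) H₀
  have h₃ : ∀ y, Cube t H y → ∀ k, s.length ≤ k → Below (ini y k) (F y k) y ∧ Q y (F y k) :=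
    fun y hy => h₁ y (cube_le hH hy)
  obtain ⟨σ, e₀, hσ⟩ := hc.dc (α := ℕ × Fn g ℕ (St × ℕ))
    (S := fun a => ChInv F t H s.length a.1 a.2) (by unfold ChInv; fun_prop)
    (Q := fun a a' => a'.1 = a.1 + 1 ∧ ∀ i, i ≤ a.1 → (a'.2 i).2 = (a.2 i).2 ∧
      (a.2 i).1.length < (a'.2 i).1.length ∧ ∀ j, j < (a.2 i).1.length →
        (a'.2 i).1.getD j default = (a.2 i).1.getD j default) (by fun_prop) (fun a h => by
      obtain ⟨z, h₄, h₅⟩ := h.step h₀.2.1 (fun y hy k hk => (h₃ y hy k hk).1) fun y hy k p => by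
        have := h₂ t y (NL.enc g (k, p)) hy
        rwa [NL.dec_enc] at this
      obtain ⟨z', e⟩ := exists_fn_fin (g := g) z (a.1 + 2)
      exact ⟨(a.1 + 1, z'), h₄.congr e, rfl, fun i hi => (e i (by omega)).symm ▸ h₅ i hi⟩)
    (a₀ := (0, ⟨fun _ => (t, s.length), by fun_prop⟩))
    ⟨fun _ _ => ⟨le_rfl, le_rfl, _, h₀.1.lm H, (h₀.1.lm H).1⟩, fun _ h => absurd h (by simp)⟩
  have e₁ : ∀ n, (σ n).1 = n := fun n => by
    induction n with
    | zero => rw [e₀]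
    | succ n ih => rw [(hσ n).2.1, ih]
  have inv : ∀ n, ChInv F t H s.length n (σ n).2 := fun n => by simpa only [e₁] using (hσ n).1
  have ext : ∀ i n, i ≤ n → ∀ n', n ≤ n' → ((σ n').2 i).2 = ((σ n).2 i).2 ∧
      ((σ n).2 i).1.length + n' ≤ ((σ n').2 i).1.length + n ∧ ∀ j, j < ((σ n).2 i).1.length →
        ((σ n').2 i).1.getD j default = ((σ n).2 i).1.getD j default := by
    intro i n hi n' hn
    induction n', hn using Nat.le_induction with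
    | base => exact ⟨rfl, le_rfl, fun _ _ => rfl⟩
    | succ n' hn ih =>
      obtain ⟨h₄, h₅, h₆⟩ := (hσ n').2.2 i (by rw [e₁]; omega)
      exact ⟨h₄.trans ih.1, by omega, fun j hj => (h₆ j (by omega)).trans (ih.2.2 j hj)⟩
  let f : Fn g ℕ g.Yy := ⟨fun i => ⟨fun j => ((σ (i + j + 1)).2 i).1.getD j default, by fun_prop⟩,
    by fun_prop⟩
  have len : ∀ i j, j < ((σ (i + j + 1)).2 i).1.length := fun i j => by
    have := (ext i i le_rfl (i + j + 1) (by omega)).2.1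
    omega
  have lim : ∀ i n, i ≤ n → ini (f i) ((σ n).2 i).1.length = ((σ n).2 i).1 := fun i n hi => by
    refine (ini_eq_iff.2 fun j hj => ?_).trans (ini_getD _ default)
    exact ((ext i _ (by omega) (i + j + 1 + n) (by omega)).2.2 j (len i j)).symm.trans
      ((ext i n hi _ (by omega)).2.2 j hj)
  have cube : ∀ i, Cube t H (f i) := fun i => cube_closed fun n => by
    obtain ⟨-, -, y, h₄, h₅⟩ := (inv (i + n + 1)).1 i (by omega)
    exact ⟨y, h₄, ini_of_le (h₅.trans (lim i _ (by omega)).symm) (len i n).le⟩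
  refine ⟨f, fun i => ?_⟩
  have h₄ : Cube s R (f i) := h₀.2.2 _ (cube_le hH (cube i))
  refine ⟨h₄, ha _ _ _ (h₃ _ (cube (i + 1)) _ ((inv (i + 1)).1 (i + 1) le_rfl).1).2
    ⟨h₄.1, h₄.2.1, fun j => ?_⟩⟩
  rw [← (ext (i + 1) _ le_rfl (i + j + 1) (by omega)).1]
  refine ((inv (i + j + 1)).2 i (by omega) _ ?_ _ ?_).imp fun _ => Eq.symm
  · rw [← lim i _ (by omega)]
    exact mem_ini.2 ⟨j, len i j, rfl⟩
  · rw [← lim (i + 1) _ (by omega)]
    exact cube_ini (cube _) ((inv _).1 _ (by omega)).2.1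

end Mdl

end Pool.Agent.MP_09d684_lc

end
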