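import Pool.Agent.Mg.F09d684.Ga313b4
import Pool.Agent.Mg.F09d684.Ge05232

section

namespace Pool.Agent.MP_09d684_lc

open ZFSet

universe u v w

namespace Mdl

variable {g : Mdl.{u}}

open Cd

/-- The play in which the player of parity `i` follows the strategy coded by `b` and the other
player plays `d`. -/
noncomputable def mplay (i : ℕ) (b d : g.Re) : g.Re :=
  g.fix fun n f => if n % 2 = i then b (g.lcode (ini f n)) else d (n / 2)

@[fun_prop] theorem tm_mplay {Γ : Type*} [Cd g Γ] {i : Γ → ℕ} {b d : Γ → g.Re} (h₀ : g.Tm i)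
    (h₁ : g.Tm b) (h₂ : g.Tm d) : g.Tm fun x => mplay (i x) (b x) (d x) := by
  unfold mplay; fun_prop

theorem mplay_eq (i : ℕ) (b d : g.Re) (n : ℕ) : mplay i b d n =
    if n % 2 = i then b (g.lcode (ini (mplay i b d) n)) else d (n / 2) := by
  unfold mplay
  refine fix_eq (by fun_prop) (fun n f h e => ?_) n
  rw [ini_eq_iff.2 e]

/-- Parts of a real: even part, odd part, columns. -/
def mpart (c : ℕ) (a : g.Re) : g.Re :=
  ⟨fun n => if c < 2 then a (2 * n + c) else a (Nat.pair (c - 2) n), by fun_prop⟩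

@[fun_prop] theorem tm_mpart {Γ : Type*} [Cd g Γ] {i : Γ → ℕ} {b : Γ → g.Re} (h₀ : g.Tm i)
    (h₁ : g.Tm b) : g.Tm fun x => mpart (i x) (b x) := by
  unfold mpart; fun_prop

/-- The operations. -/
noncomputable def mop (c : ℕ) (a b : g.Re) : g.Re :=
  if c < 2 then mplay c a b else mpart (c - 2) a

@[fun_prop] theorem tm_mop {Γ : Type*} [Cd g Γ] {i : Γ → ℕ} {b d : Γ → g.Re} (h₀ : g.Tm i)
    (h₁ : g.Tm b) (h₂ : g.Tm d) : g.Tm fun x => mop (i x) (b x) (d x) := by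
  unfold mop; fun_prop

/-- An enumeration of the closure of `d` under countably many operations. -/
noncomputable def En (d : g.Re) : Fn g ℕ g.Re :=
  g.fix fun n f => if n = 0 then d else
    mop (n - 1).unpair.1 (f (n - 1).unpair.2.unpair.1) (f (n - 1).unpair.2.unpair.2)

@[fun_prop] theorem tm_En {Γ : Type*} [Cd g Γ] {d : Γ → g.Re} (h : g.Tm d) :
    g.Tm fun x => En (d x) := by unfold En; fun_prop

theorem unpair_le₁ (n : ℕ) : n.unpair.2.unpair.1 ≤ n :=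
  (Nat.unpair_left_le _).trans (Nat.unpair_right_le _)

theorem unpair_le₂ (n : ℕ) : n.unpair.2.unpair.2 ≤ n :=
  (Nat.unpair_right_le _).trans (Nat.unpair_right_le _)

theorem En_eq (d : g.Re) (n : ℕ) : En d n = if n = 0 then d else
    mop (n - 1).unpair.1 (En d (n - 1).unpair.2.unpair.1) (En d (n - 1).unpair.2.unpair.2) := by
  unfold En
  refine fix_eq (by fun_prop) (fun n f h e => ?_) n
  split_ifs with hn
  · rfl
  · rw [e _ (by have := unpair_le₁ (n - 1); omega), e _ (by have := unpair_le₂ (n - 1); omega)]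

theorem En_zero (d : g.Re) : En d 0 = d := by rw [En_eq, if_pos rfl]

theorem En_succ (d : g.Re) (n : ℕ) : En d (n + 1) =
    mop n.unpair.1 (En d n.unpair.2.unpair.1) (En d n.unpair.2.unpair.2) := by
  rw [En_eq, if_neg (by omega), Nat.add_sub_cancel]

/-- The degree of `d`, as a countable set of reals. -/
noncomputable def Xs (d : g.Re) : g.PR := ⟨fun x => ∃ k, En d k = x, by fun_prop⟩

@[fun_prop] theorem tm_Xs {Γ : Type*} [Cd g Γ] {d : Γ → g.Re} (h : g.Tm d) :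
    g.Tm fun x => Xs (d x) := by unfold Xs; fun_prop

theorem Xs_self (d : g.Re) : Xs d d := ⟨0, En_zero d⟩

theorem Xs_mop {d a b : g.Re} (c : ℕ) (ha : Xs d a) (hb : Xs d b) : Xs d (mop c a b) := by
  obtain ⟨i, rfl⟩ := ha
  obtain ⟨j, rfl⟩ := hb
  exact ⟨Nat.pair c (Nat.pair i j) + 1, by simp [En_succ]⟩

theorem Xs_mplay {d a b : g.Re} {c : ℕ} (hc : c < 2) (ha : Xs d a) (hb : Xs d b) :
    Xs d (mplay c a b) := by
  have := Xs_mop c ha hb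
  rwa [mop, if_pos hc] at this

theorem Xs_mpart {d a : g.Re} (c : ℕ) (ha : Xs d a) : Xs d (mpart c a) := by
  have := Xs_mop (c + 2) ha ha
  rwa [mop, if_neg (by omega), Nat.add_sub_cancel] at this

theorem Xs_trans {d a b : g.Re} (ha : Xs d a) (hb : Xs a b) : Xs d b := by
  obtain ⟨n, rfl⟩ := hb
  induction n using Nat.strong_induction_on with
  | _ n ih =>
    cases n with
    | zero => rwa [En_zero]
    | succ n =>
      rw [En_succ]
      exact Xs_mop _ (ih _ (Nat.lt_succ_of_le (unpair_le₁ n)))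
        (ih _ (Nat.lt_succ_of_le (unpair_le₂ n)))

theorem Xs_eq {d a : g.Re} (h₁ : Xs d a) (h₂ : Xs a d) : Xs a = Xs d :=
  Fn.ext' fun _ => propext ⟨Xs_trans h₁, Xs_trans h₂⟩

theorem exists_join (f : Fn g ℕ g.Re) : ∃ b : g.Re, ∀ d, Xs d b → ∀ n, Xs d (f n) := by
  refine ⟨⟨fun m => f m.unpair.1 m.unpair.2, by fun_prop⟩, fun d hd n => ?_⟩
  have := Xs_mpart (n + 2) hd
  convert this using 1
  refine Fn.ext' fun k => ?_
  simp [mpart]

theorem Xs_mplay_eq {d b : g.Re} {c : ℕ} (hc : c < 2) (hb : Xs d b) :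
    Xs (mplay c b d) = Xs d := by
  refine Xs_eq (Xs_mplay hc hb (Xs_self d)) ?_
  have := Xs_mpart (1 - c) (Xs_self (mplay c b d))
  convert this using 1
  refine Fn.ext' fun k => ?_
  have h₁ : 1 - c < 2 := by omega
  have h₂ : (2 * k + (1 - c)) % 2 ≠ c := by omega
  have h₃ : (2 * k + (1 - c)) / 2 = k := by omega
  simp only [mpart, if_pos h₁]
  rw [mplay_eq, if_neg h₂, h₃]

theorem exists_strat_code {σ : ℕ → Fn g ℕ ℕ → ℕ} (h₁ : g.Tm fun z : ℕ × Fn g ℕ ℕ => σ z.1 z.2)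
    (h₂ : Causal σ) : ∃ b : g.Re, ∀ (x : g.Re) (n : ℕ), b (g.lcode (ini x n)) = σ n x := by
  refine ⟨⟨fun m => σ (NL.dec g m : List ℕ).length
    (⟨fun k => (NL.dec g m : List ℕ).getD k 0, by fun_prop⟩ : Fn g ℕ ℕ), by fun_prop⟩,
    fun x n => ?_⟩
  have : (NL.dec g (g.lcode (ini x n)) : List ℕ) = ini x n := by
    rw [← nenc_list, NL.dec_enc]
  simp only [this, length_ini]
  exact h₂ _ _ _ fun k hk => getD_ini _ _ hk

/-- True on a cone. -/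
def AE (P : g.PR → Prop) : Prop := ∃ b, ∀ d, Xs d b → P (Xs d)

@[fun_prop] theorem tm_AE {Γ : Type*} [Cd g Γ] {P : Γ → g.PR → Prop}
    (h : g.Tm fun z : Γ × g.PR => P z.1 z.2) : g.Tm fun x => AE (P x) := by unfold AE; fun_prop

variable {P Q : g.PR → Prop}

theorem ae_fine (r : g.Re) : AE fun X : g.PR => X r := ⟨r, fun _ h => h⟩

theorem AE.mono (h : AE P) (h' : ∀ X, P X → Q X) : AE Q := by
  obtain ⟨b, hb⟩ := h
  exact ⟨b, fun d hd => h' _ (hb d hd)⟩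

theorem AE.and (h : AE P) (h' : AE Q) : AE fun X => P X ∧ Q X := by
  obtain ⟨a, ha⟩ := h
  obtain ⟨b, hb⟩ := h'
  obtain ⟨c, hc⟩ := exists_join (⟨fun n => if n = 0 then a else b, by fun_prop⟩ : Fn g ℕ g.Re)
  exact ⟨c, fun d hd => ⟨ha d (by simpa using hc d hd 0), hb d (by simpa using hc d hd 1)⟩⟩

theorem AE.ex (h : AE P) : ∃ d, P (Xs d) := by
  obtain ⟨b, hb⟩ := h
  exact ⟨b, hb b (Xs_self b)⟩

theorem ae_or (hd : g.TDet ℕ) (hP : g.Tm P) : AE P ∨ AE fun X => ¬ P X := by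
  obtain ⟨σ, h₁, h₂, h₃⟩ := hd (fun x => P (Xs x)) (by fun_prop)
  obtain ⟨b, hb⟩ := exists_strat_code h₁ h₂
  rcases h₃ with h₃ | h₃
  · refine Or.inl ⟨b, fun d hd => ?_⟩
    rw [← Xs_mplay_eq (c := 0) (by omega) hd]
    exact h₃ _ fun n hn => by rw [mplay_eq, if_pos hn, hb]
  · refine Or.inr ⟨b, fun d hd => ?_⟩
    rw [← Xs_mplay_eq (c := 1) (by omega) hd]
    exact h₃ _ fun n hn => by rw [mplay_eq, if_pos hn, hb]

theorem ae_all (hc : g.TDC) {P : ℕ → g.PR → Prop} (hP : g.Tm fun z : ℕ × g.PR => P z.1 z.2)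
    (h : ∀ n, AE (P n)) : AE fun X => ∀ n, P n X := by
  obtain ⟨f, hf⟩ := hc.cc (α := g.Re) (β := ℕ) (Q := fun n b => ∀ d, Xs d b → P n (Xs d))
    (by fun_prop) h
  obtain ⟨b, hb⟩ := exists_join f
  exact ⟨b, fun d hd n => hf n d (hb d hd n)⟩

theorem ae_const (hd : g.TDet ℕ) (hc : g.TDC) {α : Type*} [Cd g α] [RL g α] {G : g.PR → α}
    (hG : g.Tm G) : ∃ a, AE fun X => G X = a := by
  have h₁ : ∀ n, ∃ m, AE fun X => (RL.enc (G X) : g.Re) n = m := by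
    intro n
    by_contra hn
    obtain ⟨d, h⟩ := (ae_all hc (P := fun m X => ¬ (RL.enc (G X) : g.Re) n = m) (by fun_prop)
      fun m => (ae_or hd (by fun_prop)).resolve_left fun h => hn ⟨m, h⟩).ex
    exact h _ rfl
  let r : g.Re := ⟨fun n => g.least fun m => AE fun X => (RL.enc (G X) : g.Re) n = m, by fun_prop⟩
  refine ⟨RL.dec r, (ae_all hc (P := fun n X => (RL.enc (G X) : g.Re) n = r n) (by fun_prop)
    fun n => least_spec (h₁ n)).mono fun X h => ?_⟩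
  rw [← Fn.ext' h, RL.dec_enc]

theorem not_ae_new (hd : g.TDet ℕ) (hc : g.TDC) {α : Type*} [Cd g α] [RL g α] {G : g.PR → α}
    (hG : g.Tm G) : ∃ d, Xs d (RL.enc (G (Xs d))) := by
  obtain ⟨a, ha⟩ := ae_const hd hc hG
  obtain ⟨d, h₁, h₂⟩ := (ha.and (ae_fine (RL.enc a))).ex
  exact ⟨d, h₁ ▸ h₂⟩

theorem ctbl_of_wo (hd : g.TDet ℕ) (hc : g.TDC) {W α : Type*} [Cd g W] [WO g W] [Inhabited W]
    [Cd g α] [RL g α] {h : W → α} (hh : g.Tm h) : ∃ e : Fn g ℕ α, ∀ w, ∃ n, e n = h w := by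
  obtain ⟨d, h₁⟩ := not_ae_new hd hc
    (G := fun X : g.PR => h (g.least fun w => ¬ X (RL.enc (h w)))) (by fun_prop)
  refine ⟨⟨fun n => RL.dec (En d n), by fun_prop⟩, fun w => ?_⟩
  have : Xs d (RL.enc (h w)) := by
    by_contra hw
    exact least_spec (g := g) (P := fun w => ¬ Xs d (RL.enc (h w))) ⟨w, hw⟩ h₁
  obtain ⟨n, hn⟩ := this
  exact ⟨n, by simp [hn]⟩

theorem ae_range (hd : g.TDet ℕ) (hc : g.TDC) {W α : Type*} [Cd g W] [WO g W] [Inhabited W]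
    [Cd g α] [RL g α] {h : g.PR → W → α} (hh : g.Tm fun z : g.PR × W => h z.1 z.2) :
    ∃ e : Fn g ℕ α, AE fun X => ∀ a, (∃ w, h X w = a) ↔ ∃ n, e n = a := by
  classical
  let _ : Inhabited α := ⟨RL.dec (default : g.Re)⟩
  obtain ⟨R, hR⟩ : ∃ R : α → Prop, R = fun a => AE fun X => ∃ w, h X w = a := ⟨_, rfl⟩
  have tR : g.Tm R := by rw [hR]; fun_prop
  obtain ⟨ix, hix⟩ : ∃ ix : g.PR → α → W, ix = fun X a => g.least fun w => h X w = a := ⟨_, rfl⟩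
  have tix : g.Tm fun z : g.PR × α => ix z.1 z.2 := by rw [hix]; fun_prop
  have six : ∀ X a, (∃ w, h X w = a) → h X (ix X a) = a := fun X a H => by
    rw [hix]; exact least_spec (g := g) H
  obtain ⟨lt, hlt⟩ : ∃ lt : α → α → Prop,
    lt = fun a b => AE fun X => WO.lt g (ix X a) (ix X b) := ⟨_, rfl⟩
  have tlt : g.Tm fun z : α × α => lt z.1 z.2 := by rw [hlt]; fun_prop
  have tri : ∀ a b, R a → R b → ¬ lt a b → ¬ lt b a → a = b := by
    intro a b ha hb h₁ h₂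
    rw [hR] at ha hb
    rw [hlt] at h₁ h₂
    obtain ⟨d, ⟨h₃, h₄⟩, h₅, h₆⟩ := ((ha.and hb).and
      (((ae_or hd (by fun_prop)).resolve_left h₁).and
        ((ae_or hd (by fun_prop)).resolve_left h₂))).ex
    rcases WO.tri (g := g) (ix (Xs d) a) (ix (Xs d) b) with e | e | e
    · exact absurd e h₅
    · rw [← six _ _ h₃, e, six _ _ h₄]
    · exact absurd e h₆
  have hmin : ∀ S : α → Prop, g.Tm S → ∀ a, S a → ∃ b, S b ∧ ∀ c, S c → ¬ lt c b := by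
    intro S tS a ha
    by_contra hn
    push Not at hn
    obtain ⟨f, -, hf⟩ := hc.dc tS (Q := fun a b => lt b a) (by fun_prop) hn ha
    obtain ⟨d, hd'⟩ := (ae_all hc (P := fun n X => WO.lt g (ix X (f (n + 1))) (ix X (f n)))
      (by fun_prop) fun n => by have := (hf n).2; rwa [hlt] at this).ex
    obtain ⟨_, ⟨n, rfl⟩, hm⟩ := (WO.wf (g := g)).has_min
      (Set.range fun n => ix (Xs d) (f n)) ⟨_, 0, rfl⟩
    exact hm _ ⟨n + 1, rfl⟩ (hd' n)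
  obtain ⟨d, h₁⟩ := not_ae_new hd hc (G := fun X : g.PR => the fun b : α =>
    (R b ∧ ¬ X (RL.enc b)) ∧ ∀ c, (R c ∧ ¬ X (RL.enc c)) → ¬ lt c b) (by fun_prop)
  have h₂ : ∀ a, R a → Xs d (RL.enc a) := by
    intro a ha
    by_contra hn
    obtain ⟨b, hb⟩ := hmin (fun c => R c ∧ ¬ Xs d (RL.enc c)) (by fun_prop) a ⟨ha, hn⟩
    rw [the_eq (a := b) fun c => ⟨fun H => tri _ _ H.1.1 hb.1.1 (hb.2 _ H.1) (H.2 _ hb.1),
      fun e => e ▸ hb⟩] at h₁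
    exact hb.1.2 h₁
  have h₃ : AE fun X => ∀ w, R (h X w) := by
    refine (ae_or hd (by fun_prop)).resolve_right fun H => ?_
    obtain ⟨a, ha⟩ := ae_const hd hc
      (G := fun X : g.PR => h X (g.least fun w => ¬ R (h X w))) (by fun_prop)
    have h₄ : R a := by rw [hR]; exact ha.mono fun X e => ⟨_, e⟩
    obtain ⟨d', h₅, h₆⟩ := (H.and ha).ex
    exact least_spec (g := g) (P := fun w => ¬ R (h (Xs d') w)) (not_forall.1 h₅) (h₆ ▸ h₄)
  obtain ⟨d₀, h₀⟩ := h₃.ex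
  let e : Fn g ℕ α := ⟨fun n => if R (RL.dec (En d n)) then RL.dec (En d n) else
    h (Xs d₀) default, by fun_prop⟩
  have h₄ : ∀ n, R (e n) := fun n => by
    simp only [e]
    split_ifs with H
    exacts [H, h₀ _]
  have h₅ : ∀ a, R a → ∃ n, e n = a := fun a ha => by
    obtain ⟨n, hn⟩ := h₂ a ha
    exact ⟨n, by simp [e, hn, ha]⟩
  refine ⟨e, (h₃.and (ae_all hc (P := fun n X => ∃ w, h X w = e n) (by fun_prop)
    fun n => by have := h₄ n; rwa [hR] at this)).mono fun X H a => ⟨?_, ?_⟩⟩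
  · rintro ⟨w, rfl⟩
    exact h₅ _ (H.1 w)
  · rintro ⟨n, rfl⟩
    exact H.2 n

end Mdl

end Pool.Agent.MP_09d684_lc

end

section

namespace Pool.Agent.MP_09d684_lc

open ZFSet

universe u v w

namespace Mdl

variable {g : Mdl.{u}}

open Cd

/-- The element of the space coded by the even part of a real. -/
def yx (x : g.Re) : g.Yy := ⟨fun n => (x (2 * n)).unpair, by fun_prop⟩

@[fun_prop] theorem tm_yx {Γ : Type*} [Cd g Γ] {x : Γ → g.Re} (h : g.Tm x) :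
    g.Tm fun a => yx (x a) := by unfold yx; fun_prop

/-- The sets of a well-founded system, defined in the model. -/
theorem ws_exists_A {Γ J : Type*} [Cd g Γ] [Cd g J] [Bd g J]
    {ch : Γ → J → J → Prop} (wf : ∀ x, WellFounded (ch x))
    (hch : g.Tm fun z : Γ × J × J => ch z.1 z.2.1 z.2.2) {bas : Γ → J → St → Prop}
    (hbas : g.Tm fun z : Γ × J × St => bas z.1 z.2.1 z.2.2) :
    ∃ A : Γ → J → g.Yy → Prop, g.Tm (fun z : Γ × J × g.Yy => A z.1 z.2.1 z.2.2) ∧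
      ∀ x j y, A x j y ↔ (∀ n, bas x j (ini y n)) ∧ ∀ j', ch x j' j → ¬ A x j' y := by
  obtain ⟨Ψ, hΨ, eΨ⟩ : ∃ Ψ : Γ → J → Fn g J (Fn g g.Yy Prop) → Fn g g.Yy Prop,
      g.Tm (fun z : Γ × J × Fn g J (Fn g g.Yy Prop) => Ψ z.1 z.2.1 z.2.2) ∧
      ∀ x j f y, Ψ x j f y ↔ (∀ n, bas x j (ini y n)) ∧ ∀ j', ch x j' j → ¬ f j' y :=
    ⟨fun x j f => ⟨fun y => (∀ n, bas x j (ini y n)) ∧ ∀ j', ch x j' j → ¬ f j' y, by fun_prop⟩,
      by fun_prop, fun _ _ _ _ => Iff.rfl⟩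
  obtain ⟨F, h₁, h₂⟩ : ∃ F : Γ → Fn g J (Fn g g.Yy Prop), g.Tm F ∧
      ∀ x j, F x j = Ψ x j (F x) := ⟨fun x => g.rfix (ch x) (Ψ x), tm_rfix wf hch hΨ,
    fun x j => rfix_eq (wf x) (by fun_prop) (by fun_prop)
      (fun a f h e => Fn.ext' fun c => propext (by
        rw [eΨ, eΨ]
        exact and_congr_right fun _ => forall_congr' fun j' => forall_congr' fun hj => by
          rw [e j' hj])) j⟩
  refine ⟨fun x j c => F x j c, by fun_prop, fun x j c => ?_⟩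
  show F x j c ↔ _
  rw [h₂, eΨ]

/-- The tree that computes the hierarchy `W`. -/
theorem ws_tree {T D P : Type (u + 1)} [Cd g T] [Bd g T] [LinearOrder T] [OT g T] [Inhabited T]
    [Cd g D] [Bd g D] [WO g D] [Inhabited D] [Cd g P] [Bd g P] [WO g P] [Inhabited P]
    {C : g.PR → P → St → Prop} (hC : g.Tm fun z : g.PR × P × St => C z.1 z.2.1 z.2.2)
    {R : g.PR → D → P → P → Prop}
    (hR : g.Tm fun z : g.PR × D × P × P => R z.1 z.2.1 z.2.2.1 z.2.2.2) (p₀ : P) :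
    ∃ (J : Type (u + 1)) (_ : Cd g J) (_ : Bd g J) (_ : WO g J) (_ : Inhabited J)
      (ch : g.PR → J → J → Prop) (bas : g.PR → J → St → Prop) (A : g.PR → J → g.Yy → Prop)
      (root : J) (W : g.PR → T → P → g.Yy → Prop), (∀ X, WellFounded (ch X)) ∧
      g.Tm (fun z : g.PR × J × J => ch z.1 z.2.1 z.2.2) ∧
      g.Tm (fun z : g.PR × J × St => bas z.1 z.2.1 z.2.2) ∧
      (∀ X j y, A X j y ↔ (∀ n, bas X j (ini y n)) ∧ ∀ j', ch X j' j → ¬ A X j' y) ∧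
      (∀ X, g.Tm fun z : T × P × g.Yy => W X z.1 z.2.1 z.2.2) ∧
      (∀ X a p y, W X a p y ↔ (∀ n, C X p (ini y n)) ∧
        ∀ b, b < a → ∀ i, ∃ p', R X i p' p ∧ W X b p' y) ∧
      ∀ X y, A X root y ↔ (∀ n, C X p₀ (ini y n)) ∧ ∀ b i, ∃ p', R X i p' p₀ ∧ W X b p' y := by
  obtain ⟨ch, hch, ech⟩ : ∃ ch : g.PR → Prop × T × Prop × D × P → Prop × T × Prop × D × P → Prop,
      g.Tm (fun z : g.PR × (Prop × T × Prop × D × P) × (Prop × T × Prop × D × P) =>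
        ch z.1 z.2.1 z.2.2) ∧ ∀ X j' j, ch X j' j ↔
        (¬ j.2.2.1 ∧ ∃ b i, (j.1 ∨ b < j.2.1) ∧ j' = (False, b, True, i, j.2.2.2.2)) ∨
        (j.2.2.1 ∧ ¬ j.1 ∧ ∃ p', R X j.2.2.2.1 p' j.2.2.2.2 ∧
          j' = (False, j.2.1, False, default, p')) :=
    ⟨fun X j' j => (¬ j.2.2.1 ∧ ∃ b i, (j.1 ∨ b < j.2.1) ∧ j' = (False, b, True, i, j.2.2.2.2)) ∨
        (j.2.2.1 ∧ ¬ j.1 ∧ ∃ p', R X j.2.2.2.1 p' j.2.2.2.2 ∧
          j' = (False, j.2.1, False, default, p')), by fun_prop, fun _ _ _ => Iff.rfl⟩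
  have wf : ∀ X, WellFounded (ch X) := fun X => by
    refine Subrelation.wf (r := WO.lt g) ?_ WO.wf
    rintro j' ⟨t, a, s, i, p⟩ h
    rcases (ech _ _ _).1 h with ⟨-, b, i', h₁, rfl⟩ | ⟨h₁, h₂, p', -, rfl⟩
    · by_cases ht : t
      · exact Or.inl ⟨not_false, ht⟩
      · exact Or.inr ⟨(eq_false ht).symm, Or.inl (h₁.resolve_left ht)⟩
    · exact Or.inr ⟨(eq_false h₂).symm, Or.inr ⟨rfl, Or.inl ⟨not_false, h₁⟩⟩⟩
  have hbas : g.Tm fun z : g.PR × (Prop × T × Prop × D × P) × St =>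
      z.2.1.2.2.1 ∨ C z.1 z.2.1.2.2.2.2 z.2.2 := by fun_prop
  obtain ⟨A, hA, eA⟩ := ws_exists_A wf hch (bas := fun X j s => j.2.2.1 ∨ C X j.2.2.2.2 s) hbas
  have e₁ : ∀ X b i p y, ¬ A X (False, b, True, i, p) y ↔
      ∃ p', R X i p' p ∧ A X (False, b, False, default, p') y := fun X b i p y => by
    rw [eA]
    constructor
    · intro h
      by_contra h'
      refine h ⟨fun _ => Or.inl trivial, fun j' hj hA' => ?_⟩
      rcases (ech _ _ _).1 hj with ⟨h₁, -⟩ | ⟨-, -, p', h₁, rfl⟩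
      exacts [h₁ trivial, h' ⟨p', h₁, hA'⟩]
    · rintro ⟨p', h₁, h₂⟩ h
      exact h.2 _ ((ech _ _ _).2 (Or.inr ⟨trivial, not_false, p', h₁, rfl⟩)) h₂
  have e₂ : ∀ X t a i p y, A X (t, a, False, i, p) y ↔ (∀ n, C X p (ini y n)) ∧
      ∀ b, t ∨ b < a → ∀ i, ∃ p', R X i p' p ∧ A X (False, b, False, default, p') y := by
    intro X t a i p y
    rw [eA]
    refine and_congr (forall_congr' fun n => iff_of_eq (false_or _))
      ⟨fun h b hb i' => ?_, fun h j' hj => ?_⟩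
    · exact (e₁ _ _ _ _ _).1 (h _ ((ech _ _ _).2 (Or.inl ⟨not_false, b, i', hb, rfl⟩)))
    · rcases (ech _ _ _).1 hj with ⟨-, b, i', h₁, rfl⟩ | ⟨h₁, -⟩
      exacts [(e₁ _ _ _ _ _).2 (h b h₁ i'), h₁.elim]
  refine ⟨Prop × T × Prop × D × P, inferInstance, inferInstance, inferInstance, inferInstance, ch,
    fun X j s => j.2.2.1 ∨ C X j.2.2.2.2 s, A, (True, default, False, default, p₀),
    fun X a p y => A X (False, a, False, default, p) y,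
    wf, hch, hbas, eA, fun X => by fun_prop, fun X a p y => ?_, fun X y => ?_⟩
  · simpa only [false_or] using e₂ X False a default p y
  · simpa only [true_or, forall_true_left] using e₂ X True default default p₀ y

/-- Recursion on the numbers with parameters. -/
theorem ws_chain {Γ P : Type*} [Cd g Γ] [Cd g P] {nx : Γ → ℕ → P → P}
    (h : g.Tm fun z : Γ × ℕ × P => nx z.1 z.2.1 z.2.2) (p₀ : P) :
    ∃ c : Γ → ℕ → P, g.Tm (fun z : Γ × ℕ => c z.1 z.2) ∧ (∀ y, c y 0 = p₀) ∧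
      ∀ y n, c y (n + 1) = nx y n (c y n) := by
  refine ⟨fun y n => ((fun z : ℕ × P => (z.1 + 1, nx y z.1 z.2))^[n] (0, p₀)).2, by fun_prop,
    fun _ => rfl, fun y n => ?_⟩
  have : ∀ n, ((fun z : ℕ × P => (z.1 + 1, nx y z.1 z.2))^[n] (0, p₀)).1 = n := fun n => by
    induction n with
    | zero => rfl
    | succ n ih => rw [Function.iterate_succ_apply', ih]
  beta_reduce
  rw [Function.iterate_succ_apply', this]

/-- The set `Q` decides the digit `i.2` and the set `F i.1`. -/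
def WDd {I : Type v} [Cd g I] [WO g I] (F : I → g.Re → Prop) (i : I × ℕ) (Q : g.Re → Prop) :
    Prop :=
  (∃ m, ∀ x, Q x → x i.2 = m) ∧ ((∀ x, Q x → ¬ F i.1 x) ∨
    ((∀ x, F i.1 x → ∃ j, WO.lt g j i.1 ∧ F j x ∧ ∀ x', F j x' → F i.1 x') →
      ∃ j, WO.lt g j i.1 ∧ (∀ x, Q x → F j x) ∧ ∀ x', F j x' → F i.1 x'))

/-- The real decided by a generic chain lies in the sets that the chain enters. -/
theorem ws_truth {I : Type v} [Cd g I] [WO g I] {F : I → g.Re → Prop} (hs : IsSys F)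
    {Q : ℕ → g.Re → Prop} (hQ : ∀ k k', ∃ x, Q k x ∧ Q k' x) (hD : ∀ i, ∃ k, WDd F i (Q k))
    {z : g.Re} (hz : ∀ n, ∃ k, ∀ x, Q k x → x n = z n) (i : I) :
    ((∃ k, ∀ x, Q k x → F i x) → F i z) ∧ ((∃ k, ∀ x, Q k x → ¬ F i x) → ¬ F i z) := by
  induction i using (WO.wf (g := g) (α := I)).induction with
  | _ i ih =>
    rcases hs i with ⟨n, m, h⟩ | ⟨j, hj, h⟩ | h
    · obtain ⟨k', hk'⟩ := hz n
      constructor <;> rintro ⟨k, hk⟩ <;> obtain ⟨x, h₁, h₂⟩ := hQ k k'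
      · rw [h, ← hk' x h₂, ← h]; exact hk x h₁
      · rw [h, ← hk' x h₂, ← h]; exact hk x h₁
    · simp only [h, not_not]
      exact ⟨(ih j hj).2, (ih j hj).1⟩
    · constructor <;> rintro ⟨k, hk⟩
      · obtain ⟨k', -, h' | h'⟩ := hD (i, 0)
        · obtain ⟨x, h₁, h₂⟩ := hQ k k'
          exact absurd (hk x h₁) (h' x h₂)
        · obtain ⟨j, hj, h₁, h₂⟩ := h' h
          exact h₂ z ((ih j hj).1 ⟨k', h₁⟩)
      · intro hz'
        obtain ⟨j, hj, h₁, h₂⟩ := h z hz'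
        exact (ih j hj).2 ⟨k, fun x hx hx' => hk x hx (h₂ x hx')⟩ h₁

/-- Finite conjunctions of sets of the system, their complements and digit conditions. -/
theorem ws_cond {I : Type v} [Cd g I] [WO g I] [Inhabited I] {F : I → g.Re → Prop}
    (hF : g.Tm fun z : I × g.Re => F z.1 z.2) (i₀ : I) :
    ∃ (S : List ((ℕ × ℕ × ℕ) × I) → g.Re → Prop) (p₀ : List ((ℕ × ℕ × ℕ) × I)),
      g.Tm (fun z : List ((ℕ × ℕ × ℕ) × I) × g.Re => S z.1 z.2) ∧ (∀ x, S p₀ x ↔ F i₀ x) ∧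
      ∀ p x i, S p x → ∃ p', S p' x ∧ (∀ x', S p' x' → S p x') ∧
        ∀ Q : g.Re → Prop, (∀ x', Q x' → S p' x') → WDd F i Q := by
  refine ⟨fun p x => ∀ a, a ∈ p → (a.1.1 = 0 → F a.2 x) ∧ (a.1.1 = 1 → ¬ F a.2 x) ∧
    (a.1.1 = 2 → x a.1.2.1 = a.1.2.2), [((0, 0, 0), i₀)], by fun_prop, fun x => by simp,
    fun p x i hp => ?_⟩
  by_cases h₁ : F i.1 x
  · by_cases h₂ : ∀ x, F i.1 x → ∃ j, WO.lt g j i.1 ∧ F j x ∧ ∀ x', F j x' → F i.1 x'
    · obtain ⟨j, hj, h₃, h₄⟩ := h₂ x h₁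
      refine ⟨((2, i.2, x i.2), i.1) :: ((0, 0, 0), j) :: p, ?_, ?_, fun Q hQ => ⟨⟨x i.2,
        fun x' hx' => ?_⟩, Or.inr fun _ => ⟨j, hj, fun x' hx' => ?_, h₄⟩⟩⟩
      · simpa [h₃] using hp
      · exact fun x' h a ha => h a (by simp [ha])
      · exact (hQ x' hx' _ List.mem_cons_self).2.2 rfl
      · exact (hQ x' hx' ((0, 0, 0), j) (by simp)).1 rfl
    · refine ⟨((2, i.2, x i.2), i.1) :: p, ?_, ?_, fun Q hQ => ⟨⟨x i.2,
        fun x' hx' => ?_⟩, Or.inr fun h => absurd h h₂⟩⟩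
      · simpa using hp
      · exact fun x' h a ha => h a (by simp [ha])
      · exact (hQ x' hx' _ List.mem_cons_self).2.2 rfl
  · refine ⟨((2, i.2, x i.2), i.1) :: ((1, 0, 0), i.1) :: p, ?_, ?_, fun Q hQ => ⟨⟨x i.2,
      fun x' hx' => ?_⟩, Or.inl fun x' hx' => ?_⟩⟩
    · simpa [h₁] using hp
    · exact fun x' h a ha => h a (by simp [ha])
    · exact (hQ x' hx' _ List.mem_cons_self).2.2 rfl
    · exact (hQ x' hx' ((1, 0, 0), i.1) (by simp)).2.1 rfl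

/-- Over a countable set of reals the hierarchy closes off and a point of its last level has a
definable generic chain. -/
theorem ws_generic (hd : g.TDet ℕ) (hc : g.TDC) {T D P : Type*} [Cd g T] [LinearOrder T] [OT g T]
    [Inhabited T] [Cd g D] [WO g D] [Inhabited D] [Cd g P] [WO g P] [Inhabited P] (hT : g.Unc T)
    {cd : P → Fn g ℕ Prop} (hcd : g.Tm cd) {C : P → g.Yy → Prop}
    (hC : g.Tm fun z : P × g.Yy => C z.1 z.2) (hC' : ∀ p q y, cd p = cd q → C p y → C q y)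
    {L : P → P → Prop} (hL : g.Tm fun z : P × P => L z.1 z.2)
    (hL' : ∀ p q r, cd p = cd q → L r p → L r q) {Dd : D → P → Prop}
    (hD : g.Tm fun z : D × P => Dd z.1 z.2) (hD' : ∀ i p q, cd p = cd q → Dd i p → Dd i q)
    {W : T → P → g.Yy → Prop} (hW : g.Tm fun z : T × P × g.Yy => W z.1 z.2.1 z.2.2)
    (eW : ∀ a p y, W a p y ↔ C p y ∧ ∀ b, b < a → ∀ i, ∃ p', (L p' p ∧ Dd i p') ∧ W b p' y)
    (p₀ : P) : ∃ c : g.Yy → ℕ → P, g.Tm (fun z : g.Yy × ℕ => c z.1 z.2) ∧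
      ∀ y, (C p₀ y ∧ ∀ b i, ∃ p', (L p' p₀ ∧ Dd i p') ∧ W b p' y) → c y 0 = p₀ ∧
        (∀ n, C (c y n) y ∧ L (c y (n + 1)) (c y n)) ∧ ∀ i, ∃ n, Dd i (c y n) := by
  obtain ⟨e, he⟩ := ctbl_of_wo hd hc hcd
  obtain ⟨V, hV, eV⟩ : ∃ V : P → g.Yy → Prop, g.Tm (fun z : P × g.Yy => V z.1 z.2) ∧
      ∀ p y, V p y ↔ C p y ∧ ∀ b i, ∃ p', (L p' p ∧ Dd i p') ∧ W b p' y :=
    ⟨fun p y => C p y ∧ ∀ b i, ∃ p', (L p' p ∧ Dd i p') ∧ W b p' y, by fun_prop,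
      fun _ _ => Iff.rfl⟩
  have step : ∀ p y i, V p y → ∃ p', (L p' p ∧ Dd i p') ∧ V p' y := fun p y i h => by
    obtain ⟨b, hb⟩ := hT ⟨fun n => g.least fun a => ∃ q, cd q = e n ∧ ¬ W a q y, by fun_prop⟩
    obtain ⟨p', h₁, h₂⟩ := ((eV _ _).1 h).2 b i
    refine ⟨p', h₁, (eV _ _).2 ⟨((eW _ _ _).1 h₂).1, fun b' i' => ?_⟩⟩
    obtain ⟨a, ha⟩ := hT ⟨fun _ => b', by fun_prop⟩
    refine ((eW a _ _).1 (by_contra fun h₃ => ?_)).2 b' (ha 0) i'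
    obtain ⟨n, hn⟩ := he p'
    obtain ⟨q, h₄, h₅⟩ := least_spec (g := g) (P := fun a => ∃ q, cd q = e n ∧ ¬ W a q y)
      ⟨a, p', hn.symm, h₃⟩
    have h₆ : cd p' = cd q := (h₄.trans hn).symm
    obtain ⟨h₇, h₈⟩ := (eW _ _ _).1 h₂
    refine h₅ ((eW _ _ _).2 ⟨hC' _ _ _ h₆ h₇, fun b'' hb'' i'' => ?_⟩)
    obtain ⟨r, h₉, h₁₀⟩ := h₈ b'' (hb''.trans (hb n)) i''
    exact ⟨r, ⟨hL' _ _ _ h₆ h₉.1, h₉.2⟩, h₁₀⟩
  obtain ⟨h, hh, eh⟩ : ∃ h : D → Fn g ℕ Prop, g.Tm h ∧ ∀ i n, h i n ↔ ∃ q, cd q = e n ∧ Dd i q :=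
    ⟨fun i => ⟨fun n => ∃ q, cd q = e n ∧ Dd i q, by fun_prop⟩, by fun_prop, fun _ _ => Iff.rfl⟩
  obtain ⟨e', he'⟩ := ctbl_of_wo hd hc hh
  obtain ⟨c, h₁, h₂, h₃⟩ := ws_chain (g := g) (nx := fun (y : g.Yy) n p => g.least fun p' =>
    (L p' p ∧ Dd (g.least fun i => e' n = h i) p') ∧ V p' y) (by fun_prop) p₀
  refine ⟨c, h₁, fun y hy => ?_⟩
  have h₄ : ∀ n, V (c y n) y → (L (c y (n + 1)) (c y n) ∧
      Dd (g.least fun i => e' n = h i) (c y (n + 1))) ∧ V (c y (n + 1)) y := fun n hn => by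
    rw [h₃]
    exact least_spec (g := g) (P := fun p' => (L p' (c y n) ∧
      Dd (g.least fun i => e' n = h i) p') ∧ V p' y) (step _ _ _ hn)
  have h₅ : ∀ n, V (c y n) y := fun n => by
    induction n with
    | zero => rw [h₂]; exact (eV _ _).2 hy
    | succ n ih => exact (h₄ n ih).2
  refine ⟨h₂ y, fun n => ⟨((eV _ _).1 (h₅ n)).1, (h₄ n (h₅ n)).1.1⟩, fun i => ?_⟩
  obtain ⟨n, hn⟩ := he' i
  have h₆ := least_spec (g := g) (P := fun i => e' n = h i) ⟨i, hn⟩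
  obtain ⟨m, hm⟩ := he (c y (n + 1))
  have h₇ := (eh _ m).2 ⟨_, hm.symm, (h₄ n (h₅ n)).1.2⟩
  rw [← h₆, hn] at h₇
  obtain ⟨q, h₈, h₉⟩ := (eh _ _).1 h₇
  exact ⟨n + 1, hD' _ _ _ (h₈.trans hm) h₉⟩

/-- A system whose root lies between the projection of `F i₀ ∩ X` and that of `F i₀`. -/
theorem exists_wsys (hd : g.TDet ℕ) (hc : g.TDC) {T I : Type (u + 1)} [Cd g T] [Bd g T]
    [LinearOrder T] [OT g T] [Inhabited T] [Cd g I] [Bd g I] [WO g I] [Inhabited I] (hT : g.Unc T)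
    {F : I → g.Re → Prop} (hF : g.Tm fun z : I × g.Re => F z.1 z.2) (hs : IsSys F) (i₀ : I) :
    ∃ (J : Type (u + 1)) (_ : Cd g J) (_ : Bd g J) (_ : WO g J) (_ : Inhabited J)
      (ch : g.PR → J → J → Prop) (bas : g.PR → J → St → Prop) (A : g.PR → J → g.Yy → Prop)
      (root : J), (∀ X, WellFounded (ch X)) ∧
      g.Tm (fun z : g.PR × J × J => ch z.1 z.2.1 z.2.2) ∧
      g.Tm (fun z : g.PR × J × St => bas z.1 z.2.1 z.2.2) ∧
      (∀ X j y, A X j y ↔ (∀ n, bas X j (ini y n)) ∧ ∀ j', ch X j' j → ¬ A X j' y) ∧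
      (∀ (X : g.PR) x, X x → F i₀ x → A X root (yx x)) ∧
      ∀ d, ∃ G : g.Yy → g.Re, g.Tm G ∧
        ∀ y, A (Xs d) root y → F i₀ (G y) ∧ yx (G y) = y := by
  obtain ⟨S, p₀, hS, eS, dS⟩ := ws_cond hF i₀
  obtain ⟨J, i₁, i₂, i₃, i₄, ch, bas, A, root, W, h₁, h₂, h₃, h₄, h₅, h₆, h₇⟩ :=
    ws_tree (g := g) (T := T)
      (C := fun X p s => ∃ x, (X x ∧ S p x) ∧ ini (yx x) s.length = s) (by fun_prop)
      (R := fun X (i : I × ℕ) p' p => (∀ x, X x ∧ S p' x → X x ∧ S p x) ∧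
        WDd F i fun x => X x ∧ S p' x) (by unfold WDd; fun_prop) p₀
  refine ⟨J, i₁, i₂, i₃, i₄, ch, bas, A, root, h₁, h₂, h₃, h₄, fun X x hx hF' => ?_, fun d => ?_⟩
  · have key : ∀ a p, S p x → W X a p (yx x) := fun a => by
      induction a using (OT.wf (g := g) (T := T)).induction with
      | _ a ih =>
        refine fun p hp => (h₆ _ _ _ _).2 ⟨fun n => ⟨x, ⟨hx, hp⟩, by simp⟩, fun b hb i => ?_⟩
        obtain ⟨p', h₈, h₉, h₁₀⟩ := dS p x i hp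
        exact ⟨p', ⟨fun x' h => ⟨h.1, h₉ x' h.2⟩, h₁₀ _ fun _ h => h.2⟩, ih b hb p' h₈⟩
    refine (h₇ _ _).2 ⟨fun n => ⟨x, ⟨hx, (eS x).2 hF'⟩, by simp⟩, fun b i => ?_⟩
    obtain ⟨p', h₈, h₉, h₁₀⟩ := dS p₀ x i ((eS x).2 hF')
    exact ⟨p', ⟨fun x' h => ⟨h.1, h₉ x' h.2⟩, h₁₀ _ fun _ h => h.2⟩, key b p' h₈⟩
  · obtain ⟨cd, hcd, ecd⟩ : ∃ cd : List ((ℕ × ℕ × ℕ) × I) → Fn g ℕ Prop, g.Tm cd ∧
        ∀ p q, cd p = cd q → (fun x => Xs d x ∧ S p x) = fun x => Xs d x ∧ S q x := by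
      refine ⟨fun p => ⟨fun k => S p (En d k), by fun_prop⟩, by fun_prop, fun p q h => ?_⟩
      funext x
      refine propext (and_congr_right ?_)
      rintro ⟨k, rfl⟩
      exact iff_of_eq (congrArg (fun f : Fn g ℕ Prop => f k) h)
    obtain ⟨c, hc₁, hc₂⟩ := ws_generic hd hc hT hcd
      (C := fun p y => ∀ n, ∃ x, (Xs d x ∧ S p x) ∧ ini (yx x) (ini y n).length = ini y n)
      (by fun_prop) (fun p q y h h' n => by
        obtain ⟨x, h₈, h₉⟩ := h' n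
        exact ⟨x, (congrFun (ecd p q h) x).mp h₈, h₉⟩)
      (L := fun p' p => ∀ x, Xs d x ∧ S p' x → Xs d x ∧ S p x) (by fun_prop)
      (fun p q r h h' x hx => (congrFun (ecd p q h) x).mp (h' x hx))
      (Dd := fun (i : I × ℕ) p => WDd F i fun x => Xs d x ∧ S p x) (by unfold WDd; fun_prop)
      (fun i p q h h' => ecd p q h ▸ h') (h₅ (Xs d)) (h₆ (Xs d)) p₀
    refine ⟨fun y => ⟨fun n => g.least fun m => ∃ k, ∀ x, Xs d x ∧ S (c y k) x → x n = m,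
      by fun_prop⟩, by fun_prop, fun y hy => ?_⟩
    obtain ⟨e₀, e₁, e₂⟩ := hc₂ y ((h₇ _ _).1 hy)
    have mono : ∀ k k', k ≤ k' → ∀ x, Xs d x ∧ S (c y k') x → Xs d x ∧ S (c y k) x := by
      intro k k' hk x hx
      induction k', hk using Nat.le_induction with
      | base => exact hx
      | succ m _ ih => exact ih ((e₁ m).2 x hx)
    have hz : ∀ n, ∃ k, ∀ x, Xs d x ∧ S (c y k) x →
        x n = g.least fun m => ∃ k, ∀ x, Xs d x ∧ S (c y k) x → x n = m := fun n => by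
      obtain ⟨k, ⟨m, hm⟩, -⟩ := e₂ (i₀, n)
      exact least_spec (g := g) (P := fun m => ∃ k, ∀ x, Xs d x ∧ S (c y k) x → x n = m)
        ⟨m, k, hm⟩
    refine ⟨(ws_truth hs (Q := fun k x => Xs d x ∧ S (c y k) x) (fun k k' => ?_) e₂ hz i₀).1
      ⟨0, fun x hx => (eS x).1 (e₀ ▸ hx.2)⟩, Fn.ext' fun n => ?_⟩
    · obtain ⟨x, hx, -⟩ := (e₁ (max k k')).1 0
      exact ⟨x, mono _ _ (le_max_left _ _) x hx, mono _ _ (le_max_right _ _) x hx⟩
    · obtain ⟨k, hk⟩ := hz (2 * n)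
      obtain ⟨x, hx, hx'⟩ := (e₁ k).1 (n + 1)
      rw [length_ini, ini_eq_iff] at hx'
      rw [← hx' n (Nat.lt_succ_self n)]
      exact congrArg Nat.unpair (hk x hx).symm

end Mdl

end Pool.Agent.MP_09d684_lc

end

section

namespace Pool.Agent.MP_09d684_lc

open ZFSet

universe u v w

namespace Mdl

variable {g : Mdl.{u}}

open Cd

/-- A canonical family closed under a well-ordered family of operations. -/
theorem exists_closed {Γ T K α : Type*} [Cd g Γ] [Cd g T] [Bd g T] [LinearOrder T] [OT g T]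
    [Inhabited T] [Cd g K] [WO g K] [Inhabited K] [Cd g α] [Inhabited α] (hT : g.Unc T)
    (hct : ∀ h : T → α, g.Tm h → ∃ e : Fn g ℕ α, ∀ w, ∃ n, e n = h w)
    {Out : Γ → Fn g T α → K → α} (hO : g.Tm fun z : Γ × Fn g T α × K => Out z.1 z.2.1 z.2.2)
    (a₀ : α) : ∃ ρ : Γ → Fn g T α, g.Tm ρ ∧
      ∀ x, (∃ b, ρ x b = a₀) ∧ ∀ t, ∃ b, ρ x b = Out x (ρ x) t := by
  classical
  obtain ⟨tr, htm, htr⟩ : ∃ tr : T → Fn g T α → Fn g T α,
      g.Tm (fun z : T × Fn g T α => tr z.1 z.2) ∧ ∀ b f c, tr b f c = if c < b then f c else a₀ :=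
    ⟨fun b f => ⟨fun c => if c < b then f c else a₀, by fun_prop⟩, by fun_prop, fun _ _ _ => rfl⟩
  obtain ⟨nx, hnm, hnx⟩ : ∃ nx : Γ → Fn g T α → α,
      g.Tm (fun z : Γ × Fn g T α => nx z.1 z.2) ∧ ∀ x r, nx x r =
        if ∃ t, ¬ ∃ c, r c = Out x r t then Out x r (g.least fun t => ¬ ∃ c, r c = Out x r t)
        else a₀ :=
    ⟨fun x r => if ∃ t, ¬ ∃ c, r c = Out x r t then
      Out x r (g.least fun t => ¬ ∃ c, r c = Out x r t) else a₀, by fun_prop, fun _ _ => rfl⟩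
  refine ⟨fun x => g.rfix (· < ·) fun b f => nx x (tr b f),
    tm_rfix (r := fun _ => (· < ·)) (fun _ => OT.wf g) (by fun_prop) (by fun_prop), fun x => ?_⟩
  set ρ : Fn g T α := g.rfix (· < ·) fun b f => nx x (tr b f) with hρ
  have heq : ∀ b, ρ b = nx x (tr b ρ) := fun b =>
    rfix_eq (r := (· < ·)) (Ψ := fun b f => nx x (tr b f)) (OT.wf g) (by fun_prop) (by fun_prop)
      (fun a f h e => by
        congr 1
        refine Fn.ext' fun c => ?_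
        rw [htr, htr]
        split_ifs with hc
        exacts [e c hc, rfl]) b
  by_cases hcl : ∃ b, ∀ t, ∃ c, tr b ρ c = Out x (tr b ρ) t
  · obtain ⟨b, hb⟩ := hcl
    have h₁ : ∀ b', b ≤ b' → ρ b' = a₀ := fun b' => by
      induction b' using (OT.wf g (T := T)).induction with
      | _ b' ih =>
        intro hb'
        have e : tr b' ρ = tr b ρ := Fn.ext' fun c => by
          rw [htr, htr]
          by_cases h : c < b
          · rw [if_pos h, if_pos (h.trans_le hb')]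
          · rw [if_neg h]
            split_ifs with h'
            exacts [ih c h' (not_lt.1 h), rfl]
        rw [heq, e, hnx, if_neg]
        rintro ⟨t, ht⟩
        exact ht (hb t)
    have e : tr b ρ = ρ := Fn.ext' fun c => by
      rw [htr]
      split_ifs with h
      exacts [rfl, (h₁ c (not_lt.1 h)).symm]
    rw [e] at hb
    exact ⟨⟨b, h₁ b le_rfl⟩, hb⟩
  · exfalso
    have h₁ : ∀ b c, c < b → ρ c ≠ ρ b := fun b c hc e => by
      have h₂ : ∃ t, ¬ ∃ c, tr b ρ c = Out x (tr b ρ) t := by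
        by_contra h
        exact hcl ⟨b, fun t => by_contra fun h' => h ⟨t, h'⟩⟩
      have h₃ := least_spec (g := g) h₂
      refine h₃ ⟨c, ?_⟩
      rw [htr, if_pos hc, e, heq b, hnx, if_pos h₂]
    obtain ⟨e, he⟩ := hct ρ ρ.tm
    obtain ⟨b, hb⟩ := hT ⟨fun n => g.least fun c => ρ c = e n, by fun_prop⟩
    obtain ⟨n, hn⟩ := he b
    have h₄ : ρ (g.least fun c => ρ c = e n) = e n :=
      least_spec (g := g) (P := fun c => ρ c = e n) ⟨b, hn.symm⟩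
    exact h₁ b _ (hb n) (h₄.trans hn)

end Mdl

end Pool.Agent.MP_09d684_lc

end

section

namespace Pool.Agent.MP_09d684_lc

open ZFSet

universe u v w

namespace Mdl

variable {g : Mdl.{u}}

open Cd

/-- The forcing relation over a family of reservoirs. -/
theorem gen_exists_Fp {Γ T J : Type*} [Cd g Γ] [Cd g T] [Bd g T] [Cd g J] [Bd g J]
    {ch : Γ → J → J → Prop} (wf : ∀ x, WellFounded (ch x))
    (hch : g.Tm fun z : Γ × J × J => ch z.1 z.2.1 z.2.2) {bas : Γ → J → St → Prop}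
    (hbas : g.Tm fun z : Γ × J × St => bas z.1 z.2.1 z.2.2) :
    ∃ Fp : Γ × Fn g T g.Rs → J → g.Cn → Prop,
      g.Tm (fun z : (Γ × Fn g T g.Rs) × J × g.Cn => Fp z.1 z.2.1 z.2.2) ∧
      ∀ x j c, Fp x j c ↔ (∀ y, Cube c.1 c.2 y → ∀ n, bas x.1 j (ini y n)) ∧
        ∀ j', ch x.1 j' j → ∀ c', CLe c' c → (∃ b, x.2 b = c'.2) → ¬ Fp x j' c' := by
  obtain ⟨Ψ, hΨ, eΨ⟩ : ∃ Ψ : Γ × Fn g T g.Rs → J → Fn g J (Fn g g.Cn Prop) → Fn g g.Cn Prop,
      g.Tm (fun z : (Γ × Fn g T g.Rs) × J × Fn g J (Fn g g.Cn Prop) => Ψ z.1 z.2.1 z.2.2) ∧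
      ∀ x j f c, Ψ x j f c ↔ (∀ y, Cube c.1 c.2 y → ∀ n, bas x.1 j (ini y n)) ∧
        ∀ j', ch x.1 j' j → ∀ c', CLe c' c → (∃ b, x.2 b = c'.2) → ¬ f j' c' :=
    ⟨fun x j f => ⟨fun c => (∀ y, Cube c.1 c.2 y → ∀ n, bas x.1 j (ini y n)) ∧
      ∀ j', ch x.1 j' j → ∀ c', CLe c' c → (∃ b, x.2 b = c'.2) → ¬ f j' c', by fun_prop⟩,
      by fun_prop, fun _ _ _ _ => Iff.rfl⟩
  obtain ⟨F, h₁, h₂⟩ : ∃ F : Γ × Fn g T g.Rs → Fn g J (Fn g g.Cn Prop), g.Tm F ∧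
      ∀ x j, F x j = Ψ x j (F x) := ⟨fun x => g.rfix (ch x.1) (Ψ x),
    tm_rfix (r := fun x : Γ × Fn g T g.Rs => ch x.1) (fun x => wf x.1) (by fun_prop) hΨ,
    fun x j => rfix_eq (wf x.1) (by fun_prop) (by fun_prop) (fun a f h e => Fn.ext' fun c => propext (by
      rw [eΨ, eΨ]
      exact and_congr_right fun _ => forall_congr' fun j' => forall_congr' fun hj => by
        rw [e j' hj])) j⟩
  refine ⟨fun x j c => F x j c, by fun_prop, fun x j c => ?_⟩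
  show F x j c ↔ _
  rw [h₂, eΨ]

/-- The Mathias property inside a closed family. -/
theorem gen_good {C : g.Rs → Prop} {D : g.Cn → Prop} (hm : ∀ R R', C R → C R' → C (meet R R'))
    (hd : ∀ c : g.Cn, C c.2 → NE c → ∃ c' : g.Cn, C c'.2 ∧ CLe c' c ∧ D c')
    {st : St → g.Rs → g.Rs} (h₀ : g.Tm fun z : St × g.Rs => st z.1 z.2)
    (hst : ∀ t R, (C (st t R) ∧ RLe (st t R) R ∧ Good D t (st t R)) ∨
      (st t R = R ∧ ∀ R', C R' → RLe R' R → ¬ Good D t R')) {s : St} {R : g.Rs} (hR : C R)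
    (B : Fn g St Prop) (hB : ∀ t, B t ↔ ¬ Good D t (fus st s R))
    (h₂ : C (fus (pig B) s (fus st s R))) : RLe (fus st s R) R ∧ Good D s (fus st s R) := by
  have hle : ∀ t R, RLe (st t R) R := fun t R => by
    rcases hst t R with h | h
    · exact h.2.1
    · rw [h.1]; exact RLe.refl R
  have hC : ∀ t R, C R → C (st t R) := fun t R hR => by
    rcases hst t R with h | h
    · exact h.1
    · rw [h.1]; exact hR
  refine ⟨(fus_le h₀ hle s R).trans (hle s R), mp_core hm hd B hB (fun t ht => ?_) h₂⟩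
  obtain ⟨R', -, hc, hy⟩ := fus_tip h₀ hle ht
  rcases hst t R' with h | h
  · exact Or.inl fun y hy' => h.2.2 y (hy y hy')
  · refine Or.inr fun R'' hR'' hle' hg => h.2 (meet R' R'') (hm _ _ (hc C hR hC) hR'')
      (meet_le _ _) fun y hy' => hg y ?_
    have h₃ : Cube t R'' (lm t R'') := NE.lm (s := t) (R := meet R' R'') ⟨y, hy'⟩ R''
    have h₄ : Cube t R' (lm t R'') := by
      have := hy _ (cube_le hle' h₃)
      rwa [h.1] at this
    exact (meet_cube h₄ h₃).2 y hy'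

/-- Forcing over a canonical closed family of reservoirs decides a system of sets. -/
theorem exists_generic {Γ T J : Type*} [Cd g Γ] [Cd g T] [Bd g T] [LinearOrder T] [OT g T]
    [Inhabited T] [Cd g J] [Bd g J] [WO g J] [Inhabited J] (hT : g.Unc T)
    (hct : ∀ h : T → g.Rs, g.Tm h → ∃ e : Fn g ℕ g.Rs, ∀ w, ∃ n, e n = h w)
    {ch : Γ → J → J → Prop} (wf : ∀ x, WellFounded (ch x))
    (hch : g.Tm fun z : Γ × J × J => ch z.1 z.2.1 z.2.2) {bas : Γ → J → St → Prop}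
    (hbas : g.Tm fun z : Γ × J × St => bas z.1 z.2.1 z.2.2) {A : Γ → J → g.Yy → Prop}
    (hA : ∀ x j y, A x j y ↔ (∀ n, bas x j (ini y n)) ∧ ∀ j', ch x j' j → ¬ A x j' y)
    (R₀ : g.Rs) : ∃ (ρ : Γ → T → g.Rs) (D : Γ → J → g.Cn → Prop),
      g.Tm (fun z : Γ × T => ρ z.1 z.2) ∧ g.Tm (fun z : Γ × J × g.Cn => D z.1 z.2.1 z.2.2) ∧
      ∀ x, (∃ b, ρ x b = R₀) ∧ (∀ j c, D x j c → ∃ b, ρ x b = c.2) ∧
        (∀ j t b, ∃ b', RLe (ρ x b') (ρ x b) ∧ Good (D x j) t (ρ x b')) ∧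
        ∀ y j, (∀ j, ∃ c, D x j c ∧ Cube c.1 c.2 y) → A x j y → ∃ c : g.Cn, Cube c.1 c.2 y ∧
          ∀ y', Cube c.1 c.2 y' → (∀ j, ∃ c, D x j c ∧ Cube c.1 c.2 y') → A x j y' := by
  classical
  obtain ⟨Fp, hFp, eFp⟩ := gen_exists_Fp (T := T) wf hch hbas
  obtain ⟨D, hD, eD⟩ : ∃ D : Γ × Fn g T g.Rs → J → g.Cn → Prop,
      g.Tm (fun z : (Γ × Fn g T g.Rs) × J × g.Cn => D z.1 z.2.1 z.2.2) ∧
      ∀ x j c, D x j c ↔ (∃ b, x.2 b = c.2) ∧ (Fp x j c ∨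
        (∃ n, ∀ y, Cube c.1 c.2 y → ¬ bas x.1 j (ini y n)) ∨ ∃ j', ch x.1 j' j ∧ Fp x j' c) :=
    ⟨fun x j c => (∃ b, x.2 b = c.2) ∧ (Fp x j c ∨
      (∃ n, ∀ y, Cube c.1 c.2 y → ¬ bas x.1 j (ini y n)) ∨ ∃ j', ch x.1 j' j ∧ Fp x j' c),
      by fun_prop, fun _ _ _ => Iff.rfl⟩
  obtain ⟨st, hst, est⟩ : ∃ st : (Γ × Fn g T g.Rs) × J → St → g.Rs → g.Rs,
      g.Tm (fun z : ((Γ × Fn g T g.Rs) × J) × St × g.Rs => st z.1 z.2.1 z.2.2) ∧
      ∀ x t R, st x t R = if ∃ b, RLe (x.1.2 b) R ∧ Good (D x.1 x.2) t (x.1.2 b) then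
        x.1.2 (g.least fun b => RLe (x.1.2 b) R ∧ Good (D x.1 x.2) t (x.1.2 b)) else R :=
    ⟨fun x t R => if ∃ b, RLe (x.1.2 b) R ∧ Good (D x.1 x.2) t (x.1.2 b) then
      x.1.2 (g.least fun b => RLe (x.1.2 b) R ∧ Good (D x.1 x.2) t (x.1.2 b)) else R,
      by fun_prop, fun _ _ _ => rfl⟩
  obtain ⟨B, hB, eB⟩ : ∃ B : (Γ × Fn g T g.Rs) × J → g.Rs → Fn g St Prop,
      g.Tm (fun z : ((Γ × Fn g T g.Rs) × J) × g.Rs => B z.1 z.2) ∧
      ∀ x R t, B x R t ↔ ¬ Good (D x.1 x.2) t R :=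
    ⟨fun x R => ⟨fun t => ¬ Good (D x.1 x.2) t R, by fun_prop⟩, by fun_prop,
      fun _ _ _ => Iff.rfl⟩
  obtain ⟨ρ, hρ, hcl⟩ := exists_closed (Γ := Γ) (K := ℕ × T × T × J × St) hT hct
    (Out := fun x r k => if k.1 = 0 then meet (r k.2.1) (r k.2.2.1) else if k.1 = 1 then
      fus (st ((x, r), k.2.2.2.1)) k.2.2.2.2 (r k.2.1) else
      fus (pig (B ((x, r), k.2.2.2.1) (r k.2.1))) k.2.2.2.2 (r k.2.1)) (by fun_prop) R₀
  refine ⟨fun x b => ρ x b, fun x => D (x, ρ x), by fun_prop, by fun_prop, fun x => ?_⟩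
  obtain ⟨h₀, hk⟩ := hcl x
  have hm : ∀ R R', (∃ b, ρ x b = R) → (∃ b, ρ x b = R') → ∃ b, ρ x b = meet R R' := by
    rintro _ _ ⟨b, rfl⟩ ⟨b', rfl⟩
    simpa using hk (0, b, b', default, default)
  have her : ∀ j c c', Fp (x, ρ x) j c → CLe c' c → Fp (x, ρ x) j c' := fun j c c' h hc => by
    rw [eFp] at h ⊢
    exact ⟨fun y hy => h.1 y (hc.2.2 y hy), fun j' hj c'' hc' => h.2 j' hj c'' (hc'.trans hc)⟩
  have hd : ∀ j (c : g.Cn), (∃ b, ρ x b = c.2) → NE c →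
      ∃ c' : g.Cn, (∃ b, ρ x b = c'.2) ∧ CLe c' c ∧ D (x, ρ x) j c' := fun j c hc hne => by
    by_cases h : Fp (x, ρ x) j c
    · exact ⟨c, hc, CLe.refl hne, (eD _ _ _).2 ⟨hc, Or.inl h⟩⟩
    rw [eFp, not_and_or] at h
    rcases h with h | h
    · push Not at h
      obtain ⟨y, hy, n, hn⟩ := h
      refine ⟨(ini y (max n c.1.length), c.2), hc, cle_ini hy (le_max_right _ _),
        (eD _ _ _).2 ⟨hc, Or.inr (Or.inl ⟨n, fun y' hy' => ?_⟩)⟩⟩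
      have e : ini y' (max n c.1.length) = ini y (max n c.1.length) := by simpa using hy'.1
      have e' : ini y' n = ini y n :=
        ini_eq_iff.2 fun k hk => ini_eq_iff.1 e k (hk.trans_le (le_max_left _ _))
      rwa [e']
    · push Not at h
      obtain ⟨j', hj, c', h₁, h₂, h₃⟩ := h
      exact ⟨c', h₂, h₁, (eD _ _ _).2 ⟨h₂, Or.inr (Or.inr ⟨j', hj, h₃⟩)⟩⟩
  have truth : ∀ y, (∀ j, ∃ c, D (x, ρ x) j c ∧ Cube c.1 c.2 y) → ∀ j, A x j y ↔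
      ∃ c : g.Cn, (∃ b, ρ x b = c.2) ∧ Cube c.1 c.2 y ∧ Fp (x, ρ x) j c := fun y hy j => by
    induction j using (wf x).induction with
    | _ j ih =>
      rw [hA]
      constructor
      · rintro ⟨h₁, h₂⟩
        obtain ⟨c, hc, hyc⟩ := hy j
        obtain ⟨hc₀, h | ⟨n, h⟩ | ⟨j', hj, h⟩⟩ := (eD _ _ _).1 hc
        · exact ⟨c, hc₀, hyc, h⟩
        · exact absurd (h₁ n) (h y hyc)
        · exact absurd ((ih j' hj).2 ⟨c, hc₀, hyc, h⟩) (h₂ j' hj)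
      · rintro ⟨c, hc₀, hyc, h⟩
        refine ⟨((eFp _ _ _).1 h).1 y hyc, fun j' hj hA' => ?_⟩
        obtain ⟨c', hc₀', hyc', h'⟩ := (ih j' hj).1 hA'
        obtain ⟨-, h₁, h₂⟩ := cle_meet hyc hyc' (le_max_left _ _) (le_max_right _ _)
        exact ((eFp _ _ _).1 h).2 j' hj _ h₁ (hm _ _ hc₀ hc₀') (her j' c' _ h' h₂)
  refine ⟨h₀, fun j c h => ((eD _ _ _).1 h).1, fun j t b => ?_, fun y j hy hAy => ?_⟩
  · obtain ⟨b₁, hb₁⟩ : ∃ b₁, ρ x b₁ = fus (st ((x, ρ x), j)) t (ρ x b) := by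
      simpa using hk (1, b, b, j, t)
    obtain ⟨b₂, hb₂⟩ : ∃ b₂, ρ x b₂ = fus (pig (B ((x, ρ x), j) (ρ x b₁))) t (ρ x b₁) := by
      simpa using hk (2, b₁, b₁, j, t)
    refine ⟨b₁, ?_⟩
    show RLe (ρ x b₁) (ρ x b) ∧ Good (D (x, ρ x) j) t (ρ x b₁)
    rw [hb₁] at hb₂ ⊢
    refine gen_good (C := fun R => ∃ b, ρ x b = R) hm (hd j) (by fun_prop) (fun t R => ?_)
      ⟨b, rfl⟩ _ (eB _ _) ⟨b₂, hb₂⟩
    rw [est]
    split_ifs with h
    · exact Or.inl ⟨⟨_, rfl⟩, least_spec (g := g) h⟩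
    · refine Or.inr ⟨rfl, ?_⟩
      rintro _ ⟨b', rfl⟩ h₁ h₂
      exact h ⟨b', h₁, h₂⟩
  · obtain ⟨c, hc₀, hyc, h⟩ := (truth y hy j).1 hAy
    exact ⟨c, hyc, fun y' hy' hg => (truth y' hg j).2 ⟨c, hc₀, hy', h⟩⟩

end Mdl

end Pool.Agent.MP_09d684_lc

end

section

namespace Pool.Agent.MP_09d684_lc

open ZFSet

universe u v w

namespace Mdl

variable {g : Mdl.{u}}

open Cd

/-- The odd part of a real. -/
def plusOdd (x : g.Re) : g.Re := ⟨fun n => x (2 * n + 1), by fun_prop⟩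

@[fun_prop] theorem tm_plusOdd {Γ : Type*} [Cd g Γ] {x : Γ → g.Re} (h : g.Tm x) :
    g.Tm fun a => plusOdd (x a) := by unfold plusOdd; fun_prop

/-- The join of an element of the space and a real. -/
def plusJoin (y : g.Yy) (r : g.Re) : g.Re :=
  ⟨fun n => if n % 2 = 0 then Nat.pair (y (n / 2)).1 (y (n / 2)).2 else r (n / 2), by fun_prop⟩

theorem yx_plusJoin (y : g.Yy) (r : g.Re) : yx (plusJoin y r) = y :=
  Fn.ext' fun n => by simp [yx, plusJoin]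

theorem plusOdd_plusJoin (y : g.Yy) (r : g.Re) : plusOdd (plusJoin y r) = r :=
  Fn.ext' fun n => by
    have h : (2 * n + 1) / 2 = n := by omega
    simp [plusOdd, plusJoin, h]

theorem lu_of_tib (hd : g.TDet ℕ) (hc : g.TDC) (hb : g.TIB) {T : Type (u + 1)} [Cd g T] [Bd g T]
    [LinearOrder T] [OT g T] [Inhabited T] (hT : g.Unc T) : g.LU := by
  intro ρ hρ c hne
  obtain ⟨k, hk, F, i₀, hF, hs, hA⟩ := hb (fun x => ρ (yx x) (plusOdd x)) (by fun_prop)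
  haveI : Inhabited (Elt k) := ⟨i₀⟩
  obtain ⟨J, _, _, _, _, ch, bas, A, root, wf, hch, hbas, hAA, hroot, hG⟩ :=
    exists_wsys hd hc hT hF hs i₀
  obtain ⟨ρ', D, hρ', hD, hgen⟩ := exists_generic (Γ := g.PR) hT
    (fun h hh => ctbl_of_wo hd hc hh) wf hch hbas hAA c.2
  obtain ⟨e₁, he₁⟩ := ae_range hd hc (h := ρ') hρ'
  have tmD : ∀ X j, g.Tm fun z : St × ℕ => D X j (z.1, e₁ z.2) := fun X j => by fun_prop
  obtain ⟨e₂, he₂⟩ := ae_range hd hc (W := J) (α := Fn g (St × ℕ) Prop)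
    (h := fun X j => ⟨fun z => D X j (z.1, e₁ z.2), tmD X j⟩) (by fun_prop)
  obtain ⟨d₀, h₁, h₂⟩ := (he₁.and he₂).ex
  obtain ⟨H, hH, hgc⟩ := gen_cube hc (C := fun R => ∃ k, e₁ k = R) (by fun_prop)
    (D := fun n c => ∃ k, c.2 = e₁ k ∧ e₂ n (c.1, k)) (by fun_prop) (fun n t R hR => by
      obtain ⟨j, hj⟩ := (h₂ _).2 ⟨n, rfl⟩
      obtain ⟨b, rfl⟩ := (h₁ R).2 hR
      obtain ⟨-, hg₂, hg₃, -⟩ := hgen (Xs d₀)
      obtain ⟨b', hle, hgood⟩ := hg₃ j t b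
      refine ⟨_, (h₁ _).1 ⟨b', rfl⟩, hle, fun y hy => ?_⟩
      obtain ⟨c', hc', hy'⟩ := hgood y hy
      obtain ⟨m, hm⟩ := (h₁ _).1 (hg₂ j c' hc')
      refine ⟨c', ⟨m, hm.symm, ?_⟩, hy'⟩
      rw [← hj]
      show D (Xs d₀) j (c'.1, e₁ m)
      rw [hm]
      exact hc') (R := c.2) ((h₁ _).1 (hgen (Xs d₀)).1)
  have hcH : CLe (c.1, H) c := cle_of_rle (s := c.1) (R := c.2) hne hH
  by_cases hw : ∀ y, Cube c.1 H y → ∀ r, ¬ ρ y r
  · exact ⟨(c.1, H), hcH, Or.inl hw⟩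
  push Not at hw
  obtain ⟨y, hy, r, hr⟩ := hw
  obtain ⟨d, ⟨-, h₄⟩, h₅⟩ := ((he₁.and he₂).and (ae_fine (plusJoin y r))).ex
  have gen : ∀ y', Cube c.1 H y' → ∀ j, ∃ c', D (Xs d) j c' ∧ Cube c'.1 c'.2 y' := by
    intro y' hy' j
    obtain ⟨n, hn⟩ := (h₄ _).1 ⟨j, rfl⟩
    obtain ⟨c', ⟨m, hm, hm'⟩, hc'⟩ := hgc c.1 y' n hy'
    refine ⟨c', ?_, hc'⟩
    rw [hn] at hm'
    change D (Xs d) j (c'.1, e₁ m) at hm'
    rwa [← hm] at hm'
  have hAy : A (Xs d) root y := by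
    have := hroot (Xs d) (plusJoin y r) h₅ ((hA _).2 (by rwa [yx_plusJoin, plusOdd_plusJoin]))
    rwa [yx_plusJoin] at this
  obtain ⟨c₁, hc₁, hall⟩ := (hgen (Xs d)).2.2.2 y root (gen y hy) hAy
  obtain ⟨G, tmG, hGs⟩ := hG d
  obtain ⟨-, l₁, l₂⟩ := cle_meet (c := (c.1, H)) (c' := c₁) (n := max c.1.length c₁.1.length)
    hy hc₁ (le_max_left _ _) (le_max_right _ _)
  refine ⟨_, l₁.trans hcH, Or.inr ⟨fun y' => plusOdd (G y'), by fun_prop, fun y' hy' => ?_⟩⟩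
  obtain ⟨a₁, a₂⟩ := hGs y' (hall y' (l₂.2.2 y' hy') (gen y' (l₁.2.2 y' hy')))
  have := (hA _).1 a₁
  rwa [a₂] at this

end Mdl

end Pool.Agent.MP_09d684_lc

end
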