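import Pool.Agent.Mg.F09d684.Ga313b4

section

namespace Pool.Agent.MP_09d684_lc

open ZFSet

universe u v w

namespace Mdl

variable {g : Mdl.{u}}

open Cd

/-- The subset of `k` given by a predicate. -/
noncomputable def sof {k : g.U} (x : Fn g (Elt k) Prop) : g.U := img x Elt.val

@[fun_prop] theorem tm_sof {Γ : Type*} [Cd g Γ] {k : g.U} {x : Γ → Fn g (Elt k) Prop}
    (h : g.Tm x) : g.Tm fun a => sof (x a) := by unfold sof; fun_prop

theorem mem_sof {k : g.U} {x : Fn g (Elt k) Prop} {z : ZFSet.{u}} :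
    z ∈ (sof x).1 ↔ ∃ a, x a ∧ a.1.1 = z := by
  have e : ∀ y : g.U, E y (sof x) ↔ ∃ a, x a ∧ a.1 = y := fun y => E_img x.tm (by fun_prop)
  constructor
  · intro h
    obtain ⟨a, h₁, h₂⟩ := (e ⟨z, g.zf.trans _ (sof x).2 _ h⟩).1 h
    exact ⟨a, h₁, congrArg U.val h₂⟩
  · rintro ⟨a, h, rfl⟩
    exact (e a.1).2 ⟨a, h, rfl⟩

theorem exists_sof {k : g.U} {z : ZFSet.{u}} (h : z ∈ g.M) (h' : z ⊆ k.1) :
    ∃ x : Fn g (Elt k) Prop, (sof x).1 = z := by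
  refine ⟨⟨fun a => E a.1 ⟨z, h⟩, by fun_prop⟩,
    ZFSet.ext fun y => mem_sof.trans ⟨?_, fun hy => ?_⟩⟩
  · rintro ⟨a, h, rfl⟩
    exact h
  · exact ⟨⟨⟨y, g.zf.trans _ h _ hy⟩, h' hy⟩, hy, rfl⟩

theorem sof_sub {k : g.U} (x : Fn g (Elt k) Prop) : (sof x).1 ⊆ k.1 := fun _ hz => by
  obtain ⟨a, -, rfl⟩ := mem_sof.1 hz
  exact a.2

theorem elt_mem_sof {k : g.U} {x : Fn g (Elt k) Prop} {a : Elt k} : a.1.1 ∈ (sof x).1 ↔ x a :=
  mem_sof.trans ⟨fun ⟨_, h, e⟩ => Elt.ext (U.ext e) ▸ h, fun h => ⟨a, h, rfl⟩⟩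

theorem sof_inj {k : g.U} {x y : Fn g (Elt k) Prop} (h : (sof x).1 = (sof y).1) : x = y :=
  Fn.ext' fun a => propext (by rw [← elt_mem_sof, h, elt_mem_sof])

theorem mem_code_elt {k : g.U} {f : Fn g (Elt k) (Elt k)} {p : ZFSet.{u}} :
    p ∈ f.code.1 ↔ ∃ a : Elt k, pair a.1.1 (f a).1.1 = p := by
  constructor
  · intro h
    obtain ⟨a, e⟩ := (Fn.E_code (p := ⟨p, g.zf.trans _ f.code.2 _ h⟩)).1 h
    exact ⟨a, congrArg U.val e⟩
  · rintro ⟨a, rfl⟩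
    exact (Fn.E_code (p := pr a.1 (f a).1)).2 ⟨a, rfl⟩

theorem hasOtp_iff {k : g.U} [Fact (IsOrdinal k.1)] (x : Fn g (Elt k) Prop) :
    HasOtp g.M (sof x).1 k.1 ↔ Big x := by
  constructor
  · rintro ⟨f, hf, ⟨h₁, h₂⟩, h₃, h₄⟩
    have h₅ : ∀ p ∈ f, ∃ a b : Elt k, x b ∧ p = pair a.1.1 b.1.1 := fun p hp => by
      obtain ⟨a, ha, b, hb, rfl⟩ := h₁ p hp
      obtain ⟨c, hc, rfl⟩ := mem_sof.1 hb
      exact ⟨⟨⟨a, g.zf.trans _ k.2 _ ha⟩, ha⟩, c, hc, rfl⟩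
    obtain ⟨F, hF⟩ := Fn.exists_code (α := Elt k) (β := Elt k) (x := ⟨f, hf⟩) (fun p hp => by
      obtain ⟨a, b, -, e⟩ := h₅ p.1 hp
      exact ⟨a, b, U.ext e⟩) fun a => by
        obtain ⟨b, hb, hu⟩ := h₂ a.1.1 a.2
        obtain ⟨a', b', -, e⟩ := h₅ _ hb
        obtain ⟨-, rfl⟩ := pair_inj.1 e
        exact ⟨b', fun c => ⟨fun hc => Elt.ext (U.ext (hu _ hc)), fun e => e ▸ hb⟩⟩
    have h₆ : ∀ p, p ∈ f ↔ ∃ a : Elt k, pair a.1.1 (F a).1.1 = p := fun p => by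
      rw [← mem_code_elt, hF]
    refine ⟨F, fun a b h => h₄ _ _ _ _ ((h₆ _).2 ⟨a, rfl⟩) ((h₆ _).2 ⟨b, rfl⟩) h, fun b => ⟨?_, ?_⟩⟩
    · intro hb
      obtain ⟨a, ha⟩ := h₃ _ (elt_mem_sof.2 hb)
      obtain ⟨a', e⟩ := (h₆ _).1 ha
      exact ⟨a', Elt.ext (U.ext (pair_inj.1 e).2)⟩
    · rintro ⟨a, rfl⟩
      obtain ⟨a', b', h, e⟩ := h₅ _ ((h₆ _).2 ⟨a, rfl⟩)
      rwa [show F a = b' from Elt.ext (U.ext (pair_inj.1 e).2)]
  · rintro ⟨F, h₁, h₂⟩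
    refine ⟨F.code.1, F.code.2, ⟨fun p hp => ?_, fun a ha => ?_⟩, fun b hb => ?_,
      fun a a' b b' h h' e => ?_⟩
    · obtain ⟨a, rfl⟩ := mem_code_elt.1 hp
      exact ⟨_, a.2, _, elt_mem_sof.2 ((h₂ _).2 ⟨a, rfl⟩), rfl⟩
    · refine ⟨_, mem_code_elt.2 ⟨⟨⟨a, g.zf.trans _ k.2 _ ha⟩, ha⟩, rfl⟩, fun b hb => ?_⟩
      obtain ⟨a', e⟩ := mem_code_elt.1 hb
      obtain ⟨rfl, rfl⟩ := pair_inj.1 e
      rfl
    · obtain ⟨c, hc, rfl⟩ := mem_sof.1 hb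
      obtain ⟨a, rfl⟩ := (h₂ c).1 hc
      exact ⟨_, mem_code_elt.2 ⟨a, rfl⟩⟩
    · obtain ⟨c, e₁⟩ := mem_code_elt.1 h
      obtain ⟨c', e₂⟩ := mem_code_elt.1 h'
      obtain ⟨rfl, rfl⟩ := pair_inj.1 e₁
      obtain ⟨rfl, rfl⟩ := pair_inj.1 e₂
      exact h₁ c c' e

theorem tsp_of_sp {k : g.U} [Fact (IsOrdinal k.1)] (h : StrongPartition g.M k.1) :
    g.TSP (Elt k) := by
  have hn : ∀ n, E (g.nt n) k := fun n => h.ord.mem_trans (nat_mem_omega n) h.unc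
  let e : ℕ → Elt k := fun n => ⟨g.nt n, hn n⟩
  have he : g.Tm e := tm_of_rel (Q := fun n a => a.1 = g.nt n) (by fun_prop) fun n a =>
    ⟨fun h => Elt.ext h, fun h => h ▸ rfl⟩
  refine ⟨⟨⟨e, he⟩, ⟨g.om, h.unc⟩, fun n => nt_lt.2 (Nat.lt_succ_self n), fun n => nt_om n,
    fun a n ha => ?_⟩, fun c hc m hm => ?_⟩
  · obtain ⟨j, -, hj⟩ := E_nt.1 ha
    exact ⟨j, Elt.ext hj⟩
  · let c' : g.U := img (fun x : Fn g (Elt k) Prop => Big x) fun x => pr (sof x) (c x).1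
    have h₁ : ∀ p, p ∈ c'.1 ↔ ∃ x, Big x ∧ pair (sof x).1 (c x).1.1 = p := fun p => by
      have e : ∀ y : g.U, E y c' ↔ ∃ x, Big x ∧ pr (sof x) (c x).1 = y := fun y =>
        E_img (by fun_prop) (by fun_prop)
      constructor
      · intro h
        obtain ⟨a, h₁, h₂⟩ := (e ⟨p, g.zf.trans _ c'.2 _ h⟩).1 h
        exact ⟨a, h₁, congrArg U.val h₂⟩
      · rintro ⟨a, h, rfl⟩
        exact (e (pr _ _)).2 ⟨a, h, rfl⟩
    have h₂ : ∀ (x : Fn g (Elt k) Prop) i, pair (sof x).1 i ∈ c'.1 → i = (c x).1.1 :=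
      fun x i hx => by
        obtain ⟨y, -, e⟩ := (h₁ _).1 hx
        obtain ⟨e₁, e₂⟩ := pair_inj.1 e
        rw [← e₂, sof_inj e₁]
    have h₃ : e 1 < max m (e 2) := lt_max_of_lt_right (nt_lt.2 (by omega) : E (g.nt 1) (g.nt 2))
    obtain ⟨K, hK, hK₁, hK₂, i, hi⟩ := h.part (max m (e 2)).1.1 (max m (e 2)).2 h₃ c'.1 c'.2
      ⟨fun p hp => by
        obtain ⟨x, hx, rfl⟩ := (h₁ p).1 hp
        exact ⟨_, ⟨(sof x).2, sof_sub x, (hasOtp_iff x).2 hx⟩, _,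
          (lt_max_of_lt_left (hm x hx) : c x < max m (e 2)), rfl⟩,
      fun z hz => by
        obtain ⟨x, rfl⟩ := exists_sof hz.1 hz.2.1
        exact ⟨_, (h₁ _).2 ⟨x, (hasOtp_iff x).1 hz.2.2, rfl⟩, h₂ x⟩⟩
    obtain ⟨K, rfl⟩ := exists_sof hK hK₁
    refine ⟨K, (hasOtp_iff K).1 hK₂, c K, fun x hx hs => Elt.ext (U.ext ?_)⟩
    rw [← h₂ K i (hi _ hK (fun _ h => h) hK₂), ← h₂ x i (hi _ (sof x).2 (fun z hz => ?_)
      ((hasOtp_iff x).2 hx))]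
    obtain ⟨a, ha, rfl⟩ := mem_sof.1 hz
    exact elt_mem_sof.2 (hs a ha)

end Mdl

end Pool.Agent.MP_09d684_lc

end

section

namespace Pool.Agent.MP_09d684_lc

open ZFSet

universe u v w

/-- Decoding of formulas from numbers. -/
def lpDec (n : ℕ) : Fml :=
  if n % 5 = 0 then .mem (n / 5).unpair.1 (n / 5).unpair.2
  else if n % 5 = 1 then .eq (n / 5).unpair.1 (n / 5).unpair.2
  else if _h : n % 5 = 3 then .imp (lpDec (n / 5).unpair.1) (lpDec (n / 5).unpair.2)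
  else if _h' : n % 5 = 4 then .all (lpDec (n / 5))
  else .bot
termination_by n
decreasing_by
  · have := Nat.unpair_left_le (n / 5)
    omega
  · have := Nat.unpair_right_le (n / 5)
    omega
  · omega

theorem lpDec_surj (φ : Fml) : ∃ n, lpDec n = φ := by
  induction φ with
  | mem i j =>
    refine ⟨5 * Nat.pair i j, ?_⟩
    rw [lpDec, if_pos (by omega), show 5 * Nat.pair i j / 5 = Nat.pair i j by omega,
      Nat.unpair_pair]
  | eq i j =>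
    refine ⟨5 * Nat.pair i j + 1, ?_⟩
    rw [lpDec, if_neg (by omega), if_pos (by omega),
      show (5 * Nat.pair i j + 1) / 5 = Nat.pair i j by omega, Nat.unpair_pair]
  | bot => exact ⟨2, by rw [lpDec]; simp⟩
  | imp φ ψ ih₁ ih₂ =>
    obtain ⟨i, rfl⟩ := ih₁
    obtain ⟨j, rfl⟩ := ih₂
    refine ⟨5 * Nat.pair i j + 3, ?_⟩
    rw [lpDec, if_neg (by omega), if_neg (by omega), dif_pos (by omega),
      show (5 * Nat.pair i j + 3) / 5 = Nat.pair i j by omega, Nat.unpair_pair]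
  | all φ ih =>
    obtain ⟨i, rfl⟩ := ih
    refine ⟨5 * i + 4, ?_⟩
    rw [lpDec, if_neg (by omega), if_neg (by omega), dif_neg (by omega), dif_pos (by omega),
      show (5 * i + 4) / 5 = i by omega]

theorem lp_isOrdinal_omega : IsOrdinal (omega : ZFSet.{u}) := by
  refine ⟨fun y hy z hz => ?_, fun {x y z} h₁ h₂ h₃ => ?_⟩
  · obtain ⟨n, rfl⟩ := mem_omega.1 hy
    obtain ⟨m, -, rfl⟩ := mem_nat.1 hz
    exact nat_mem_omega m
  · obtain ⟨n, rfl⟩ := mem_omega.1 h₃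
    obtain ⟨m, hm, rfl⟩ := mem_nat.1 h₂
    obtain ⟨k, hk, rfl⟩ := mem_nat.1 h₁
    exact nat_mem_nat.2 (hk.trans hm)

namespace Mdl

variable {g : Mdl.{u}}

open Cd

/-! ### Reals -/

theorem lp_real_mem (r : g.Re) : (ι r : g.U).1 ∈ Reals g.M := by
  refine ⟨(ι r : g.U).2, fun p hp => ?_, fun a ha => ?_⟩
  · obtain ⟨n, e⟩ := (Fn.E_code (f := r) (p := ⟨p, g.zf.trans _ (ι r : g.U).2 _ hp⟩)).1 hp
    exact ⟨nat n, nat_mem_omega n, nat (r n), nat_mem_omega _, (congrArg U.val e).symm⟩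
  · obtain ⟨n, rfl⟩ := mem_omega.1 ha
    refine ⟨nat (r n), (Fn.pr_code (f := r) (a := n) (b := r n)).2 rfl, fun b hb => ?_⟩
    obtain ⟨m, e⟩ := (Fn.E_code (f := r) (p := ⟨_, g.zf.trans _ (ι r : g.U).2 _ hb⟩)).1 hb
    obtain ⟨e₁, e₂⟩ := pair_inj.1 (congrArg U.val e)
    obtain rfl : m = n := nat_injective e₁
    exact e₂.symm

theorem lp_exists_real {x : ZFSet.{u}} (hx : x ∈ Reals g.M) : ∃ r : g.Re, (ι r : g.U).1 = x := by
  obtain ⟨hM, h₁, h₂⟩ := hx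
  obtain ⟨r, hr⟩ := Fn.exists_code (α := ℕ) (β := ℕ) (x := (⟨x, hM⟩ : g.U)) (fun p hp => by
    obtain ⟨a, ha, b, hb, e⟩ := h₁ p.1 hp
    obtain ⟨n, rfl⟩ := mem_omega.1 ha
    obtain ⟨m, rfl⟩ := mem_omega.1 hb
    exact ⟨n, m, U.ext e⟩) (fun n => by
    obtain ⟨b, hb, hu⟩ := h₂ (nat n) (nat_mem_omega n)
    obtain ⟨a, -, b', hb', e⟩ := h₁ _ hb
    obtain ⟨-, rfl⟩ := pair_inj.1 e
    obtain ⟨m, rfl⟩ := mem_omega.1 hb'
    exact ⟨m, fun k => ⟨fun h => nat_injective (hu _ h), fun h => h ▸ hb⟩⟩)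
  exact ⟨r, congrArg U.val hr⟩

instance lpOmFact : Fact (IsOrdinal (g.om).1) := ⟨lp_isOrdinal_omega⟩

theorem small_of_theta {k : g.U} (h : BelowTheta g.M k.1) : Small (pow k) := by
  obtain ⟨f, hf, ⟨h₁, h₂⟩, h₃⟩ := h
  let F : g.U := ⟨f, hf⟩
  refine ⟨Elt g.om, inferInstance, inferInstance, ⟨⟨g.nt 0, nt_om 0⟩⟩,
    fun _ A => sepU k fun b => ∃ r : g.Re, A r ∧ E (pr (ι r) b) F, by fun_prop, fun x hx => ?_⟩
  refine ⟨⟨g.nt 0, nt_om 0⟩, ⟨fun r => ∃ b, E b x ∧ E (pr (ι r) b) F, by fun_prop⟩,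
    U.ext' fun b => ?_⟩
  rw [E_sepU (by fun_prop)]
  constructor
  · rintro ⟨-, r, ⟨b', hb', e'⟩, e⟩
    obtain ⟨c, -, hu⟩ := h₂ _ (lp_real_mem r)
    obtain rfl : b = b' := U.ext ((hu _ e).trans (hu _ e').symm)
    exact hb'
  · intro hb
    have hk : E b k := E_pow.1 hx b hb
    obtain ⟨y, hy⟩ := h₃ b.1 hk
    obtain ⟨a, ha, c, -, e⟩ := h₁ _ hy
    obtain ⟨rfl, -⟩ := pair_inj.1 e
    obtain ⟨r, rfl⟩ := lp_exists_real ha
    exact ⟨hk, r, ⟨b, hb, hy⟩, hy⟩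

/-! ### Satisfaction inside the model -/

/-- Put an element in front of an assignment. -/
def lpPush (z : g.U) (v : Fn g ℕ g.U) : Fn g ℕ g.U :=
  ⟨fun k => if k = 0 then z else v (k - 1), by fun_prop⟩

@[simp] theorem lpPush_zero (z : g.U) (v : Fn g ℕ g.U) : lpPush z v 0 = z := rfl

@[simp] theorem lpPush_succ (z : g.U) (v : Fn g ℕ g.U) (k : ℕ) : lpPush z v (k + 1) = v k := rfl

theorem lpPush_val (z : g.U) (v : Fn g ℕ g.U) :
    (fun k => (lpPush z v k).1) = cons z.1 (fun k => (v k).1) := by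
  funext k; cases k <;> rfl

@[fun_prop] theorem tm_lpPush {Γ : Type*} [Cd g Γ] {z : Γ → g.U} {v : Γ → Fn g ℕ g.U}
    (hz : g.Tm z) (hv : g.Tm v) : g.Tm fun x => lpPush (z x) (v x) := by
  unfold lpPush; fun_prop

/-- Satisfaction of a coded formula in a set of the model. -/
def lpSat (N : g.U) (n : ℕ) (v : Fn g ℕ g.U) : Prop :=
  Sat (N.1 : Set ZFSet.{u}) (lpDec n) fun k => (v k).1

theorem lpSat_eq (N : g.U) (n : ℕ) (v : Fn g ℕ g.U) : lpSat N n v ↔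
    (n % 5 = 0 ∧ E (v (n / 5).unpair.1) (v (n / 5).unpair.2)) ∨
    (n % 5 = 1 ∧ v (n / 5).unpair.1 = v (n / 5).unpair.2) ∨
    (n % 5 = 3 ∧ (lpSat N (n / 5).unpair.1 v → lpSat N (n / 5).unpair.2 v)) ∨
    (n % 5 = 4 ∧ ∀ z, E z N → lpSat N (n / 5) (lpPush z v)) := by
  unfold lpSat
  rw [lpDec]
  split_ifs with h₀ h₁ h₃ h₄
  · simp [h₀, Sat, E_iff]
  · simp [h₁, Sat, U.ext_iff]
  · simp [h₃, Sat]
  · simp only [h₄, Sat, lpPush_val]
    constructor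
    · exact fun h => Or.inr (Or.inr (Or.inr ⟨trivial, fun z hz => h z.1 hz⟩))
    · rintro (h | h | h | h)
      · simp at h
      · simp at h
      · simp at h
      · exact fun x hx => h.2 ⟨x, g.zf.trans _ N.2 _ hx⟩ hx
  · simp [h₀, h₁, h₃, h₄, Sat]

theorem tm_lpSat' : g.Tm fun z : g.U × ℕ × Fn g ℕ g.U => lpSat z.1 z.2.1 z.2.2 := by
  refine tm_wf (r := fun b a : g.U × ℕ × Fn g ℕ g.U => b.1 = a.1 ∧ b.2.1 < a.2.1 ∧
      ∀ k, E (b.2.2 k) a.1 ∨ ∃ j, a.2.2 j = b.2.2 k)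
    (Subrelation.wf (r := InvImage (· < ·) fun a : g.U × ℕ × Fn g ℕ g.U => a.2.1)
      (fun h => h.2.1) (InvImage.wf _ wellFounded_lt)) (by fun_prop)
    (Ψ := fun a s => (a.2.1 % 5 = 0 ∧ E (a.2.2 (a.2.1 / 5).unpair.1) (a.2.2 (a.2.1 / 5).unpair.2)) ∨
      (a.2.1 % 5 = 1 ∧ a.2.2 (a.2.1 / 5).unpair.1 = a.2.2 (a.2.1 / 5).unpair.2) ∨
      (a.2.1 % 5 = 3 ∧ (ev _ Prop s (a.1, (a.2.1 / 5).unpair.1, a.2.2) →
        ev _ Prop s (a.1, (a.2.1 / 5).unpair.2, a.2.2))) ∨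
      (a.2.1 % 5 = 4 ∧ ∀ z, E z a.1 → ev _ Prop s (a.1, a.2.1 / 5, lpPush z a.2.2)))
    (by fun_prop) ?_ ?_
  · rintro ⟨N, n, v⟩ s h
    refine propext ((lpSat_eq N n v).trans (or_congr_right (or_congr_right (or_congr
      (and_congr_right fun h₃ => ?_) (and_congr_right fun h₄ => ?_)))))
    · have h₁ := Nat.unpair_left_le (n / 5)
      have h₂ := Nat.unpair_right_le (n / 5)
      rw [h (N, (n / 5).unpair.1, v) ⟨rfl, by dsimp only at h₃ ⊢; omega, fun k => Or.inr ⟨k, rfl⟩⟩,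
        h (N, (n / 5).unpair.2, v) ⟨rfl, by dsimp only at h₃ ⊢; omega, fun k => Or.inr ⟨k, rfl⟩⟩]
    · refine forall_congr' fun z => imp_congr_right fun hz => ?_
      rw [h (N, n / 5, lpPush z v) ⟨rfl, by dsimp only at h₄ ⊢; omega, fun k => ?_⟩]
      cases k with
      | zero => exact Or.inl hz
      | succ k => exact Or.inr ⟨k, rfl⟩
  · rintro ⟨N, n, v⟩
    obtain ⟨R, hR⟩ := tm_image (g := g) (Q := fun _ : ℕ => True) (f := fun j => v j)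
      (by fun_prop) (by fun_prop)
    let T : g.U := sUn (upr N R)
    have hT : ∀ y, E y T ↔ E y N ∨ ∃ j, v j = y := fun y => by
      simp [T, E_sUn, E_upr, hR]
    obtain ⟨S, hS⟩ := tm_image (g := g) (Q := fun _ : ℕ × Fn g ℕ (Elt T) => True)
      (f := fun z => ι (N, z.1, (⟨fun k => (z.2 k).1, by fun_prop⟩ : Fn g ℕ g.U)))
      (by fun_prop) (by fun_prop)
    have key : ∀ b : g.U × ℕ × Fn g ℕ g.U, E (ι b) S ↔ b.1 = N ∧ ∀ k, E (b.2.2 k) T := by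
      rintro ⟨N', m, w⟩
      rw [hS]
      constructor
      · rintro ⟨z, -, e⟩
        obtain ⟨rfl, -, rfl⟩ := inj e
        exact ⟨rfl, fun k => (z.2 k).2⟩
      · rintro ⟨rfl, h⟩
        exact ⟨(m, ⟨fun k => ⟨w k, h k⟩, tm_of_rel (Q := fun k (e : Elt T) => e.1 = w k)
          (by fun_prop) fun k e => ⟨fun h => Elt.ext h, fun h => h ▸ rfl⟩⟩), trivial, rfl⟩
    refine ⟨S, (key _).2 ⟨rfl, fun k => (hT _).2 (Or.inr ⟨k, rfl⟩)⟩, fun b hb c hc => ?_⟩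
    obtain ⟨h₁, h₂⟩ := (key b).1 hb
    refine (key c).2 ⟨hc.1.trans h₁, fun k => ?_⟩
    rcases hc.2.2 k with h | ⟨j, h⟩
    · exact (hT _).2 (Or.inl (h₁ ▸ h))
    · exact h ▸ h₂ j

@[fun_prop] theorem tm_lpSat {Γ : Type*} [Cd g Γ] {N : Γ → g.U} {n : Γ → ℕ}
    {v : Γ → Fn g ℕ g.U} (hN : g.Tm N) (hn : g.Tm n) (hv : g.Tm v) :
    g.Tm fun x => lpSat (N x) (n x) (v x) := tm_lpSat'.comp (hN.pair (hn.pair hv))

/-- The subset of `N` defined by a coded formula with parameters. -/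
noncomputable def lpSub (N : g.U) (n : ℕ) (v : Fn g ℕ g.U) : g.U :=
  sepU N fun z => lpSat N n (lpPush z v)

theorem E_lpSub {N z : g.U} {n : ℕ} {v : Fn g ℕ g.U} :
    E z (lpSub N n v) ↔ E z N ∧ lpSat N n (lpPush z v) := E_sepU (by fun_prop)

@[fun_prop] theorem tm_lpSub {Γ : Type*} [Cd g Γ] {N : Γ → g.U} {n : Γ → ℕ}
    {v : Γ → Fn g ℕ g.U} (hN : g.Tm N) (hn : g.Tm n) (hv : g.Tm v) :
    g.Tm fun x => lpSub (N x) (n x) (v x) := by unfold lpSub; fun_prop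

/-- The definable power set, in the model. -/
noncomputable def lpDef (N : g.U) : g.U :=
  sepU (pow N) fun x => ∃ (n : ℕ) (v : Fn g ℕ g.U), (∀ i, E (v i) N) ∧ x = lpSub N n v

theorem E_lpDef {N x : g.U} :
    E x (lpDef N) ↔ ∃ (n : ℕ) (v : Fn g ℕ g.U), (∀ i, E (v i) N) ∧ x = lpSub N n v := by
  rw [lpDef, E_sepU (by fun_prop), and_iff_right_iff_imp]
  rintro ⟨n, v, -, rfl⟩
  exact E_pow.2 fun y hy => (E_lpSub.1 hy).1

@[fun_prop] theorem tm_lpDef {Γ : Type*} [Cd g Γ] {N : Γ → g.U} (hN : g.Tm N) :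
    g.Tm fun x => lpDef (N x) := by unfold lpDef; fun_prop

theorem mem_lpSub {N : g.U} {n : ℕ} {v : Fn g ℕ g.U} {z : ZFSet.{u}} :
    z ∈ (lpSub N n v).1 ↔ z ∈ N.1 ∧ Sat (N.1 : Set ZFSet.{u}) (lpDec n)
      (cons z fun k => (v k).1) := by
  constructor
  · intro h
    have := (E_lpSub (z := ⟨z, g.zf.trans _ (lpSub N n v).2 _ h⟩)).1 h
    rwa [lpSat, lpPush_val] at this
  · intro h
    refine (E_lpSub (z := ⟨z, g.zf.trans _ N.2 _ h.1⟩)).2 ?_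
    rwa [lpSat, lpPush_val]

theorem def_eq_lpDef (N : g.U) : Def (N.1 : Set ZFSet.{u}) = ((lpDef N).1 : Set ZFSet.{u}) := by
  ext x
  constructor
  · rintro ⟨φ, v, hv, hx⟩
    obtain ⟨n, rfl⟩ := lpDec_surj φ
    obtain ⟨B, hB⟩ := (lpDec n).exists_bound
    let vU : ℕ → g.U := fun i => ⟨v i, g.zf.trans _ N.2 _ (hv i)⟩
    let v' : Fn g ℕ g.U := ⟨fun i => (ini vU B).getD i (vU 0), by fun_prop⟩
    have h₁ : ∀ i < B, v' i = vU i := fun i hi => getD_ini _ _ hi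
    have h₂ : ∀ i, E (v' i) N := fun i => by
      by_cases hi : i < B
      · rw [h₁ i hi]; exact hv i
      · rw [show v' i = vU 0 from List.getD_eq_default _ _ (by simpa using hi)]; exact hv 0
    have h₃ : x = (lpSub N n v').1 := ZFSet.ext fun z => by
      rw [hx, mem_lpSub]
      refine and_congr_right fun _ => hB _ _ _ fun k hk => ?_
      cases k with
      | zero => rfl
      | succ k => exact (congrArg U.val (h₁ k (by omega))).symm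
    rw [h₃]
    exact E_lpDef.2 ⟨n, v', h₂, rfl⟩
  · intro hx
    obtain ⟨n, v, hv, e⟩ := (E_lpDef (x := ⟨x, g.zf.trans _ (lpDef N).2 _ hx⟩)).1 hx
    obtain rfl : x = (lpSub N n v).1 := congrArg U.val e
    exact ⟨lpDec n, fun k => (v k).1, hv, fun z => mem_lpSub⟩

/-! ### The levels of the hierarchy -/

/-- The transitive closure of `{P}`. -/
noncomputable def lpTc (P : g.U) : g.U :=
  sUn (img (fun _ : ℕ => True) fun n => sUn^[n] (upr P P))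

theorem E_lpTc' {P x : g.U} : E x (lpTc P) ↔ ∃ n, E x (sUn^[n] (upr P P)) := by
  rw [lpTc, E_sUn]
  simp only [E_img (α := ℕ) (Q := fun _ => True) (f := fun n => sUn^[n] (upr P P))
    (by fun_prop) (by fun_prop)]
  simp

theorem mem_lpTc {P : g.U} {x : ZFSet.{u}} :
    x ∈ (lpTc P).1 ↔ Relation.ReflTransGen (· ∈ ·) x P.1 := by
  constructor
  · intro h
    obtain ⟨n, hn⟩ := (E_lpTc' (x := ⟨x, g.zf.trans _ (lpTc P).2 _ h⟩)).1 h
    suffices ∀ (n : ℕ) (y : g.U), E y (sUn^[n] (upr P P)) →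
      Relation.ReflTransGen (· ∈ ·) y.1 P.1 from this n _ hn
    intro n
    induction n with
    | zero =>
      intro y hy
      obtain rfl : y = P := by simpa using E_upr.1 hy
      exact .refl
    | succ n ih =>
      intro y hy
      rw [Function.iterate_succ_apply'] at hy
      obtain ⟨z, hz, hy⟩ := E_sUn.1 hy
      exact .head hy (ih z hz)
  · intro h
    induction h using Relation.ReflTransGen.head_induction_on with
    | refl => exact E_lpTc'.2 ⟨0, E_upr.2 (Or.inl rfl)⟩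
    | @head x y h₁ _ ih =>
      have hy : y ∈ g.M := g.zf.trans _ (lpTc P).2 _ ih
      obtain ⟨n, hn⟩ := (E_lpTc' (x := ⟨y, hy⟩)).1 ih
      refine (E_lpTc' (x := ⟨x, g.zf.trans _ hy _ h₁⟩)).2 ⟨n + 1, ?_⟩
      rw [Function.iterate_succ_apply']
      exact E_sUn.2 ⟨_, hn, h₁⟩

theorem lp_imgU_congr {a : g.U} {f h : g.U → g.U} (e : ∀ x, E x a → f x = h x) :
    imgU a f = imgU a h := by
  unfold imgU
  congr 1
  funext S
  refine propext (forall_congr' fun y => iff_congr Iff.rfl (exists_congr fun x =>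
    and_congr_right fun hx => ?_))
  rw [e x hx]

open Classical in
/-- The levels of the constructible hierarchy over `P`, in the model. -/
noncomputable def lpL (P : g.U) : g.U → g.U :=
  E_wf.fix fun a F => sUn (upr (lpTc P) (sUn (imgU a fun b =>
    lpDef (if h : E b a then F b h else default))))

theorem lpL_eq (P a : g.U) :
    lpL P a = sUn (upr (lpTc P) (sUn (imgU a fun b => lpDef (lpL P b)))) := by
  rw [lpL, WellFounded.fix_eq]
  congr 3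
  exact lp_imgU_congr fun b hb => by rw [dif_pos hb]

theorem tm_lpL' (P : g.U) : g.Tm (lpL P) := by
  refine tm_wf E_wf (by fun_prop)
    (Ψ := fun a s => sUn (upr (lpTc P) (sUn (imgU a fun b => lpDef (ev g.U g.U s b)))))
    (by fun_prop) (fun a s h => ?_) exists_trcl
  rw [lpL_eq]
  congr 3
  exact lp_imgU_congr fun b hb => by rw [h b hb]

@[fun_prop] theorem tm_lpL {Γ : Type*} [Cd g Γ] (P : g.U) {a : Γ → g.U} (ha : g.Tm a) :
    g.Tm fun x => lpL P (a x) := (tm_lpL' P).comp ha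

theorem E_lpL {P a x : g.U} :
    E x (lpL P a) ↔ E x (lpTc P) ∨ ∃ b, E b a ∧ E x (lpDef (lpL P b)) := by
  rw [lpL_eq]
  simp only [E_sUn, E_upr]
  constructor
  · rintro ⟨y, rfl | rfl, h⟩
    · exact Or.inl h
    · obtain ⟨_, h₁, h₂⟩ := E_sUn.1 h
      obtain ⟨b, hb, rfl⟩ := (E_imgU (by fun_prop)).1 h₁
      exact Or.inr ⟨b, hb, h₂⟩
  · rintro (h | ⟨b, hb, h⟩)
    · exact ⟨_, Or.inl rfl, h⟩
    · exact ⟨_, Or.inr rfl, E_sUn.2 ⟨_, (E_imgU (by fun_prop)).2 ⟨b, hb, rfl⟩, h⟩⟩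

theorem lh_eq_lpL (P a : g.U) : Lh P.1 a.1 = ((lpL P a).1 : Set ZFSet.{u}) := by
  induction a using E_wf.induction with
  | _ a ih =>
    rw [Lh]
    ext x
    simp only [Set.mem_union, Set.mem_ofPred_eq, Set.mem_iUnion, SetLike.mem_coe, ← mem_lpTc]
    constructor
    · rintro (h | ⟨b, h⟩)
      · exact (E_lpL (x := ⟨x, g.zf.trans _ (lpTc P).2 _ h⟩)).2 (Or.inl h)
      · let b' : g.U := ⟨b.1, g.zf.trans _ a.2 _ b.2⟩
        rw [show Lh P.1 b.1 = _ from ih b' b.2, def_eq_lpDef] at h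
        exact (E_lpL (x := ⟨x, g.zf.trans _ (lpDef _).2 _ h⟩)).2 (Or.inr ⟨b', b.2, h⟩)
    · intro h
      rcases (E_lpL (x := ⟨x, g.zf.trans _ (lpL P a).2 _ h⟩)).1 h with h | ⟨b, hb, h⟩
      · exact Or.inl h
      · refine Or.inr ⟨⟨b.1, hb⟩, ?_⟩
        rw [show Lh P.1 b.1 = _ from ih b hb, def_eq_lpDef]
        exact h

/-! ### The power set of the reals and its transitive closure -/

/-- A set of reals as an element of the model. -/
noncomputable def lpSet (A : g.PR) : g.U := img (fun r : g.Re => A r) fun r => ι r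

theorem E_lpSet {A : g.PR} {x : g.U} : E x (lpSet A) ↔ ∃ r : g.Re, A r ∧ ι r = x :=
  E_img (by fun_prop) (by fun_prop)

@[fun_prop] theorem tm_lpSet {Γ : Type*} [Cd g Γ] {A : Γ → g.PR} (hA : g.Tm A) :
    g.Tm fun x => lpSet (A x) := by unfold lpSet; fun_prop

/-- The power set of the reals. -/
noncomputable def lpP (g : Mdl.{u}) : g.U := pow (lpSet ⟨fun _ => True, by fun_prop⟩)

theorem E_lpP {x : g.U} : E x g.lpP ↔ ∀ y, E y x → ∃ r : g.Re, ι r = y := by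
  simp [lpP, E_pow, E_lpSet]

theorem lpP_val : g.lpP.1 = PowR g.M := by
  ext x
  rw [PowR, mem_sep, mem_powerset]
  constructor
  · intro h
    have hx : x ∈ g.M := g.zf.trans _ g.lpP.2 _ h
    have h' : ∀ y ∈ x, y ∈ Reals g.M := fun y hy => by
      obtain ⟨r, e⟩ := (E_lpP (x := ⟨x, hx⟩)).1 h ⟨y, g.zf.trans _ hx _ hy⟩ hy
      exact (show (ι r : g.U).1 = y from congrArg U.val e) ▸ lp_real_mem r
    refine ⟨fun y hy => mem_funs.2 ⟨fun p hp => ?_, (h' y hy).2.2⟩, hx, h'⟩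
    exact mem_prod.2 ((h' y hy).2.1 p hp)
  · rintro ⟨-, hx, h⟩
    refine (E_lpP (x := ⟨x, hx⟩)).2 fun y hy => ?_
    obtain ⟨r, e⟩ := lp_exists_real (h y.1 hy)
    exact ⟨r, U.ext e⟩

/-- The elements of the transitive closure, from a number and a set of reals. -/
noncomputable def lpBase (m : ℕ) (A : g.PR) : g.U :=
  if m.unpair.1 = 0 then g.lpP else if m.unpair.1 = 1 then lpSet A else
  if m.unpair.1 = 2 then sUn (lpSet A) else
  if m.unpair.1 = 3 then pr (g.nt m.unpair.2.unpair.1) (g.nt m.unpair.2.unpair.2) else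
  if m.unpair.1 = 4 then upr (g.nt m.unpair.2.unpair.1) (g.nt m.unpair.2.unpair.2) else
  g.nt m.unpair.2

@[fun_prop] theorem tm_lpBase {Γ : Type*} [Cd g Γ] {m : Γ → ℕ} {A : Γ → g.PR} (hm : g.Tm m)
    (hA : g.Tm A) : g.Tm fun x => lpBase (m x) (A x) := by unfold lpBase; fun_prop

theorem lp_E_pr {a b x : g.U} : E x (pr a b) ↔ x = upr a a ∨ x = upr a b := by
  rw [E_iff, pr_val, pair, mem_pair, U.ext_iff, U.ext_iff]
  simp only [upr, pair_eq_singleton]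

theorem lpTc_cases {x : g.U} (h : E x (lpTc g.lpP)) : x = g.lpP ∨ E x g.lpP ∨
    (∃ r : g.Re, ι r = x) ∨ (∃ i j, x = pr (g.nt i) (g.nt j)) ∨
    (∃ i j, x = upr (g.nt i) (g.nt j)) ∨ ∃ i, x = g.nt i := by
  obtain ⟨n, hn⟩ := E_lpTc'.1 h
  clear h
  induction n generalizing x with
  | zero => exact Or.inl (by simpa using E_upr.1 hn)
  | succ n ih =>
    rw [Function.iterate_succ_apply'] at hn
    obtain ⟨y, hy, hx⟩ := E_sUn.1 hn
    rcases ih hy with rfl | h | ⟨r, rfl⟩ | ⟨i, j, rfl⟩ | ⟨i, j, rfl⟩ | ⟨i, rfl⟩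
    · exact Or.inr (Or.inl hx)
    · exact Or.inr (Or.inr (Or.inl (E_lpP.1 h x hx)))
    · obtain ⟨k, rfl⟩ := Fn.E_code.1 hx
      exact Or.inr (Or.inr (Or.inr (Or.inl ⟨k, r k, rfl⟩)))
    · rcases lp_E_pr.1 hx with rfl | rfl
      exacts [Or.inr (Or.inr (Or.inr (Or.inr (Or.inl ⟨i, i, rfl⟩)))),
        Or.inr (Or.inr (Or.inr (Or.inr (Or.inl ⟨i, j, rfl⟩))))]
    · rcases E_upr.1 hx with rfl | rfl
      exacts [Or.inr (Or.inr (Or.inr (Or.inr (Or.inr ⟨i, rfl⟩)))),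
        Or.inr (Or.inr (Or.inr (Or.inr (Or.inr ⟨j, rfl⟩))))]
    · obtain ⟨m, -, rfl⟩ := E_nt.1 hx
      exact Or.inr (Or.inr (Or.inr (Or.inr (Or.inr ⟨m, rfl⟩))))

theorem exists_lpBase {x : g.U} (h : E x (lpTc g.lpP)) : ∃ m A, lpBase m A = x := by
  rcases lpTc_cases h with rfl | h | ⟨r, rfl⟩ | ⟨i, j, rfl⟩ | ⟨i, j, rfl⟩ | ⟨i, rfl⟩
  · exact ⟨Nat.pair 0 0, default, by simp [lpBase]⟩
  · refine ⟨Nat.pair 1 0, ⟨fun r => E (ι r) x, by fun_prop⟩, ?_⟩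
    simp only [lpBase, Nat.unpair_pair, one_ne_zero, if_false, if_true]
    refine U.ext' fun y => E_lpSet.trans ⟨?_, fun hy => ?_⟩
    · rintro ⟨r, h, rfl⟩
      exact h
    · obtain ⟨r, rfl⟩ := E_lpP.1 h y hy
      exact ⟨r, hy, rfl⟩
  · refine ⟨Nat.pair 2 0, ⟨fun r' => r' = r, by fun_prop⟩, ?_⟩
    have : (lpBase (Nat.pair 2 0) ⟨fun r' => r' = r, by fun_prop⟩ : g.U) =
      sUn (lpSet ⟨fun r' => r' = r, by fun_prop⟩) := by simp [lpBase]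
    rw [this]
    exact U.ext' fun y => by simp [E_sUn, E_lpSet]
  · exact ⟨Nat.pair 3 (Nat.pair i j), default, by simp [lpBase]⟩
  · exact ⟨Nat.pair 4 (Nat.pair i j), default, by simp [lpBase]⟩
  · exact ⟨Nat.pair 5 i, default, by simp [lpBase]⟩

/-! ### Straight line programs -/

section

variable {k : g.U}

/-- One step of a program: push a definable subset of a level, or a basic set. -/
noncomputable def lpStep (As : Fn g ℕ g.PR) (v : Fn g ℕ g.U) (i : Elt k × ℕ × ℕ) : Fn g ℕ g.U :=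
  lpPush (if i.2.1 % 2 = 0 then lpSub (lpL g.lpP i.1.1) (i.2.1 / 2) v else
    lpBase (i.2.1 / 2) (As i.2.2)) v

@[fun_prop] theorem tm_lpStep {Γ : Type*} [Cd g Γ] {As : Γ → Fn g ℕ g.PR} {v : Γ → Fn g ℕ g.U}
    {i : Γ → Elt k × ℕ × ℕ} (h₁ : g.Tm As) (h₂ : g.Tm v) (h₃ : g.Tm i) :
    g.Tm fun x => lpStep (As x) (v x) (i x) := by unfold lpStep; fun_prop

theorem lpRun_shift (As : Fn g ℕ g.PR) (w : List (Elt k × ℕ × ℕ)) (v : Fn g ℕ g.U) (n : ℕ) :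
    w.foldl (lpStep As) v (n + w.length) = v n := by
  induction w using List.reverseRecOn with
  | nil => rfl
  | append_singleton w i ih =>
    rw [List.foldl_append, List.length_append, ← ih]
    rfl

theorem lpRun_map {As As' : Fn g ℕ g.PR} {sh : ℕ → ℕ} (h : ∀ c, As' (sh c) = As c)
    (w : List (Elt k × ℕ × ℕ)) (v : Fn g ℕ g.U) :
    (w.map fun i => (i.1, i.2.1, sh i.2.2)).foldl (lpStep As') v = w.foldl (lpStep As) v := by
  rw [List.foldl_map]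
  congr 1
  funext v i
  simp only [lpStep, h]

/-- `x` is the output of a program. -/
def lpGood (k x : g.U) : Prop :=
  ∃ (w : List (Elt k × ℕ × ℕ)) (As : Fn g ℕ g.PR), ∀ v, w.foldl (lpStep As) v 0 = x

theorem lpGood_many {x : ℕ → g.U} (h : ∀ i, lpGood k (x i)) (n : ℕ) :
    ∃ (w : List (Elt k × ℕ × ℕ)) (As : Fn g ℕ g.PR) (f : ℕ → ℕ), ∀ v, ∀ i < n,
      w.foldl (lpStep As) v (f i) = x i := by
  induction n with
  | zero => exact ⟨[], default, id, fun _ _ h => absurd h (Nat.not_lt_zero _)⟩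
  | succ n ih =>
    obtain ⟨w, As, f, hw⟩ := ih
    obtain ⟨w', As', hw'⟩ := h n
    let B : Fn g ℕ g.PR := ⟨fun c => if c % 2 = 0 then As (c / 2) else As' (c / 2), by fun_prop⟩
    have h₀ : ∀ c, B (2 * c) = As c := fun c => by simp [B]
    have h₁ : ∀ c, B (2 * c + 1) = As' c := fun c => by
      have : (2 * c + 1) / 2 = c := by omega
      simp [B, this]
    refine ⟨(w.map fun i => (i.1, i.2.1, 2 * i.2.2)) ++
      w'.map fun i => (i.1, i.2.1, 2 * i.2.2 + 1), B,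
      fun i => if i = n then 0 else f i + w'.length, fun v i hi => ?_⟩
    rw [List.foldl_append, lpRun_map (sh := fun c => 2 * c) h₀,
      lpRun_map (sh := fun c => 2 * c + 1) h₁]
    dsimp only
    split_ifs with e
    · rw [e, hw']
    · rw [lpRun_shift, hw v i (by omega)]

theorem lpGood_of_mem (k₀ : Elt k) (hk : ∀ b, E b k → ∀ c, E c b → E c k) (a : g.U)
    (ha : ∀ b, E b a → E b k) (x : g.U) (hx : E x (lpL g.lpP a)) : lpGood k x := by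
  induction a using E_wf.induction generalizing x with
  | _ a ih =>
    rcases E_lpL.1 hx with h | ⟨b, hb, h⟩
    · obtain ⟨m, A, rfl⟩ := exists_lpBase h
      refine ⟨[(k₀, 2 * m + 1, 0)], ⟨fun _ => A, by fun_prop⟩, fun v => ?_⟩
      have : (2 * m + 1) / 2 = m := by omega
      simp [lpStep, this]
    · obtain ⟨n, v, hv, rfl⟩ := E_lpDef.1 h
      obtain ⟨B, hB⟩ := (lpDec n).exists_bound
      obtain ⟨w, As, f, hw⟩ := lpGood_many (x := v)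
        (fun i => ih b hb (hk b (ha b hb)) _ (hv i)) B
      obtain ⟨n', hn'⟩ := lpDec_surj ((lpDec n).rename (liftIdx f))
      refine ⟨w ++ [(⟨b, ha b hb⟩, 2 * n', 0)], As, fun v' => ?_⟩
      have : (w ++ [((⟨b, ha b hb⟩ : Elt k), 2 * n', 0)]).foldl (lpStep As) v' 0 =
          lpSub (lpL g.lpP b) n' (w.foldl (lpStep As) v') := by
        simp [lpStep]
      rw [this]
      refine U.ext (ZFSet.ext fun z => ?_)
      rw [mem_lpSub, mem_lpSub, hn', sat_rename]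
      refine and_congr_right fun _ => hB _ _ _ fun j hj => ?_
      cases j with
      | zero => rfl
      | succ j => exact congrArg U.val (hw v' j (by omega))

end

theorem lp_ord_iff {a : g.U} : IsOrdinal a.1 ↔ (∀ b, E b a → ∀ c, E c b → E c a) ∧
    ∀ b c d, E b c → E c d → E d a → E b d := by
  constructor
  · exact fun h => ⟨fun b hb c hc => h.mem_trans hc hb, fun b c d => h.mem_trans'⟩
  · rintro ⟨h₁, h₂⟩
    refine ⟨fun y hy z hz => ?_, fun {x y z} hx hy hz => ?_⟩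
    · have := g.zf.trans _ a.2 _ hy
      exact h₁ ⟨y, this⟩ hy ⟨z, g.zf.trans _ this _ hz⟩ hz
    · have h₃ := g.zf.trans _ a.2 _ hz
      have h₄ := g.zf.trans _ h₃ _ hy
      exact h₂ ⟨x, g.zf.trans _ h₄ _ hx⟩ ⟨y, h₄⟩ ⟨z, h₃⟩ hx hy hz

@[fun_prop] theorem tm_lp_ord {Γ : Type*} [Cd g Γ] {a : Γ → g.U} (ha : g.Tm a) :
    g.Tm fun x => IsOrdinal (a x).1 := by
  simp only [lp_ord_iff]
  fun_prop

theorem exists_level_bound (h : VeqL g.M) (X : g.U) : ∃ k : g.U, IsOrdinal k.1 ∧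
    E (g.nt 0) k ∧ ∀ x, E x X → ∃ a, (∀ b, E b a → E b k) ∧ E x (lpL g.lpP a) := by
  let f : g.U → g.U := fun x => the fun a => IsOrdinal a.1 ∧ E x (lpL g.lpP a) ∧
    ∀ b, E b a → ¬ E x (lpL g.lpP b)
  have hf : ∀ x, IsOrdinal (f x).1 ∧ E x (lpL g.lpP (f x)) := by
    intro x
    obtain ⟨a, ha, h₁, h₂⟩ := h x.1 x.2
    rw [← lpP_val, show Lh g.lpP.1 a = _ from lh_eq_lpL g.lpP ⟨a, ha⟩] at h₂
    obtain ⟨m, ⟨hm₁, hm₂⟩, hm⟩ := (E_wf (g := g)).has_min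
      {a | IsOrdinal a.1 ∧ E x (lpL g.lpP a)} ⟨⟨a, ha⟩, h₁, h₂⟩
    have : f x = m := the_eq fun c => ⟨fun hc => by
      rcases hc.1.mem_trichotomous hm₁ with e | e | e
      exacts [absurd e (hm c ⟨hc.1, hc.2.1⟩), U.ext e, absurd hm₂ (hc.2.2 m e)],
      fun e => e ▸ ⟨hm₁, hm₂, fun b hb hx => hm b ⟨hm₁.mem hb, hx⟩ hb⟩⟩
    exact this ▸ ⟨hm₁, hm₂⟩
  have hY : ∀ y, E y (sUn (upr (imgU X f) (upr g.om g.om))) ↔
      (∃ x, E x X ∧ f x = y) ∨ y = g.om := fun y => by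
    simp [E_sUn, E_upr, E_imgU (f := f) (by fun_prop)]
  have hO : ∀ y, E y (sUn (upr (imgU X f) (upr g.om g.om))) → IsOrdinal y.1 := fun y hy => by
    rcases (hY y).1 hy with ⟨x, -, rfl⟩ | rfl
    exacts [(hf x).1, lp_isOrdinal_omega]
  refine ⟨sUn (sUn (upr (imgU X f) (upr g.om g.om))), lp_ord_iff.2 ⟨fun b hb c hc => ?_,
    fun b c d h₁ h₂ h₃ => ?_⟩, E_sUn.2 ⟨_, (hY _).2 (Or.inr rfl), nt_om 0⟩, fun x hx =>
      ⟨f x, fun b hb => E_sUn.2 ⟨_, (hY _).2 (Or.inl ⟨x, hx, rfl⟩), hb⟩, (hf x).2⟩⟩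
  · obtain ⟨y, hy, hb⟩ := E_sUn.1 hb
    exact E_sUn.2 ⟨y, hy, (hO y hy).mem_trans hc hb⟩
  · obtain ⟨y, hy, h₃⟩ := E_sUn.1 h₃
    exact (hO y hy).mem_trans' h₁ h₂ h₃

theorem small_of_veql (h : VeqL g.M) (X : g.U) : Small X := by
  obtain ⟨k, hk, h₀, hX⟩ := exists_level_bound h X
  have : Fact (IsOrdinal k.1) := ⟨hk⟩
  let : Inhabited (Elt k) := ⟨⟨_, h₀⟩⟩
  let col : g.PR → Fn g ℕ g.PR := fun A => ⟨fun c => ⟨fun r =>
    A ⟨fun n => if n = 0 then c else r (n - 1), by fun_prop⟩, by fun_prop⟩, by fun_prop⟩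
  have hcol : g.Tm col := by fun_prop
  refine ⟨List (Elt k × ℕ × ℕ), inferInstance, inferInstance, inferInstance,
    fun w A => w.foldl (lpStep (col A)) default 0, by fun_prop, fun x hx => ?_⟩
  obtain ⟨a, ha, hx⟩ := hX x hx
  obtain ⟨w, As, hw⟩ := lpGood_of_mem default (lp_ord_iff.1 hk).1 a ha x hx
  refine ⟨w, ⟨fun r => As (r 0) ⟨fun n => r (n + 1), by fun_prop⟩, by fun_prop⟩, ?_⟩
  rw [← hw default]
  congr 3

end Mdl

end Pool.Agent.MP_09d684_lc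

end
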