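import Pool.Agent.Mg.F09d684.Ga313b4
import Pool.Agent.Mg.F09d684.Ge05232
import Pool.Agent.Mg.F09d684.G360183
import Pool.Agent.Mg.F09d684.Gc61594
import Pool.Agent.Mg.F09d684.Gb18b6a
import Pool.Agent.MP_09d684_lc.Cover

section

namespace Pool.Agent.MP_09d684_lc

open ZFSet

universe u v w

namespace Mdl

variable {g : Mdl.{u}}

open Cd

variable {T : Type*} [Cd g T] [Bd g T] [LinearOrder T] [OT g T] [Inhabited T]

omit [Bd g T] [Inhabited T] in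
theorem ord_min (g : Mdl.{u}) [Cd g T] [OT g T] {P : T → Prop} (h : ∃ a, P a) :
    ∃ a, P a ∧ ∀ b, P b → a ≤ b := by
  obtain ⟨a, ha, hm⟩ := (OT.wf g : WellFounded ((· < ·) : T → T → Prop)).has_min {a | P a} h
  exact ⟨a, ha, fun b hb => not_lt.1 (hm b hb)⟩

omit [Bd g T] [Inhabited T] in
theorem ord_le_ap (g : Mdl.{u}) [Cd g T] [OT g T] {f : T → T} (hf : ∀ a b, a < b → f a < f b)
    (a : T) : a ≤ f a := by
  by_contra h
  obtain ⟨b, hb, hm⟩ := ord_min g (P := fun a => f a < a) ⟨a, not_le.1 h⟩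
  exact absurd (hm _ (hf _ _ hb)) (not_le.2 hb)

/-- The range of a function of the model. -/
def ordRg (f : Fn g T T) : Fn g T Prop := ⟨fun b => ∃ a, f a = b, by fun_prop⟩

/-- The composition of two functions of the model. -/
def ordCp (f h : Fn g T T) : Fn g T T := ⟨fun a => f (h a), by fun_prop⟩

omit [OT g T] [Inhabited T] in
theorem big_ordRg {f : Fn g T T} (hf : ∀ a b, a < b → f a < f b) : Big (ordRg f) :=
  ⟨f, hf, fun _ => Iff.rfl⟩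

theorem least_ordRg {f : Fn g T T} (hf : ∀ a b, a < b → f a < f b) {o : T} (ho : ∀ a, o ≤ a) :
    g.least (ordRg f).ap = f o := by
  refine le_antisymm (least_ole (P := (ordRg f).ap) ⟨o, rfl⟩) ?_
  obtain ⟨a, ha⟩ := least_spec (g := g) (P := (ordRg f).ap) ⟨f o, o, rfl⟩
  rw [← ha]
  rcases (ho a).eq_or_lt with rfl | h
  exacts [le_rfl, (hf _ _ h).le]

theorem TSP.shift (h : g.TSP T) : ∃ (o : T) (s : Fn g T T), (∀ a, o ≤ a) ∧
    (∀ a b, a < b → s a < s b) ∧ o < s o := by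
  classical
  obtain ⟨e, w, h₁, -, h₃⟩ := h.long
  have hm : StrictMono e.ap := strictMono_nat_of_lt_succ h₁
  have hl : ∀ n, g.least (fun m => e m = e n) = n := fun n =>
    hm.injective (least_spec (g := g) (P := fun m => e m = e n) ⟨n, rfl⟩)
  let s : Fn g T T := ⟨fun a => if ∃ n, e n = a then e (g.least (fun m => e m = a) + 1) else a,
    by fun_prop⟩
  have s₁ : ∀ n, s (e n) = e (n + 1) := fun n => by
    show (if ∃ m, e m = e n then e (g.least (fun m => e m = e n) + 1) else e n) = _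
    rw [if_pos ⟨n, rfl⟩, hl]
  have s₂ : ∀ a, (¬ ∃ n, e n = a) → s a = a := fun a ha => if_neg ha
  refine ⟨e 0, s, fun a => not_lt.1 fun ha => ?_, fun a b hab => ?_, by rw [s₁]; exact h₁ 0⟩
  · obtain ⟨m, rfl⟩ := h₃ a 0 ha
    exact absurd (hm.lt_iff_lt.1 ha) (Nat.not_lt_zero m)
  · by_cases hb : ∃ n, e n = b
    · obtain ⟨n, rfl⟩ := hb
      obtain ⟨m, rfl⟩ := h₃ a n hab
      rw [s₁, s₁]
      exact hm (Nat.succ_lt_succ (hm.lt_iff_lt.1 hab))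
    · rw [s₂ b hb]
      by_cases ha : ∃ n, e n = a
      · obtain ⟨n, rfl⟩ := ha
        rw [s₁]
        exact not_le.1 fun hle => hb (h₃ b (n + 2) (hle.trans_lt (h₁ (n + 1))))
      · rwa [s₂ a ha]

theorem TSP.tail (h : g.TSP T) (a : T) :
    ∃ t : Fn g T T, (∀ x y, x < y → t x < t y) ∧ ∀ x, a < t x := by
  classical
  obtain ⟨o, s, ho, hs, hlt⟩ := h.shift
  obtain ⟨K, ⟨f, hf, hK⟩, i, hi⟩ := h.part (fun z => if g.least z.ap < a then g.least z.ap else o)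
    (by fun_prop) (max a (s o)) fun z _ => by
      split_ifs with hz
      exacts [hz.trans_le (le_max_left _ _), hlt.trans_le (le_max_right _ _)]
  have hfs : ∀ x y, x < y → ordCp f s x < ordCp f s y := fun x y hxy => hf _ _ (hs _ _ hxy)
  have e₁ := hi _ (big_ordRg hf) fun x hx => (hK x).2 hx
  have e₂ := hi _ (big_ordRg hfs) fun x ⟨y, hy⟩ => (hK x).2 ⟨s y, hy⟩
  rw [least_ordRg hf ho] at e₁
  rw [least_ordRg hfs ho] at e₂
  have h₀ : f o < ordCp f s o := hf _ _ hlt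
  have h₁ : a ≤ ordCp f s o := not_lt.1 fun hc => by
    rw [if_pos hc] at e₂
    rw [if_pos (h₀.trans hc)] at e₁
    exact h₀.ne (e₁.trans e₂.symm)
  exact ⟨ordCp (ordCp f s) s, fun x y hxy => hfs _ _ (hs _ _ hxy), fun x =>
    h₁.trans_lt (hfs _ _ (hlt.trans_le (by
      rcases (ho x).eq_or_lt with rfl | hx
      exacts [le_rfl, (hs _ _ hx).le])))⟩

theorem TSP.reg (h : g.TSP T) (a : T) (f : Fn g T T) : ∃ b, ∀ x, x < a → f x < b := by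
  by_contra hn
  have hn' : ∀ b, ∃ x, x < a ∧ b ≤ f x := fun b => by
    by_contra hc
    exact hn ⟨b, fun x hx => not_le.1 fun hb => hc ⟨x, hx, hb⟩⟩
  obtain ⟨o, -, ho, -, -⟩ := h.shift
  obtain ⟨K, ⟨k, hk, hK⟩, i, hi⟩ := h.part (fun z => g.least fun x => x < a ∧ g.least z.ap ≤ f x)
    (by fun_prop) a fun z _ => (least_spec (g := g) (hn' (g.least z.ap))).1
  obtain ⟨t, ht, ht'⟩ := h.tail (f i)
  have hkt : ∀ x y, x < y → ordCp k t x < ordCp k t y := fun x y hxy => hk _ _ (ht _ _ hxy)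
  have e := hi _ (big_ordRg hkt) fun x ⟨y, hy⟩ => (hK x).2 ⟨t y, hy⟩
  have h₁ := (least_spec (g := g) (hn' (g.least (ordRg (ordCp k t)).ap))).2
  rw [e, least_ordRg hkt ho] at h₁
  exact absurd ((ht' o).trans_le ((ord_le_ap g hk (t o)).trans h₁)) (lt_irrefl _)

theorem TSP.unc (h : g.TSP T) : g.Unc T := by
  intro f
  obtain ⟨e, w, h₁, h₂, -⟩ := h.long
  have hm : StrictMono e.ap := strictMono_nat_of_lt_succ h₁
  obtain ⟨b, hb⟩ := h.reg w ⟨fun a => f (g.least fun m => e m = a), by fun_prop⟩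
  refine ⟨b, fun n => ?_⟩
  have hl : g.least (fun m => e m = e n) = n :=
    hm.injective (least_spec (g := g) (P := fun m => e m = e n) ⟨n, rfl⟩)
  have := hb (e n) (h₂ n)
  rwa [show (f (g.least fun m => e m = e n) < b) = (f n < b) by rw [hl]] at this

theorem TSP.nomax (h : g.TSP T) (a : T) : ∃ b, a < b := by
  obtain ⟨t, -, ht⟩ := h.tail a
  exact ⟨t a, ht a⟩

theorem TSP.big_iff (h : g.TSP T) (x : Fn g T Prop) : Big x ↔ ∀ a, ∃ b, a < b ∧ x b := by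
  constructor
  · rintro ⟨f, hf, hx⟩ a
    obtain ⟨b, hb⟩ := h.nomax a
    exact ⟨f b, hb.trans_le (ord_le_ap g hf b), (hx _).2 ⟨b, rfl⟩⟩
  · intro hx
    let Ψ : T → Fn g T T → T := fun a G => g.least fun b => x b ∧ ∀ c, c < a → G c < b
    let F : Fn g T T := g.rfix (· < ·) Ψ
    have hF : ∀ a, F a = g.least fun b => x b ∧ ∀ c, c < a → F c < b :=
      rfix_eq (OT.wf g) (by fun_prop) (by fun_prop) fun a f f' e => by
        refine congrArg g.least (funext fun b => propext (and_congr_right fun _ => ?_))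
        exact forall_congr' fun c => imp_congr_right fun hc => by rw [e c hc]
    have h₁ : ∀ a, x (F a) ∧ ∀ c, c < a → F c < F a := fun a => by
      obtain ⟨b₀, hb₀⟩ := h.reg a F
      obtain ⟨b, hb, hxb⟩ := hx b₀
      have := least_spec (g := g) (P := fun b => x b ∧ ∀ c, c < a → F c < b)
        ⟨b, hxb, fun c hc => (hb₀ c hc).trans hb⟩
      rwa [← hF a] at this
    have h₂ : ∀ a b, a < b → F a < F b := fun a b hab => (h₁ b).2 a hab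
    refine ⟨F, h₂, fun b => ⟨fun hb => ?_, fun ⟨a, e⟩ => e ▸ (h₁ a).1⟩⟩
    obtain ⟨a, ha, hm⟩ := ord_min g (P := fun a => b ≤ F a) ⟨b, ord_le_ap g h₂ b⟩
    refine ⟨a, le_antisymm ?_ ha⟩
    rw [hF a]
    exact least_ole (P := fun b => x b ∧ ∀ c, c < a → F c < b)
      ⟨hb, fun c hc => not_le.1 fun hle => absurd (hm c hle) (not_le.2 hc)⟩

/-- Closure points of a definable function are unbounded. -/
theorem TSP.closure (h : g.TSP T) {N : T → T} (hN : g.Tm N) (a₀ : T) :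
    ∃ l, a₀ < l ∧ ∀ a, a < l → N a < l := by
  let S : T → T := fun s => g.least fun t => s < t ∧ ∀ a, a < s → N a < t
  have hS : ∀ s, s < S s ∧ ∀ a, a < s → N a < S s := fun s => by
    obtain ⟨b, hb⟩ := h.reg s ⟨N, hN⟩
    obtain ⟨t, ht⟩ := h.nomax (max s b)
    exact least_spec (g := g) (P := fun t => s < t ∧ ∀ a, a < s → N a < t)
      ⟨t, (le_max_left _ _).trans_lt ht, fun a ha => (hb a ha).trans ((le_max_right _ _).trans_lt ht)⟩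
  have hT : g.Tm fun n : ℕ => S^[n] a₀ := by
    simp only [S]
    fun_prop
  obtain ⟨l, hl, hm⟩ := ord_min g (h.unc ⟨_, hT⟩)
  refine ⟨l, hl 0, fun a ha => ?_⟩
  obtain ⟨n, hn⟩ : ∃ n, a ≤ S^[n] a₀ := by
    by_contra hc
    exact absurd (hm a fun n => not_le.1 fun hle => hc ⟨n, hle⟩) (not_le.2 ha)
  have h₁ := (hS (S (S^[n] a₀))).2 a (hn.trans_lt (hS _).1)
  have h₂ : S^[n + 1 + 1] a₀ < l := hl (n + 1 + 1)
  rw [Function.iterate_succ_apply', Function.iterate_succ_apply'] at h₂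
  exact h₁.trans h₂

/-- The accumulation points of a set. -/
def ordAcc (z : Fn g T Prop) : Fn g T Prop :=
  ⟨fun a => (∃ b, b < a) ∧ ∀ b, b < a → ∃ c, z c ∧ b < c ∧ c < a, by fun_prop⟩

/-- The isolated accumulation points of a set. -/
def ordLim (z : Fn g T Prop) : Fn g T Prop :=
  ⟨fun a => ordAcc z a ∧ ∃ b, b < a ∧ ∀ c, b < c → c < a → ¬ ordAcc z c, by fun_prop⟩

omit [Inhabited T] in
theorem tm_ordLim : g.Tm (ordLim (g := g) (T := T)) := by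
  have : g.Tm (ordAcc (g := g) (T := T)) := by
    unfold ordAcc
    fun_prop
  unfold ordLim
  fun_prop

omit [Inhabited T] in
theorem ordAcc_mono {z K : Fn g T Prop} (h : ∀ a, z a → K a) {a : T} (ha : ordAcc z a) :
    ordAcc K a :=
  ⟨ha.1, fun b hb => (ha.2 b hb).imp fun c hc => ⟨h c hc.1, hc.2⟩⟩

theorem TSP.acc_unb (h : g.TSP T) {z : Fn g T Prop} (hz : ∀ a, ∃ b, a < b ∧ z b) (a : T) :
    ∃ b, a < b ∧ ordAcc z b := by
  obtain ⟨l, h₁, h₂⟩ := h.closure (N := fun a => g.least fun b => a < b ∧ z b) (by fun_prop) a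
  exact ⟨l, h₁, ⟨a, h₁⟩, fun b hb => ⟨_, (least_spec (g := g) (hz b)).2,
    (least_spec (g := g) (hz b)).1, h₂ b hb⟩⟩

theorem TSP.lim_unb (h : g.TSP T) {z : Fn g T Prop} (hz : ∀ a, ∃ b, a < b ∧ z b) (a : T) :
    ∃ b, a < b ∧ ordLim z b := by
  obtain ⟨l, hl, hm⟩ := ord_min g (h.acc_unb hz a)
  exact ⟨l, hl.1, hl.2, a, hl.1, fun c h₁ h₂ h₃ => absurd (hm c ⟨h₁, h₃⟩) (not_le.2 h₂)⟩

/-- The passage from a set to the limits of its successive blocks of length `ω`. -/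
theorem TSP.exists_lim (h : g.TSP T) : ∃ L : Fn g T Prop → Fn g T Prop, g.Tm L ∧
    (∀ z, Big z → Big (L z)) ∧
    (∀ K x : Fn g T Prop, Big K → Big x → (∀ a, x a → L K a) →
      ∃ z, Big z ∧ (∀ a, z a → K a) ∧ L z = x) ∧
    ∀ b : T → T, g.Tm b → ∃ x, Big x ∧ ∀ K : Fn g T Prop,
      (∀ a, ∃ k, K k ∧ a < k ∧ k < b a) → ∃ z, Big z ∧ (∀ a, z a → K a) ∧ L z = x := by
  refine ⟨ordLim, tm_ordLim, fun z hz => (h.big_iff _).2 (h.lim_unb ((h.big_iff _).1 hz)),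
    fun K x _ hx hxK => ?_, fun b hb => ?_⟩
  · let z : Fn g T Prop := ⟨fun k => K k ∧ ∃ l, x l ∧ k < l ∧ ∀ c, k < c → c < l → ¬ ordAcc K c,
      by fun_prop⟩
    have hzK : ∀ a, z a → K a := fun a ha => ha.1
    have h₁ : ∀ l, x l → ordAcc z l := fun l hl => by
      obtain ⟨hK, b₀, hb₀, hn⟩ := hxK l hl
      refine ⟨hK.1, fun b hb => ?_⟩
      obtain ⟨k, hk, hk₁, hk₂⟩ := hK.2 _ (max_lt hb hb₀)
      exact ⟨k, ⟨hk, l, hl, hk₂, fun c hc => hn c (((le_max_right _ _).trans_lt hk₁).trans hc)⟩,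
        (le_max_left _ _).trans_lt hk₁, hk₂⟩
    refine ⟨z, (h.big_iff _).2 fun a => ?_, hzK, Fn.ext' fun l => propext ⟨?_, fun hl => ?_⟩⟩
    · obtain ⟨l, hl, hxl⟩ := (h.big_iff _).1 hx a
      obtain ⟨c, hc, hc₁, -⟩ := (h₁ l hxl).2 a hl
      exact ⟨c, hc₁, hc⟩
    · rintro ⟨hl, b₀, hb₀, hn⟩
      obtain ⟨k, ⟨-, l', hl', hk, hn'⟩, hk₁, hk₂⟩ := hl.2 b₀ hb₀
      rcases lt_trichotomy l l' with e | rfl | e
      exacts [absurd (ordAcc_mono hzK hl) (hn' l hk₂ e), hl',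
        absurd (h₁ l' hl') (hn l' (hk₁.trans hk) e)]
    · obtain ⟨-, b₀, hb₀, hn⟩ := hxK l hl
      exact ⟨h₁ l hl, b₀, hb₀, fun c hc hc' ha => hn c hc hc' (ordAcc_mono hzK ha)⟩
  · let S : Fn g T Prop := ⟨fun l => ∀ a, a < l → b a < l, by fun_prop⟩
    have hS : ∀ a, ∃ l, a < l ∧ S l := h.closure hb
    refine ⟨ordLim S, (h.big_iff _).2 (h.lim_unb hS), fun K hK => ?_⟩
    let z : Fn g T Prop := ⟨fun k => K k ∧ ∃ s, S s ∧ s < k ∧ ∀ c, s < c → c < k → ¬ K c,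
      by fun_prop⟩
    have h₁ : ∀ s, S s → ∃ k, z k ∧ s < k ∧ k < b s := fun s hs => by
      obtain ⟨k₀, hk₀, hk₁, hk₂⟩ := hK s
      obtain ⟨k, hk, hm⟩ := ord_min g (P := fun k => K k ∧ s < k) ⟨k₀, hk₀, hk₁⟩
      exact ⟨k, ⟨hk.1, s, hs, hk.2, fun c h₁ h₂ h₃ => absurd (hm c ⟨h₃, h₁⟩) (not_le.2 h₂)⟩, hk.2,
        (hm k₀ ⟨hk₀, hk₁⟩).trans_lt hk₂⟩
    have h₂ : ordAcc z = ordAcc S := Fn.ext' fun l => propext ⟨fun hl => ⟨hl.1, fun b₀ hb₀ => by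
      obtain ⟨k₁, hk₁, h₃, h₄⟩ := hl.2 b₀ hb₀
      obtain ⟨k₂, ⟨-, s, hs, h₅, hn⟩, h₆, h₇⟩ := hl.2 k₁ h₄
      exact ⟨s, hs, h₃.trans_le (not_lt.1 fun hc => hn k₁ hc h₆ hk₁.1), h₅.trans h₇⟩⟩,
      fun hl => ⟨hl.1, fun b₀ hb₀ => by
      obtain ⟨s, hs, h₃, h₄⟩ := hl.2 b₀ hb₀
      obtain ⟨s', hs', h₅, h₆⟩ := hl.2 s h₄
      obtain ⟨k, hk, h₇, h₈⟩ := h₁ s hs
      exact ⟨k, hk, h₃.trans h₇, (h₈.trans (hs' s h₅)).trans h₆⟩⟩⟩
    refine ⟨z, (h.big_iff _).2 fun a => ?_, fun a ha => ha.1, Fn.ext' fun l => ?_⟩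
    · obtain ⟨s, hs, hs'⟩ := hS a
      obtain ⟨k, hk, h₃, -⟩ := h₁ s hs'
      exact ⟨k, hs.trans h₃, hk⟩
    · show (ordAcc z l ∧ ∃ b, b < l ∧ ∀ c, b < c → c < l → ¬ ordAcc z c) = _
      rw [h₂]
      rfl

end Mdl

end Pool.Agent.MP_09d684_lc

end

section

namespace Pool.Agent.MP_09d684_lc

open ZFSet

universe u v w

namespace Mdl

variable {g : Mdl.{u}}

open Cd

/-- `X` is the set of codes of the elements of `α`. -/
def GRep (g : Mdl.{u}) (α : Type v) [Cd g α] (X : Set ZFSet.{u}) : Prop :=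
  ∀ x, x ∈ X ↔ ∃ a : α, (ι a : g.U).1 = x

section

variable {Γ : Type*} {α : Type*} {β : Type*} [Cd g Γ] [Cd g α] [Cd g β]

theorem grep_nat : g.GRep ℕ (omega : ZFSet.{u}) := fun _ => mem_omega

theorem gm_mem_code [Bd g β] {f : Fn g β α} {p : ZFSet.{u}} :
    p ∈ (ι f : g.U).1 ↔ ∃ b, pair (ι b : g.U).1 (ι (f b) : g.U).1 = p := by
  constructor
  · intro hp
    obtain ⟨b, e⟩ := (Fn.E_code (p := ⟨p, g.zf.trans _ (ι f : g.U).2 _ hp⟩)).1 hp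
    exact ⟨b, congrArg U.val e⟩
  · rintro ⟨b, rfl⟩
    exact (Fn.E_code (f := f) (p := pr (ι b) (ι (f b)))).2 ⟨b, rfl⟩

theorem gm_pair_code [Bd g β] {f : Fn g β α} {b : β} {v : ZFSet.{u}} :
    pair (ι b : g.U).1 v ∈ (ι f : g.U).1 ↔ v = (ι (f b) : g.U).1 := by
  rw [gm_mem_code]
  constructor
  · rintro ⟨b', e⟩
    obtain ⟨e₁, e₂⟩ := pair_inj.1 e
    obtain rfl := inj (U.ext e₁)
    exact e₂.symm
  · rintro rfl
    exact ⟨b, rfl⟩

theorem GRep.fn [Bd g β] {D X : Set ZFSet.{u}} (hD : g.GRep β D) (hX : g.GRep α X) :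
    g.GRep (Fn g β α) {x | x ∈ g.M ∧ IsFn x D X} := by
  intro x
  constructor
  · rintro ⟨hx, h₁, h₂⟩
    obtain ⟨f, hf⟩ := Fn.exists_code (α := β) (β := α) (x := ⟨x, hx⟩) (fun p hp => by
      obtain ⟨a, ha, b, hb, e⟩ := h₁ p.1 hp
      obtain ⟨a, rfl⟩ := (hD a).1 ha
      obtain ⟨b, rfl⟩ := (hX b).1 hb
      exact ⟨a, b, U.ext e⟩) fun a => by
      obtain ⟨b, hb, hu⟩ := h₂ _ ((hD _).2 ⟨a, rfl⟩)
      obtain ⟨a', -, b', hb', e⟩ := h₁ _ hb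
      obtain ⟨-, rfl⟩ := pair_inj.1 e
      obtain ⟨c, rfl⟩ := (hX _).1 hb'
      exact ⟨c, fun c' => ⟨fun h => inj (U.ext (hu _ h)), fun h => h ▸ hb⟩⟩
    exact ⟨f, congrArg U.val hf⟩
  · rintro ⟨f, rfl⟩
    refine ⟨(ι f : g.U).2, fun p hp => ?_, fun a ha => ?_⟩
    · obtain ⟨b, rfl⟩ := gm_mem_code.1 hp
      exact ⟨_, (hD _).2 ⟨b, rfl⟩, _, (hX _).2 ⟨f b, rfl⟩, rfl⟩
    · obtain ⟨b, rfl⟩ := (hD a).1 ha
      exact ⟨_, gm_pair_code.2 rfl, fun v hv => gm_pair_code.1 hv⟩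

theorem GRep.seq {X : Set ZFSet.{u}} (hX : g.GRep α X) : g.GRep (Fn g ℕ α) (Seq g.M X) :=
  GRep.fn grep_nat hX

theorem grep_re : g.GRep g.Re (Reals g.M) := GRep.seq grep_nat

theorem gm_mem_img [Bd g α] {Q : α → Prop} (hQ : g.Tm Q) {x : ZFSet.{u}} :
    x ∈ (img Q (ι : α → g.U)).1 ↔ ∃ a, Q a ∧ (ι a : g.U).1 = x := by
  constructor
  · intro hx
    obtain ⟨a, ha, e⟩ := (E_img (y := ⟨x, g.zf.trans _ (img Q (ι : α → g.U)).2 _ hx⟩) hQ
      Tm.ι').1 hx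
    exact ⟨a, ha, congrArg U.val e⟩
  · rintro ⟨a, ha, rfl⟩
    exact (E_img (y := ι a) hQ Tm.ι').2 ⟨a, ha, rfl⟩

theorem gm_code_img [Bd g α] {Q : α → Prop} (hQ : g.Tm Q) {a : α} :
    (ι a : g.U).1 ∈ (img Q (ι : α → g.U)).1 ↔ Q a := by
  rw [gm_mem_img hQ]
  exact ⟨fun ⟨b, hb, e⟩ => inj (U.ext e) ▸ hb, fun h => ⟨a, h, rfl⟩⟩

/-- The code of the first `n` moves. -/
noncomputable def gpos (f : Fn g ℕ α) (n : ℕ) : g.U :=
  img (fun k : ℕ => k < n) fun k => pr (ι k) (ι (f k))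

@[fun_prop] theorem tm_gpos {f : Γ → Fn g ℕ α} {n : Γ → ℕ} (hf : g.Tm f) (hn : g.Tm n) :
    g.Tm fun x => gpos (f x) (n x) := by
  unfold gpos
  fun_prop

theorem mem_gpos {f : Fn g ℕ α} {n : ℕ} {p : ZFSet.{u}} :
    p ∈ (gpos f n).1 ↔ ∃ k < n, pair (nat k) (ι (f k) : g.U).1 = p := by
  have e : ∀ y : g.U, E y (gpos f n) ↔ ∃ k, k < n ∧ pr (ι k) (ι (f k)) = y := fun y =>
    E_img (by fun_prop) (by fun_prop)
  constructor
  · intro hp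
    obtain ⟨k, hk, e⟩ := (e ⟨p, g.zf.trans _ (gpos f n).2 _ hp⟩).1 hp
    exact ⟨k, hk, congrArg U.val e⟩
  · rintro ⟨k, hk, rfl⟩
    exact (e (pr (ι k) (ι (f k)))).2 ⟨k, hk, rfl⟩

theorem gpos_val (f : Fn g ℕ α) (n : ℕ) : (gpos f n).1 = restr (ι f : g.U).1 n := by
  refine ZFSet.ext fun p => ?_
  rw [mem_gpos, restr, mem_sep]
  constructor
  · rintro ⟨k, hk, rfl⟩
    exact ⟨gm_mem_code.2 ⟨k, rfl⟩, k, hk, _, rfl⟩
  · rintro ⟨h, k, hk, v, rfl⟩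
    exact ⟨k, hk, by rw [(gm_pair_code (f := f) (b := k)).1 h]⟩

theorem gpos_congr {f h : Fn g ℕ α} {n : ℕ} (e : ∀ k < n, f k = h k) : gpos f n = gpos h n := by
  refine U.ext (ZFSet.ext fun p => ?_)
  simp only [mem_gpos]
  exact exists_congr fun k => and_congr_right fun hk => by rw [e k hk]

theorem isFn_gpos {X : Set ZFSet.{u}} (hX : g.GRep α X) (f : Fn g ℕ α) (n : ℕ) :
    IsFn (gpos f n).1 (nat n : ZFSet.{u}) X := by
  refine ⟨fun p hp => ?_, fun a ha => ?_⟩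
  · obtain ⟨k, hk, rfl⟩ := mem_gpos.1 hp
    exact ⟨_, nat_mem_nat.2 hk, _, (hX _).2 ⟨f k, rfl⟩, rfl⟩
  · obtain ⟨k, hk, rfl⟩ := mem_nat.1 ha
    refine ⟨_, mem_gpos.2 ⟨k, hk, rfl⟩, fun v hv => ?_⟩
    obtain ⟨j, -, e⟩ := mem_gpos.1 hv
    obtain ⟨e₁, e₂⟩ := pair_inj.1 e
    obtain rfl := nat_injective e₁
    exact e₂.symm

theorem tdet_of_det [Bd g α] [Inhabited α] {X : Set ZFSet.{u}} (hX : g.GRep α X)
    (h : ∀ A ∈ g.M, Det g.M X A) : g.TDet α := by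
  intro P hP
  obtain ⟨σ, hσ, ⟨h₁, h₂⟩, H⟩ := h _ (img P (ι : Fn g ℕ α → g.U)).2
  have key : ∀ (f : Fn g ℕ α) (n : ℕ),
      pair (gpos f n).1 (ι (ev g.U α ⟨σ, hσ⟩ (gpos f n)) : g.U).1 ∈ σ := by
    intro f n
    obtain ⟨b, hb, hu⟩ := h₂ _ ⟨n, isFn_gpos hX f n⟩
    obtain ⟨a', -, b', hb', e⟩ := h₁ _ hb
    obtain ⟨-, rfl⟩ := pair_inj.1 e
    obtain ⟨c, rfl⟩ := (hX _).1 hb'
    rw [ev_eq (s := ⟨σ, hσ⟩) (a := gpos f n) (b := c) fun c' =>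
      ⟨fun h => inj (U.ext (hu _ h)), fun h => by rw [h]; exact hb⟩]
    exact hb
  have fol : ∀ i (x : Fn g ℕ α), (∀ n, n % 2 = i → x n = ev g.U α ⟨σ, hσ⟩ (gpos x n)) →
      Follows σ i (ι x : g.U).1 := by
    intro i x hx n hn v hv
    rw [(gm_pair_code (f := x) (b := n)).1 hv, ← gpos_val, hx n hn]
    exact key x n
  refine ⟨fun n f => ev g.U α ⟨σ, hσ⟩ (gpos f n), by fun_prop, fun n f f' e => by
    simp only [gpos_congr e], H.imp (fun H x hx => ?_) fun H x hx hp => ?_⟩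
  · exact (gm_code_img hP).1 (H _ ((hX.seq _).2 ⟨x, rfl⟩) (fol 0 x hx))
  · exact H _ ((hX.seq _).2 ⟨x, rfl⟩) (fol 1 x hx) ((gm_code_img hP).2 hp)

/-- The play in which the moves of parity `i` follow `σ` and the others are taken from `f`. -/
noncomputable def gplay [Inhabited α] (σ : ℕ → Fn g ℕ α → α) (i : ℕ) (f : Fn g ℕ α) : Fn g ℕ α :=
  g.fix fun k y => if k % 2 = i then σ k y else f k

theorem tm_gplay [Inhabited α] {σ : ℕ → Fn g ℕ α → α}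
    (hσ : g.Tm fun z : ℕ × Fn g ℕ α => σ z.1 z.2) (i : ℕ) : g.Tm (gplay σ i) := by
  unfold gplay
  fun_prop

theorem gplay_eq [Inhabited α] {σ : ℕ → Fn g ℕ α → α}
    (hσ : g.Tm fun z : ℕ × Fn g ℕ α => σ z.1 z.2) (c : Causal σ) (i : ℕ) (f : Fn g ℕ α) (n : ℕ) :
    gplay σ i f n = if n % 2 = i then σ n (gplay σ i f) else f n :=
  fix_eq (Ψ := fun k y => if k % 2 = i then σ k y else f k) (by fun_prop)
    (fun n y y' e => by simp only [c n y y' e]) n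

theorem gplay_congr [Inhabited α] {σ : ℕ → Fn g ℕ α → α}
    (hσ : g.Tm fun z : ℕ × Fn g ℕ α => σ z.1 z.2) (c : Causal σ) (i : ℕ) {f h : Fn g ℕ α} {n : ℕ}
    (e : ∀ k < n, f k = h k) : ∀ k < n, gplay σ i f k = gplay σ i h k := by
  intro k
  induction k using Nat.strong_induction_on with
  | _ k ih =>
    intro hk
    rw [gplay_eq hσ c, gplay_eq hσ c, e k hk, c k _ _ fun j hj => ih j hj (hj.trans hk)]

end

theorem tdet_re_of_adr (h : ADR g.M) : g.TDet g.Re := tdet_of_det grep_re h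

theorem tdet_nat_of_ad (h : ∀ A ∈ g.M, Det g.M omega A) : g.TDet ℕ := tdet_of_det grep_nat h

theorem tdc_of_adplus (h : ADplus g.M) : g.TDC := by
  intro Q hQ tot
  obtain ⟨f, hf, H⟩ := h.dc _ (img (fun z : g.Re × g.Re => Q z.1 z.2) ι).2 fun x hx => by
    obtain ⟨a, rfl⟩ := (grep_re x).1 hx
    obtain ⟨b, hb⟩ := tot a
    exact ⟨_, (grep_re _).2 ⟨b, rfl⟩, (gm_code_img (a := (a, b)) hQ).2 hb⟩
  obtain ⟨f, rfl⟩ := (grep_re.seq f).1 hf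
  exact ⟨f, fun n => (gm_code_img (a := (f n, f (n + 1))) hQ).1
    (H n _ _ ((gm_pair_code (f := f) (b := n)).2 rfl)
      ((gm_pair_code (f := f) (b := n + 1)).2 rfl))⟩

theorem tib_of_adplus (h : ADplus g.M) : g.TIB := by
  intro A hA
  obtain ⟨γ, hγ, ho, F, hF, ⟨h₁, h₂⟩, ⟨β₀, h₀⟩, H⟩ := h.borel _ (img A ι).2 fun x hx => by
    obtain ⟨a, -, e⟩ := (gm_mem_img hA).1 hx
    exact (grep_re x).2 ⟨a, e⟩
  have : Fact (IsOrdinal (⟨γ, hγ⟩ : g.U).1) := ⟨ho⟩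
  let F' : Elt (⟨γ, hγ⟩ : g.U) → g.Re → Prop := fun i x =>
    ∃ B : g.U, E (pr i.1 B) ⟨F, hF⟩ ∧ E (ι x) B
  have idx : ∀ β B, pair β B ∈ F → ∃ i : Elt (⟨γ, hγ⟩ : g.U), i.1.1 = β ∧
      ∀ x, F' i x ↔ (ι x : g.U).1 ∈ B := by
    intro β B hB
    obtain ⟨a, ha, b, hb, e⟩ := h₁ _ hB
    obtain ⟨rfl, rfl⟩ := pair_inj.1 e
    refine ⟨⟨⟨β, g.zf.trans _ hγ _ ha⟩, ha⟩, rfl, fun x => ⟨?_, fun hx => ⟨⟨B, hb⟩, hB, hx⟩⟩⟩
    rintro ⟨C, hC, hx⟩
    rw [(h₂ β ha).unique hB hC]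
    exact hx
  obtain ⟨i₀, -, e₀⟩ := idx _ _ h₀
  refine ⟨⟨γ, hγ⟩, this, F', i₀, by simp only [F']; fun_prop, fun i => ?_,
    fun x => (e₀ x).trans (gm_code_img hA)⟩
  obtain ⟨B, hB, -⟩ := h₂ _ i.2
  obtain ⟨i', e, eB⟩ := idx _ _ hB
  obtain rfl : i' = i := Elt.ext (U.ext e)
  have hr : ∀ x : g.Re, (ι x : g.U).1 ∈ Reals g.M := fun x => (grep_re _).2 ⟨x, rfl⟩
  rcases H _ _ hB with ⟨n, m, e⟩ | ⟨δ, hδ, C, hC, e⟩ | ⟨a, -, ha, e⟩
  · refine Or.inl ⟨n, m, fun x => ?_⟩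
    rw [eB, e, and_iff_right (hr x)]
    exact (gm_pair_code (f := x) (b := n)).trans
      ⟨fun h => (nat_injective h).symm, fun h => congrArg nat h.symm⟩
  · obtain ⟨j, rfl, eC⟩ := idx _ _ hC
    exact Or.inr (Or.inl ⟨j, hδ, fun x => by rw [eB, e, and_iff_right (hr x), eC]⟩)
  · refine Or.inr (Or.inr fun x hx => ?_)
    obtain ⟨δ, hδ, C, hC, hx⟩ := (e _).1 ((eB x).1 hx)
    obtain ⟨j, rfl, eC⟩ := idx _ _ hC
    exact ⟨j, ha hδ, (eC x).2 hx, fun x' hx' => (eB x').2 ((e _).2 ⟨_, hδ, C, hC, (eC x').1 hx'⟩)⟩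

theorem TDet.rl (h : g.TDet g.Re) (α : Type*) [Cd g α] [RL g α] : g.TDet α := by
  intro P hP
  have : Inhabited α := ⟨RL.dec (default : g.Re)⟩
  let d : Fn g ℕ g.Re → Fn g ℕ α := fun x => ⟨fun n => RL.dec (x n), by fun_prop⟩
  let e : Fn g ℕ α → Fn g ℕ g.Re := fun x => ⟨fun n => RL.enc (x n), by fun_prop⟩
  have hd : g.Tm d := by simp only [d]; fun_prop
  have he : g.Tm e := by simp only [e]; fun_prop
  obtain ⟨σ, hσ, c, H⟩ := h (fun x => P (d x)) (by fun_prop)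
  have key : ∀ i, ∃ τ : ℕ → Fn g ℕ α → α, g.Tm (fun z : ℕ × Fn g ℕ α => τ z.1 z.2) ∧ Causal τ ∧
      ∀ x : Fn g ℕ α, (∀ n, n % 2 = i → x n = τ n x) →
        ∃ y : Fn g ℕ g.Re, (∀ n, n % 2 = i → y n = σ n y) ∧ d y = x := by
    intro i
    have hp := tm_gplay hσ i
    refine ⟨fun n f => RL.dec (σ n (gplay σ i (e f))), by fun_prop, fun n f f' h => ?_,
      fun x hx => ⟨gplay σ i (e x), fun n hn => by rw [gplay_eq hσ c, if_pos hn],
        Fn.ext' fun n => ?_⟩⟩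
    · show RL.dec _ = RL.dec _
      rw [c n _ _ (gplay_congr hσ c i (h := e f') fun k hk => congrArg RL.enc (h k hk))]
    · show RL.dec (gplay σ i (e x) n) = x n
      rw [gplay_eq hσ c]
      split_ifs with hn
      · exact (hx n hn).symm
      · exact RL.dec_enc _
  rcases H with H | H
  · obtain ⟨τ, h₁, h₂, h₃⟩ := key 0
    refine ⟨τ, h₁, h₂, Or.inl fun x hx => ?_⟩
    obtain ⟨y, hy, rfl⟩ := h₃ x hx
    exact H y hy
  · obtain ⟨τ, h₁, h₂, h₃⟩ := key 1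
    refine ⟨τ, h₁, h₂, Or.inr fun x hx => ?_⟩
    obtain ⟨y, hy, rfl⟩ := h₃ x hx
    exact H y hy

theorem TDet.unif (h : g.TDet g.Re) {α β : Type*} [Cd g α] [Cd g β] [RL g α] [RL g β]
    {ρ : α → β → Prop} (hρ : g.Tm fun z : α × β => ρ z.1 z.2) (tot : ∀ a, ∃ b, ρ a b) :
    ∃ F : α → β, g.Tm F ∧ ∀ a, ρ a (F a) := by
  obtain ⟨σ, hσ, c, H | H⟩ := h (fun x => ¬ ρ (RL.dec (x 0)) (RL.dec (x 1))) (by fun_prop)
  · obtain ⟨b, hb⟩ := tot (RL.dec (σ 0 default))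
    let f : Fn g ℕ g.Re := ⟨fun _ => RL.enc b, by fun_prop⟩
    refine absurd ?_ (H (gplay σ 0 f) fun n hn => by rw [gplay_eq hσ c, if_pos hn])
    rw [gplay_eq hσ c, gplay_eq hσ c, if_pos rfl, if_neg (by omega),
      c 0 _ default fun k hk => absurd hk (by omega)]
    simpa [f] using hb
  · let f : α → Fn g ℕ g.Re := fun a => ⟨fun _ => RL.enc a, by fun_prop⟩
    have hf : g.Tm f := by simp only [f]; fun_prop
    refine ⟨fun a => RL.dec (σ 1 (f a)), by fun_prop, fun a => ?_⟩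
    have := not_not.1 (H (gplay σ 1 (f a)) fun n hn => by rw [gplay_eq hσ c, if_pos hn])
    rw [gplay_eq hσ c, gplay_eq hσ c, if_neg (by omega), if_pos rfl,
      c 1 _ (f a) fun k hk => by rw [gplay_eq hσ c, if_neg (by omega)]] at this
    simpa [f] using this

theorem TDet.tdc (h : g.TDet g.Re) : g.TDC := by
  intro Q hQ tot
  obtain ⟨F, hF, H⟩ := h.unif hQ tot
  refine ⟨⟨fun n => F^[n] default, by fun_prop⟩, fun n => ?_⟩
  show Q (F^[n] default) (F^[n + 1] default)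
  rw [Function.iterate_succ_apply']
  exact H _

end Mdl

end Pool.Agent.MP_09d684_lc

end

section

namespace Pool.Agent.MP_09d684_lc

open ZFSet

universe u v w

namespace Mdl

variable {g : Mdl.{u}}

open Cd

/-- A tree of positions whose children are dense: some cube consists of limits of branches. -/
theorem bm_tree (hc : g.TDC) {π : Type v} [Cd g π] [RL g π] {last : π → g.Cn}
    (hl : g.Tm last) {T : π → Prop} (hT : g.Tm T) {ch : π → π → Prop}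
    (hch : g.Tm fun z : π × π => ch z.1 z.2)
    (dense : ∀ p, T p → ∀ c, CLe c (last p) → ∃ p', T p' ∧ ch p p' ∧ CLe (last p') c)
    {p₀ : π} (h₀ : T p₀) : ∃ H, RLe H (last p₀).2 ∧ ∀ y, Cube (last p₀).1 H y →
      ∃ f : Fn g ℕ π, f 0 = p₀ ∧ ∀ n, (T (f n) ∧ Cube (last (f n)).1 (last (f n)).2 y) ∧
        ch (f n) (f (n + 1)) := by
  let D : π → g.Cn → Prop := fun p c => T p → (∃ p', T p' ∧ ch p p' ∧ CLe c (last p')) ∨
    ∀ y, Cube c.1 c.2 y → ¬ Cube (last p).1 (last p).2 y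
  have hD : g.Tm fun z : π × g.Cn => D z.1 z.2 := by
    simp only [D]
    fun_prop
  have ho : ∀ p, Opn (D p) := by
    intro p c c' h h' hp
    rcases h hp with ⟨p', h₁, h₂, h₃⟩ | h
    exacts [Or.inl ⟨p', h₁, h₂, h'.trans h₃⟩, Or.inr fun y hy => h y (h'.2.2 y hy)]
  have hd : ∀ p, Dns (D p) := by
    intro p c hne
    by_cases h : T p ∧ ∃ y, Cube c.1 c.2 y ∧ Cube (last p).1 (last p).2 y
    · obtain ⟨hp, y, h₁, h₂⟩ := h
      obtain ⟨-, h₃, h₄⟩ := cle_meet h₁ h₂ (le_max_left _ _) (le_max_right _ _)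
      obtain ⟨p', h₅, h₆, h₇⟩ := dense p hp _ h₄
      exact ⟨last p', h₇.trans h₃, fun _ => Or.inl ⟨p', h₅, h₆, CLe.refl h₇.1⟩⟩
    · exact ⟨c, CLe.refl hne, fun hp => Or.inr fun y h₁ h₂ => h ⟨hp, y, h₁, h₂⟩⟩
  obtain ⟨F, hF₀, hF⟩ := hc.dc (α := g.Rs × Fn g ℕ π) (S := fun _ => True) (by fun_prop)
    (Q := fun a b => RLe b.1 a.1 ∧ ∀ j s y, Cube s b.1 y → T (a.2 j) →
      Cube (last (a.2 j)).1 (last (a.2 j)).2 y →
        ∃ j', T (b.2 j') ∧ ch (a.2 j) (b.2 j') ∧ Cube (last (b.2 j')).1 (last (b.2 j')).2 y)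
    (by fun_prop) (fun a _ => by
      obtain ⟨H, h₁, h₂⟩ := cmp hc (D := fun j => D (a.2 j)) (by fun_prop) (fun _ => hd _)
        (fun _ => ho _) a.1
      obtain ⟨G, hG⟩ := hc.cc (β := ℕ × St) (α := π)
        (Q := fun b p' => (∃ p', T p' ∧ ch (a.2 b.1) p' ∧ CLe (b.2, H) (last p')) →
          T p' ∧ ch (a.2 b.1) p' ∧ CLe (b.2, H) (last p')) (by fun_prop) fun b => by
            by_cases h : ∃ p', T p' ∧ ch (a.2 b.1) p' ∧ CLe (b.2, H) (last p')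
            · obtain ⟨p', h'⟩ := h
              exact ⟨p', fun _ => h'⟩
            · exact ⟨p₀, fun h' => absurd h' h⟩
      refine ⟨(H, ⟨fun k => G (NL.dec g k), by fun_prop⟩), trivial, h₁,
        fun j s y hy hp hy' => ?_⟩
      obtain ⟨n₀, hn⟩ := h₂ s y j hy
      have h₃ : Cube (ini y (max n₀ s.length)) H y := cube_ini hy (le_max_right _ _)
      rcases hn _ (le_max_left n₀ s.length) hp with h | h
      · obtain ⟨h₄, h₅, h₆⟩ := hG (j, ini y (max n₀ s.length)) h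
        refine ⟨NL.enc g (j, ini y (max n₀ s.length)), ?_⟩
        simp only [NL.dec_enc]
        exact ⟨h₄, h₅, h₆.2.2 y h₃⟩
      · exact absurd hy' (h y h₃))
    (a₀ := ((last p₀).2, ⟨fun _ => p₀, by fun_prop⟩)) trivial
  let S : Fn g ℕ g.Rs := ⟨fun n => (F n).1, by fun_prop⟩
  have hS : ∀ k, RLe (S (k + 1)) (S k) := fun k => (hF k).2.1
  have hS' : ∀ k m, k ≤ m → RLe (S m) (S k) := fun k m h => by
    induction m, h using Nat.le_induction with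
    | base => exact RLe.refl _
    | succ m _ ih => exact (hS m).trans ih
  have hH : RLe (diag S) (last p₀).2 := by
    have := diag_le hS
    rwa [show S 0 = (last p₀).2 from congrArg Prod.fst hF₀] at this
  refine ⟨diag S, hH, fun y hy => ?_⟩
  have h₁ : ∀ n, ∃ s, Cube s (S n) y := fun n => by
    have h₂ : (last p₀).1.length < max n ((last p₀).1.length + 1) := by omega
    refine ⟨_, cube_le (hS' _ _ ?_) (diag_tip hS (tip_ini hy h₂) (cube_ini hy h₂.le))⟩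
    have := le_lcode_ini (g := g) y (max n ((last p₀).1.length + 1))
    omega
  obtain ⟨f, hf₀, hf⟩ := hc.dc (α := π)
    (S := fun p => (∃ n j, p = (F n).2 j) ∧ T p ∧ Cube (last p).1 (last p).2 y) (by fun_prop)
    hch (fun p hp => by
      obtain ⟨⟨n, j, rfl⟩, h₂, h₃⟩ := hp
      obtain ⟨s, hs⟩ := h₁ (n + 1)
      obtain ⟨j', h₄, h₅, h₆⟩ := (hF n).2.2 j s y hs h₂ h₃
      exact ⟨_, ⟨⟨n + 1, j', rfl⟩, h₄, h₆⟩, h₅⟩)
    (a₀ := p₀) ⟨⟨0, 0, by rw [hF₀]⟩, h₀, cube_le hH hy⟩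
  exact ⟨f, hf₀, fun n => ⟨(hf n).1.2, (hf n).2⟩⟩

/-- The condition that the `n`-th move of the game below `c` has to refine. -/
def bmPrev (c : g.Cn) (x : Fn g ℕ g.Cn) (n : ℕ) : g.Cn := if n = 0 then c else x (n - 1)

/-- The `n`-th move is legal. -/
def BmOk (c : g.Cn) (x : Fn g ℕ g.Cn) (n : ℕ) : Prop :=
  CLe (x n) (bmPrev c x n) ∧ n < (x n).1.length

section

variable {Γ : Type*} [Cd g Γ] {c : Γ → g.Cn} {x : Γ → Fn g ℕ g.Cn} {n : Γ → ℕ}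

@[fun_prop] theorem tm_bmPrev (h₁ : g.Tm c) (h₂ : g.Tm x) (h₃ : g.Tm n) :
    g.Tm fun a => bmPrev (c a) (x a) (n a) := by unfold bmPrev; fun_prop

@[fun_prop] theorem tm_BmOk (h₁ : g.Tm c) (h₂ : g.Tm x) (h₃ : g.Tm n) :
    g.Tm fun a => BmOk (c a) (x a) (n a) := by unfold BmOk; fun_prop

end

section

variable {c : g.Cn} {x x' : Fn g ℕ g.Cn} {n : ℕ}

theorem bmPrev_succ : bmPrev c x (n + 1) = x n := rfl

theorem bmPrev_congr (h : ∀ k < n, x' k = x k) : bmPrev c x' n = bmPrev c x n := by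
  cases n with
  | zero => rfl
  | succ n => exact h n (Nat.lt_succ_self n)

theorem BmOk.congr (h : BmOk c x n) (e : ∀ k ≤ n, x' k = x k) : BmOk c x' n := by
  unfold BmOk
  rw [e n le_rfl, bmPrev_congr fun k hk => e k hk.le]
  exact h

theorem bmPrev_cle (hc : NE c) (h : ∀ k < n, BmOk c x k) : CLe (bmPrev c x n) c := by
  induction n with
  | zero => exact CLe.refl hc
  | succ n ih => exact (h n (Nat.lt_succ_self n)).1.trans (ih fun k hk => h k (by omega))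

theorem bmPrev_cube (h : ∀ k < n, BmOk c x k) {y : g.Yy}
    (hy : Cube (bmPrev c x n).1 (bmPrev c x n).2 y) : ∀ k < n, Cube (x k).1 (x k).2 y := by
  induction n with
  | zero => exact fun k hk => absurd hk (Nat.not_lt_zero k)
  | succ n ih =>
    intro k hk
    rcases Nat.lt_succ_iff_lt_or_eq.1 hk with hk | rfl
    · exact ih (fun k hk => h k (by omega)) ((h n (Nat.lt_succ_self n)).1.2.2 y hy) k hk
    · exact hy

end

/-- Any finitely many moves extend to a play that follows the strategy from then on. -/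
theorem bm_play {α : Type v} [Cd g α] [Inhabited α] {σ : ℕ → Fn g ℕ α → α}
    (hσ : g.Tm fun z : ℕ × Fn g ℕ α => σ z.1 z.2) (hc : Causal σ) (x : Fn g ℕ α) (n : ℕ) :
    ∃ x' : Fn g ℕ α, (∀ k < n, x' k = x k) ∧ ∀ k, n ≤ k → x' k = σ k x' := by
  have h := fix_eq (Ψ := fun k f => if k < n then x k else σ k f) (by fun_prop)
    fun k f f' e => by rw [hc k f f' e]
  exact ⟨_, fun k hk => (h k).trans (if_pos hk), fun k hk => (h k).trans (if_neg (not_lt.2 hk))⟩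

/-- A strategy that plays legally and forces the limit into `Z` gives a cube inside `Z`. -/
theorem bm_cube (hc : g.TDC) {c : g.Cn} (hne : NE c) {σ : ℕ → Fn g ℕ g.Cn → g.Cn}
    (hσ : g.Tm fun z : ℕ × Fn g ℕ g.Cn => σ z.1 z.2) (hcau : Causal σ) {i : ℕ} (hi : i < 2)
    {Z : g.Yy → Prop}
    (hA : ∀ x : Fn g ℕ g.Cn, (∀ n, n % 2 = i → x n = σ n x) → ∀ n, n % 2 = i →
      (∀ k < n, BmOk c x k) → BmOk c x n)
    (hB : ∀ x : Fn g ℕ g.Cn, (∀ n, n % 2 = i → x n = σ n x) → (∀ n, BmOk c x n) →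
      ∀ y, (∀ n, Cube (x n).1 (x n).2 y) → Z y) :
    ∃ c', CLe c' c ∧ ∀ y, Cube c'.1 c'.2 y → Z y := by
  obtain ⟨x₀, -, hx₀⟩ := bm_play hσ hcau default 0
  have hx₁ : ∀ n, n % 2 = i → x₀ n = σ n x₀ := fun n _ => hx₀ n (Nat.zero_le n)
  have hx₂ : ∀ k, k < 1 - i → BmOk c x₀ k := fun k hk =>
    hA x₀ hx₁ k (by omega) fun j hj => by omega
  obtain ⟨H, hH, h⟩ := bm_tree hc (π := ℕ × Fn g ℕ g.Cn) (last := fun p => bmPrev c p.2 p.1)
    (by fun_prop)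
    (T := fun p => p.1 % 2 ≠ i ∧ (∀ n, n % 2 = i → p.2 n = σ n p.2) ∧ ∀ k, k < p.1 → BmOk c p.2 k)
    (by fun_prop) (ch := fun p p' => p'.1 = p.1 + 2 ∧ ∀ k, k < p.1 → p'.2 k = p.2 k) (by fun_prop)
    (by
      rintro ⟨n, x⟩ ⟨h₁, h₂, h₃⟩ c' hc'
      dsimp only at h₁ h₂ h₃ hc'
      obtain ⟨y, hy⟩ := hc'.1
      have ha : CLe (ini y (max c'.1.length (n + 1)), c'.2) c' := cle_ini hy (le_max_left _ _)
      obtain ⟨x', e₁, e₂⟩ := bm_play hσ hcau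
        ⟨fun k => if k < n then x k else (ini y (max c'.1.length (n + 1)), c'.2), by fun_prop⟩
        (n + 1)
      have e₃ : ∀ k < n, x' k = x k := fun k hk => (e₁ k (by omega)).trans (if_pos hk)
      have e₄ : x' n = (ini y (max c'.1.length (n + 1)), c'.2) :=
        (e₁ n (by omega)).trans (if_neg (lt_irrefl n))
      have e₅ : ∀ k, k % 2 = i → x' k = σ k x' := fun k hk => by
        rcases lt_trichotomy k n with h | rfl | h
        · rw [e₃ k h, h₂ k hk]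
          exact hcau k _ _ fun j hj => (e₃ j (hj.trans h)).symm
        · exact absurd hk h₁
        · exact e₂ k h
      have e₆ : ∀ k < n + 1, BmOk c x' k := fun k hk => by
        rcases Nat.lt_succ_iff_lt_or_eq.1 hk with hk | rfl
        · exact (h₃ k hk).congr fun j hj => e₃ j (by omega)
        · refine ⟨?_, ?_⟩
          · rw [e₄, bmPrev_congr e₃]
            exact ha.trans hc'
          · rw [e₄, length_ini]
            omega
      have e₇ : BmOk c x' (n + 1) := hA x' e₅ _ (by omega) e₆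
      refine ⟨(n + 2, x'), ⟨by dsimp only; omega, e₅, fun k hk => ?_⟩, ⟨rfl, e₃⟩, ?_⟩
      · rcases Nat.lt_succ_iff_lt_or_eq.1 hk with hk | rfl
        exacts [e₆ k hk, e₇]
      · have := e₇.1
        rw [bmPrev_succ, e₄] at this
        exact this.trans ha)
    (p₀ := (1 - i, x₀)) ⟨by dsimp only; omega, hx₁, hx₂⟩
  have h₀ := bmPrev_cle hne hx₂
  refine ⟨((bmPrev c x₀ (1 - i)).1, H), (cle_of_rle h₀.1 hH).trans h₀, fun y hy => ?_⟩
  obtain ⟨f, -, hf⟩ := h y hy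
  have h₁ : ∀ m, m ≤ (f m).1 := fun m => by
    induction m with
    | zero => omega
    | succ m ih => have := (hf m).2.1; omega
  have h₂ : ∀ m m', m ≤ m' → (f m).1 ≤ (f m').1 ∧ ∀ k < (f m).1, (f m').2 k = (f m).2 k := by
    intro m m' hm
    induction m', hm using Nat.le_induction with
    | base => exact ⟨le_rfl, fun _ _ => rfl⟩
    | succ m' _ ih =>
      have := (hf m').2.1
      exact ⟨by omega, fun k hk => ((hf m').2.2 k (by omega)).trans (ih.2 k hk)⟩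
  let x : Fn g ℕ g.Cn := ⟨fun k => (f (k + 1)).2 k, by fun_prop⟩
  have h₃ : ∀ n k, k ≤ n → x k = (f (n + 1)).2 k := fun n k hk =>
    ((h₂ (k + 1) (n + 1) (by omega)).2 k (h₁ _)).symm
  refine hB x (fun n hn => ?_) (fun n => ?_) y fun n => ?_
  · exact ((hf (n + 1)).1.1.2.1 n hn).trans (hcau n _ _ fun k hk => (h₃ n k hk.le).symm)
  · exact ((hf (n + 1)).1.1.2.2 n (h₁ _)).congr (h₃ n)
  · exact bmPrev_cube (hf (n + 1)).1.1.2.2 (hf (n + 1)).1.2 n (h₁ _)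

/-- The local Ramsey property. -/
theorem bm_ram (h : g.TDet g.Re) {X : g.Yy → Prop} (hX : g.Tm X) {c : g.Cn} (hne : NE c) :
    ∃ c', CLe c' c ∧ ((∀ y, Cube c'.1 c'.2 y → X y) ∨ ∀ y, Cube c'.1 c'.2 y → ¬ X y) := by
  obtain ⟨σ, hσ, hcau, hw⟩ := h.rl g.Cn
    (fun x => (∃ m, m % 2 = 1 ∧ ¬ BmOk c x m ∧ ∀ k, k < m → BmOk c x k) ∨
      ((∀ n, BmOk c x n) ∧ ∀ y, (∀ n, Cube (x n).1 (x n).2 y) → X y)) (by fun_prop)
  rcases hw with hw | hw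
  · obtain ⟨c', h₁, h₂⟩ := bm_cube h.tdc hne hσ hcau (i := 0) (by omega) (Z := X)
      (fun x hx n hn hk => by
        rcases hw x hx with ⟨m, h₁, h₂, h₃⟩ | h₁
        · rcases lt_trichotomy m n with h | rfl | h
          exacts [absurd (hk m h) h₂, by omega, h₃ n h]
        · exact h₁.1 n)
      fun x hx hl => by
        rcases hw x hx with ⟨m, -, h₂, -⟩ | h₁
        exacts [absurd (hl m) h₂, h₁.2]
    exact ⟨c', h₁, Or.inl h₂⟩
  · obtain ⟨c', h₁, h₂⟩ := bm_cube h.tdc hne hσ hcau (i := 1) (by omega)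
      (Z := fun y => ¬ X y)
      (fun x hx n hn hk => by_contra fun h₁ => hw x hx (Or.inl ⟨n, hn, h₁, hk⟩))
      fun x hx hl y hy hXy => hw x hx (Or.inr ⟨hl, fun y' hy' => by
        have : y' = y := Fn.ext' fun n =>
          ini_eq_iff.1 ((hy' n).1.trans (hy n).1.symm) n (hl n).2
        rwa [this]⟩)
    exact ⟨c', h₁, Or.inr h₂⟩

theorem lu_of_tdet (h : g.TDet g.Re) : g.LU := by
  intro ρ hρ c hne
  obtain ⟨c', h₁, h₂ | h₂⟩ := bm_ram h (X := fun y => ∃ r, ρ y r) (by fun_prop) hne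
  · obtain ⟨F, hF, hF'⟩ := h.unif (ρ := fun (y : g.Yy) (r : g.Re) => Cube c'.1 c'.2 y → ρ y r)
      (by fun_prop) fun y => by
        by_cases hy : Cube c'.1 c'.2 y
        · obtain ⟨r, hr⟩ := h₂ y hy
          exact ⟨r, fun _ => hr⟩
        · exact ⟨default, fun h' => absurd h' hy⟩
    exact ⟨c', h₁, Or.inr ⟨F, hF, hF'⟩⟩
  · exact ⟨c', h₁, Or.inl fun y hy r hr => h₂ y hy ⟨r, hr⟩⟩

end Mdl

end Pool.Agent.MP_09d684_lc

end

section

namespace Pool.Agent.MP_09d684_lc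

open ZFSet

universe u v w

namespace Mdl

variable {g : Mdl.{u}} {G : Set ZFSet.{u}}

open Cd

theorem below_refl {s : St} {R : g.Rs} {y : g.Yy} (h : Cube s R y) : Below s y y :=
  ⟨h.1, h.2.1, Sub.refl y⟩

/-- The extension adds no subsets of well-ordered sets. -/
theorem barren (hc : g.TDC) (hu : g.LU) (hG : Generic g.M G) (I : Type*) [Cd g I] [Bd g I]
    [WO g I] [Inhabited I] {X : ZFSet.{u}} (hX : X ∈ Ext g.M G)
    (hI : ∀ z ∈ X, ∃ i : I, (ι i : g.U).1 = z) : X ∈ g.M := by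
  obtain ⟨τ₀, hτ, rfl⟩ := hX
  obtain ⟨Fm, hT, mono, truth⟩ := exists_forcing (g := g)
  obtain ⟨τ, rfl⟩ : ∃ τ : g.U, τ.1 = τ₀ := ⟨⟨τ₀, hτ⟩, rfl⟩
  let D : I → g.Rs → Prop := fun i S =>
    Fm S τ (ι i) ∨ ∀ S', Pos S' → SLe S' S → ¬ Fm S' τ (ι i)
  obtain ⟨S, hS, hD⟩ := gg_dense hG (D := fun S => ∀ i, D i S) (by fun_prop) fun S₀ h₀ => by
    obtain ⟨R, hR⟩ := exists_res_of_pos h₀
    obtain ⟨y, hy, h⟩ := ep hc hu (D := fun i y => D i (rng y)) (by fun_prop) (s := []) (R := R)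
      ⟨_, lm_nil R⟩ (fun i y y' _ h h' => h.imp
        (fun h => mono _ _ _ _ h (pos_rng h'.2.1) (sle_of_sub h'.2.2))
        fun h S' h₁ h₂ => h S' h₁ (h₂.trans (sle_of_sub h'.2.2))) fun i y hy k _ => by
        by_cases h : ∃ S', Pos S' ∧ SLe S' (rng y) ∧ Fm S' τ (ι i)
        · obtain ⟨S', h₁, h₂, h₃⟩ := h
          obtain ⟨y', h₄, h₅⟩ := below_of_pos hy.2.1 h₁ h₂ k
          exact ⟨y', h₄, Or.inl (mono _ _ _ _ h₃ (pos_rng h₄.2.1) h₅)⟩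
        · exact ⟨y, ⟨by simp, hy.2.1, Sub.refl y⟩, Or.inr fun S' h₁ h₂ h₃ => h ⟨S', h₁, h₂, h₃⟩⟩
    exact ⟨rng y, pos_rng hy.2.1, sle_of_forall fun p ⟨n, e⟩ => e ▸ hR y hy n, h⟩
  have e : val G τ.1 = (img (fun i : I => Fm S τ (ι i)) fun i => (ι i : g.U)).1 := by
    have key : ∀ i : I, (ι i : g.U).1 ∈ val G τ.1 ↔ Fm S τ (ι i) := fun i => by
      rw [truth G hG]
      refine ⟨fun ⟨S', h₁, h₂⟩ => (hD i).resolve_right fun h => ?_, fun h => ⟨S, hS, h⟩⟩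
      obtain ⟨S'', h₃, h₄, h₅⟩ := gg_dir hG hS h₁
      exact h S'' h₃.1 h₄ (mono _ _ _ _ h₂ h₃.1 h₅)
    ext z
    constructor
    · intro hz
      obtain ⟨i, rfl⟩ := hI z hz
      exact (E_img (by fun_prop) (by fun_prop)).2 ⟨i, (key i).1 hz, rfl⟩
    · intro hz
      obtain ⟨i, h₁, h₂⟩ := (E_img (y := ⟨z, g.zf.trans _ (U.mem _) _ hz⟩) (by fun_prop)
        (by fun_prop)).1 hz
      obtain rfl : (ι i : g.U).1 = z := congrArg U.val h₂
      exact (key i).2 h₁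
  exact e ▸ U.mem _

/-- Densely many conditions decide a colouring on a homogeneous set of the ground model. -/
theorem homog_dense (hd : g.TDet ℕ) (hc : g.TDC) (hu : g.LU) {T W : Type*} [Cd g T] [Bd g T]
    [LinearOrder T] [OT g T] [Inhabited T] [Cd g W] [WO g W] [Inhabited W] (hT : g.TSP T)
    {Ψ : W → g.PR → Fn g T Prop} (hΨ : g.Tm fun z : W × g.PR => Ψ z.1 z.2)
    (onto : ∀ K, ∃ w A, Ψ w A = K) {Dec : g.Rs → Fn g T Prop → T → Prop}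
    (hD : g.Tm fun z : g.Rs × Fn g T Prop × T => Dec z.1 z.2.1 z.2.2)
    (mono : ∀ S S' x i, Dec S x i → Pos S' → SLe S' S → Dec S' x i) (m : T) {S₀ : g.Rs}
    (h₀ : Pos S₀) : ∃ S, Pos S ∧ SLe S S₀ ∧
      ((∃ K : Fn g T Prop, Big K ∧ ∃ i, ∀ x, Big x → (∀ a, x a → K a) → Dec S x i) ∨
        ∃ x, Big x ∧ ∀ S', Pos S' → SLe S' S → ∀ i, i < m → ¬ Dec S' x i) := by
  classical
  by_contra hn
  obtain ⟨R, hR⟩ := exists_res_of_pos h₀
  obtain ⟨L, hL, L₁, L₂, L₃⟩ := hT.exists_lim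
  obtain ⟨m', hm'⟩ := hT.nomax m
  have hle : ∀ y, Cube [] R y → SLe (rng y) S₀ := fun y hy =>
    sle_of_forall fun p ⟨n, e⟩ => e ▸ hR y hy n
  let P : g.Yy → Fn g T Prop → Prop := fun y K => Big K ∧
    ∀ z, Big z → (∀ a, z a → K a) → ∀ i, i < m → ¬ Dec (rng y) (L z) i
  have tot : ∀ y, Cube [] R y → ∃ K, P y K := fun y hy => by
    obtain ⟨K, hK, i, hi⟩ := hT.part (fun z => if ∃ i, i < m ∧ Dec (rng y) (L z) i then
      g.least fun i => i < m ∧ Dec (rng y) (L z) i else m) (by fun_prop) m' fun z _ => by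
        split_ifs with h
        exacts [(least_spec h).1.trans hm', hm']
    refine ⟨K, hK, fun z h₁ h₂ j h₃ h₄ => hn ⟨rng y, pos_rng hy.2.1, hle y hy,
      Or.inl ⟨L K, L₁ K hK, i, fun x h₅ h₆ => ?_⟩⟩⟩
    have hi' : i < m := by
      have h : ∃ i, i < m ∧ Dec (rng y) (L z) i := ⟨j, h₃, h₄⟩
      rw [← hi z h₁ h₂, if_pos h]
      exact (least_spec h).1
    obtain ⟨z', h₇, h₈, rfl⟩ := L₂ K x hK h₅ h₆
    have := hi z' h₇ h₈
    split_ifs at this with h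
    · exact this ▸ (least_spec h).2
    · exact absurd hi' (this ▸ lt_irrefl _)
  obtain ⟨⟨s, H⟩, hc', F, hF, hP⟩ := wadge_unif hd hc hu (P := fun y A => ∃ w, P y (Ψ w A))
    (by fun_prop) (c := ([], R)) ⟨_, lm_nil R⟩ fun y hy => by
      obtain ⟨K, hK⟩ := tot y hy
      obtain ⟨w, A, rfl⟩ := onto K
      exact ⟨A, w, hK⟩
  let K : g.Yy → Fn g T Prop := fun y => Ψ (g.least fun w => P y (Ψ w (F y))) (F y)
  have hK : ∀ y, Cube s H y → P y (K y) := fun y hy => least_spec (hP y hy)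
  obtain ⟨y, hy, hb⟩ := bound_family hc hu hT.unc
    (F := fun a y => g.least fun k => a < k ∧ K y k) (by fun_prop) hc'.1
  obtain ⟨x, hx, hx'⟩ := L₃ (fun a => g.least fun b => ∀ y', Below s y' y →
    (g.least fun k => a < k ∧ K y' k) < b) (by fun_prop)
  refine hn ⟨rng y, pos_rng hy.2.1, hle y (hc'.2.2 y hy), Or.inr ⟨x, hx, fun S' h₁ h₂ i h₃ h₄ => ?_⟩⟩
  obtain ⟨y', h₅, h₆⟩ := below_of_pos hy.2.1 h₁ h₂ s.length
  rw [hy.1] at h₅
  have h₇ := hK y' (sub_cube hy h₅)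
  obtain ⟨z, h₈, h₉, rfl⟩ := hx' (K y') fun a => by
    have := least_spec (g := g) ((hT.big_iff _).1 h₇.1 a)
    exact ⟨_, this.2, this.1, least_spec (g := g) (hb a) y' h₅⟩
  exact h₇.2 z h₈ h₉ i h₃ (mono _ _ _ _ h₄ (pos_rng h₅.2.1) h₆)

theorem preserve {k : g.U} (hd : g.TDet ℕ) (hc : g.TDC) (hu : g.LU) (hs : Small (pow k))
    (hk : StrongPartition g.M k.1) (hG : Generic g.M G) : StrongPartition (Ext g.M G) k.1 := by
  have : Fact (IsOrdinal k.1) := ⟨hk.ord⟩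
  have : Inhabited (Elt k) := ⟨⟨g.om, hk.unc⟩⟩
  have elt : ∀ a ∈ k.1, ∃ i : Elt k, i.1.1 = a := fun a ha =>
    ⟨⟨⟨a, g.zf.trans _ k.2 _ ha⟩, ha⟩, rfl⟩
  have fn : ∀ f ∈ Ext g.M G, ∀ D X : Set ZFSet.{u}, (∀ a ∈ D, a ∈ k.1) → (∀ a ∈ X, a ∈ k.1) →
      IsFn f D X → f ∈ g.M := fun f hf D X h₁ h₂ h₃ =>
    barren hc hu hG (Elt k × Elt k) hf fun z hz => by
      obtain ⟨a, ha, b, hb, rfl⟩ := h₃.1 z hz
      obtain ⟨i, rfl⟩ := elt a (h₁ a ha)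
      obtain ⟨j, rfl⟩ := elt b (h₂ b hb)
      exact ⟨(i, j), rfl⟩
  have up : ∀ x, HasOtp g.M x k.1 → HasOtp (Ext g.M G) x k.1 := fun x ⟨f, hf, h⟩ =>
    ⟨f, sub_ext hG hf, h⟩
  have down : ∀ x, x ⊆ k.1 → HasOtp (Ext g.M G) x k.1 → HasOtp g.M x k.1 :=
    fun x hx ⟨f, hf, h⟩ => ⟨f, fn f hf _ _ (fun _ h => h) (fun _ h => hx h) h.1, h⟩
  have ss : ∀ x : Fn g (Elt k) Prop, (sof x).1 ⊆ k.1 := fun x z hz => by
    obtain ⟨a, -, rfl⟩ := mem_sof.1 hz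
    exact a.2
  refine ⟨sub_ext hG k.2, hk.ord, hk.unc, fun a ha ⟨f, hf, h⟩ => hk.card a ha
    ⟨f, fn f hf _ _ (fun _ h => hk.ord.mem_trans h ha) (fun _ h => h) h.1, h⟩, ?_⟩
  rintro m₀ hm - _ ⟨τ₀, hτ, rfl⟩ hfn
  obtain ⟨m, rfl⟩ := elt m₀ hm
  obtain ⟨τ, rfl⟩ : ∃ τ : g.U, τ.1 = τ₀ := ⟨⟨τ₀, hτ⟩, rfl⟩
  obtain ⟨Fm, hT, mono, truth⟩ := exists_forcing (g := g)
  obtain ⟨W, _, _, _, Ψ, hΨ, onto⟩ := hs
  obtain ⟨S, hS, hD⟩ := gg_dense hG (by fun_prop) fun S₀ h₀ => homog_dense hd hc hu (tsp_of_sp hk)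
    (Ψ := fun (w : W) A => ⟨fun a => E a.1 (Ψ w A), by fun_prop⟩) (by fun_prop) (fun K => by
      obtain ⟨w, A, e⟩ := onto (sof K) (E_pow.2 fun y hy => ss K hy)
      refine ⟨w, A, Fn.ext' fun a => propext ?_⟩
      simp only [e, E_iff, mem_sof]
      exact ⟨fun ⟨b, h₁, h₂⟩ => Elt.ext (U.ext h₂) ▸ h₁, fun h => ⟨a, h, rfl⟩⟩)
    (Dec := fun S x i => Fm S τ (pr (sof x) i.1)) (by fun_prop)
    (fun _ _ _ _ => mono _ _ _ _) m h₀
  rcases hD with ⟨K, hK, i, hi⟩ | ⟨x, hx, h⟩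
  · refine ⟨(sof K).1, sub_ext hG (sof K).2, ss K, up _ ((hasOtp_iff K).2 hK), i.1.1,
      fun x h₁ h₂ h₃ => ?_⟩
    have h₄ : x ⊆ k.1 := fun _ h => ss K (h₂ h)
    obtain ⟨x, rfl⟩ := exists_sof (barren hc hu hG (Elt k) h₁ fun z hz => elt z (h₄ hz)) h₄
    refine (truth G hG τ (pr (sof x) i.1)).2 ⟨S, hS, hi x ((hasOtp_iff x).1 (down _ h₄ h₃))
      fun a ha => ?_⟩
    obtain ⟨b, h₅, h₆⟩ := mem_sof.1 (h₂ (mem_sof.2 ⟨a, ha, rfl⟩))
    exact Elt.ext (U.ext h₆) ▸ h₅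
  · obtain ⟨b, hb, -⟩ := hfn.2 (sof x).1 ⟨sub_ext hG (sof x).2, ss x, up _ ((hasOtp_iff x).2 hx)⟩
    obtain ⟨_, -, b', hb', e⟩ := hfn.1 _ hb
    obtain rfl : b = b' := (pair_inj.1 e).2
    obtain ⟨i, rfl⟩ := elt b (hk.ord.mem_trans hb' hm)
    obtain ⟨S', h₁, h₂⟩ := (truth G hG τ (pr (sof x) i.1)).1 hb
    obtain ⟨S'', h₃, h₄, h₅⟩ := gg_dir hG hS h₁
    exact absurd (mono _ _ _ _ h₂ h₃.1 h₅) (h S'' h₃.1 h₄ i hb')

end Mdl

theorem preserves (M : Set ZFSet.{u}) (hM : IsZF M) (hD : ADR M ∨ ADplus M) (κ : ZFSet.{u})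
    (hκ : StrongPartition M κ) (hs : BelowTheta M κ ∨ VeqL M) (G : Set ZFSet.{u})
    (hG : Generic M G) : StrongPartition (Ext M G) κ := by
  let g : Mdl.{u} := ⟨M, hM⟩
  let k : g.U := ⟨κ, hκ.mem⟩
  have h₁ : Mdl.Small (Mdl.pow k) :=
    hs.elim (fun h => Mdl.small_of_theta (k := k) h) fun h => Mdl.small_of_veql (g := g) h _
  rcases hD with h | h
  · have hr := Mdl.tdet_re_of_adr (g := g) h
    exact Mdl.preserve (k := k) (hr.rl ℕ) hr.tdc (Mdl.lu_of_tdet hr) h₁ hκ hG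
  · have : Fact (IsOrdinal k.1) := ⟨hκ.ord⟩
    have : Inhabited (Mdl.Elt k) := ⟨⟨g.om, hκ.unc⟩⟩
    have hd := Mdl.tdet_nat_of_ad (g := g) h.ad
    have hc := Mdl.tdc_of_adplus (g := g) h
    exact Mdl.preserve (k := k) hd hc (Mdl.lu_of_tib hd hc (Mdl.tib_of_adplus h)
      (Mdl.tsp_of_sp (k := k) hκ).unc) h₁ hκ hG

end Pool.Agent.MP_09d684_lc

end

section

namespace Pool.Agent.MP_09d684_lc

open ZFSet

universe u

namespace Mdl

variable {g : Mdl.{u}}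

open Cd

theorem small_of_covered {k : g.U} (h : Covered g.M k.1) : Small (pow k) := by
  obtain ⟨γ₀, hγ, ho, f₀, hf, hfn, onto⟩ := h
  obtain ⟨γ, rfl⟩ : ∃ γ : g.U, γ.1 = γ₀ := ⟨⟨γ₀, hγ⟩, rfl⟩
  obtain ⟨f, rfl⟩ : ∃ f : g.U, f.1 = f₀ := ⟨⟨f₀, hf⟩, rfl⟩
  have : Fact (IsOrdinal γ.1) := ⟨ho⟩
  have key : ∀ x : g.U, x.1 ⊆ k.1 → ∃ (a : Elt γ) (A : g.PR),
      ev g.U g.U f (pr a.1 (img A ι)) = x := fun x hx => by
    obtain ⟨p, hp⟩ := onto x.1 x.2 hx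
    obtain ⟨p', hp', _, -, e⟩ := hfn.1 _ hp
    obtain rfl : p = p' := (pair_inj.1 e).1
    obtain ⟨a, ha, B, hB, rfl⟩ := mem_prod.1 hp'
    obtain ⟨-, h₁, h₂⟩ := mem_sep.1 hB
    let A : g.PR := ⟨fun r => E (ι r) ⟨B, h₁⟩, by fun_prop⟩
    have eB : (img A (ι : g.Re → g.U)).1 = B := ZFSet.ext fun z => by
      rw [gm_mem_img A.tm]
      refine ⟨fun ⟨r, h₃, h₄⟩ => h₄ ▸ h₃, fun hz => ?_⟩
      obtain ⟨r, rfl⟩ := (grep_re z).1 (h₂ z hz)
      exact ⟨r, hz, rfl⟩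
    refine ⟨⟨⟨a, g.zf.trans _ γ.2 _ ha⟩, ha⟩, A, ev_eq fun b => ?_⟩
    simp only [ι_U, E_iff, pr_val, eB]
    exact ⟨fun hb => U.ext ((hfn.2 _ hp').unique hb hp), fun e => e ▸ hp⟩
  obtain ⟨a₀, -⟩ := key (g.nt 0) fun z hz => absurd hz (notMem_empty z)
  have : Inhabited (Elt γ) := ⟨a₀⟩
  exact ⟨Elt γ, inferInstance, inferInstance, inferInstance,
    fun a A => ev g.U g.U f (pr a.1 (img A ι)), by fun_prop, fun x hx => key x fun z hz =>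
      E_pow.1 hx ⟨z, g.zf.trans _ x.2 _ hz⟩ hz⟩

end Mdl

theorem preserves' (M : Set ZFSet.{u}) (hM : IsZF M) (hD : ADR M ∨ ADplus M) (κ : ZFSet.{u})
    (hκ : StrongPartition M κ) (hs : BelowTheta M κ ∨ VeqL M ∨ Covered M κ) (G : Set ZFSet.{u})
    (hG : Generic M G) : StrongPartition (Ext M G) κ := by
  rcases hs with hs | hs | hs
  · exact preserves M hM hD κ hκ (Or.inl hs) G hG
  · exact preserves M hM hD κ hκ (Or.inr hs) G hG
  let g : Mdl.{u} := ⟨M, hM⟩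
  let k : g.U := ⟨κ, hκ.mem⟩
  have h₁ : Mdl.Small (Mdl.pow k) := Mdl.small_of_covered hs
  rcases hD with h | h
  · have hr := Mdl.tdet_re_of_adr (g := g) h
    exact Mdl.preserve (k := k) (hr.rl ℕ) hr.tdc (Mdl.lu_of_tdet hr) h₁ hκ hG
  · have : Fact (IsOrdinal k.1) := ⟨hκ.ord⟩
    have : Inhabited (Mdl.Elt k) := ⟨⟨g.om, hκ.unc⟩⟩
    have hd := Mdl.tdet_nat_of_ad (g := g) h.ad
    have hc := Mdl.tdc_of_adplus (g := g) h
    exact Mdl.preserve (k := k) hd hc (Mdl.lu_of_tib hd hc (Mdl.tib_of_adplus h)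
      (Mdl.tsp_of_sp (k := k) hκ).unc) h₁ hκ hG

end Pool.Agent.MP_09d684_lc

end
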