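import Pool.Agent.MP_09d684_lc.Defs

section

namespace Pool.Agent.MP_09d684_lc

open ZFSet

universe u v w

@[simp] theorem cons_zero (x : ZFSet.{u}) (w : ℕ → ZFSet.{u}) : cons x w 0 = x := rfl
@[simp] theorem cons_succ (x : ZFSet.{u}) (w : ℕ → ZFSet.{u}) (k : ℕ) :
    cons x w (k + 1) = w k := rfl

def liftIdx (f : ℕ → ℕ) : ℕ → ℕ
  | 0 => 0
  | k + 1 => f k + 1

def Fml.rename : Fml → (ℕ → ℕ) → Fml
  | .mem i j, f => .mem (f i) (f j)
  | .eq i j, f => .eq (f i) (f j)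
  | .bot, _ => .bot
  | .imp φ ψ, f => .imp (φ.rename f) (ψ.rename f)
  | .all φ, f => .all (φ.rename (liftIdx f))

theorem sat_rename (N : Set ZFSet.{u}) : ∀ (φ : Fml) (f : ℕ → ℕ) (w : ℕ → ZFSet.{u}),
    Sat N (φ.rename f) w ↔ Sat N φ (fun k => w (f k)) := by
  intro φ
  induction φ with
  | mem i j => intro f w; rfl
  | eq i j => intro f w; rfl
  | bot => intro f w; rfl
  | imp φ ψ ih₁ ih₂ => intro f w; simp only [Fml.rename, Sat, ih₁, ih₂]
  | all φ ih =>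
    intro f w
    simp only [Fml.rename, Sat, ih]
    refine forall_congr' fun x => ?_
    have : (fun k => cons x w (liftIdx f k)) = cons x (fun k => w (f k)) := by
      funext k; cases k <;> rfl
    rw [this]

theorem Fml.exists_bound : ∀ φ : Fml, ∃ n, ∀ (N : Set ZFSet.{u}) (w w' : ℕ → ZFSet.{u}),
    (∀ k < n, w k = w' k) → (Sat N φ w ↔ Sat N φ w') := by
  intro φ
  induction φ with
  | mem i j =>
    exact ⟨max i j + 1, fun N w w' h => by
      simp only [Sat, h i (by omega), h j (by omega)]⟩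
  | eq i j =>
    exact ⟨max i j + 1, fun N w w' h => by
      simp only [Sat, h i (by omega), h j (by omega)]⟩
  | bot => exact ⟨0, fun _ _ _ _ => Iff.rfl⟩
  | imp φ ψ ih₁ ih₂ =>
    obtain ⟨n, h₁⟩ := ih₁
    obtain ⟨m, h₂⟩ := ih₂
    exact ⟨max n m, fun N w w' h => by
      simp only [Sat, h₁ N w w' (fun k hk => h k (by omega)),
        h₂ N w w' (fun k hk => h k (by omega))]⟩
  | all φ ih =>
    obtain ⟨n, h₁⟩ := ih
    refine ⟨n, fun N w w' h => forall_congr' fun x => imp_congr_right fun _ =>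
      h₁ _ _ _ fun k hk => ?_⟩
    cases k with
    | zero => rfl
    | succ k => exact h k (by omega)

def mix {α : Type v} (w p : ℕ → α) : ℕ → α := fun k => if k % 2 = 0 then w (k / 2) else p (k / 2)

theorem mix_even {α : Type v} (w p : ℕ → α) (k : ℕ) : mix w p (2 * k) = w k := by
  simp [mix]

theorem mix_odd {α : Type v} (w p : ℕ → α) (k : ℕ) : mix w p (2 * k + 1) = p k := by
  have : (2 * k + 1) / 2 = k := by omega
  simp [mix, this]

theorem mix_cases {α : Type v} {f h : ℕ → α} (h₁ : ∀ k, f (2 * k) = h (2 * k))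
    (h₂ : ∀ k, f (2 * k + 1) = h (2 * k + 1)) : f = h := by
  funext k
  rcases Nat.even_or_odd' k with ⟨j, rfl | rfl⟩
  exacts [h₁ j, h₂ j]

def tcons {α : Type v} (x : α) (w : ℕ → α) : ℕ → α
  | 0 => x
  | k + 1 => w k

@[simp] theorem tcons_zero {α : Type v} (x : α) (w : ℕ → α) : tcons x w 0 = x := rfl
@[simp] theorem tcons_succ {α : Type v} (x : α) (w : ℕ → α) (k : ℕ) :
    tcons x w (k + 1) = w k := rfl

/-- A transitive model of ZF. -/
structure Mdl where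
  M : Set ZFSet.{u}
  zf : IsZF M

namespace Mdl

/-- The type of elements of the model. -/
@[ext] structure U (g : Mdl.{u}) : Type (u + 1) where
  val : ZFSet.{u}
  mem : val ∈ g.M

/-- Membership. -/
def E {g : Mdl.{u}} (x y : g.U) : Prop := x.1 ∈ y.1

variable {g : Mdl.{u}}

theorem E_iff {x y : g.U} : E x y ↔ x.1 ∈ y.1 := Iff.rfl

theorem pair_mem {a b : ZFSet.{u}} (ha : a ∈ g.M) (hb : b ∈ g.M) : pair a b ∈ g.M := by
  have h₁ := g.zf.upair a ha a ha
  rw [pair_eq_singleton] at h₁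
  exact g.zf.upair _ h₁ _ (g.zf.upair a ha b hb)

theorem mem_of_pair {a b : ZFSet.{u}} (h : pair a b ∈ g.M) : a ∈ g.M ∧ b ∈ g.M := by
  have h₁ : ({a, b} : ZFSet.{u}) ∈ g.M := g.zf.trans _ h _ (by simp [pair])
  exact ⟨g.zf.trans _ h₁ _ (by simp), g.zf.trans _ h₁ _ (by simp)⟩

/-- Kuratowski pair. -/
def pr (a b : g.U) : g.U := ⟨pair a.1 b.1, pair_mem a.2 b.2⟩

@[simp] theorem pr_val (a b : g.U) : (pr a b).1 = pair a.1 b.1 := rfl

theorem pr_inj {a b c d : g.U} : pr a b = pr c d ↔ a = c ∧ b = d := by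
  rw [U.ext_iff, pr_val, pr_val, pair_inj, U.ext_iff, U.ext_iff]

theorem U.ext' {a b : g.U} (h : ∀ x : g.U, E x a ↔ E x b) : a = b :=
  U.ext (ZFSet.ext fun z => ⟨fun hz => (h ⟨z, g.zf.trans _ a.2 _ hz⟩).1 hz,
    fun hz => (h ⟨z, g.zf.trans _ b.2 _ hz⟩).2 hz⟩)

theorem E_wf : WellFounded (E (g := g)) := InvImage.wf U.val ZFSet.mem_wf

/-- Definable with parameters in the model. -/
def PD (g : Mdl.{u}) (Ψ : (ℕ → g.U) → Prop) : Prop :=
  ∃ (φ : Fml) (p : ℕ → g.U), ∀ w, Sat g.M φ (fun k => (mix w p k).1) ↔ Ψ w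

instance : Inhabited g.U := ⟨⟨omega, g.zf.inf⟩⟩

namespace PD

variable {Φ Ψ : (ℕ → g.U) → Prop} {Θ : (ℕ → g.U) → g.U → Prop}

theorem mem (i j : ℕ) : g.PD (fun w => E (w i) (w j)) :=
  ⟨.mem (2 * i) (2 * j), default, fun w => by simp only [Sat, mix_even]; rfl⟩

theorem eq (i j : ℕ) : g.PD (fun w => w i = w j) :=
  ⟨.eq (2 * i) (2 * j), default, fun w => by simp only [Sat, mix_even]; exact U.ext_iff.symm⟩

theorem bot : g.PD (fun _ => False) := ⟨.bot, default, fun _ => Iff.rfl⟩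

theorem const (i : ℕ) (c : g.U) : g.PD (fun w => w i = c) :=
  ⟨.eq (2 * i) (2 * 0 + 1), fun _ => c, fun w => by
    simp only [Sat, mix_even, mix_odd]; exact U.ext_iff.symm⟩

theorem congr (h : g.PD Φ) (e : ∀ w, Φ w ↔ Ψ w) : g.PD Ψ := by
  obtain ⟨φ, p, h⟩ := h
  exact ⟨φ, p, fun w => (h w).trans (e w)⟩

theorem imp (h₁ : g.PD Φ) (h₂ : g.PD Ψ) : g.PD (fun w => Φ w → Ψ w) := by
  obtain ⟨φ, p, h₁⟩ := h₁
  obtain ⟨ψ, q, h₂⟩ := h₂
  refine ⟨.imp (φ.rename (mix (fun k => 2 * k) (fun k => 2 * (2 * k) + 1)))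
    (ψ.rename (mix (fun k => 2 * k) (fun k => 2 * (2 * k + 1) + 1))), mix p q, fun w => ?_⟩
  simp only [Sat, sat_rename, ← h₁, ← h₂]
  have e₁ : (fun k => (mix w (mix p q) (mix (fun k => 2 * k) (fun k => 2 * (2 * k) + 1) k)).1) =
      fun k => (mix w p k).1 := mix_cases (fun k => by simp only [mix_even]) (fun k => by
        simp only [mix_even, mix_odd])
  have e₂ : (fun k => (mix w (mix p q) (mix (fun k => 2 * k) (fun k => 2 * (2 * k + 1) + 1) k)).1) =
      fun k => (mix w q k).1 := mix_cases (fun k => by simp only [mix_even]) (fun k => by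
        simp only [mix_odd])
  rw [e₁, e₂]

theorem all (h : g.PD (fun w => Θ (fun k => w (k + 1)) (w 0))) : g.PD (fun w => ∀ x, Θ w x) := by
  obtain ⟨φ, p, h⟩ := h
  refine ⟨.all (φ.rename (mix (tcons 0 (fun k => 2 * k + 1)) (fun k => 2 * k + 1 + 1))), p,
    fun w => ?_⟩
  simp only [Sat, sat_rename]
  have e : ∀ x : g.U, (fun k => cons x.1 (fun k => (mix w p k).1) (mix (tcons 0 (fun k => 2 * k + 1))
      (fun k => 2 * k + 1 + 1) k)) = fun k => (mix (tcons x w) p k).1 := by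
    intro x
    refine mix_cases (fun k => ?_) (fun k => ?_)
    · simp only [mix_even]
      cases k with
      | zero => rfl
      | succ k => simp only [tcons_succ, cons_succ, mix_even]
    · simp only [mix_odd, cons_succ]
  constructor
  · intro H x
    have := H x.1 x.2
    rw [e, h] at this
    exact this
  · intro H x hx
    rw [e ⟨x, hx⟩, h]
    exact H ⟨x, hx⟩

theorem rename (h : g.PD Φ) (f : ℕ → ℕ) : g.PD (fun w => Φ (fun k => w (f k))) := by
  obtain ⟨φ, p, h⟩ := h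
  refine ⟨φ.rename (mix (fun k => 2 * f k) (fun k => 2 * k + 1)), p, fun w => ?_⟩
  have e : (fun k => (mix w p (mix (fun k => 2 * f k) (fun k => 2 * k + 1) k)).1) =
      fun k => (mix (fun k => w (f k)) p k).1 :=
    mix_cases (fun k => by simp only [mix_even]) (fun k => by simp only [mix_odd])
  rw [sat_rename, e]
  exact h _

theorem not (h : g.PD Φ) : g.PD (fun w => ¬ Φ w) := h.imp bot

theorem and (h₁ : g.PD Φ) (h₂ : g.PD Ψ) : g.PD (fun w => Φ w ∧ Ψ w) :=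
  (h₁.imp h₂.not).not.congr fun _ => by tauto

theorem or (h₁ : g.PD Φ) (h₂ : g.PD Ψ) : g.PD (fun w => Φ w ∨ Ψ w) :=
  (h₁.not.imp h₂).congr fun _ => by tauto

theorem iff (h₁ : g.PD Φ) (h₂ : g.PD Ψ) : g.PD (fun w => Φ w ↔ Ψ w) :=
  ((h₁.imp h₂).and (h₂.imp h₁)).congr fun _ => by tauto

theorem ex (h : g.PD (fun w => Θ (fun k => w (k + 1)) (w 0))) : g.PD (fun w => ∃ x, Θ w x) :=
  (all (Θ := fun w x => ¬ Θ w x) h.not).not.congr fun _ => by simp

theorem isPr {p a b : g.U} : (∀ z : g.U, E z p ↔ (∀ x : g.U, E x z ↔ x = a) ∨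
    (∀ x : g.U, E x z ↔ x = a ∨ x = b)) ↔ p = Mdl.pr a b := by
  have e₁ : ∀ z : g.U, (∀ x : g.U, E x z ↔ x = a) ↔ z.1 = {a.1} := fun z =>
    ⟨fun h => ZFSet.ext fun x => ⟨fun hx => by
      simpa using congrArg U.val ((h ⟨x, g.zf.trans _ z.2 _ hx⟩).1 hx), fun hx => by
        rw [mem_singleton.1 hx]; exact (h a).2 rfl⟩, fun h x => by
      rw [E_iff, h, mem_singleton, U.ext_iff]⟩
  have e₂ : ∀ z : g.U, (∀ x : g.U, E x z ↔ x = a ∨ x = b) ↔ z.1 = {a.1, b.1} := fun z =>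
    ⟨fun h => ZFSet.ext fun x => ⟨fun hx => by
      rcases (h ⟨x, g.zf.trans _ z.2 _ hx⟩).1 hx with h | h
      · simp [← congrArg U.val h]
      · simp [← congrArg U.val h], fun hx => by
        rcases mem_pair.1 hx with rfl | rfl
        exacts [(h a).2 (Or.inl rfl), (h b).2 (Or.inr rfl)]⟩, fun h x => by
      rw [E_iff, h, mem_pair, U.ext_iff, U.ext_iff]⟩
  simp only [e₁, e₂]
  constructor
  · intro h
    refine U.ext' fun z => (h z).trans ?_
    rw [E_iff, pr_val, pair, mem_pair]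
  · rintro rfl z
    rw [E_iff, pr_val, pair, mem_pair]

theorem pr (i j k : ℕ) : g.PD (fun w => w i = pr (w j) (w k)) := by
  have : g.PD (fun w => ∀ z : g.U, E z (w i) ↔ (∀ x : g.U, E x z ↔ x = w j) ∨
    (∀ x : g.U, E x z ↔ x = w j ∨ x = w k)) :=
    all ((mem _ _).iff ((all ((mem _ _).iff (eq _ _))).or
      (all ((mem _ _).iff ((eq _ _).or (eq _ _))))))
  exact this.congr fun _ => isPr

theorem exists_fml (h : g.PD Φ) (n : ℕ) : ∃ (φ : Fml) (p : ℕ → g.U), ∀ w : ℕ → g.U,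
    (∀ k, w (k + n) = p k) →
      (Sat g.M φ (fun k => (w k).1) ↔ Φ (fun k => if k < n then w k else w 0)) := by
  obtain ⟨φ, p, h⟩ := h
  refine ⟨φ.rename (mix (fun k => if k < n then k else 0) (fun k => k + n)), p, fun w hw => ?_⟩
  rw [sat_rename, ← h]
  refine Iff.of_eq (congrArg _ (mix_cases (fun k => ?_) fun k => ?_))
  · simp only [mix_even]
    split_ifs <;> rfl
  · simp only [mix_odd, hw]

end PD

/-- Definable subsets of the model. -/
def D1 (g : Mdl.{u}) (S : g.U → Prop) : Prop := g.PD (fun w => S (w 0))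

theorem D1.at {S : g.U → Prop} (h : g.D1 S) (i : ℕ) : g.PD (fun w => S (w i)) :=
  PD.rename h (fun _ => i)

theorem val_tcons (x : g.U) (p : ℕ → g.U) :
    (fun k => (tcons x p k).1) = cons x.1 (fun k => (p k).1) := by
  funext k; cases k <;> rfl

theorem D1.sep {S : g.U → Prop} (h : g.D1 S) (a : g.U) : ∃ b, ∀ x, E x b ↔ E x a ∧ S x := by
  obtain ⟨φ, p, h⟩ := PD.exists_fml h 1
  obtain ⟨b, hb, e⟩ := g.zf.sep φ (fun k => (p k).1) (fun k => (p k).2) a.1 a.2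
  refine ⟨⟨b, hb⟩, fun x => (e x.1).trans (and_congr_right fun _ => ?_)⟩
  rw [← val_tcons]
  exact h (tcons x p) fun _ => rfl

theorem D1.repl {S : g.U → Prop} (h : g.D1 S) (a : g.U)
    (hu : ∀ x, E x a → ∃! y, S (pr x y)) : ∃ c, ∀ y, E y c ↔ ∃ x, E x a ∧ S (pr x y) := by
  have h' : g.PD (fun w => S (pr (w 1) (w 0))) :=
    (PD.ex (Θ := fun w q => q = pr (w 1) (w 0) ∧ S q) ((PD.pr _ _ _).and (h.at _))).congr
      fun w => by simp
  obtain ⟨φ, p, h'⟩ := PD.exists_fml h' 2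
  have e : ∀ x y : g.U, Sat g.M φ (cons y.1 (cons x.1 fun k => (p k).1)) ↔ S (pr x y) := by
    intro x y
    rw [← val_tcons, ← val_tcons]
    exact h' (tcons y (tcons x p)) fun _ => rfl
  obtain ⟨c, hc, H⟩ := g.zf.repl φ (fun k => (p k).1) (fun k => (p k).2) a.1 a.2 (by
    intro x hx
    obtain ⟨y, hy, hy'⟩ := hu ⟨x, g.zf.trans _ a.2 _ hx⟩ hx
    exact ⟨y.1, ⟨y.2, (e ⟨x, g.zf.trans _ a.2 _ hx⟩ y).2 hy⟩, fun z hz => congrArg U.val
      (hy' ⟨z, hz.1⟩ ((e ⟨x, g.zf.trans _ a.2 _ hx⟩ ⟨z, hz.1⟩).1 hz.2))⟩)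
  refine ⟨⟨c, hc⟩, fun y => (H y.1 y.2).trans ⟨fun ⟨x, hx, h⟩ => ⟨⟨x, g.zf.trans _ a.2 _ hx⟩, hx,
    (e ⟨x, g.zf.trans _ a.2 _ hx⟩ y).1 h⟩, fun ⟨x, hx, h⟩ => ⟨x.1, hx, (e x y).2 h⟩⟩⟩

theorem exists_upair (a b : g.U) : ∃ c : g.U, ∀ x, E x c ↔ x = a ∨ x = b :=
  ⟨⟨_, g.zf.upair _ a.2 _ b.2⟩, fun x => by
    rw [E_iff, mem_pair, U.ext_iff, U.ext_iff]⟩

theorem exists_union (a : g.U) : ∃ c : g.U, ∀ x, E x c ↔ ∃ y, E y a ∧ E x y :=
  ⟨⟨_, g.zf.union _ a.2⟩, fun x => by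
    rw [E_iff, mem_sUnion]
    exact ⟨fun ⟨y, h₁, h₂⟩ => ⟨⟨y, g.zf.trans _ a.2 _ h₁⟩, h₁, h₂⟩,
      fun ⟨y, h₁, h₂⟩ => ⟨y.1, h₁, h₂⟩⟩⟩

theorem exists_power (a : g.U) : ∃ c : g.U, ∀ x, E x c ↔ ∀ y, E y x → E y a := by
  obtain ⟨b, hb, h⟩ := g.zf.power _ a.2
  exact ⟨⟨b, hb⟩, fun x => (h x.1 x.2).trans ⟨fun h y hy => h hy,
    fun h y hy => h ⟨y, g.zf.trans _ x.2 _ hy⟩ hy⟩⟩

/-- Types coded by a definable class of elements of the model. -/
class Cd (g : Mdl.{u}) (α : Type v) where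
  ι : α → g.U
  inj : Function.Injective ι
  rng : g.D1 (fun x => ∃ a, ι a = x)

/-- Coded types whose codes lie in a set of the model. -/
class Bd (g : Mdl.{u}) (α : Type v) [Cd g α] : Prop where
  bd : ∃ A : g.U, ∀ a : α, E (Cd.ι a) A

open Cd

instance : Cd g g.U where
  ι := id
  inj := Function.injective_id
  rng := (PD.eq 0 0).congr fun w => by simp

@[simp] theorem ι_U (x : g.U) : (ι x : g.U) = x := rfl

instance {α : Type v} {β : Type w} [Cd g α] [Cd g β] : Cd g (α × β) where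
  ι := fun z => pr (ι z.1) (ι z.2)
  inj := fun a b h => Prod.ext (inj (pr_inj.1 h).1) (inj (pr_inj.1 h).2)
  rng := by
    have : g.PD (fun w => ∃ x y, w 0 = pr x y ∧ (∃ a : α, ι a = x) ∧ ∃ b : β, ι b = y) :=
      PD.ex (PD.ex ((PD.pr _ _ _).and ((rng.at _).and (rng.at _))))
    refine this.congr fun w => ⟨?_, ?_⟩
    · rintro ⟨_, _, h, ⟨a, rfl⟩, b, rfl⟩
      exact ⟨(a, b), h.symm⟩
    · rintro ⟨⟨a, b⟩, h⟩
      exact ⟨_, _, h.symm, ⟨a, rfl⟩, b, rfl⟩

theorem ι_prod {α : Type v} {β : Type w} [Cd g α] [Cd g β] (z : α × β) :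
    (ι z : g.U) = pr (ι z.1) (ι z.2) := rfl

theorem exists_pr_bound (A B : g.U) : ∃ C, ∀ a b, E a A → E b B → E (pr a b) C := by
  obtain ⟨c, hc⟩ := exists_upair A B
  obtain ⟨U, hU⟩ := exists_union c
  obtain ⟨Q, hQ⟩ := exists_power U
  obtain ⟨R, hR⟩ := exists_power Q
  refine ⟨R, fun a b ha hb => (hR _).2 fun z hz => (hQ _).2 fun y hy => (hU _).2 ?_⟩
  rcases (PD.isPr.2 rfl z).1 hz with h | h
  · exact ⟨A, (hc _).2 (Or.inl rfl), (h y).1 hy ▸ ha⟩
  · rcases (h y).1 hy with rfl | rfl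
    exacts [⟨A, (hc _).2 (Or.inl rfl), ha⟩, ⟨B, (hc _).2 (Or.inr rfl), hb⟩]

instance {α : Type v} {β : Type w} [Cd g α] [Cd g β] [Bd g α] [Bd g β] : Bd g (α × β) where
  bd := by
    obtain ⟨A, hA⟩ := Bd.bd (g := g) (α := α)
    obtain ⟨B, hB⟩ := Bd.bd (g := g) (α := β)
    obtain ⟨C, hC⟩ := exists_pr_bound A B
    exact ⟨C, fun z => hC _ _ (hA _) (hB _)⟩

/-- Definable predicates on a coded type. -/
def Df (g : Mdl.{u}) {α : Type v} [Cd g α] (Q : α → Prop) : Prop :=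
  g.D1 (fun x => ∃ a, ι a = x ∧ Q a)

/-- Definable functions between coded types. -/
def Tm (g : Mdl.{u}) {α : Type v} {β : Type w} [Cd g α] [Cd g β] (f : α → β) : Prop :=
  g.Df (fun z : α × β => z.2 = f z.1)

section Closure

variable {Γ : Type*} {α : Type*} {β : Type*} [Cd g Γ] [Cd g α] [Cd g β]
variable {Q R : Γ → Prop}

theorem Df.congr (h : g.Df Q) (e : ∀ x, Q x ↔ R x) : g.Df R :=
  PD.congr h fun _ => by simp only [e]

theorem Df.ofD1 {S : g.U → Prop} (h : g.D1 S) : g.Df (fun x : Γ => S (ι x)) :=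
  (PD.and (rng (α := Γ)) h).congr fun w => by
    constructor
    · rintro ⟨⟨a, e⟩, h⟩
      exact ⟨a, e, by show S (ι a); rw [e]; exact h⟩
    · rintro ⟨a, e, h⟩
      exact ⟨⟨a, e⟩, by show S (w 0); rw [← show ι a = w 0 from e]; exact h⟩

theorem Df.not (h : g.Df Q) : g.Df (fun x => ¬ Q x) :=
  (Df.ofD1 (S := fun y => ¬ ∃ a, ι a = y ∧ Q a) (PD.not h)).congr fun x => by
    simp [inj.eq_iff]

theorem Df.and (h₁ : g.Df Q) (h₂ : g.Df R) : g.Df (fun x => Q x ∧ R x) :=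
  (Df.ofD1 (S := fun y => (∃ a, ι a = y ∧ Q a) ∧ ∃ a, ι a = y ∧ R a) (PD.and h₁ h₂)).congr
    fun x => by simp [inj.eq_iff]

theorem Df.or (h₁ : g.Df Q) (h₂ : g.Df R) : g.Df (fun x => Q x ∨ R x) :=
  (h₁.not.and h₂.not).not.congr fun _ => by tauto

theorem Df.imp (h₁ : g.Df Q) (h₂ : g.Df R) : g.Df (fun x => Q x → R x) :=
  (h₁.and h₂.not).not.congr fun _ => by tauto

theorem Df.iff (h₁ : g.Df Q) (h₂ : g.Df R) : g.Df (fun x => Q x ↔ R x) :=
  ((h₁.imp h₂).and (h₂.imp h₁)).congr fun _ => by tauto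

theorem Df.ex {Q : Γ → α → Prop} (h : g.Df (fun z : Γ × α => Q z.1 z.2)) :
    g.Df (fun x => ∃ y, Q x y) := by
  have : g.D1 (fun x => ∃ y q, q = pr x y ∧ ∃ a : Γ × α, ι a = q ∧ Q a.1 a.2) :=
    PD.ex (PD.ex ((PD.pr _ _ _).and (D1.at h _)))
  refine (Df.ofD1 this).congr fun x => ⟨?_, ?_⟩
  · rintro ⟨y, _, rfl, ⟨a, b⟩, e, h⟩
    obtain rfl := inj (pr_inj.1 e).1
    exact ⟨b, h⟩
  · rintro ⟨y, h⟩
    exact ⟨_, _, rfl, (x, y), rfl, h⟩

theorem Df.all {Q : Γ → α → Prop} (h : g.Df (fun z : Γ × α => Q z.1 z.2)) :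
    g.Df (fun x => ∀ y, Q x y) :=
  (Df.ex (Q := fun x y => ¬ Q x y) h.not).not.congr fun _ => by simp

theorem Df.ofPD {S : g.U → g.U → Prop} (h : g.PD (fun w => S (w 0) (w 1))) :
    g.Df (fun z : α × β => S (ι z.1) (ι z.2)) := by
  have : g.D1 (fun q => ∃ x y, q = pr x y ∧ S x y) :=
    PD.ex (PD.ex ((PD.pr _ _ _).and (h.rename (tcons 1 (fun _ => 0)))))
  refine (Df.ofD1 this).congr fun z => ⟨?_, fun h => ⟨_, _, rfl, h⟩⟩
  rintro ⟨x, y, e, h⟩
  obtain ⟨rfl, rfl⟩ := pr_inj.1 e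
  exact h

theorem Df.comp {Q : α → Prop} {f : Γ → α} (h : g.Df Q) (hf : g.Tm f) :
    g.Df (fun x => Q (f x)) := by
  have h' : g.Df (fun z : Γ × α => Q z.2) :=
    (Df.ofPD (S := fun _ y => ∃ a, ι a = y ∧ Q a) (D1.at h 1)).congr fun z => by
      simp [inj.eq_iff]
  exact (Df.ex (Q := fun x y => y = f x ∧ Q y) (Df.and hf h')).congr fun x => by simp

theorem Tm.ofPD {f : α → β} {S : g.U → g.U → Prop} (h : g.PD (fun w => S (w 0) (w 1)))
    (e : ∀ a b, S (ι a) (ι b) ↔ b = f a) : g.Tm f :=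
  (Df.ofPD h).congr fun z => e z.1 z.2

theorem Tm.id : g.Tm (fun x : Γ => x) :=
  Tm.ofPD (S := fun x y => y = x) (PD.eq _ _) fun _ _ => inj.eq_iff

theorem Tm.const (c : α) : g.Tm (fun _ : Γ => c) :=
  Tm.ofPD (S := fun _ y => y = ι c) (PD.const _ _) fun _ _ => inj.eq_iff

theorem Tm.fst' : g.Tm (fun z : α × β => z.1) :=
  Tm.ofPD (S := fun x y => ∃ t, x = pr y t) (PD.ex (PD.pr _ _ _)) fun a b => by
    simp [ι_prod, pr_inj, inj.eq_iff, eq_comm]

theorem Tm.snd' : g.Tm (fun z : α × β => z.2) :=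
  Tm.ofPD (S := fun x y => ∃ t, x = pr t y) (PD.ex (PD.pr _ _ _)) fun a b => by
    simp [ι_prod, pr_inj, inj.eq_iff, eq_comm]

theorem Tm.rel {f : α → β} (hf : g.Tm f) (i j : ℕ) :
    g.PD (fun w => ∃ a, ι a = w i ∧ ι (f a) = w j) := by
  have : g.PD (fun w => ∃ q, q = pr (w i) (w j) ∧ ∃ z : α × β, ι z = q ∧ z.2 = f z.1) :=
    PD.ex ((PD.pr _ _ _).and (D1.at (S := fun x => ∃ z : α × β, ι z = x ∧ z.2 = f z.1) hf _))
  refine this.congr fun w => ⟨?_, ?_⟩
  · rintro ⟨_, rfl, ⟨a, b⟩, e, h⟩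
    obtain rfl : b = f a := h
    exact ⟨a, pr_inj.1 e⟩
  · rintro ⟨a, e₁, e₂⟩
    exact ⟨_, rfl, (a, f a), by rw [← e₁, ← e₂]; rfl, rfl⟩

theorem Tm.comp {h : α → β} {f : Γ → α} (hh : g.Tm h) (hf : g.Tm f) :
    g.Tm (fun x => h (f x)) :=
  Tm.ofPD (S := fun x y => ∃ t, (∃ a, ι a = x ∧ ι (f a) = t) ∧ ∃ a, ι a = t ∧ ι (h a) = y)
    (PD.ex ((hf.rel _ _).and (hh.rel _ _))) fun a b => by
      simp [inj.eq_iff, eq_comm]

theorem Tm.pair {f : Γ → α} {h : Γ → β} (hf : g.Tm f) (hh : g.Tm h) :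
    g.Tm (fun x => (f x, h x)) :=
  Tm.ofPD (S := fun x y => ∃ s t, y = pr s t ∧ (∃ a, ι a = x ∧ ι (f a) = s) ∧
      ∃ a, ι a = x ∧ ι (h a) = t)
    (PD.ex (PD.ex ((PD.pr _ _ _).and ((hf.rel _ _).and (hh.rel _ _))))) fun a b => by
      simp [inj.eq_iff, ι_prod, pr_inj, Prod.ext_iff]

theorem Tm.fst {f : Γ → α × β} (hf : g.Tm f) : g.Tm (fun x => (f x).1) := Tm.fst'.comp hf

theorem Tm.snd {f : Γ → α × β} (hf : g.Tm f) : g.Tm (fun x => (f x).2) := Tm.snd'.comp hf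

theorem Tm.ι' : g.Tm (fun x : Γ => (ι x : g.U)) :=
  Tm.ofPD (S := fun x y => y = x) (PD.eq _ _) fun _ _ => Iff.rfl

theorem Tm.ι {f : Γ → α} (hf : g.Tm f) : g.Tm (fun x => (ι (f x) : g.U)) := Tm.ι'.comp hf

theorem Df.comp₂ {Q : α → β → Prop} {f : Γ → α} {h : Γ → β}
    (H : g.Df (fun z : α × β => Q z.1 z.2)) (hf : g.Tm f) (hh : g.Tm h) :
    g.Df (fun x => Q (f x) (h x)) := H.comp (hf.pair hh)

theorem Df.eq {f h : Γ → α} (hf : g.Tm f) (hh : g.Tm h) : g.Df (fun x => f x = h x) :=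
  Df.comp₂ (Q := fun a b => a = b)
    ((Df.ofPD (S := fun x y => x = y) (PD.eq _ _)).congr fun _ => inj.eq_iff) hf hh

theorem Df.mem {f h : Γ → g.U} (hf : g.Tm f) (hh : g.Tm h) : g.Df (fun x => E (f x) (h x)) :=
  Df.comp₂ (Q := E) (Df.ofPD (α := g.U) (β := g.U) (S := E) (PD.mem _ _)) hf hh

theorem Tm.pr {f h : Γ → g.U} (hf : g.Tm f) (hh : g.Tm h) : g.Tm (fun x => pr (f x) (h x)) :=
  (hf.pair hh).ι

theorem Df.true : g.Df (fun _ : Γ => True) := (Df.eq Tm.id Tm.id).congr fun _ => by simp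

theorem Tm.ofRel {f : Γ → α} {Q : Γ → α → Prop} (h : g.Df (fun z : Γ × α => Q z.1 z.2))
    (e : ∀ x y, Q x y ↔ y = f x) : g.Tm f := h.congr fun z => e z.1 z.2

theorem Tm.ite {c : Γ → Prop} [DecidablePred c] {f h : Γ → α} (hc : g.Df c) (hf : g.Tm f)
    (hh : g.Tm h) : g.Tm (fun x => if c x then f x else h x) := by
  refine Tm.ofRel (Q := fun x y => (c x ∧ y = f x) ∨ (¬ c x ∧ y = h x))
    (((hc.comp Tm.fst').and hf).or ((hc.comp Tm.fst').not.and hh)) fun x y => ?_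
  by_cases h : c x <;> simp [h]

theorem Df.sep {Q : g.U → Prop} (h : g.Df Q) (a : g.U) : ∃ b, ∀ x, E x b ↔ E x a ∧ Q x := by
  simpa using D1.sep h a

theorem Tm.repl {f : g.U → g.U} (hf : g.Tm f) (a : g.U) :
    ∃ c, ∀ y, E y c ↔ ∃ x, E x a ∧ f x = y := by
  have e : ∀ x y : g.U, (∃ z : g.U × g.U, Cd.ι z = Mdl.pr x y ∧ z.2 = f z.1) ↔ f x = y := by
    intro x y
    constructor
    · rintro ⟨⟨a, b⟩, e, h⟩
      obtain ⟨rfl, rfl⟩ := pr_inj.1 e
      exact h.symm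
    · rintro rfl
      exact ⟨(x, f x), rfl, rfl⟩
  obtain ⟨c, hc⟩ := D1.repl (S := fun x => ∃ z : g.U × g.U, Cd.ι z = x ∧ z.2 = f z.1) hf a
    fun x _ => by simp only [e]; exact ⟨_, rfl, fun _ h => h.symm⟩
  exact ⟨c, fun y => by simp only [hc, e]⟩

end Closure

end Mdl

end Pool.Agent.MP_09d684_lc

end

section

namespace Pool.Agent.MP_09d684_lc

open ZFSet

universe u v w

theorem nat_eq_mk (n : ℕ) : (nat n : ZFSet.{u}) = ZFSet.mk (PSet.ofNat n) := by
  induction n with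
  | zero => rfl
  | succ n ih => rw [nat, ih]; rfl

theorem mem_omega {x : ZFSet.{u}} : x ∈ omega ↔ ∃ n, nat n = x := by
  induction x using Quotient.inductionOn with
  | _ x =>
    constructor
    · rintro ⟨n, h⟩
      exact ⟨n.down, by rw [nat_eq_mk]; exact (ZFSet.sound h).symm⟩
    · rintro ⟨n, h⟩
      rw [nat_eq_mk] at h
      exact ⟨⟨n⟩, (ZFSet.exact h).symm⟩

theorem mem_nat {x : ZFSet.{u}} {n : ℕ} : x ∈ nat n ↔ ∃ m < n, nat m = x := by
  induction n with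
  | zero => simp [nat]
  | succ n ih =>
    rw [nat, mem_insert_iff, ih]
    constructor
    · rintro (rfl | ⟨m, h, rfl⟩)
      exacts [⟨n, by omega, rfl⟩, ⟨m, by omega, rfl⟩]
    · rintro ⟨m, h, rfl⟩
      rcases Nat.lt_succ_iff_lt_or_eq.1 h with h | rfl
      exacts [Or.inr ⟨m, h, rfl⟩, Or.inl rfl]

theorem nat_injective : Function.Injective (nat : ℕ → ZFSet.{u}) := by
  intro a b h
  rcases lt_trichotomy a b with h' | h' | h'
  · have : nat a ∈ (nat b : ZFSet.{u}) := mem_nat.2 ⟨a, h', rfl⟩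
    rw [h] at this
    exact absurd this (mem_irrefl _)
  · exact h'
  · have : nat b ∈ (nat a : ZFSet.{u}) := mem_nat.2 ⟨b, h', rfl⟩
    rw [h] at this
    exact absurd this (mem_irrefl _)

theorem nat_mem_nat {m n : ℕ} : (nat m : ZFSet.{u}) ∈ nat n ↔ m < n := by
  simp [mem_nat, nat_injective.eq_iff]

theorem nat_mem_omega (n : ℕ) : (nat n : ZFSet.{u}) ∈ omega := mem_omega.2 ⟨n, rfl⟩

namespace Mdl

variable {g : Mdl.{u}}

open Cd

/-- The omega of the model. -/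
def om (g : Mdl.{u}) : g.U := ⟨omega, g.zf.inf⟩

/-- The natural numbers of the model. -/
def nt (g : Mdl.{u}) (n : ℕ) : g.U := ⟨nat n, g.zf.trans _ g.zf.inf _ (nat_mem_omega n)⟩

@[simp] theorem nt_val (n : ℕ) : (g.nt n).1 = nat n := rfl
@[simp] theorem om_val : g.om.1 = omega := rfl

theorem E_om {x : g.U} : E x g.om ↔ ∃ n, g.nt n = x := by
  simp only [E_iff, om_val, mem_omega, U.ext_iff, nt_val]

theorem E_nt {x : g.U} {n : ℕ} : E x (g.nt n) ↔ ∃ m < n, g.nt m = x := by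
  simp only [E_iff, nt_val, mem_nat, U.ext_iff]

theorem nt_inj : Function.Injective g.nt := fun _ _ h => nat_injective (congrArg U.val h)

theorem nt_lt {m n : ℕ} : E (g.nt m) (g.nt n) ↔ m < n := nat_mem_nat

theorem nt_om (n : ℕ) : E (g.nt n) g.om := nat_mem_omega n

theorem D1.memc (c : g.U) : g.D1 (fun x => E x c) :=
  (PD.ex (Θ := fun w y => y = c ∧ E (w 0) y) ((PD.const _ _).and (PD.mem _ _))).congr
    fun w => by simp

instance : Cd g ℕ where
  ι := g.nt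
  inj := nt_inj
  rng := PD.congr (D1.memc g.om) fun _ => E_om

instance : Bd g ℕ := ⟨⟨g.om, nt_om⟩⟩

theorem ι_nat (n : ℕ) : (ι n : g.U) = g.nt n := rfl

open Classical in
noncomputable instance : Cd g Prop where
  ι := fun p => if p then g.nt 1 else g.nt 0
  inj := fun p q h => by
    by_cases hp : p <;> by_cases hq : q <;> simp [hp, hq, nt_inj.eq_iff] at h ⊢
  rng := ((PD.const 0 (g.nt 1)).or (PD.const 0 (g.nt 0))).congr fun w => by
    constructor
    · rintro (h | h)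
      exacts [⟨True, by simp [h]⟩, ⟨False, by simp [h]⟩]
    · rintro ⟨p, h⟩
      by_cases hp : p <;> simp [hp] at h <;> simp [h]

instance : Bd g Prop := ⟨⟨g.om, fun p => by
  show E (@ite _ p (Classical.propDecidable p) (g.nt 1) (g.nt 0)) g.om
  split_ifs <;> exact nt_om _⟩⟩

/-- Elements of a set of the model, as a type. -/
@[ext] structure Elt (A : g.U) : Type (u + 1) where
  val : g.U
  mem : E val A

instance (A : g.U) : Cd g (Elt A) where
  ι := Elt.val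
  inj := fun _ _ h => Elt.ext h
  rng := PD.congr (D1.memc A) fun _ => ⟨fun h => ⟨⟨_, h⟩, rfl⟩, fun ⟨a, e⟩ => e ▸ a.2⟩

instance (A : g.U) : Bd g (Elt A) := ⟨⟨A, fun a => a.2⟩⟩

theorem ι_elt {A : g.U} (a : Elt A) : (ι a : g.U) = a.1 := rfl

section

variable {Γ : Type*} {α : Type*} {β : Type*} {γ : Type*} [Cd g Γ] [Cd g α] [Cd g β] [Cd g γ]

theorem Df.tm {Q : Γ → Prop} (h : g.Df Q) : g.Tm Q := by
  refine Tm.ofRel (Q := fun x p => (p = True ∧ Q x) ∨ (p = False ∧ ¬ Q x))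
    (((Df.eq Tm.snd' (Tm.const _)).and (h.comp Tm.fst')).or
      ((Df.eq Tm.snd' (Tm.const _)).and (h.comp Tm.fst').not)) fun x p => ?_
  by_cases h : Q x <;> simp [h]

theorem Tm.df {Q : Γ → Prop} (h : g.Tm Q) : g.Df Q :=
  (Df.eq h (Tm.const True)).congr fun _ => by simp

attribute [fun_prop] Tm

@[fun_prop] theorem tm_id : g.Tm (fun x : Γ => x) := Tm.id

@[fun_prop] theorem tm_const (c : α) : g.Tm (fun _ : Γ => c) := Tm.const c

@[fun_prop] theorem tm_comp {h : α → β} {f : Γ → α} (hh : g.Tm h) (hf : g.Tm f) :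
    g.Tm (fun x => h (f x)) := hh.comp hf

@[fun_prop] theorem tm_fst {f : Γ → α × β} (hf : g.Tm f) : g.Tm (fun x => (f x).1) := hf.fst

@[fun_prop] theorem tm_snd {f : Γ → α × β} (hf : g.Tm f) : g.Tm (fun x => (f x).2) := hf.snd

@[fun_prop] theorem tm_pair {f : Γ → α} {h : Γ → β} (hf : g.Tm f) (hh : g.Tm h) :
    g.Tm (fun x => (f x, h x)) := hf.pair hh

@[fun_prop] theorem tm_ι {f : Γ → α} (hf : g.Tm f) : g.Tm (fun x => (ι (f x) : g.U)) := hf.ι

@[fun_prop] theorem tm_nt {f : Γ → ℕ} (hf : g.Tm f) : g.Tm (fun x => g.nt (f x)) := hf.ι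

@[fun_prop] theorem tm_val {A : g.U} {f : Γ → Elt A} (hf : g.Tm f) :
    g.Tm (fun x => Elt.val (f x)) := hf.ι

@[fun_prop] theorem tm_pr {f h : Γ → g.U} (hf : g.Tm f) (hh : g.Tm h) :
    g.Tm (fun x => pr (f x) (h x)) := hf.pr hh

theorem Tm.congr {f h : Γ → α} (hf : g.Tm f) (e : ∀ x, f x = h x) : g.Tm h :=
  funext e ▸ hf

theorem Tm.congr_iff {f h : Γ → Prop} (hf : g.Tm f) (e : ∀ x, f x ↔ h x) : g.Tm h :=
  hf.congr fun x => propext (e x)

variable {Q R : Γ → Prop}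

@[fun_prop] theorem tm_not (h : g.Tm Q) : g.Tm (fun x => ¬ Q x) := h.df.not.tm

@[fun_prop] theorem tm_and (h₁ : g.Tm Q) (h₂ : g.Tm R) : g.Tm (fun x => Q x ∧ R x) :=
  (h₁.df.and h₂.df).tm

@[fun_prop] theorem tm_or (h₁ : g.Tm Q) (h₂ : g.Tm R) : g.Tm (fun x => Q x ∨ R x) :=
  (h₁.df.or h₂.df).tm

@[fun_prop] theorem tm_imp (h₁ : g.Tm Q) (h₂ : g.Tm R) : g.Tm (fun x => Q x → R x) :=
  (h₁.df.imp h₂.df).tm

@[fun_prop] theorem tm_iff (h₁ : g.Tm Q) (h₂ : g.Tm R) : g.Tm (fun x => Q x ↔ R x) :=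
  (h₁.df.iff h₂.df).tm

@[fun_prop] theorem tm_ex {Q : Γ → α → Prop} (h : g.Tm (fun z : Γ × α => Q z.1 z.2)) :
    g.Tm (fun x => ∃ y, Q x y) := (Df.ex h.df).tm

@[fun_prop] theorem tm_all {Q : Γ → α → Prop} (h : g.Tm (fun z : Γ × α => Q z.1 z.2)) :
    g.Tm (fun x => ∀ y, Q x y) := (Df.all h.df).tm

@[fun_prop] theorem tm_eq {f h : Γ → α} (hf : g.Tm f) (hh : g.Tm h) :
    g.Tm (fun x => f x = h x) := (Df.eq hf hh).tm

@[fun_prop] theorem tm_ne {f h : Γ → α} (hf : g.Tm f) (hh : g.Tm h) :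
    g.Tm (fun x => f x ≠ h x) := (Df.eq hf hh).not.tm

@[fun_prop] theorem tm_E {f h : Γ → g.U} (hf : g.Tm f) (hh : g.Tm h) :
    g.Tm (fun x => E (f x) (h x)) := (Df.mem hf hh).tm

@[fun_prop] theorem tm_ite {c : Γ → Prop} {d : ∀ x, Decidable (c x)} {f h : Γ → α} (hc : g.Tm c)
    (hf : g.Tm f) (hh : g.Tm h) : g.Tm (fun x => @ite _ (c x) (d x) (f x) (h x)) :=
  @Tm.ite _ _ _ _ _ _ d _ _ hc.df hf hh

@[fun_prop] theorem tm_nat_lt {f h : Γ → ℕ} (hf : g.Tm f) (hh : g.Tm h) :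
    g.Tm (fun x => f x < h x) := ((Df.mem hf.ι hh.ι).congr fun _ => nt_lt).tm

@[fun_prop] theorem tm_nat_le {f h : Γ → ℕ} (hf : g.Tm f) (hh : g.Tm h) :
    g.Tm (fun x => f x ≤ h x) := ((tm_nat_lt hh hf).df.not.congr fun _ => not_lt).tm

theorem tm_of_rel {f : Γ → α} {Q : Γ → α → Prop} (h : g.Tm (fun z : Γ × α => Q z.1 z.2))
    (e : ∀ x y, Q x y ↔ y = f x) : g.Tm f := Tm.ofRel h.df e

theorem tm_succ' : g.Tm (fun n : ℕ => n + 1) :=
  tm_of_rel (Q := fun n m => n < m ∧ ∀ k, n < k → m ≤ k) (by fun_prop) fun n m =>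
    ⟨fun ⟨h₁, h₂⟩ => le_antisymm (h₂ _ (Nat.lt_succ_self n)) h₁, fun h => h ▸
      ⟨Nat.lt_succ_self n, fun _ hk => hk⟩⟩

@[fun_prop] theorem tm_succ {f : Γ → ℕ} (hf : g.Tm f) : g.Tm (fun x => Nat.succ (f x)) :=
  tm_succ'.comp hf

theorem tm_sep {Q : g.U → Prop} (h : g.Tm Q) (a : g.U) : ∃ b, ∀ x, E x b ↔ E x a ∧ Q x :=
  h.df.sep a

/-- Left inverse of the coding. -/
noncomputable def un (α : Type*) [Cd g α] [Inhabited α] (x : g.U) : α := Function.invFun ι x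

@[simp] theorem un_ι [Inhabited α] (a : α) : un α (ι a : g.U) = a :=
  Function.leftInverse_invFun inj a

@[fun_prop] theorem tm_un [Inhabited α] {f : Γ → g.U} (hf : g.Tm f) :
    g.Tm (fun x => un α (f x)) := by
  refine tm_of_rel (Q := fun x a => ι a = f x ∨ (¬ (∃ b : α, ι b = f x) ∧
    a = Classical.choice inferInstance)) (by fun_prop) fun x a => ?_
  by_cases h : ∃ b : α, ι b = f x
  · obtain ⟨b, e⟩ := h
    simp [← e, inj.eq_iff]
  · have h' : ¬ ι a = f x := fun e => h ⟨a, e⟩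
    simp only [h', h, false_or, not_false_iff, true_and, un, Function.invFun_neg h]

open Classical in
/-- Definite description. -/
noncomputable def the {α : Type*} [Inhabited α] (P : α → Prop) : α :=
  if h : ∃ a, ∀ b, P b ↔ b = a then h.choose else default

theorem the_eq {α : Type*} [Inhabited α] {P : α → Prop} {a : α} (h : ∀ b, P b ↔ b = a) :
    the P = a := by
  have h' : ∃ a, ∀ b, P b ↔ b = a := ⟨a, h⟩
  unfold the
  rw [dif_pos h']
  exact (h _).1 ((h'.choose_spec _).2 rfl)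

@[fun_prop] theorem tm_the [Inhabited α] {Q : Γ → α → Prop}
    (h : g.Tm (fun z : Γ × α => Q z.1 z.2)) : g.Tm (fun x => the (Q x)) := by
  refine tm_of_rel (Q := fun x b => (∀ b' : α, Q x b' ↔ b' = b) ∨
    (¬ (∃ b : α, ∀ b' : α, Q x b' ↔ b' = b) ∧ b = default)) (by fun_prop) fun x b => ?_
  by_cases h : ∃ b : α, ∀ b' : α, Q x b' ↔ b' = b
  · obtain ⟨c, hc⟩ := h
    have h' : ∃ b : α, ∀ b' : α, Q x b' ↔ b' = b := ⟨c, hc⟩
    rw [the_eq hc]
    simp only [h', not_true, false_and, or_false]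
    exact ⟨fun h => (hc _).1 ((h _).2 rfl), fun h => h ▸ hc⟩
  · have h' : ¬ ∀ b' : α, Q x b' ↔ b' = b := fun e => h ⟨b, e⟩
    simp only [h', h, false_or, not_false_iff, true_and, the, dif_neg]

/-- Replacement for coded types, over a set of codes. -/
theorem tm_image_on (A : g.U) (hQ : g.Tm Q) {f : Γ → g.U} (hf : g.Tm f) :
    ∃ S : g.U, ∀ y, E y S ↔ ∃ x, E (ι x) A ∧ Q x ∧ f x = y := by
  obtain ⟨B, hB⟩ := tm_sep (Q := fun a => ∃ x : Γ, ι x = a ∧ Q x) (by fun_prop) A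
  obtain ⟨c, hc⟩ := Tm.repl (f := fun a => the fun y => ∃ x : Γ, ι x = a ∧ f x = y)
    (by fun_prop) B
  have e : ∀ x : Γ, (the fun y => ∃ x' : Γ, (ι x' : g.U) = ι x ∧ f x' = y) = f x := fun x =>
    the_eq fun b => by simp [inj.eq_iff, eq_comm]
  refine ⟨c, fun y => (hc y).trans ⟨?_, ?_⟩⟩
  · rintro ⟨a, ha, rfl⟩
    obtain ⟨h₁, x, rfl, h₂⟩ := (hB a).1 ha
    exact ⟨x, h₁, h₂, (e x).symm⟩
  · rintro ⟨x, h₁, h₂, rfl⟩
    exact ⟨ι x, (hB _).2 ⟨h₁, x, rfl, h₂⟩, e x⟩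

theorem tm_image [Bd g Γ] (hQ : g.Tm Q) {f : Γ → g.U} (hf : g.Tm f) :
    ∃ S : g.U, ∀ y, E y S ↔ ∃ x, Q x ∧ f x = y := by
  obtain ⟨A, hA⟩ := Bd.bd (g := g) (α := Γ)
  simpa [hA] using tm_image_on A hQ hf

/-- The set of values of `f` on the elements satisfying `Q`, as a definable operation. -/
noncomputable def img (Q : α → Prop) (f : α → g.U) : g.U :=
  the fun S => ∀ y, E y S ↔ ∃ x, Q x ∧ f x = y

theorem E_img [Bd g α] {Q : α → Prop} {f : α → g.U} (hQ : g.Tm Q) (hf : g.Tm f) {y : g.U} :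
    E y (img Q f) ↔ ∃ x, Q x ∧ f x = y := by
  obtain ⟨S, hS⟩ := tm_image hQ hf
  rw [img, the_eq (a := S) fun b => ⟨fun h => U.ext' fun y => (h y).trans (hS y).symm,
    fun h => h ▸ hS⟩]
  exact hS y

@[fun_prop] theorem tm_img {Q : Γ → α → Prop} {f : Γ → α → g.U}
    (hQ : g.Tm (fun z : Γ × α => Q z.1 z.2)) (hf : g.Tm (fun z : Γ × α => f z.1 z.2)) :
    g.Tm (fun x => img (Q x) (f x)) := by
  unfold img
  fun_prop

theorem exists_finset {S : Set g.U} (h : S.Finite) : ∃ s, ∀ x, E x s ↔ x ∈ S := by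
  induction S, h using Set.Finite.induction_on with
  | empty => exact ⟨g.nt 0, fun x => by simp [E_nt]⟩
  | @insert a S _ _ ih =>
    obtain ⟨s, hs⟩ := ih
    obtain ⟨c, hc⟩ := exists_upair a a
    obtain ⟨d, hd⟩ := exists_upair c s
    obtain ⟨U, hU⟩ := exists_union d
    refine ⟨U, fun x => ?_⟩
    simp only [hU, hd, Set.mem_insert_iff, ← hs]
    constructor
    · rintro ⟨y, rfl | rfl, h⟩
      exacts [Or.inl (by simpa using (hc x).1 h), Or.inr h]
    · rintro (h | h)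
      exacts [⟨c, Or.inl rfl, (hc x).2 (Or.inl h)⟩, ⟨s, Or.inr rfl, h⟩]

theorem tm_iter' {F : Γ → α → α} {a : Γ → α} (hF : g.Tm (fun z : Γ × α => F z.1 z.2))
    (ha : g.Tm a) : g.Tm (fun z : Γ × ℕ => (F z.1)^[z.2] (a z.1)) := by
  refine tm_of_rel (Q := fun z y => ∃ s : g.U, E (pr (g.nt z.2) (ι y)) s ∧
    (∀ y' : α, E (pr (g.nt 0) (ι y')) s → y' = a z.1) ∧
    ∀ (k : ℕ) (y' : α), E (pr (g.nt k.succ) (ι y')) s →
      ∃ y'' : α, E (pr (g.nt k) (ι y'')) s ∧ y' = F z.1 y'') (by fun_prop) ?_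
  rintro ⟨p, n⟩ y
  constructor
  · rintro ⟨s, h, h₀, h₁⟩
    dsimp only at h h₀ h₁ ⊢
    induction n generalizing y with
    | zero => exact h₀ y h
    | succ n ih =>
      obtain ⟨y', h₂, rfl⟩ := h₁ n y h
      rw [Function.iterate_succ_apply', ih y' h₂]
  · rintro rfl
    obtain ⟨s, hs⟩ := exists_finset
      ((Set.finite_le_nat n).image fun k => pr (g.nt k) (ι ((F p)^[k] (a p))))
    have e : ∀ k (y : α), E (pr (g.nt k) (ι y)) s ↔ k ≤ n ∧ y = (F p)^[k] (a p) := by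
      intro k y
      rw [hs]
      constructor
      · rintro ⟨j, hj, e⟩
        obtain ⟨e₁, e₂⟩ := pr_inj.1 e
        obtain rfl := nt_inj e₁
        exact ⟨hj, (inj e₂).symm⟩
      · rintro ⟨hk, rfl⟩
        exact ⟨k, hk, rfl⟩
    refine ⟨s, (e _ _).2 ⟨le_rfl, rfl⟩, fun y h => ((e _ _).1 h).2, fun k y h => ?_⟩
    obtain ⟨h₁, rfl⟩ := (e _ _).1 h
    exact ⟨_, (e _ _).2 ⟨Nat.le_of_succ_le h₁, rfl⟩, Function.iterate_succ_apply' _ _ _⟩

@[fun_prop] theorem tm_iter {F : Γ → α → α} {a : Γ → α} {n : Γ → ℕ}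
    (hF : g.Tm (fun z : Γ × α => F z.1 z.2)) (hn : g.Tm n) (ha : g.Tm a) :
    g.Tm (fun x => (F x)^[n x] (a x)) :=
  (tm_iter' hF ha).comp (Tm.id.pair hn)

@[fun_prop] theorem tm_add {f h : Γ → ℕ} (hf : g.Tm f) (hh : g.Tm h) :
    g.Tm (fun x => f x + h x) := by
  have : g.Tm (fun x => Nat.succ^[h x] (f x)) := by fun_prop
  simpa only [Nat.succ_iterate] using this

@[fun_prop] theorem tm_mul {f h : Γ → ℕ} (hf : g.Tm f) (hh : g.Tm h) :
    g.Tm (fun x => f x * h x) := by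
  have : g.Tm (fun x => (fun k => k + f x)^[h x] 0) := by fun_prop
  have e : ∀ a n : ℕ, (fun k => k + a)^[n] 0 = a * n := fun a n => by
    induction n with
    | zero => rfl
    | succ n ih => rw [Function.iterate_succ_apply', ih, Nat.mul_succ]
  simpa only [e] using this

@[fun_prop] theorem tm_sub {f h : Γ → ℕ} (hf : g.Tm f) (hh : g.Tm h) :
    g.Tm (fun x => f x - h x) :=
  tm_of_rel (Q := fun x m => m + h x = f x ∨ (f x < h x ∧ m = 0)) (by fun_prop) fun x m => by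
    omega

@[fun_prop] theorem tm_div {f h : Γ → ℕ} (hf : g.Tm f) (hh : g.Tm h) :
    g.Tm (fun x => f x / h x) :=
  tm_of_rel (Q := fun x m => (h x = 0 ∧ m = 0) ∨ (m * h x ≤ f x ∧ f x < (m + 1) * h x))
    (by fun_prop) fun x m => by
      rcases Nat.eq_zero_or_pos (h x) with h0 | h0
      · simp [h0]
      · constructor
        · rintro (h | h)
          · omega
          · exact (Nat.div_eq_of_lt_le h.1 h.2).symm
        · rintro rfl
          exact Or.inr ⟨Nat.div_mul_le_self _ _, by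
            rw [← Nat.div_lt_iff_lt_mul h0]; exact Nat.lt_succ_self _⟩

@[fun_prop] theorem tm_mod {f h : Γ → ℕ} (hf : g.Tm f) (hh : g.Tm h) :
    g.Tm (fun x => f x % h x) := by
  simp only [Nat.mod_def]
  fun_prop

@[fun_prop] theorem tm_natPair {f h : Γ → ℕ} (hf : g.Tm f) (hh : g.Tm h) :
    g.Tm (fun x => Nat.pair (f x) (h x)) := by
  unfold Nat.pair
  fun_prop

@[fun_prop] theorem tm_unpair {f : Γ → ℕ} (hf : g.Tm f) : g.Tm (fun x => Nat.unpair (f x)) :=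
  tm_of_rel (Q := fun x p => Nat.pair p.1 p.2 = f x) (by fun_prop) fun x p =>
    ⟨fun h => by rw [← h, Nat.unpair_pair], fun h => by rw [h, Nat.pair_unpair]⟩

@[fun_prop] theorem tm_nat_max {f h : Γ → ℕ} (hf : g.Tm f) (hh : g.Tm h) :
    g.Tm (fun x => max (f x) (h x)) := by
  simp only [max_def]
  fun_prop

@[fun_prop] theorem tm_nat_min {f h : Γ → ℕ} (hf : g.Tm f) (hh : g.Tm h) :
    g.Tm (fun x => min (f x) (h x)) := by
  simp only [min_def]
  fun_prop

/-- The function coded by an element of the model. -/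
noncomputable def ev (α : Type*) (β : Type*) [Cd g α] [Cd g β] [Inhabited β] (s : g.U) (a : α) :
    β := the fun b : β => E (pr (ι a) (ι b)) s

theorem ev_eq [Inhabited β] {s : g.U} {a : α} {b : β}
    (h : ∀ b' : β, E (pr (ι a) (ι b')) s ↔ b' = b) : ev α β s a = b := the_eq h

@[fun_prop] theorem tm_ev [Inhabited β] {s : Γ → g.U} {a : Γ → α} (hs : g.Tm s) (ha : g.Tm a) :
    g.Tm (fun x => ev α β (s x) (a x)) := by
  unfold ev
  fun_prop

theorem exists_ev_on [Inhabited β] (S : g.U) {f : α → β} (hf : g.Tm f) :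
    ∃ s : g.U, ∀ a, E (ι a) S → ev α β s a = f a := by
  obtain ⟨s, hs⟩ := tm_image_on (Q := fun _ : α => True) (f := fun a => pr (ι a) (ι (f a))) S
    (by fun_prop) (by fun_prop)
  exact ⟨s, fun a ha => ev_eq fun b => by simp [hs, pr_inj, inj.eq_iff, ha, eq_comm]⟩

/-- Definition by well-founded recursion. -/
theorem tm_wf [Inhabited β] {r : α → α → Prop} (wf : WellFounded r)
    (hr : g.Tm (fun z : α × α => r z.1 z.2)) {G : α → β} {Ψ : α → g.U → β}
    (hΨ : g.Tm (fun z : α × g.U => Ψ z.1 z.2))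
    (eq : ∀ a s, (∀ b, r b a → ev α β s b = G b) → G a = Ψ a s)
    (bd : ∀ a : α, ∃ S : g.U, E (ι a) S ∧ ∀ b : α, E (ι b) S → ∀ c, r c b → E (ι c) S) :
    g.Tm G := by
  classical
  let Ap : g.U → g.U → Prop := fun s S => (∀ b : α, E (ι b) S → ∀ c, r c b → E (ι c) S) ∧
    ∀ b : α, E (ι b) S → ev α β s b = Ψ b s
  have agree : ∀ s S, Ap s S → ∀ b : α, E (ι b) S → ev α β s b = G b := by
    intro s S h b
    induction b using wf.induction with
    | _ b ih => exact fun hb => (h.2 b hb).trans (eq b s fun c hc => ih c hc (h.1 b hb c hc)).symm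
  let Q : α → β → Prop := fun a y => ∃ s S, Ap s S ∧ E (ι a) S ∧ y = ev α β s a
  have hQ : g.Tm (fun z : α × β => Q z.1 z.2) := by
    simp only [Q, Ap]
    fun_prop
  have hD : g.Tm (fun a : α => ∃ y, Q a y) := by fun_prop
  have key : ∀ a, (∃ y, Q a y) → ∀ y, Q a y ↔ y = G a := by
    rintro a ⟨_, s, S, h₁, h₂, rfl⟩ y
    exact ⟨fun ⟨s', S', h₁', h₂', e⟩ => e.trans (agree _ _ h₁' a h₂'),
      fun e => ⟨s, S, h₁, h₂, e.trans (agree _ _ h₁ a h₂).symm⟩⟩
  refine tm_of_rel hQ fun a => key a ?_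
  obtain ⟨S₀, ha, hS₀⟩ := bd a
  suffices ∀ b : α, E (ι b) S₀ → ∃ y, Q b y from this a ha
  intro b
  induction b using wf.induction with
  | _ b ih =>
    intro hb
    obtain ⟨S, hS⟩ := tm_sep (Q := fun x => ∃ c : α, ι c = x ∧ ((∃ y, Q c y) ∨ c = b))
      (by fun_prop) S₀
    have hS' : ∀ c : α, E (ι c) S ↔ E (ι c) S₀ ∧ ((∃ y, Q c y) ∨ c = b) := fun c => by
      simp [hS, inj.eq_iff]
    obtain ⟨s₁, hs₁⟩ := exists_ev_on S₀ (f := fun c => the (Q c)) (by fun_prop)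
    have e₁ : G b = Ψ b s₁ := eq b s₁ fun c hc =>
      (hs₁ c (hS₀ b hb c hc)).trans (the_eq (key c (ih c hc (hS₀ b hb c hc))))
    obtain ⟨s, hs⟩ := exists_ev_on S (f := fun c => if c = b then Ψ b s₁ else the (Q c))
      (by fun_prop)
    have e₂ : ∀ c : α, E (ι c) S → ev α β s c = G c := by
      intro c hc
      rw [hs c hc]
      split_ifs with h
      · rw [h, e₁]
      · exact the_eq (key c (((hS' c).1 hc).2.resolve_right h))
    have cl : ∀ c : α, E (ι c) S → ∀ d, r d c → E (ι d) S := by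
      intro c hc d hd
      obtain ⟨h₁, h₂⟩ := (hS' c).1 hc
      refine (hS' d).2 ⟨hS₀ c h₁ d hd, Or.inl ?_⟩
      rcases h₂ with ⟨_, s', S', h₃, h₄, rfl⟩ | rfl
      · exact ⟨_, s', S', h₃, h₃.1 c h₄ d hd, rfl⟩
      · exact ih d hd (hS₀ c h₁ d hd)
    exact ⟨_, s, S, ⟨cl, fun c hc => (e₂ c hc).trans (eq c s fun d hd => e₂ d (cl c hc d hd))⟩,
      (hS' b).2 ⟨hb, Or.inr rfl⟩, rfl⟩

end

end Mdl

end Pool.Agent.MP_09d684_lc

end

section

namespace Pool.Agent.MP_09d684_lc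

open ZFSet

universe u v w

namespace Mdl

variable {g : Mdl.{u}}

open Cd

/-- Functions of the model between coded types. -/
@[ext] structure Fn (g : Mdl.{u}) (α : Type v) (β : Type w) [Cd g α] [Cd g β] where
  ap : α → β
  tm : g.Tm ap

instance {α : Type v} {β : Type w} [Cd g α] [Cd g β] : CoeFun (Fn g α β) (fun _ => α → β) :=
  ⟨Fn.ap⟩

section

variable {Γ : Type*} {α : Type*} {β : Type*} {γ : Type*} [Cd g Γ] [Cd g α] [Cd g β] [Cd g γ]

theorem Fn.ext' {f h : Fn g α β} (e : ∀ a, f a = h a) : f = h := Fn.ext (funext e)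

@[simp] theorem Fn.eta (f : Fn g α β) (h : g.Tm fun a => f.ap a) :
    (⟨fun a => f.ap a, h⟩ : Fn g α β) = f := rfl

instance [Inhabited β] : Inhabited (Fn g α β) := ⟨⟨fun _ => default, Tm.const _⟩⟩

noncomputable def Fn.code (f : Fn g α β) : g.U := img (fun _ => True) fun a => pr (ι a) (ι (f a))

theorem Fn.E_code [Bd g α] {f : Fn g α β} {p : g.U} :
    E p f.code ↔ ∃ a, pr (ι a) (ι (f a)) = p := by
  have := f.tm
  rw [Fn.code, E_img (by fun_prop) (by fun_prop)]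
  simp

theorem Fn.pr_code [Bd g α] {f : Fn g α β} {a : α} {b : β} :
    E (pr (ι a) (ι b)) f.code ↔ b = f a := by
  simp [Fn.E_code, pr_inj, inj.eq_iff, eq_comm]

theorem Fn.exists_code [Bd g α] {x : g.U} (h₁ : ∀ p, E p x → ∃ (a : α) (b : β), p = pr (ι a) (ι b))
    (h₂ : ∀ a : α, ∃ b : β, ∀ b' : β, E (pr (ι a) (ι b')) x ↔ b' = b) :
    ∃ f : Fn g α β, f.code = x := by
  choose f hf using h₂
  refine ⟨⟨f, tm_of_rel (Q := fun a b => E (pr (ι a) (ι b)) x) (by fun_prop) hf⟩,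
    U.ext' fun p => ?_⟩
  rw [Fn.E_code]
  constructor
  · rintro ⟨a, rfl⟩
    exact (hf a _).2 rfl
  · intro hp
    obtain ⟨a, b, rfl⟩ := h₁ p hp
    exact ⟨a, by rw [(hf a b).1 hp]⟩

noncomputable instance [Bd g α] : Cd g (Fn g α β) where
  ι := Fn.code
  inj := fun f h e => Fn.ext' fun a => Fn.pr_code.1 (e ▸ Fn.pr_code.2 rfl)
  rng := by
    have : g.Tm (fun x : g.U => (∀ p, E p x → ∃ (a : α) (b : β), p = pr (ι a) (ι b)) ∧
      ∀ a : α, ∃ b : β, ∀ b' : β, E (pr (ι a) (ι b')) x ↔ b' = b) := by fun_prop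
    refine PD.congr this.df fun w => ⟨?_, ?_⟩
    · rintro ⟨x, e, h₁, h₂⟩
      obtain ⟨f, hf⟩ := Fn.exists_code h₁ h₂
      exact ⟨f, hf.trans e⟩
    · rintro ⟨f, e⟩
      refine ⟨_, e, fun p hp => ?_, fun a => ⟨f a, fun b => Fn.pr_code⟩⟩
      obtain ⟨a, rfl⟩ := Fn.E_code.1 hp
      exact ⟨a, _, rfl⟩

theorem ι_fn [Bd g α] (f : Fn g α β) : (ι f : g.U) = f.code := rfl

instance [Bd g α] [Bd g β] : Bd g (Fn g α β) where
  bd := by
    obtain ⟨A, hA⟩ := Bd.bd (g := g) (α := α × β)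
    obtain ⟨B, hB⟩ := exists_power A
    refine ⟨B, fun f => (hB _).2 fun p hp => ?_⟩
    obtain ⟨a, rfl⟩ := Fn.E_code.1 hp
    exact hA (a, f a)

@[fun_prop] theorem tm_ap [Bd g α] {f : Γ → Fn g α β} {a : Γ → α} (hf : g.Tm f) (ha : g.Tm a) :
    g.Tm (fun x => (f x).ap (a x)) :=
  tm_of_rel (Q := fun x b => E (pr (ι (a x)) (ι b)) (ι (f x) : g.U)) (by fun_prop)
    fun _ _ => Fn.pr_code

@[fun_prop] theorem tm_mk [Bd g α] {F : Γ → α → β} {h : ∀ x, g.Tm (F x)}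
    (H : g.Tm (fun z : Γ × α => F z.1 z.2)) : g.Tm (fun x => (⟨F x, h x⟩ : Fn g α β)) :=
  tm_of_rel (Q := fun x f => ∀ a, f a = F x a) (by fun_prop) fun _ _ =>
    ⟨fun e => Fn.ext' e, fun e _ => e ▸ rfl⟩

open Classical in
/-- A definable function as an element of the model (junk if it is not definable). -/
noncomputable def lam (g : Mdl.{u}) {α : Type*} {β : Type*} [Cd g α] [Cd g β] [Inhabited β]
    (f : α → β) : Fn g α β := if h : g.Tm f then ⟨f, h⟩ else default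

theorem lam_eq [Inhabited β] {f : α → β} (h : g.Tm f) : g.lam f = ⟨f, h⟩ := dif_pos h

theorem lam_ap [Inhabited β] {f : α → β} (h : g.Tm f) : (g.lam f).ap = f := by rw [lam_eq h]

@[simp] theorem lam_self [Inhabited β] (f : Fn g α β) : g.lam f.ap = f := lam_eq f.tm

@[fun_prop] theorem tm_lam [Bd g α] [Inhabited β] {F : Γ → α → β}
    (H : g.Tm (fun z : Γ × α => F z.1 z.2)) : g.Tm (fun x => g.lam (F x)) := by
  have h : ∀ x, g.Tm (F x) := fun x => H.comp (f := fun a => (x, a)) (by fun_prop)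
  exact (tm_mk (h := h) H).congr fun x => (lam_eq (h x)).symm

/-! ### Operations on sets -/

/-- Separation as an operation. -/
noncomputable def sepU (a : g.U) (Q : g.U → Prop) : g.U := the fun b => ∀ x, E x b ↔ E x a ∧ Q x

theorem E_sepU {a : g.U} {Q : g.U → Prop} (h : g.Tm Q) {x : g.U} :
    E x (sepU a Q) ↔ E x a ∧ Q x := by
  obtain ⟨b, hb⟩ := tm_sep h a
  rw [sepU, the_eq (a := b) fun c => ⟨fun h => U.ext' fun y => (h y).trans (hb y).symm,
    fun h => h ▸ hb⟩]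
  exact hb x

@[fun_prop] theorem tm_sepU {a : Γ → g.U} {Q : Γ → g.U → Prop} (ha : g.Tm a)
    (hQ : g.Tm (fun z : Γ × g.U => Q z.1 z.2)) : g.Tm (fun x => sepU (a x) (Q x)) := by
  unfold sepU
  fun_prop

/-- Union. -/
def sUn (a : g.U) : g.U := ⟨_, g.zf.union _ a.2⟩

theorem E_sUn {a x : g.U} : E x (sUn a) ↔ ∃ y, E y a ∧ E x y := by
  rw [E_iff, sUn, mem_sUnion]
  exact ⟨fun ⟨y, h₁, h₂⟩ => ⟨⟨y, g.zf.trans _ a.2 _ h₁⟩, h₁, h₂⟩,
    fun ⟨y, h₁, h₂⟩ => ⟨y.1, h₁, h₂⟩⟩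

@[fun_prop] theorem tm_sUn {a : Γ → g.U} (ha : g.Tm a) : g.Tm (fun x => sUn (a x)) :=
  tm_of_rel (Q := fun x b => ∀ z, E z b ↔ ∃ y, E y (a x) ∧ E z y) (by fun_prop) fun _ _ =>
    ⟨fun h => U.ext' fun z => (h z).trans E_sUn.symm, fun h _ => h ▸ E_sUn⟩

/-- Unordered pair. -/
def upr (a b : g.U) : g.U := ⟨_, g.zf.upair _ a.2 _ b.2⟩

theorem E_upr {a b x : g.U} : E x (upr a b) ↔ x = a ∨ x = b := by
  rw [E_iff, upr, mem_pair, U.ext_iff, U.ext_iff]

@[fun_prop] theorem tm_upr {a b : Γ → g.U} (ha : g.Tm a) (hb : g.Tm b) :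
    g.Tm (fun x => upr (a x) (b x)) :=
  tm_of_rel (Q := fun x c => ∀ z, E z c ↔ z = a x ∨ z = b x) (by fun_prop) fun _ _ =>
    ⟨fun h => U.ext' fun z => (h z).trans E_upr.symm, fun h _ => h ▸ E_upr⟩

/-- Power set in the model. -/
noncomputable def pow (a : g.U) : g.U := the fun c => ∀ x, E x c ↔ ∀ y, E y x → E y a

theorem E_pow {a x : g.U} : E x (pow a) ↔ ∀ y, E y x → E y a := by
  obtain ⟨b, hb⟩ := exists_power a
  rw [pow, the_eq (a := b) fun c => ⟨fun h => U.ext' fun y => (h y).trans (hb y).symm,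
    fun h => h ▸ hb⟩]
  exact hb x

@[fun_prop] theorem tm_pow {a : Γ → g.U} (ha : g.Tm a) : g.Tm (fun x => pow (a x)) := by
  unfold pow
  fun_prop

/-- The image of a set under a definable function. -/
noncomputable def imgU (a : g.U) (f : g.U → g.U) : g.U :=
  the fun S => ∀ y, E y S ↔ ∃ x, E x a ∧ f x = y

theorem E_imgU {a : g.U} {f : g.U → g.U} (hf : g.Tm f) {y : g.U} :
    E y (imgU a f) ↔ ∃ x, E x a ∧ f x = y := by
  obtain ⟨S, hS⟩ := hf.repl a
  rw [imgU, the_eq (a := S) fun b => ⟨fun h => U.ext' fun y => (h y).trans (hS y).symm,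
    fun h => h ▸ hS⟩]
  exact hS y

@[fun_prop] theorem tm_imgU {a : Γ → g.U} {f : Γ → g.U → g.U} (ha : g.Tm a)
    (hf : g.Tm (fun z : Γ × g.U => f z.1 z.2)) : g.Tm (fun x => imgU (a x) (f x)) := by
  unfold imgU
  fun_prop

theorem exists_trcl (a : g.U) : ∃ S : g.U, E a S ∧ ∀ b, E b S → ∀ c, E c b → E c S := by
  obtain ⟨T, hT⟩ := tm_image (Q := fun _ : ℕ => True) (f := fun n => sUn^[n] (upr a a))
    (by fun_prop) (by fun_prop)
  refine ⟨sUn T, E_sUn.2 ⟨_, (hT _).2 ⟨0, trivial, rfl⟩, E_upr.2 (Or.inl rfl)⟩, fun b hb c hc => ?_⟩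
  obtain ⟨y, hy, hb⟩ := E_sUn.1 hb
  obtain ⟨n, -, rfl⟩ := (hT _).1 hy
  refine E_sUn.2 ⟨_, (hT _).2 ⟨n + 1, trivial, rfl⟩, ?_⟩
  rw [Function.iterate_succ_apply']
  exact E_sUn.2 ⟨b, hb, hc⟩

/-! ### Lists -/

theorem tm_getD_const [Inhabited α] (l : List α) : g.Tm (fun k : ℕ => l.getD k default) := by
  induction l with
  | nil => simpa using Tm.const (default : α)
  | cons a l ih =>
    have : g.Tm (fun k : ℕ => if k = 0 then a else l.getD (k - 1) default) := by fun_prop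
    exact this.congr fun k => by cases k <;> simp

/-- The code of a list. -/
def lcd (g : Mdl.{u}) {α : Type*} [Cd g α] [Inhabited α] (l : List α) : ℕ × Fn g ℕ α :=
  (l.length, ⟨fun k => l.getD k default, tm_getD_const l⟩)

theorem list_ext [Inhabited α] {l l' : List α} (h₁ : l.length = l'.length)
    (h₂ : ∀ k < l.length, l.getD k default = l'.getD k default) : l = l' :=
  List.ext_getElem h₁ fun k h h' => by
    simpa [List.getD_eq_getElem?_getD, h, h'] using h₂ k h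

theorem lcd_inj [Inhabited α] : Function.Injective (g.lcd (α := α)) := fun _ _ h =>
  list_ext (congrArg Prod.fst h) fun k _ => congrArg (fun z : ℕ × Fn g ℕ α => z.2 k) h

noncomputable instance [Inhabited α] : Cd g (List α) where
  ι := fun l => ι (g.lcd l)
  inj := fun _ _ h => lcd_inj (inj h)
  rng := by
    have : g.Tm (fun x : g.U => ∃ z : ℕ × Fn g ℕ α, ι z = x ∧ ∀ k, z.1 ≤ k → z.2 k = default) := by
      fun_prop
    refine PD.congr this.df fun w => ⟨?_, ?_⟩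
    · rintro ⟨x, e, ⟨n, f⟩, rfl, h⟩
      refine ⟨(List.range n).map f, Eq.trans ?_ e⟩
      congr 1
      refine Prod.ext (by simp [lcd]) (Fn.ext' fun k => ?_)
      by_cases hk : k < n
      · simp [lcd, List.getD_eq_getElem?_getD, hk]
      · simpa [lcd, List.getD_eq_getElem?_getD, hk] using (h k (not_lt.1 hk)).symm
    · rintro ⟨l, e⟩
      exact ⟨_, e, g.lcd l, rfl, fun k hk => List.getD_eq_default _ _ hk⟩

instance [Inhabited α] [Bd g α] : Bd g (List α) where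
  bd := by
    obtain ⟨A, hA⟩ := Bd.bd (g := g) (α := ℕ × Fn g ℕ α)
    exact ⟨A, fun l => hA _⟩

theorem tm_lcd [Inhabited α] : g.Tm (g.lcd (α := α)) :=
  tm_of_rel (Q := fun l z => (ι z : g.U) = ι l) (by fun_prop) fun _ _ => inj.eq_iff

@[fun_prop] theorem tm_length [Inhabited α] {l : Γ → List α} (hl : g.Tm l) :
    g.Tm (fun x => (l x).length) := (tm_lcd.comp hl).fst

@[fun_prop] theorem tm_getD [Inhabited α] {l : Γ → List α} {n : Γ → ℕ} {d : Γ → α} (hl : g.Tm l)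
    (hn : g.Tm n) (hd : g.Tm d) : g.Tm (fun x => (l x).getD (n x) (d x)) := by
  have h₁ : g.Tm (fun x => (g.lcd (l x)).2 (n x)) := tm_ap (tm_lcd.comp hl).snd hn
  refine (tm_ite (d := fun _ => inferInstance) (tm_nat_lt hn (tm_length hl)) h₁ hd).congr
    fun x => ?_
  split_ifs with h
  · simp [lcd, List.getD_eq_getElem?_getD, h]
  · exact (List.getD_eq_default _ _ (not_lt.1 h)).symm

theorem tm_list [Inhabited α] {l : Γ → List α} (h₁ : g.Tm (fun x => (l x).length))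
    (h₂ : g.Tm (fun z : Γ × ℕ => (l z.1).getD z.2 default)) : g.Tm l :=
  tm_of_rel (Q := fun x l' => l'.length = (l x).length ∧
    ∀ k, l'.getD k default = (l x).getD k default)
    (tm_and (tm_eq (by fun_prop) (h₁.comp Tm.fst')) (tm_all (tm_eq (by fun_prop)
      (h₂.comp (f := fun z : (Γ × List α) × ℕ => (z.1.1, z.2)) (by fun_prop))))) fun _ _ =>
      ⟨fun h => list_ext h.1 fun k _ => h.2 k, fun h => h ▸ ⟨rfl, fun _ => rfl⟩⟩

/-- The list of the first `n` values of `f`. -/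
def ini {α : Type*} (f : ℕ → α) (n : ℕ) : List α := (List.range n).map f

@[simp] theorem length_ini {α : Type*} (f : ℕ → α) (n : ℕ) : (ini f n).length = n := by simp [ini]

theorem getD_ini {α : Type*} (f : ℕ → α) {n k : ℕ} (d : α) (h : k < n) :
    (ini f n).getD k d = f k := by simp [ini, List.getD_eq_getElem?_getD, h]

theorem ini_succ {α : Type*} (f : ℕ → α) (n : ℕ) : ini f (n + 1) = ini f n ++ [f n] := by
  simp [ini, List.range_succ]

theorem ini_eq_iff {α : Type*} {f h : ℕ → α} {n : ℕ} :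
    ini f n = ini h n ↔ ∀ k < n, f k = h k := by
  simp [ini, List.map_inj_left]

theorem ini_getD {α : Type*} (l : List α) (d : α) : ini (fun k => l.getD k d) l.length = l :=
  List.ext_getElem (by simp) fun k h h' => by simp [ini, List.getD_eq_getElem?_getD, h']

theorem mem_ini {α : Type*} {f : ℕ → α} {n : ℕ} {a : α} : a ∈ ini f n ↔ ∃ k < n, f k = a := by
  simp [ini]

@[fun_prop] theorem tm_ini [Inhabited α] {f : Γ → ℕ → α} {n : Γ → ℕ}
    (hf : g.Tm (fun z : Γ × ℕ => f z.1 z.2)) (hn : g.Tm n) : g.Tm (fun x => ini (f x) (n x)) := by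
  refine tm_list (by simpa using hn) ?_
  have : g.Tm (fun z : Γ × ℕ => if z.2 < n z.1 then f z.1 z.2 else default) := by fun_prop
  refine this.congr fun z => ?_
  split_ifs with h
  · exact (getD_ini _ _ h).symm
  · exact (List.getD_eq_default _ _ (by simpa using h)).symm

@[fun_prop] theorem tm_append [Inhabited α] {l l' : Γ → List α} (hl : g.Tm l) (hl' : g.Tm l') :
    g.Tm (fun x => l x ++ l' x) := by
  refine tm_list (by simp only [List.length_append]; fun_prop) ?_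
  have : g.Tm (fun z : Γ × ℕ => if z.2 < (l z.1).length then (l z.1).getD z.2 default else
    (l' z.1).getD (z.2 - (l z.1).length) default) := by fun_prop
  refine this.congr fun z => ?_
  split_ifs with h
  · exact (List.getD_append _ _ _ _ h).symm
  · exact (List.getD_append_right _ _ _ _ (not_lt.1 h)).symm

@[fun_prop] theorem tm_cons [Inhabited α] {a : Γ → α} {l : Γ → List α} (ha : g.Tm a)
    (hl : g.Tm l) : g.Tm (fun x => a x :: l x) := by
  refine tm_list (by simp only [List.length_cons]; fun_prop) ?_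
  have : g.Tm (fun z : Γ × ℕ => if z.2 = 0 then a z.1 else (l z.1).getD (z.2 - 1) default) := by
    fun_prop
  refine this.congr fun z => ?_
  obtain ⟨x, _ | k⟩ := z <;> simp

@[fun_prop] theorem tm_list_mem [Inhabited α] {a : Γ → α} {l : Γ → List α} (hl : g.Tm l)
    (ha : g.Tm a) : g.Tm (fun x => a x ∈ l x) := by
  have : g.Tm (fun x => ∃ k, k < (l x).length ∧ (l x).getD k default = a x) := by fun_prop
  refine this.congr_iff fun x => ?_
  rw [← mem_ini, ini_getD]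

@[fun_prop] theorem tm_foldl [Inhabited α] {F : Γ → β → α → β} {b : Γ → β} {l : Γ → List α}
    (hF : g.Tm (fun z : Γ × β × α => F z.1 z.2.1 z.2.2)) (hb : g.Tm b) (hl : g.Tm l) :
    g.Tm (fun x => (l x).foldl (F x) (b x)) := by
  have : g.Tm (fun x => ((fun z : ℕ × β => (z.1 + 1, F x z.2 ((l x).getD z.1 default)))^[
    (l x).length] (0, b x)).2) := by fun_prop
  refine this.congr fun x => ?_
  have : ∀ n, (fun z : ℕ × β => (z.1 + 1, F x z.2 ((l x).getD z.1 default)))^[n] (0, b x) =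
      (n, (ini (fun k => (l x).getD k default) n).foldl (F x) (b x)) := by
    intro n
    induction n with
    | zero => rfl
    | succ n ih => rw [Function.iterate_succ_apply', ih, ini_succ, List.foldl_append]; rfl
  rw [this, ini_getD]

/-! ### Well-orders and recursion -/

/-- Coded types with a definable well-order. -/
class WO (g : Mdl.{u}) (α : Type v) [Cd g α] where
  lt : α → α → Prop
  wf : WellFounded lt
  tri : ∀ a b, lt a b ∨ a = b ∨ lt b a
  tm : g.Tm (fun z : α × α => lt z.1 z.2)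

@[fun_prop] theorem tm_wlt [WO g α] {a b : Γ → α} (ha : g.Tm a) (hb : g.Tm b) :
    g.Tm (fun x => WO.lt g (a x) (b x)) := WO.tm.comp (ha.pair hb)

instance : WO g ℕ := ⟨(· < ·), wellFounded_lt, lt_trichotomy, by fun_prop⟩

theorem wlt_nat {a b : ℕ} : WO.lt g a b ↔ a < b := Iff.rfl

instance : WO g Prop where
  lt := fun p q => ¬ p ∧ q
  wf := ⟨fun p => ⟨_, fun q h => ⟨_, fun _ h' => absurd h'.2 h.1⟩⟩⟩
  tri := fun p q => by by_cases hp : p <;> by_cases hq : q <;> simp [hp, hq]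
  tm := by fun_prop

instance [WO g α] [WO g β] : WO g (α × β) where
  lt := fun a b => WO.lt g a.1 b.1 ∨ (a.1 = b.1 ∧ WO.lt g a.2 b.2)
  wf := Subrelation.wf (fun h => Prod.lex_def.2 h) (WellFounded.prod_lex WO.wf WO.wf)
  tri := fun a b => by
    rcases WO.tri (g := g) a.1 b.1 with h | h | h
    · exact Or.inl (Or.inl h)
    · rcases WO.tri (g := g) a.2 b.2 with h' | h' | h'
      exacts [Or.inl (Or.inr ⟨h, h'⟩), Or.inr (Or.inl (Prod.ext h h')),
        Or.inr (Or.inr (Or.inr ⟨h.symm, h'⟩))]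
    · exact Or.inr (Or.inr (Or.inl h))
  tm := by fun_prop

theorem lex_of_first {α : Type*} [Inhabited α] {r : α → α → Prop} : ∀ (k : ℕ) (l l' : List α),
    k < l.length → k < l'.length → (∀ j < k, l.getD j default = l'.getD j default) →
    r (l.getD k default) (l'.getD k default) → List.Lex r l l'
  | _, [], _, h, _, _, _ => by simp at h
  | _, _, [], _, h, _, _ => by simp at h
  | 0, a :: l, b :: l', _, _, _, h => List.Lex.rel h
  | k + 1, a :: l, b :: l', h₁, h₂, h₃, h₄ => by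
    obtain rfl : a = b := h₃ 0 (by omega)
    exact List.Lex.cons (lex_of_first k l l' (by simpa using h₁) (by simpa using h₂)
      (fun j hj => h₃ (j + 1) (by omega)) h₄)

instance [Inhabited α] [WO g α] : WO g (List α) where
  lt := fun l l' => l.length < l'.length ∨ (l.length = l'.length ∧ ∃ k, k < l.length ∧
    (∀ j, j < k → l.getD j default = l'.getD j default) ∧
      WO.lt g (l.getD k default) (l'.getD k default))
  wf := by
    refine Subrelation.wf ?_ (List.Shortlex.wf (h := WO.wf (g := g) (α := α)))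
    rintro l l' (h | ⟨h, k, h₁, h₂, h₃⟩)
    exacts [List.Shortlex.of_length_lt h,
      List.Shortlex.of_lex h (lex_of_first k l l' h₁ (h ▸ h₁) h₂ h₃)]
  tri := fun l l' => by
    classical
    rcases lt_trichotomy l.length l'.length with h | h | h
    · exact Or.inl (Or.inl h)
    · by_cases h' : ∃ k, k < l.length ∧ l.getD k default ≠ l'.getD k default
      · have h₁ := Nat.find_spec h'
        have h₂ : ∀ j, j < Nat.find h' → l.getD j default = l'.getD j default := fun j hj => by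
          have := Nat.find_min h' hj
          by_contra hne
          exact this ⟨hj.trans h₁.1, hne⟩
        rcases WO.tri (g := g) (l.getD (Nat.find h') default) (l'.getD (Nat.find h') default)
          with h₃ | h₃ | h₃
        · exact Or.inl (Or.inr ⟨h, _, h₁.1, h₂, h₃⟩)
        · exact absurd h₃ h₁.2
        · exact Or.inr (Or.inr (Or.inr ⟨h.symm, _, h ▸ h₁.1, fun j hj => (h₂ j hj).symm, h₃⟩))
      · push Not at h'
        exact Or.inr (Or.inl (list_ext h h'))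
    · exact Or.inr (Or.inr (Or.inl h))
  tm := by fun_prop

/-- The least element with a property. -/
noncomputable def least (g : Mdl.{u}) {α : Type*} [Cd g α] [WO g α] [Inhabited α] (P : α → Prop) :
    α := the fun a => P a ∧ ∀ b, P b → ¬ WO.lt g b a

theorem least_spec' [WO g α] [Inhabited α] {P : α → Prop} (h : ∃ a, P a) :
    P (g.least P) ∧ ∀ b, P b → ¬ WO.lt g b (g.least P) := by
  obtain ⟨a, ha, hm⟩ := (WO.wf (g := g)).has_min {a | P a} h
  rw [least, the_eq (a := a) fun b => ⟨fun hb => ?_, fun e => e ▸ ⟨ha, hm⟩⟩]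
  · exact ⟨ha, hm⟩
  · rcases WO.tri (g := g) b a with h | h | h
    exacts [absurd h (hm b hb.1), h, absurd h (hb.2 a ha)]

theorem least_spec [WO g α] [Inhabited α] {P : α → Prop} (h : ∃ a, P a) : P (g.least P) :=
  (least_spec' h).1

theorem least_min [WO g α] [Inhabited α] {P : α → Prop} {b : α} (h : P b) :
    ¬ WO.lt g b (g.least P) := (least_spec' ⟨b, h⟩).2 b h

theorem least_le {P : ℕ → Prop} {b : ℕ} (h : P b) : g.least P ≤ b := not_lt.1 (least_min h)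

@[fun_prop] theorem tm_least [WO g α] [Inhabited α] {Q : Γ → α → Prop}
    (h : g.Tm (fun z : Γ × α => Q z.1 z.2)) : g.Tm (fun x => g.least (Q x)) := by
  unfold least
  fun_prop

open Classical in
/-- Well-founded recursion on a bounded type. -/
noncomputable def wrec (g : Mdl.{u}) {α : Type*} {β : Type*} [Cd g α] [Cd g β] [Inhabited β]
    (r : α → α → Prop) (Ψ : α → Fn g α β → β) : α → β :=
  if wf : WellFounded r then
    wf.fix fun a G => Ψ a (g.lam fun b => if h : r b a then G b h else default)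
  else fun _ => default

open Classical in
theorem wrec_eq [Inhabited β] {r : α → α → Prop} (wf : WellFounded r) (Ψ : α → Fn g α β → β)
    (a : α) : g.wrec r Ψ a = Ψ a (g.lam fun b => if r b a then g.wrec r Ψ b else default) := by
  unfold wrec
  rw [dif_pos wf, wf.fix_eq]
  rfl

theorem tm_wrec [Bd g α] [Inhabited β] {r : Γ → α → α → Prop} (wf : ∀ x, WellFounded (r x))
    (hr : g.Tm (fun z : Γ × α × α => r z.1 z.2.1 z.2.2)) {Ψ : Γ → α → Fn g α β → β}
    (hΨ : g.Tm (fun z : Γ × α × Fn g α β => Ψ z.1 z.2.1 z.2.2)) :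
    g.Tm (fun z : Γ × α => g.wrec (r z.1) (Ψ z.1) z.2) := by
  classical
  refine tm_wf (r := fun b a : Γ × α => b.1 = a.1 ∧ r a.1 b.2 a.2) ?_ (by fun_prop)
    (Ψ := fun a s => Ψ a.1 a.2 (g.lam fun b => if r a.1 b a.2 then ev _ _ s (a.1, b) else default))
    (by fun_prop) ?_ ?_
  · refine ⟨fun ⟨x, a⟩ => ?_⟩
    induction a using (wf x).induction with
    | _ a ih =>
      refine ⟨_, ?_⟩
      rintro ⟨y, b⟩ ⟨h₁, h₂⟩
      obtain rfl : y = x := h₁
      exact ih b h₂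
  · rintro ⟨x, a⟩ s h
    rw [wrec_eq (wf x)]
    congr 2
    funext b
    split_ifs with hb
    · exact (h (x, b) ⟨rfl, hb⟩).symm
    · rfl
  · rintro ⟨x, a⟩
    obtain ⟨S, hS⟩ := tm_image (g := g) (Q := fun _ : α => True) (f := fun b => ι (x, b))
      (by fun_prop) (by fun_prop)
    refine ⟨S, (hS _).2 ⟨a, trivial, rfl⟩, fun b hb c hc => ?_⟩
    obtain ⟨b', -, e⟩ := (hS _).1 hb
    obtain rfl := inj e
    exact (hS _).2 ⟨c.2, trivial, by rw [← show c.1 = x from hc.1]⟩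

/-- The function of the model defined by recursion. -/
noncomputable def rfix (g : Mdl.{u}) {α : Type*} {β : Type*} [Cd g α] [Cd g β] [Inhabited β]
    (r : α → α → Prop) (Ψ : α → Fn g α β → β) : Fn g α β := g.lam (g.wrec r Ψ)

theorem tm_rfix [Bd g α] [Inhabited β] {r : Γ → α → α → Prop} (wf : ∀ x, WellFounded (r x))
    (hr : g.Tm (fun z : Γ × α × α => r z.1 z.2.1 z.2.2)) {Ψ : Γ → α → Fn g α β → β}
    (hΨ : g.Tm (fun z : Γ × α × Fn g α β => Ψ z.1 z.2.1 z.2.2)) :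
    g.Tm (fun x => g.rfix (r x) (Ψ x)) := tm_lam (tm_wrec wf hr hΨ)

open Classical in
theorem rfix_eq' [Bd g α] [Inhabited β] {r : α → α → Prop} (wf : WellFounded r)
    (hr : g.Tm (fun z : α × α => r z.1 z.2)) {Ψ : α → Fn g α β → β}
    (hΨ : g.Tm (fun z : α × Fn g α β => Ψ z.1 z.2)) (a : α) :
    g.rfix r Ψ a = Ψ a (g.lam fun b => if r b a then g.rfix r Ψ b else default) := by
  have : g.Tm (g.wrec r Ψ) := (tm_wrec (Γ := ℕ) (r := fun _ => r) (Ψ := fun _ => Ψ) (fun _ => wf)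
    (by fun_prop) (by fun_prop)).comp (f := fun a => (0, a)) (by fun_prop)
  rw [rfix, lam_ap this, wrec_eq wf]

theorem rfix_eq [Bd g α] [Inhabited β] {r : α → α → Prop} (wf : WellFounded r)
    (hr : g.Tm (fun z : α × α => r z.1 z.2)) {Ψ : α → Fn g α β → β}
    (hΨ : g.Tm (fun z : α × Fn g α β => Ψ z.1 z.2))
    (loc : ∀ a (f h : Fn g α β), (∀ b, r b a → f b = h b) → Ψ a f = Ψ a h) (a : α) :
    g.rfix r Ψ a = Ψ a (g.rfix r Ψ) := by
  classical
  rw [rfix_eq' wf hr hΨ]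
  refine loc _ _ _ fun b hb => ?_
  rw [lam_ap (by fun_prop), if_pos hb]

/-- Course of values recursion. -/
noncomputable def fix (g : Mdl.{u}) {β : Type*} [Cd g β] [Inhabited β]
    (Ψ : ℕ → Fn g ℕ β → β) : Fn g ℕ β := g.rfix (· < ·) Ψ

@[fun_prop] theorem tm_fix [Inhabited β] {Ψ : Γ → ℕ → Fn g ℕ β → β}
    (hΨ : g.Tm (fun z : Γ × ℕ × Fn g ℕ β => Ψ z.1 z.2.1 z.2.2)) :
    g.Tm (fun x => g.fix (Ψ x)) :=
  tm_rfix (r := fun _ => (· < ·)) (fun _ => wellFounded_lt) (by fun_prop) hΨ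

theorem fix_eq [Inhabited β] {Ψ : ℕ → Fn g ℕ β → β}
    (hΨ : g.Tm (fun z : ℕ × Fn g ℕ β => Ψ z.1 z.2))
    (loc : ∀ n (f h : Fn g ℕ β), (∀ k < n, f k = h k) → Ψ n f = Ψ n h) (n : ℕ) :
    g.fix Ψ n = Ψ n (g.fix Ψ) := rfix_eq wellFounded_lt (by fun_prop) hΨ loc n

/-! ### Types coded by numbers and by reals -/

/-- The reals of the model. -/
abbrev Re (g : Mdl.{u}) := Fn g ℕ ℕ

/-- Types definably coded by natural numbers. -/
class NL (g : Mdl.{u}) (α : Type v) [Cd g α] where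
  enc : α → ℕ
  dec : ℕ → α
  dec_enc : ∀ a, dec (enc a) = a
  tm_enc : g.Tm enc
  tm_dec : g.Tm dec

/-- Types definably coded by reals. -/
class RL (g : Mdl.{u}) (α : Type v) [Cd g α] where
  enc : α → g.Re
  dec : g.Re → α
  dec_enc : ∀ a, dec (enc a) = a
  tm_enc : g.Tm enc
  tm_dec : g.Tm dec

attribute [simp] NL.dec_enc RL.dec_enc

@[fun_prop] theorem tm_nenc [NL g α] {f : Γ → α} (hf : g.Tm f) :
    g.Tm (fun x => NL.enc g (f x)) := NL.tm_enc.comp hf

@[fun_prop] theorem tm_ndec [NL g α] {f : Γ → ℕ} (hf : g.Tm f) :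
    g.Tm (fun x => (NL.dec g (f x) : α)) := NL.tm_dec.comp hf

@[fun_prop] theorem tm_renc [RL g α] {f : Γ → α} (hf : g.Tm f) :
    g.Tm (fun x => (RL.enc (f x) : g.Re)) := RL.tm_enc.comp hf

@[fun_prop] theorem tm_rdec [RL g α] {f : Γ → g.Re} (hf : g.Tm f) :
    g.Tm (fun x => (RL.dec (f x) : α)) := RL.tm_dec.comp hf

instance : NL g ℕ := ⟨id, id, fun _ => rfl, Tm.id, Tm.id⟩

open Classical in
noncomputable instance : NL g Prop :=
  ⟨fun p => if p then 1 else 0, fun n => n = 1, fun p => by by_cases h : p <;> simp [h],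
    by fun_prop, by fun_prop⟩

instance [NL g α] [NL g β] : NL g (α × β) :=
  ⟨fun z => Nat.pair (NL.enc g z.1) (NL.enc g z.2),
    fun n => (NL.dec g n.unpair.1, NL.dec g n.unpair.2), fun _ => by simp, by fun_prop, by fun_prop⟩

/-- The number coding a list. -/
def lcode (g : Mdl.{u}) {α : Type*} [Cd g α] [NL g α] (l : List α) : ℕ :=
  l.foldl (fun c a => Nat.pair c (NL.enc g a) + 1) 0

@[simp] theorem lcode_nil [NL g α] : g.lcode ([] : List α) = 0 := rfl

theorem lcode_concat [NL g α] (l : List α) (a : α) :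
    g.lcode (l ++ [a]) = Nat.pair (g.lcode l) (NL.enc g a) + 1 := by
  simp [lcode, List.foldl_append]

theorem lcode_inj [NL g α] : Function.Injective (g.lcode (α := α)) := by
  intro l
  induction l using List.reverseRecOn with
  | nil =>
    intro l' h
    induction l' using List.reverseRecOn with
    | nil => rfl
    | append_singleton l' b _ => simp [lcode_concat] at h
  | append_singleton l a ih =>
    intro l' h
    induction l' using List.reverseRecOn with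
    | nil => simp [lcode_concat] at h
    | append_singleton l' b _ =>
      simp only [lcode_concat, Nat.add_right_cancel_iff, Nat.pair_eq_pair] at h
      rw [ih h.1, ← NL.dec_enc (g := g) a, h.2, NL.dec_enc]

theorem lcode_ini_lt [NL g α] (f : ℕ → α) {m n : ℕ} (h : m < n) :
    g.lcode (ini f m) < g.lcode (ini f n) :=
  strictMono_nat_of_lt_succ (f := fun n => g.lcode (ini f n)) (fun n => by
    rw [ini_succ, lcode_concat]
    exact Nat.lt_succ_of_le (Nat.left_le_pair _ _)) h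

theorem le_lcode_ini [NL g α] (f : ℕ → α) (n : ℕ) : n ≤ g.lcode (ini f n) :=
  StrictMono.id_le (f := fun n => g.lcode (ini f n)) (fun _ _ h => lcode_ini_lt f h) n

@[fun_prop] theorem tm_lcode [Inhabited α] [NL g α] {l : Γ → List α} (hl : g.Tm l) :
    g.Tm (fun x => g.lcode (l x)) := by
  unfold lcode
  fun_prop

noncomputable instance [Inhabited α] [NL g α] : NL g (List α) :=
  ⟨g.lcode, fun n => the fun l => g.lcode l = n,
    fun l => the_eq fun _ => lcode_inj.eq_iff, by fun_prop, by fun_prop⟩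

theorem nenc_list [Inhabited α] [NL g α] (l : List α) : NL.enc g l = g.lcode l := rfl

instance (priority := low) [NL g α] : RL g α :=
  ⟨fun a => ⟨fun _ => NL.enc g a, by fun_prop⟩, fun x => NL.dec g (x 0), fun _ => by simp,
    by fun_prop, by fun_prop⟩

instance [RL g α] [RL g β] : RL g (α × β) where
  enc := fun z => ⟨fun n => if n % 2 = 0 then (RL.enc z.1 : g.Re) (n / 2) else
    (RL.enc z.2 : g.Re) (n / 2), by fun_prop⟩
  dec := fun x => (RL.dec (⟨fun n => x (2 * n), by fun_prop⟩ : g.Re),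
    RL.dec (⟨fun n => x (2 * n + 1), by fun_prop⟩ : g.Re))
  dec_enc := fun z => by
    have : ∀ n : ℕ, (2 * n + 1) / 2 = n := fun n => by omega
    simp [this]
  tm_enc := by fun_prop
  tm_dec := by fun_prop

instance [Bd g α] [NL g α] [RL g β] : RL g (Fn g α β) where
  enc := fun f => ⟨fun n => (RL.enc (f (NL.dec g n.unpair.1)) : g.Re) n.unpair.2, by fun_prop⟩
  dec := fun x => ⟨fun a => RL.dec (⟨fun k => x (Nat.pair (NL.enc g a) k), by fun_prop⟩ : g.Re),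
    by fun_prop⟩
  dec_enc := fun f => Fn.ext' fun a => by simp
  tm_enc := by fun_prop
  tm_dec := by fun_prop

noncomputable instance (priority := low) [Inhabited α] [RL g α] : RL g (List α) where
  enc := fun l => RL.enc (g.lcd l)
  dec := fun x => ini (RL.dec x : ℕ × Fn g ℕ α).2 (RL.dec x : ℕ × Fn g ℕ α).1
  dec_enc := fun l => by
    rw [RL.dec_enc]
    exact ini_getD l default
  tm_enc := RL.tm_enc.comp tm_lcd
  tm_dec := by fun_prop

end

end Mdl

end Pool.Agent.MP_09d684_lc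

end

section

namespace Pool.Agent.MP_09d684_lc

open ZFSet

universe u v w

namespace Mdl

variable {g : Mdl.{u}}

open Cd

section

variable {Γ : Type*} {α : Type*} {β : Type*} [Cd g Γ] [Cd g α] [Cd g β]

theorem WO.irrefl [WO g α] (a : α) : ¬ WO.lt g a a := (WO.wf (g := g)).irrefl.irrefl a

theorem WO.asymm [WO g α] {a b : α} (h : WO.lt g a b) : ¬ WO.lt g b a :=
  (WO.wf (g := g)).asymm.asymm a b h

theorem WO.trans [WO g α] {a b c : α} (h : WO.lt g a b) (h' : WO.lt g b c) : WO.lt g a c := by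
  rcases WO.tri (g := g) a c with e | rfl | e
  · exact e
  · exact absurd h' (WO.asymm h)
  · exact absurd h' ((WO.wf (g := g)).asymmetric₃ c a b e h)

/-- Coded types with a definable well-founded linear order. -/
class OT (g : Mdl.{u}) (T : Type v) [Cd g T] [LinearOrder T] : Prop where
  wf : WellFounded ((· < ·) : T → T → Prop)
  tm : g.Tm (fun z : T × T => z.1 < z.2)

instance {T : Type*} [Cd g T] [LinearOrder T] [OT g T] : WO g T :=
  ⟨(· < ·), OT.wf g, lt_trichotomy, OT.tm⟩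

theorem wlt_ot {T : Type*} [Cd g T] [LinearOrder T] [OT g T] {a b : T} : WO.lt g a b ↔ a < b :=
  Iff.rfl

@[fun_prop] theorem tm_olt {T : Type*} [Cd g T] [LinearOrder T] [OT g T] {a b : Γ → T}
    (ha : g.Tm a) (hb : g.Tm b) : g.Tm (fun x => a x < b x) := OT.tm.comp (ha.pair hb)

@[fun_prop] theorem tm_ole {T : Type*} [Cd g T] [LinearOrder T] [OT g T] {a b : Γ → T}
    (ha : g.Tm a) (hb : g.Tm b) : g.Tm (fun x => a x ≤ b x) :=
  (tm_not (tm_olt hb ha)).congr_iff fun _ => not_lt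

theorem least_ole {T : Type*} [Cd g T] [LinearOrder T] [OT g T] [Inhabited T] {P : T → Prop}
    {b : T} (h : P b) : g.least P ≤ b := not_lt.1 (least_min (g := g) h)

open Classical in
noncomputable instance (k : g.U) [h : Fact (IsOrdinal k.1)] : LinearOrder (Elt k) :=
  @linearOrderOfSTO _ (fun a b => E a.1 b.1)
    { trichotomous := fun a b h₁ h₂ => by
        rcases (h.out.mem a.2).mem_trichotomous (h.out.mem b.2) with e | e | e
        exacts [absurd e h₁, Elt.ext (U.ext e), absurd e h₂]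
      irrefl := fun a => mem_irrefl _
      trans := fun _ _ c h₁ h₂ => (h.out.mem c.2).mem_trans h₁ h₂ } _

theorem elt_lt {k : g.U} [Fact (IsOrdinal k.1)] {a b : Elt k} : a < b ↔ E a.1 b.1 := Iff.rfl

instance (k : g.U) [Fact (IsOrdinal k.1)] : OT g (Elt k) :=
  ⟨InvImage.wf Elt.val E_wf, by simp only [elt_lt]; fun_prop⟩

/-- Every sequence of the model in `T` is bounded. -/
def Unc (g : Mdl.{u}) (T : Type v) [Cd g T] [LinearOrder T] : Prop :=
  ∀ f : Fn g ℕ T, ∃ b, ∀ n, f n < b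

/-! ### Determinacy, dependent choice and infinity-Borel sets, for coded types -/

/-- The value at `n` depends only on the first `n` moves. -/
def Causal (σ : ℕ → Fn g ℕ α → α) : Prop :=
  ∀ n (f h : Fn g ℕ α), (∀ k < n, f k = h k) → σ n f = σ n h

/-- Determinacy of the definable games on `α`. -/
def TDet (g : Mdl.{u}) (α : Type v) [Cd g α] : Prop :=
  ∀ P : Fn g ℕ α → Prop, g.Tm P → ∃ σ : ℕ → Fn g ℕ α → α,
    g.Tm (fun z : ℕ × Fn g ℕ α => σ z.1 z.2) ∧ Causal σ ∧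
    ((∀ x : Fn g ℕ α, (∀ n, n % 2 = 0 → x n = σ n x) → P x) ∨
      (∀ x : Fn g ℕ α, (∀ n, n % 2 = 1 → x n = σ n x) → ¬ P x))

/-- Dependent choice for reals. -/
def TDC (g : Mdl.{u}) : Prop :=
  ∀ Q : g.Re → g.Re → Prop, g.Tm (fun z : g.Re × g.Re => Q z.1 z.2) → (∀ x, ∃ y, Q x y) →
    ∃ f : Fn g ℕ g.Re, ∀ n, Q (f n) (f (n + 1))

/-- `F` is an infinity-Borel system of sets of reals. -/
def IsSys {I : Type v} [Cd g I] [WO g I] (F : I → g.Re → Prop) : Prop :=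
  ∀ i, (∃ n m, ∀ x : g.Re, F i x ↔ x n = m) ∨ (∃ j, WO.lt g j i ∧ ∀ x, F i x ↔ ¬ F j x) ∨
    (∀ x, F i x → ∃ j, WO.lt g j i ∧ F j x ∧ ∀ x', F j x' → F i x')

/-- Every definable set of reals is infinity-Borel. -/
def TIB (g : Mdl.{u}) : Prop :=
  ∀ A : g.Re → Prop, g.Tm A → ∃ (k : g.U) (_ : Fact (IsOrdinal k.1)) (F : Elt k → g.Re → Prop)
    (i₀ : Elt k), g.Tm (fun z : Elt k × g.Re => F z.1 z.2) ∧ IsSys F ∧ ∀ x, F i₀ x ↔ A x

theorem TDC.dc (h : g.TDC) [RL g α] {S : α → Prop} (hS : g.Tm S) {Q : α → α → Prop}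
    (hQ : g.Tm (fun z : α × α => Q z.1 z.2)) (tot : ∀ a, S a → ∃ b, S b ∧ Q a b) {a₀ : α}
    (h₀ : S a₀) : ∃ f : Fn g ℕ α, f 0 = a₀ ∧ ∀ n, S (f n) ∧ Q (f n) (f (n + 1)) := by
  let P : ℕ × Fn g ℕ α → Prop := fun z => z.2 0 = a₀ ∧ (∀ k, k ≤ z.1 → S (z.2 k)) ∧
    ∀ k, k < z.1 → Q (z.2 k) (z.2 (k + 1))
  let e : g.Re → ℕ × Fn g ℕ α := RL.dec
  obtain ⟨f, hf⟩ := h (fun x y => P (e y) ∧ (P (e x) → (e y).1 = (e x).1 + 1 ∧
    ∀ k, k ≤ (e x).1 → (e y).2 k = (e x).2 k)) (by fun_prop) fun x => by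
      by_cases hx : P (e x)
      · obtain ⟨b, h₁, h₂⟩ := tot _ (hx.2.1 _ le_rfl)
        refine ⟨RL.enc ((e x).1 + 1, (⟨fun k => if k ≤ (e x).1 then (e x).2 k else b,
          by fun_prop⟩ : Fn g ℕ α)), ?_⟩
        simp only [e, RL.dec_enc, P] at hx h₂ ⊢
        refine ⟨⟨by simp [hx.1], fun k hk => ?_, fun k hk => ?_⟩, fun _ => ⟨trivial,
          fun k hk => by simp [hk]⟩⟩
        · split_ifs with h
          exacts [hx.2.1 k h, h₁]
        · rw [if_pos (by omega)]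
          split_ifs with h
          · exact hx.2.2 k (by omega)
          · rwa [show k = (RL.dec x : ℕ × Fn g ℕ α).1 by omega]
      · refine ⟨RL.enc (0, (⟨fun _ => a₀, by fun_prop⟩ : Fn g ℕ α)), ?_, fun h => absurd h hx⟩
        simp [e, P, h₀]
  have h₁ : ∀ n, P (e (f (n + 1))) := fun n => (hf n).1
  have h₂ : ∀ n, n ≤ (e (f (n + 1))).1 := fun n => by
    induction n with
    | zero => omega
    | succ n ih => have := ((hf (n + 1)).2 (h₁ n)).1; omega
  have h₃ : ∀ n m, n ≤ m → ∀ k, k ≤ n → (e (f (m + 1))).2 k = (e (f (n + 1))).2 k := by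
    intro n m hm k hk
    induction m, hm using Nat.le_induction with
    | base => rfl
    | succ m hm ih => rw [((hf (m + 1)).2 (h₁ m)).2 k (by have := h₂ m; omega), ih]
  refine ⟨⟨fun n => (e (f (n + 1))).2 n, by fun_prop⟩, (h₁ 0).1, fun n =>
    ⟨(h₁ n).2.1 n (h₂ n), ?_⟩⟩
  have := (h₁ (n + 1)).2.2 n (by have := h₂ (n + 1); omega)
  rwa [h₃ n (n + 1) (by omega) n le_rfl] at this

/-- Countable choice. -/
theorem TDC.cc (h : g.TDC) [RL g α] [NL g β] {Q : β → α → Prop}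
    (hQ : g.Tm (fun z : β × α => Q z.1 z.2)) (tot : ∀ b, ∃ a, Q b a) :
    ∃ f : Fn g β α, ∀ b, Q b (f b) := by
  obtain ⟨a₀, h₀⟩ := tot (NL.dec g 0)
  obtain ⟨f, h₁, h₂⟩ := h.dc (α := ℕ × α) (S := fun z => Q (NL.dec g z.1) z.2) (by fun_prop)
    (Q := fun z z' => z'.1 = z.1 + 1) (by fun_prop) (fun z _ => by
      obtain ⟨a, ha⟩ := tot (NL.dec g (z.1 + 1))
      exact ⟨(z.1 + 1, a), ha, rfl⟩) (a₀ := (0, a₀)) h₀
  have h₃ : ∀ n, (f n).1 = n := fun n => by
    induction n with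
    | zero => rw [h₁]
    | succ n ih => rw [(h₂ n).2, ih]
  refine ⟨⟨fun b => (f (NL.enc g b)).2, by fun_prop⟩, fun b => ?_⟩
  have := (h₂ (NL.enc g b)).1
  rwa [h₃, NL.dec_enc] at this

end

/-! ### The Ramsey space -/

/-- Points `(column, height)`. -/
abbrev Pt := ℕ × ℕ

/-- Stems. -/
abbrev St := List Pt

/-- Elements of the space: sequences of points. -/
abbrev Yy (g : Mdl.{u}) := Fn g ℕ Pt

/-- Subsets of `ω × ω`; also used as reservoirs (row `0`: new columns, row `c + 1`: column `c`). -/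
abbrev Rs (g : Mdl.{u}) := Fn g Pt Prop

/-- Conditions: a stem and a reservoir. -/
abbrev Cn (g : Mdl.{u}) := St × g.Rs

/-- Sets of reals. -/
abbrev PR (g : Mdl.{u}) := Fn g g.Re Prop

def Inf (P : ℕ → Prop) : Prop := ∀ n, ∃ m, n ≤ m ∧ P m

/-- Row `i` of the reservoir; a finite row is read as the whole of `ω`. -/
def Mem (R : g.Rs) (i m : ℕ) : Prop := R (i, m) ∨ ¬ Inf fun k => R (i, k)

def RLe (R' R : g.Rs) : Prop := ∀ i m, Mem R' i m → Mem R i m

/-- The label of the column that receives the `n`-th point. -/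
def lab (n : ℕ) : ℕ := n.unpair.1

def New (n : ℕ) : Prop := ∀ k, k < n → lab k ≠ lab n

/-- `p` is a legal `n`-th point after the first `n` points of `y`. -/
def Ok (y : g.Yy) (n : ℕ) (p : Pt) : Prop :=
  p.1 ≤ p.2 ∧ (∀ k, k < n → (y k).2 < p.2) ∧ (∀ k, k < n → lab k = lab n → (y k).1 = p.1) ∧
    (New n → ∀ k, k < n → (y k).2 < p.1)

/-- `p` is taken from the reservoir at step `n`. -/
def In (R : g.Rs) (n : ℕ) (p : Pt) : Prop := Mem R (p.1 + 1) p.2 ∧ (New n → Mem R 0 p.1)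

def Val (y : g.Yy) : Prop := ∀ n, Ok y n (y n)

def Cube (u : St) (R : g.Rs) (y : g.Yy) : Prop :=
  ini y u.length = u ∧ Val y ∧ ∀ n, u.length ≤ n → In R n (y n)

def NE (c : g.Cn) : Prop := ∃ y, Cube c.1 c.2 y

def CLe (c' c : g.Cn) : Prop :=
  NE c' ∧ c.1.length ≤ c'.1.length ∧ ∀ y, Cube c'.1 c'.2 y → Cube c.1 c.2 y

def Dns (D : g.Cn → Prop) : Prop := ∀ c, NE c → ∃ c', CLe c' c ∧ D c'

def Opn (D : g.Cn → Prop) : Prop := ∀ c c', D c → CLe c' c → D c'

def Sub (y' y : g.Yy) : Prop := ∀ n, ∃ m, y' n = y m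

def Below (u : St) (y' y : g.Yy) : Prop := ini y' u.length = u ∧ Val y' ∧ Sub y' y

/-- The last point of the stem has its height in the reservoir. -/
def Tip (u : St) (H : g.Rs) : Prop :=
  0 < u.length ∧ ∃ i, Mem H i (u.getD (u.length - 1) default).2

/-- Every element of the cube lies in a cube from `D`. -/
def Good (D : g.Cn → Prop) (u : St) (R : g.Rs) : Prop :=
  ∀ y, Cube u R y → ∃ c, D c ∧ Cube c.1 c.2 y

/-- The ideal `Fin ⊗ Fin`. -/
def F2 (S : Pt → Prop) : Prop := ∃ N, ∀ n, N ≤ n → ¬ Inf fun j => S (n, j)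

def Pos (S : g.Rs) : Prop := ¬ F2 S

def SLe (S S' : g.Rs) : Prop := F2 fun p => S p ∧ ¬ S' p

section

variable {Γ : Type*} [Cd g Γ] {R R' : Γ → g.Rs} {y y' : Γ → g.Yy} {i n : Γ → ℕ} {p : Γ → Pt}
  {s : Γ → St} {c c' : Γ → g.Cn}

@[fun_prop] theorem tm_Inf {P : Γ → ℕ → Prop} (h : g.Tm fun z : Γ × ℕ => P z.1 z.2) :
    g.Tm fun x => Inf (P x) := by unfold Inf; fun_prop

@[fun_prop] theorem tm_Mem (h₁ : g.Tm R) (h₂ : g.Tm i) (h₃ : g.Tm n) :
    g.Tm fun x => Mem (R x) (i x) (n x) := by unfold Mem; fun_prop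

@[fun_prop] theorem tm_RLe (h₁ : g.Tm R) (h₂ : g.Tm R') : g.Tm fun x => RLe (R x) (R' x) := by
  unfold RLe; fun_prop

@[fun_prop] theorem tm_lab (h : g.Tm n) : g.Tm fun x => lab (n x) := by unfold lab; fun_prop

@[fun_prop] theorem tm_New (h : g.Tm n) : g.Tm fun x => New (n x) := by unfold New; fun_prop

@[fun_prop] theorem tm_Ok (h₁ : g.Tm y) (h₂ : g.Tm n) (h₃ : g.Tm p) :
    g.Tm fun x => Ok (y x) (n x) (p x) := by unfold Ok; fun_prop

@[fun_prop] theorem tm_In (h₁ : g.Tm R) (h₂ : g.Tm n) (h₃ : g.Tm p) :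
    g.Tm fun x => In (R x) (n x) (p x) := by unfold In; fun_prop

@[fun_prop] theorem tm_Val (h : g.Tm y) : g.Tm fun x => Val (y x) := by unfold Val; fun_prop

@[fun_prop] theorem tm_Cube (h₁ : g.Tm s) (h₂ : g.Tm R) (h₃ : g.Tm y) :
    g.Tm fun x => Cube (s x) (R x) (y x) := by unfold Cube; fun_prop

@[fun_prop] theorem tm_NE (h : g.Tm c) : g.Tm fun x => NE (c x) := by unfold NE; fun_prop

@[fun_prop] theorem tm_CLe (h₁ : g.Tm c') (h₂ : g.Tm c) : g.Tm fun x => CLe (c' x) (c x) := by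
  unfold CLe; fun_prop

@[fun_prop] theorem tm_Sub (h₁ : g.Tm y') (h₂ : g.Tm y) : g.Tm fun x => Sub (y' x) (y x) := by
  unfold Sub; fun_prop

@[fun_prop] theorem tm_Below (h₀ : g.Tm s) (h₁ : g.Tm y') (h₂ : g.Tm y) :
    g.Tm fun x => Below (s x) (y' x) (y x) := by unfold Below; fun_prop

@[fun_prop] theorem tm_Tip (h₁ : g.Tm s) (h₂ : g.Tm R) : g.Tm fun x => Tip (s x) (R x) := by
  unfold Tip; fun_prop

@[fun_prop] theorem tm_Good {D : Γ → g.Cn → Prop} (h₀ : g.Tm fun z : Γ × g.Cn => D z.1 z.2)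
    (h₁ : g.Tm s) (h₂ : g.Tm R) : g.Tm fun x => Good (D x) (s x) (R x) := by
  unfold Good; fun_prop

@[fun_prop] theorem tm_F2 {S : Γ → Pt → Prop} (h : g.Tm fun z : Γ × Pt => S z.1 z.2) :
    g.Tm fun x => F2 (S x) := by unfold F2; fun_prop

@[fun_prop] theorem tm_Pos (h : g.Tm R) : g.Tm fun x => Pos (R x) := by unfold Pos; fun_prop

@[fun_prop] theorem tm_SLe (h₁ : g.Tm R) (h₂ : g.Tm R') : g.Tm fun x => SLe (R x) (R' x) := by
  unfold SLe; fun_prop

end

/-- The set of points of `y`. -/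
def rng (y : g.Yy) : g.Rs := ⟨fun p => ∃ n, y n = p, by fun_prop⟩

/-- The reservoir given by `y`. -/
def res (y : g.Yy) : g.Rs :=
  ⟨fun p => (p.1 = 0 ∧ ∃ n, (y n).1 = p.2) ∨ (0 < p.1 ∧ ∃ n, y n = (p.1 - 1, p.2)), by fun_prop⟩

/-- A common refinement of two reservoirs, always below the first. -/
def meet (R R' : g.Rs) : g.Rs :=
  ⟨fun p => Mem R p.1 p.2 ∧
    ((Inf fun k => Mem R p.1 k ∧ Mem R' p.1 k ∧
        (p.1 = 0 → Inf fun m => Mem R (k + 1) m ∧ Mem R' (k + 1) m)) →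
      Mem R' p.1 p.2 ∧ (p.1 = 0 → Inf fun m => Mem R (p.2 + 1) m ∧ Mem R' (p.2 + 1) m)),
    by fun_prop⟩

section

variable {Γ : Type*} [Cd g Γ] {R R' : Γ → g.Rs} {y : Γ → g.Yy}

@[fun_prop] theorem tm_rng (h : g.Tm y) : g.Tm fun x => rng (y x) := by unfold rng; fun_prop

@[fun_prop] theorem tm_res (h : g.Tm y) : g.Tm fun x => res (y x) := by unfold res; fun_prop

@[fun_prop] theorem tm_meet (h₁ : g.Tm R) (h₂ : g.Tm R') : g.Tm fun x => meet (R x) (R' x) := by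
  unfold meet; fun_prop

end

/-- Local uniformization (it contains the local Ramsey property). -/
def LU (g : Mdl.{u}) : Prop :=
  ∀ ρ : g.Yy → g.Re → Prop, g.Tm (fun z : g.Yy × g.Re => ρ z.1 z.2) → ∀ c : g.Cn, NE c →
    ∃ c', CLe c' c ∧ ((∀ y, Cube c'.1 c'.2 y → ∀ r, ¬ ρ y r) ∨
      ∃ F : g.Yy → g.Re, g.Tm F ∧ ∀ y, Cube c'.1 c'.2 y → ρ y (F y))

/-- `X` is covered by a definable image of a well-ordered type times the sets of reals. -/
def Small (X : g.U) : Prop :=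
  ∃ (W : Type (u + 1)) (_ : Cd g W) (_ : WO g W) (_ : Inhabited W) (Ψ : W → g.PR → g.U),
    g.Tm (fun z : W × g.PR => Ψ z.1 z.2) ∧ ∀ x, E x X → ∃ w A, Ψ w A = x

/-- A subset of `T` of full order type. -/
def Big {T : Type v} [Cd g T] [LinearOrder T] (x : Fn g T Prop) : Prop :=
  ∃ f : Fn g T T, (∀ a b, a < b → f a < f b) ∧ ∀ b, x b ↔ ∃ a, f a = b

@[fun_prop] theorem tm_Big {Γ T : Type*} [Cd g Γ] [Cd g T] [Bd g T] [LinearOrder T] [OT g T]
    {x : Γ → Fn g T Prop} (h : g.Tm x) : g.Tm fun a => Big (x a) := by unfold Big; fun_prop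

/-- The strong partition property of `T`, and `T` is longer than `ω`. -/
structure TSP (g : Mdl.{u}) (T : Type v) [Cd g T] [Bd g T] [LinearOrder T] : Prop where
  long : ∃ (e : Fn g ℕ T) (w : T), (∀ n, e n < e (n + 1)) ∧ (∀ n, e n < w) ∧
    ∀ a n, a < e n → ∃ m, e m = a
  part : ∀ c : Fn g T Prop → T, g.Tm c → ∀ m : T, (∀ x, Big x → c x < m) →
    ∃ K : Fn g T Prop, Big K ∧ ∃ i, ∀ x, Big x → (∀ a, x a → K a) → c x = i

end Mdl

end Pool.Agent.MP_09d684_lc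

end
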